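import Pool.Agent.Q105.FJ.Wreath

/-!
# The automorphisms with mapping torus in the class form a closed set
-/

set_option autoImplicit false
set_option linter.unusedSectionVars false
set_option linter.style.haveILetI false

namespace Pool.Agent.Q105.FJ

open Pool.Agent.Y462.SS Pool.Agent.Q152.WP Pool.Agent.H26R2.Idem

variable {C : ∀ (G : Type) [Group G], Prop}

/-- the mapping torus of an automorphism: the semidirect product of the group and the infinite
cyclic group -/
abbrev MT (N : Type) [Group N] (β : MulAut N) : Type := N ⋊[zpowersHom (MulAut N) β] Multiplicative ℤ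

/-- `K` is a subgroup normalised by `τ`; on every finite subset of `K` the conjugation by `τ` is
realised in a group of the class that contains `K` -/
def Real (C : ∀ (G : Type) [Group G], Prop) {G : Type} [Group G] (K : Subgroup G) (τ : G) : Prop :=
  ∃ hn : ∀ x ∈ K, τ * x * τ⁻¹ ∈ K, ∀ E : Finset G,
    ∃ (M : Type) (_ : Group M) (φ : K →* M) (m : M), C M ∧ Function.Injective φ ∧
      ∀ x (hx : x ∈ K), x ∈ E → m * φ ⟨x, hx⟩ = φ ⟨τ * x * τ⁻¹, hn x hx⟩ * m

/-- the pair given by a finite set -/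
def prE {G : Type} [Group G] (K : Subgroup G) (τ : G) (hn : ∀ x ∈ K, τ * x * τ⁻¹ ∈ K)
    (E : {E : Finset G // ∀ x ∈ E, x ∈ K}) : Pair τ where
  A := Subgroup.closure (E.1 : Set G)
  F := K
  hA := by
    have h : Subgroup.closure (E.1 : Set G) ≤ K := (Subgroup.closure_le K).2 (fun x hx => E.2 x hx)
    exact fun x hx => h hx
  hB := by
    have h : Subgroup.closure (E.1 : Set G) ≤ K := (Subgroup.closure_le K).2 (fun x hx => E.2 x hx)
    exact fun x hx => hn x (h hx)

theorem prE_dir {G : Type} [Group G] (K : Subgroup G) (τ : G) (hn : ∀ x ∈ K, τ * x * τ⁻¹ ∈ K) :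
    Dir K (Set.range (prE K τ hn)) := by
  classical
  refine ⟨⟨_, ⟨⟨∅, by simp⟩, rfl⟩⟩, ?_, ?_, ?_⟩
  · rintro _ ⟨E, rfl⟩ x hx
    exact hx
  · rintro _ ⟨E, rfl⟩ _ ⟨E', rfl⟩
    refine ⟨_, ⟨⟨E.1 ∪ E'.1, ?_⟩, rfl⟩, ?_, ?_⟩
    · intro x hx
      rcases Finset.mem_union.1 hx with h | h
      · exact E.2 x h
      · exact E'.2 x h
    · refine ⟨fun x hx => ?_, fun x hx => hx⟩
      exact Subgroup.closure_mono (by
        intro y hy
        exact Finset.mem_coe.2 (Finset.mem_union_left _ hy)) hx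
    · refine ⟨fun x hx => ?_, fun x hx => hx⟩
      exact Subgroup.closure_mono (by
        intro y hy
        exact Finset.mem_coe.2 (Finset.mem_union_right _ hy)) hx
  · intro x hx
    exact ⟨_, ⟨⟨{x}, by simpa using hx⟩, rfl⟩, Subgroup.subset_closure (by simp)⟩

theorem prE_ext {G : Type} [Group G] (K : Subgroup G) (τ : G) (hn : ∀ x ∈ K, τ * x * τ⁻¹ ∈ K)
    (h : ∀ E : Finset G, ∃ (M : Type) (_ : Group M) (φ : K →* M) (m : M), C M ∧
      Function.Injective φ ∧ ∀ x (hx : x ∈ K), x ∈ E →
        m * φ ⟨x, hx⟩ = φ ⟨τ * x * τ⁻¹, hn x hx⟩ * m)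
    (E : {E : Finset G // ∀ x ∈ E, x ∈ K}) : Ext C (prE K τ hn E) := by
  obtain ⟨M, _, φ, m, hM, hφ, hm⟩ := h E.1
  refine ⟨M, inferInstance, φ, m, hM, hφ, ?_⟩
  have hle : Subgroup.closure (E.1 : Set G) ≤ K :=
    (Subgroup.closure_le K).2 (fun x hx => E.2 x hx)
  have key : ∀ a (ha : a ∈ Subgroup.closure (E.1 : Set G)),
      m * φ ⟨a, hle ha⟩ = φ ⟨τ * a * τ⁻¹, hn a (hle ha)⟩ * m := by
    intro a ha
    induction ha using Subgroup.closure_induction with
    | mem x hx => exact hm x (E.2 x hx) hx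
    | one =>
      have e1 : (⟨1, K.one_mem⟩ : K) = 1 := rfl
      have e2 : (⟨τ * 1 * τ⁻¹, hn 1 K.one_mem⟩ : K) = 1 := Subtype.ext (by simp)
      rw [e2]
      change m * φ 1 = φ 1 * m
      rw [map_one, mul_one, one_mul]
    | mul x y hx hy ihx ihy =>
      have e1 : (⟨x * y, hle (mul_mem hx hy)⟩ : K) = ⟨x, hle hx⟩ * ⟨y, hle hy⟩ := rfl
      have e2 : (⟨τ * (x * y) * τ⁻¹, hn _ (hle (mul_mem hx hy))⟩ : K) =
          ⟨τ * x * τ⁻¹, hn x (hle hx)⟩ * ⟨τ * y * τ⁻¹, hn y (hle hy)⟩ :=
        Subtype.ext (by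
          change τ * (x * y) * τ⁻¹ = τ * x * τ⁻¹ * (τ * y * τ⁻¹)
          group)
      rw [e1, e2, map_mul, map_mul, ← mul_assoc, ihx, mul_assoc, ihy]
      exact (mul_assoc _ _ _).symm
    | inv x hx ih =>
      have e1 : (⟨x⁻¹, hle (inv_mem hx)⟩ : K) = (⟨x, hle hx⟩ : K)⁻¹ := rfl
      have e2 : (⟨τ * x⁻¹ * τ⁻¹, hn _ (hle (inv_mem hx))⟩ : K) =
          (⟨τ * x * τ⁻¹, hn x (hle hx)⟩ : K)⁻¹ :=
        Subtype.ext (by
          change τ * x⁻¹ * τ⁻¹ = (τ * x * τ⁻¹)⁻¹
          group)
      rw [e1, e2, map_inv, map_inv, eq_inv_mul_iff_mul_eq, ← mul_assoc, ← ih, mul_inv_cancel_right]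
  exact fun a ha => key a ha

/-- **Cyclic extensions.** -/
theorem real_cyclic (hC : Closed C) (hE : ExtClosed C) {G : Type} [Group G] (K : Subgroup G)
    (τ : G) (hn' : ∀ x ∈ K, τ⁻¹ * x * τ ∈ K) (hgen : ∀ g : G, ∃ x ∈ K, ∃ m : ℤ, g = x * τ ^ m)
    (hτ : ∀ m : ℤ, τ ^ m ∈ K → m = 0) (h : Real C K τ) : C G := by
  obtain ⟨hn, h⟩ := h
  refine dir_by_cyclic hC (prE_dir K τ hn) hn hn' hgen hτ ?_
  rintro _ ⟨E, rfl⟩
  exact Ext.mem hC hE (prE_ext K τ hn h E)

/-- **Extensions.** -/
theorem real_kernel (hC : Closed C) (hE : ExtClosed C) {G Q : Type} [Group G] [Group Q] (f : G →* Q)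
    (hf : Function.Surjective f) (hQ : C Q) (hK : C f.ker)
    (h : ∀ q : Q, ¬ IsOfFinOrder q → ∃ g : G, f g = q ∧ Real C f.ker g) : C G := by
  refine dir_kernel hC hE f hf hQ hK ?_
  intro q hq
  obtain ⟨g, hg, hn, h'⟩ := h q hq
  refine ⟨g, hg, _, prE_dir f.ker g hn, ?_⟩
  rintro _ ⟨E, rfl⟩
  exact prE_ext f.ker g hn h' E

/-- the conjugation in the mapping torus -/
theorem mt_conj {N : Type} [Group N] (β : MulAut N) (x : N) :
    (SemidirectProduct.inr (Multiplicative.ofAdd 1) * SemidirectProduct.inl x : MT N β) =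
      SemidirectProduct.inl (β x) * SemidirectProduct.inr (Multiplicative.ofAdd 1) := by
  have h1 : zpowersHom (MulAut N) β (Multiplicative.ofAdd 1) = β := by
    rw [zpowersHom_apply]
    exact zpow_one β
  have h2 := SemidirectProduct.inl_aut (φ := zpowersHom (MulAut N) β) (Multiplicative.ofAdd 1) x
  rw [h1] at h2
  rw [h2, map_inv, inv_mul_cancel_right]

/-- a limit of automorphisms with mapping torus in the class is realised -/
theorem real_of_approx {G : Type} [Group G] (K : Subgroup G) (τ : G)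
    (hn : ∀ x ∈ K, τ * x * τ⁻¹ ∈ K)
    (h : ∀ E : Finset K, ∃ β : MulAut K, C (MT K β) ∧
      ∀ x ∈ E, ((β x : K) : G) = τ * x * τ⁻¹) : Real C K τ := by
  classical
  refine ⟨hn, fun E => ?_⟩
  obtain ⟨β, hβ, hx⟩ := h (E.subtype (fun x => x ∈ K))
  refine ⟨MT K β, inferInstance, SemidirectProduct.inl, SemidirectProduct.inr
    (Multiplicative.ofAdd 1), hβ, SemidirectProduct.inl_injective, ?_⟩
  intro x hxK hxE
  rw [mt_conj]
  congr 2
  apply Subtype.ext
  exact hx ⟨x, hxK⟩ (by simpa using hxE)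

/-- the mapping torus of an inner automorphism -/
theorem mt_inner (hC : Closed C) {N : Type} [Group N] (hN : C N) (n : N) :
    C (MT N (MulAut.conj n)) := by
  have hz : ∀ k : Multiplicative ℤ, ∀ x : N, zpowersHom (MulAut N) (MulAut.conj n) k x =
      zpowersHom N n k * x * (zpowersHom N n k)⁻¹ := by
    intro k x
    have h1 : zpowersHom (MulAut N) (MulAut.conj n) k = MulAut.conj (zpowersHom N n k) := by
      rw [zpowersHom_apply, zpowersHom_apply, map_zpow]
    rw [h1, MulAut.conj_apply]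
  refine hC.of_injective _ (N × Multiplicative ℤ)
    { toFun := fun g => (g.left * zpowersHom N n g.right, g.right)
      map_one' := ?_
      map_mul' := fun a b => ?_ } ?_ (hC.prod _ _ hN hC.int)
  · refine Prod.ext ?_ rfl
    change (1 : N) * zpowersHom N n 1 = 1
    rw [map_one, mul_one]
  · refine Prod.ext ?_ rfl
    change a.left * zpowersHom (MulAut N) (MulAut.conj n) a.right b.left *
      zpowersHom N n (a.right * b.right) = a.left * zpowersHom N n a.right *
        (b.left * zpowersHom N n b.right)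
    rw [hz, map_mul]
    group
  · intro a b hab
    have h2 : a.right = b.right := congrArg Prod.snd hab
    have h1 : a.left * zpowersHom N n a.right = b.left * zpowersHom N n b.right :=
      congrArg Prod.fst hab
    rw [h2] at h1
    exact SemidirectProduct.ext (mul_right_cancel h1) h2

/-- **The set of the automorphisms with mapping torus in the class is closed.** -/
theorem mt_closed (hC : Closed C) (hE : ExtClosed C) {N : Type} [Group N] (α : MulAut N)
    (h : ∀ E : Finset N, ∃ β : MulAut N, C (MT N β) ∧ ∀ x ∈ E, β x = α x) : C (MT N α) := by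
  classical
  let K : Subgroup (MT N α) := (SemidirectProduct.inl : N →* MT N α).range
  let τ : MT N α := SemidirectProduct.inr (Multiplicative.ofAdd 1)
  have hright : ∀ g : MT N α, g ∈ K ↔ g.right = 1 := by
    intro g
    constructor
    · rintro ⟨x, rfl⟩
      rfl
    · intro hg
      exact ⟨g.left, SemidirectProduct.ext rfl hg.symm⟩
  have hnorm : ∀ (t x : MT N α), x ∈ K → t * x * t⁻¹ ∈ K := by
    intro t x hx
    rw [hright] at hx ⊢
    change t.right * x.right * (t.right)⁻¹ = 1
    rw [hx, mul_one, mul_inv_cancel]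
  have hpow : ∀ m : ℤ, (τ ^ m).right = Multiplicative.ofAdd m := by
    intro m
    have h1 : (SemidirectProduct.rightHom : MT N α →* Multiplicative ℤ) (τ ^ m) =
        (SemidirectProduct.rightHom τ) ^ m := map_zpow _ _ _
    have h2 : (SemidirectProduct.rightHom : MT N α →* Multiplicative ℤ) τ =
      Multiplicative.ofAdd 1 := SemidirectProduct.rightHom_inr _
    rw [h2] at h1
    refine h1.trans ?_
    rw [← ofAdd_zsmul, smul_eq_mul, mul_one]
  refine real_cyclic hC hE K τ ?_ ?_ ?_ ?_
  · intro x hx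
    have := hnorm τ⁻¹ x hx
    rwa [inv_inv] at this
  · intro g
    refine ⟨g * (τ ^ (Multiplicative.toAdd g.right))⁻¹, ?_, Multiplicative.toAdd g.right, by group⟩
    rw [hright]
    change g.right * ((τ ^ (Multiplicative.toAdd g.right)).right)⁻¹ = 1
    rw [hpow, ofAdd_toAdd, mul_inv_cancel]
  · intro m hm
    rw [hright, hpow] at hm
    exact Multiplicative.ofAdd.injective hm
  · refine ⟨hnorm τ, fun E => ?_⟩
    obtain ⟨β, hβ, hx⟩ := h (E.image (fun g => g.left))
    refine ⟨MT N β, inferInstance,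
      { toFun := fun g => SemidirectProduct.inl g.1.left
        map_one' := rfl
        map_mul' := fun a b => ?_ }, SemidirectProduct.inr (Multiplicative.ofAdd 1), hβ, ?_, ?_⟩
    · have ha : a.1.right = 1 := (hright _).1 a.2
      rw [← map_mul]
      congr 1
      change a.1.left * zpowersHom (MulAut N) α a.1.right b.1.left = a.1.left * b.1.left
      rw [ha, map_one]
      rfl
    · intro a b hab
      apply Subtype.ext
      exact SemidirectProduct.ext (SemidirectProduct.inl_injective hab)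
        (((hright _).1 a.2).trans ((hright _).1 b.2).symm)
    · intro x hxK hxE
      have hxr : x = SemidirectProduct.inl x.left :=
        SemidirectProduct.ext rfl ((hright _).1 hxK)
      have h1 : (τ * x * τ⁻¹).left = α x.left := by
        have h2 : τ * x * τ⁻¹ = SemidirectProduct.inl (α x.left) := by
          conv_lhs => rw [hxr]
          rw [mt_conj, mul_inv_cancel_right]
        rw [h2]
        rfl
      change SemidirectProduct.inr (Multiplicative.ofAdd 1) * SemidirectProduct.inl x.left =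
        SemidirectProduct.inl (τ * x * τ⁻¹).left * SemidirectProduct.inr (Multiplicative.ofAdd 1)
      rw [mt_conj, h1, hx _ (Finset.mem_image_of_mem _ hxE)]

end Pool.Agent.Q105.FJ
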