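import Pool.Agent.Q105.FJ.Roots

/-!
# Ascending extensions
-/

set_option autoImplicit false
set_option linter.unusedSectionVars false
set_option linter.style.haveILetI false

namespace Pool.Agent.Q105.FJ

open Pool.Agent.Y462.SS Pool.Agent.Q152.WP Pool.Agent.H26R2.Idem

variable {C : ∀ (G : Type) [Group G], Prop}

section

variable {G : Type} [Group G] (N : Subgroup G) (t : G) (ht : ∀ x ∈ N, t * x * t⁻¹ ∈ N)

include ht in
theorem asc_mono {x : G} {k : ℕ} (h : t ^ k * x * (t ^ k)⁻¹ ∈ N) (l : ℕ) :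
    t ^ (l + k) * x * (t ^ (l + k))⁻¹ ∈ N := by
  induction l with
  | zero => simpa using h
  | succ l ih =>
    have h1 := ht _ ih
    have h2 : t * (t ^ (l + k) * x * (t ^ (l + k))⁻¹) * t⁻¹ =
        t ^ (l + 1 + k) * x * (t ^ (l + 1 + k))⁻¹ := by
      have : t ^ (l + 1 + k) = t * t ^ (l + k) := by
        rw [← pow_succ']
        congr 1
        omega
      rw [this]
      group
    rwa [h2] at h1

include ht in
theorem asc_mono' {x : G} {k l : ℕ} (hkl : k ≤ l) (h : t ^ k * x * (t ^ k)⁻¹ ∈ N) :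
    t ^ l * x * (t ^ l)⁻¹ ∈ N := by
  obtain ⟨m, rfl⟩ := Nat.exists_eq_add_of_le hkl
  rw [add_comm]
  exact asc_mono N t ht h m

/-- the union of the conjugates -/
def tel : Subgroup G where
  carrier := {x | ∃ k : ℕ, t ^ k * x * (t ^ k)⁻¹ ∈ N}
  one_mem' := ⟨0, by simp⟩
  mul_mem' := by
    rintro a b ⟨k, hk⟩ ⟨l, hl⟩
    refine ⟨max k l, ?_⟩
    have h1 := N.mul_mem (asc_mono' N t ht (le_max_left k l) hk)
      (asc_mono' N t ht (le_max_right k l) hl)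
    have h2 : t ^ max k l * (a * b) * (t ^ max k l)⁻¹ = t ^ max k l * a * (t ^ max k l)⁻¹ *
        (t ^ max k l * b * (t ^ max k l)⁻¹) := by group
    rwa [h2]
  inv_mem' := by
    rintro a ⟨k, hk⟩
    refine ⟨k, ?_⟩
    have h1 := N.inv_mem hk
    have h2 : t ^ k * a⁻¹ * (t ^ k)⁻¹ = (t ^ k * a * (t ^ k)⁻¹)⁻¹ := by group
    rwa [h2]

theorem mem_tel {x : G} : x ∈ tel N t ht ↔ ∃ k : ℕ, t ^ k * x * (t ^ k)⁻¹ ∈ N := Iff.rfl

theorem tel_conj (x : G) (hx : x ∈ tel N t ht) : t * x * t⁻¹ ∈ tel N t ht := by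
  obtain ⟨k, hk⟩ := hx
  refine ⟨k, ?_⟩
  have h1 := ht _ hk
  have h2 : t ^ k * (t * x * t⁻¹) * (t ^ k)⁻¹ = t * (t ^ k * x * (t ^ k)⁻¹) * t⁻¹ := by
    have : t ^ k * t = t * t ^ k := by rw [← pow_succ, ← pow_succ']
    calc t ^ k * (t * x * t⁻¹) * (t ^ k)⁻¹ = (t ^ k * t) * x * (t ^ k * t)⁻¹ := by group
      _ = t * (t ^ k * x * (t ^ k)⁻¹) * t⁻¹ := by rw [this]; group
  rwa [h2]

theorem tel_conj' (x : G) (hx : x ∈ tel N t ht) : t⁻¹ * x * t ∈ tel N t ht := by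
  obtain ⟨k, hk⟩ := hx
  refine ⟨k + 1, ?_⟩
  have h2 : t ^ (k + 1) * (t⁻¹ * x * t) * (t ^ (k + 1))⁻¹ = t ^ k * x * (t ^ k)⁻¹ := by
    rw [pow_succ]
    group
  rwa [h2]

theorem tel_zpow (m : ℤ) (x : G) (hx : x ∈ tel N t ht) : t ^ m * x * (t ^ m)⁻¹ ∈ tel N t ht := by
  induction m using Int.induction_on with
  | zero => simpa using hx
  | succ m ih =>
    have h1 := tel_conj N t ht _ ih
    have h2 : t * (t ^ (m : ℤ) * x * (t ^ (m : ℤ))⁻¹) * t⁻¹ =
        t ^ ((m : ℤ) + 1) * x * (t ^ ((m : ℤ) + 1))⁻¹ := by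
      rw [add_comm, zpow_add, zpow_one]
      group
    rwa [h2] at h1
  | pred m ih =>
    have h1 := tel_conj' N t ht _ ih
    have h2 : t⁻¹ * (t ^ (-(m : ℤ)) * x * (t ^ (-(m : ℤ)))⁻¹) * t =
        t ^ (-(m : ℤ) - 1) * x * (t ^ (-(m : ℤ) - 1))⁻¹ := by
      rw [sub_eq_neg_add, zpow_add, zpow_neg_one]
      group
    rwa [h2] at h1

theorem tel_gen (hgen : Subgroup.closure ((N : Set G) ∪ {t}) = ⊤) (g : G) :
    ∃ x ∈ tel N t ht, ∃ m : ℤ, g = x * t ^ m := by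
  have hg : g ∈ Subgroup.closure ((N : Set G) ∪ {t}) := by
    rw [hgen]
    trivial
  induction hg using Subgroup.closure_induction with
  | mem x hx =>
    rcases hx with hx | hx
    · exact ⟨x, ⟨0, by simpa using hx⟩, 0, by simp⟩
    · rw [Set.mem_singleton_iff] at hx
      exact ⟨1, (tel N t ht).one_mem, 1, by rw [hx]; simp⟩
  | one => exact ⟨1, (tel N t ht).one_mem, 0, by simp⟩
  | mul a b _ _ iha ihb =>
    obtain ⟨x, hx, m, rfl⟩ := iha
    obtain ⟨y, hy, n, rfl⟩ := ihb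
    refine ⟨x * (t ^ m * y * (t ^ m)⁻¹), (tel N t ht).mul_mem hx (tel_zpow N t ht m y hy), m + n, ?_⟩
    rw [zpow_add]
    group
  | inv a _ ih =>
    obtain ⟨x, hx, m, rfl⟩ := ih
    refine ⟨t ^ (-m) * x⁻¹ * (t ^ (-m))⁻¹, tel_zpow N t ht (-m) _ ((tel N t ht).inv_mem hx), -m, ?_⟩
    group

/-- the union of the conjugates is in the class -/
theorem tel_mem (hC : Closed C) (hN : C N) : C (tel N t ht) := by
  refine Pool.Agent.Y430.SS.of_directed hC _ ℕ (fun i j => ⟨max i j, le_max_left i j,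
    le_max_right i j⟩) (fun k =>
      { carrier := {x | t ^ k * (x : G) * (t ^ k)⁻¹ ∈ N}
        one_mem' := by simp
        mul_mem' := fun {a b} ha hb => ?_
        inv_mem' := fun {a} ha => ?_ }) ?_ ?_ ?_
  · have h1 := N.mul_mem ha hb
    have h2 : t ^ k * ((a * b : tel N t ht) : G) * (t ^ k)⁻¹ = t ^ k * (a : G) * (t ^ k)⁻¹ *
        (t ^ k * (b : G) * (t ^ k)⁻¹) := by
      rw [Subgroup.coe_mul]
      group
    change t ^ k * ((a * b : tel N t ht) : G) * (t ^ k)⁻¹ ∈ N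
    rwa [h2]
  · have h1 := N.inv_mem ha
    have h2 : t ^ k * ((a⁻¹ : tel N t ht) : G) * (t ^ k)⁻¹ = (t ^ k * (a : G) * (t ^ k)⁻¹)⁻¹ := by
      rw [Subgroup.coe_inv]
      group
    change t ^ k * ((a⁻¹ : tel N t ht) : G) * (t ^ k)⁻¹ ∈ N
    rwa [h2]
  · intro k l hkl x hx
    exact asc_mono' N t ht hkl hx
  · rintro ⟨x, k, hk⟩
    exact ⟨k, hk⟩
  · intro k
    refine hC.of_injective _ N
      { toFun := fun x => ⟨t ^ k * (x.1 : G) * (t ^ k)⁻¹, x.2⟩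
        map_one' := Subtype.ext (by simp)
        map_mul' := fun a b => Subtype.ext (by
          change t ^ k * ((a.1 : G) * (b.1 : G)) * (t ^ k)⁻¹ = t ^ k * (a.1 : G) * (t ^ k)⁻¹ *
            (t ^ k * (b.1 : G) * (t ^ k)⁻¹)
          group) } ?_ hN
    intro a b hab
    have h1 : t ^ k * (a.1 : G) * (t ^ k)⁻¹ = t ^ k * (b.1 : G) * (t ^ k)⁻¹ :=
      congrArg (fun z : N => (z : G)) hab
    apply Subtype.ext
    apply Subtype.ext
    exact mul_left_cancel (mul_right_cancel h1)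

theorem tel_locTors
    (h : ∀ E : Finset G, (∀ x ∈ E, x ∈ N) → ∃ (k : ℕ) (n : G), n ∈ N ∧
      ∀ x ∈ E, n * x * n⁻¹ = t ^ (k + 1) * x * (t ^ (k + 1))⁻¹) : LocTors (tel N t ht) t := by
  classical
  intro E
  -- a common exponent
  obtain ⟨l, hl⟩ : ∃ l : ℕ, ∀ x ∈ E, t ^ l * (x : G) * (t ^ l)⁻¹ ∈ N := by
    induction E using Finset.induction_on with
    | empty => exact ⟨0, by simp⟩
    | insert a s _ ih =>
      obtain ⟨l, hl⟩ := ih
      obtain ⟨k, hk⟩ := a.2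
      refine ⟨max k l, fun x hx => ?_⟩
      rcases Finset.mem_insert.1 hx with rfl | hx
      · exact asc_mono' N t ht (le_max_left k l) hk
      · exact asc_mono' N t ht (le_max_right k l) (hl x hx)
  obtain ⟨k, n, hn, hx⟩ := h (E.image (fun x : tel N t ht => t ^ l * (x : G) * (t ^ l)⁻¹)) (by
    intro x hx
    obtain ⟨y, hy, rfl⟩ := Finset.mem_image.1 hx
    exact hl y hy)
  refine ⟨k, ⟨(t ^ l)⁻¹ * n * t ^ l, ⟨l, ?_⟩⟩, fun x hxE => ?_⟩
  · have h1 : t ^ l * ((t ^ l)⁻¹ * n * t ^ l) * (t ^ l)⁻¹ = n := by group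
    rwa [h1]
  · have h1 := hx _ (Finset.mem_image_of_mem _ hxE)
    have h2 : t ^ (k + 1) * t ^ l = t ^ l * t ^ (k + 1) := by rw [← pow_add, ← pow_add, add_comm]
    change (t ^ l)⁻¹ * n * t ^ l * (x : G) * ((t ^ l)⁻¹ * n * t ^ l)⁻¹ = _
    calc (t ^ l)⁻¹ * n * t ^ l * (x : G) * ((t ^ l)⁻¹ * n * t ^ l)⁻¹
        = (t ^ l)⁻¹ * (n * (t ^ l * (x : G) * (t ^ l)⁻¹) * n⁻¹) * t ^ l := by group
      _ = (t ^ l)⁻¹ * ((t ^ (k + 1) * t ^ l) * (x : G) * (t ^ (k + 1) * t ^ l)⁻¹) * t ^ l := by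
        rw [h1]
        group
      _ = t ^ (k + 1) * (x : G) * (t ^ (k + 1))⁻¹ := by
        rw [h2]
        group

include ht in
/-- **Ascending extensions.** -/
theorem asc_mem (hC : Closed C) (hE : ExtClosed C) (hN : C N)
    (hgen : Subgroup.closure ((N : Set G) ∪ {t}) = ⊤)
    (h : ∀ E : Finset G, (∀ x ∈ E, x ∈ N) → ∃ (k : ℕ) (n : G), n ∈ N ∧
      ∀ x ∈ E, n * x * n⁻¹ = t ^ (k + 1) * x * (t ^ (k + 1))⁻¹) : C G := by
  have hK := tel_mem N t ht hC hN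
  have hgen' := tel_gen N t ht hgen
  by_cases hτ : ∀ m : ℤ, t ^ m ∈ tel N t ht → m = 0
  · exact real_cyclic hC hE (tel N t ht) t (tel_conj' N t ht) hgen' hτ
      (real_of_locroot hC _ t (tel_conj N t ht)
        (LocTors.locRoot hC hK (tel_locTors N t ht h)))
  · push Not at hτ
    obtain ⟨m, hm, hm0⟩ := hτ
    -- finite index
    obtain ⟨p, hp, hp0⟩ : ∃ p : ℕ, t ^ (p : ℤ) ∈ tel N t ht ∧ 0 < p := by
      refine ⟨m.natAbs, ?_, Int.natAbs_pos.2 hm0⟩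
      rcases Int.natAbs_eq m with h1 | h1
      · rw [← h1]
        exact hm
      · have h2 : (m.natAbs : ℤ) = -m := by omega
        rw [h2, zpow_neg]
        exact (tel N t ht).inv_mem hm
    have hfin : Finite (G ⧸ tel N t ht) := by
      refine Finite.of_surjective (fun j : Fin p => (QuotientGroup.mk (t ^ (j : ℕ)) :
        G ⧸ tel N t ht)) ?_
      intro q
      obtain ⟨g, rfl⟩ := QuotientGroup.mk_surjective q
      obtain ⟨x, hx, z, rfl⟩ := hgen' g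
      have hz := Int.emod_nonneg z (b := p) (by omega)
      have hz' := Int.emod_lt_of_pos z (b := p) (by omega)
      refine ⟨⟨(z % p).toNat, by omega⟩, ?_⟩
      rw [QuotientGroup.eq]
      have h1 : t ^ ((z % p).toNat) = t ^ (z % p) := by
        rw [← zpow_natCast, Int.toNat_of_nonneg hz]
      have h2 : t ^ z = t ^ (z % p) * (t ^ (p : ℤ)) ^ (z / p) := by
        rw [← zpow_mul, ← zpow_add, Int.emod_add_mul_ediv]
      change (t ^ ((z % p).toNat))⁻¹ * (x * t ^ z) ∈ tel N t ht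
      rw [h1, h2]
      have h3 := tel_zpow N t ht (-(z % p)) x hx
      have h4 : (t ^ (z % (p : ℤ)))⁻¹ * (x * (t ^ (z % (p : ℤ)) * (t ^ (p : ℤ)) ^ (z / p))) =
          (t ^ (-(z % (p : ℤ))) * x * (t ^ (-(z % (p : ℤ))))⁻¹) * (t ^ (p : ℤ)) ^ (z / p) := by
        group
      rw [h4]
      exact (tel N t ht).mul_mem h3 ((tel N t ht).zpow_mem hp _)
    exact hC.finiteIndex G (tel N t ht) Subgroup.finiteIndex_of_finite_quotient hK

end

end Pool.Agent.Q105.FJ
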