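import Pool.Agent.Q105.FJ.OneSide

/-!
# Amalgamated products over subgroups that are central in a quotient of one factor
-/

set_option autoImplicit false
set_option linter.unusedSectionVars false
set_option linter.style.haveILetI false

namespace Pool.Agent.Q105.FJ

open Monoid Pool.Agent.Y462.SS Pool.Agent.Q152.WP Pool.Agent.Q152.AM Pool.Agent.Q143.EI
  Pool.Agent.Q143.CY

variable {C : ∀ (G : Type) [Group G], Prop}

/-- The homomorphism `ψ` from `H` to `B` is centrally detected: some homomorphism `f` from `B` to a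
group `M` is injective on `H` and maps `H` onto a central subgroup of `M`, such that the quotient `R` of
`M` by this subgroup is in the class. -/
def CDet (C : ∀ (G : Type) [Group G], Prop) {H B : Type} [Group H] [Group B] (ψ : H →* B) : Prop :=
  ∃ (M : Type) (_ : Group M) (f : B →* M) (R : Type) (_ : Group R) (π : M →* R),
    Function.Injective (f.comp ψ) ∧ (∀ h m, f (ψ h) * m = m * f (ψ h)) ∧
      Function.Surjective π ∧ (∀ m, π m = 1 ↔ m ∈ (f.comp ψ).range) ∧ C R

section amalgam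

variable {H G B : Type} [Group H] [Group G] [Group B]

/-- the two homomorphisms of the amalgamated subgroup -/
def pa (i : H →* G) (ψ : H →* B) : ∀ b, H →* B2 G B b
  | false => i
  | true => ψ

/-- the amalgamated product of `G` and `B` over `H` -/
abbrev Amg (i : H →* G) (ψ : H →* B) : Type := PushoutI (pa i ψ)

theorem pa_injective {i : H →* G} {ψ : H →* B} (hi : Function.Injective i)
    (hψ : Function.Injective ψ) (b : Bool) : Function.Injective (pa i ψ b) := by
  cases b with
  | false => exact hi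
  | true => exact hψ

/-- the first inclusion -/
def kG (i : H →* G) (ψ : H →* B) : G →* Amg i ψ := PushoutI.of (φ := pa i ψ) false

/-- the second inclusion -/
def kB (i : H →* G) (ψ : H →* B) : B →* Amg i ψ := PushoutI.of (φ := pa i ψ) true

theorem k_eq (i : H →* G) (ψ : H →* B) (h : H) : kG i ψ (i h) = kB i ψ (ψ h) := by
  have h1 := PushoutI.of_apply_eq_base (pa i ψ) false h
  have h2 := PushoutI.of_apply_eq_base (pa i ψ) true h
  exact h1.trans h2.symm

theorem kG_injective {i : H →* G} {ψ : H →* B} (hi : Function.Injective i)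
    (hψ : Function.Injective ψ) : Function.Injective (kG i ψ) :=
  PushoutI.of_injective (pa_injective hi hψ) false

theorem kB_injective {i : H →* G} {ψ : H →* B} (hi : Function.Injective i)
    (hψ : Function.Injective ψ) : Function.Injective (kB i ψ) :=
  PushoutI.of_injective (pa_injective hi hψ) true

theorem amg_lift (i : H →* G) (ψ : H →* B) {T : Type} [Group T] (p : G →* T) (q : B →* T)
    (h : ∀ x, p (i x) = q (ψ x)) :
    ∃ F : Amg i ψ →* T, (∀ g, F (kG i ψ g) = p g) ∧ ∀ b, F (kB i ψ b) = q b :=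
  (amal_pushout (pa i ψ)).lift T p q h

theorem CDet.inj {ψ : H →* B} (h : CDet C ψ) : Function.Injective ψ := by
  obtain ⟨M, _, f, _, _, _, h1, _⟩ := h
  exact Function.Injective.of_comp h1

/-- the case of a central subgroup -/
theorem amg_central (hC : Closed C) (hE : ExtClosed C) {M R : Type} [Group M] [Group R]
    {i : H →* G} {ψ : H →* M} (hi : Function.Injective i) (hψ : Function.Injective ψ)
    (hz : ∀ h m, ψ h * m = m * ψ h) (hG : C G) (π : M →* R) (hπ : Function.Surjective π)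
    (hπK : ∀ m, π m = 1 ↔ m ∈ ψ.range) (hR : C R) : C (Amg i ψ) := by
  have hA : Amal i ψ (kG i ψ) (kB i ψ) := amal_pushout (pa i ψ)
  refine normal_amalgam hC hE hA hi hψ ?_ hG hR π hπ hπK
  intro κ
  refine ⟨1, fun h => ⟨h, ?_, ?_⟩⟩
  · rw [← hz h κ, mul_inv_cancel_right]
  · group

/-- **Amalgamated products over a centrally detected subgroup of one factor.** -/
theorem amg_mem (hC : Closed C) (hE : ExtClosed C) {i : H →* G} {ψ : H →* B}
    (hi : Function.Injective i) (hψ : CDet C ψ) (hG : C G) (hB : C B) : C (Amg i ψ) := by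
  have hψi := hψ.inj
  obtain ⟨M, _, f, R, _, π, h1, hz, hπ, hπK, hR⟩ := hψ
  have hΓ : C (Amg i (f.comp ψ)) := amg_central hC hE hi h1 hz hG π hπ hπK hR
  let F : ∀ b, B2 G B b →* Amg i (f.comp ψ) := fun b => match b with
    | false => kG i (f.comp ψ)
    | true => (kB i (f.comp ψ)).comp f
  refine push_edge hC hE (pa_injective hi hψi) ?_ hΓ F ((kG i (f.comp ψ)).comp i) ?_
    ((kG_injective hi h1).comp hi)
  · rintro (_ | _)
    · exact hG
    · exact hB
  · rintro (_ | _)
    · rfl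
    · refine MonoidHom.ext fun h => ?_
      exact (k_eq i (f.comp ψ) h).symm

theorem amg_tf {i : H →* G} {ψ : H →* B} (hi : Function.Injective i)
    (hψ : Function.Injective ψ) (hG : TF G) (hB : TF B) : TF (Amg i ψ) := by
  refine tf_push (pa_injective hi hψ) ?_
  rintro (_ | _)
  · exact hG
  · exact hB

end amalgam

section rules

/-- restriction along a homomorphism of the factor -/
theorem CDet.comp {H B B' : Type} [Group H] [Group B] [Group B'] {ψ : H →* B} (g : B →* B')
    (h : CDet C (g.comp ψ)) : CDet C ψ := by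
  obtain ⟨M, _, f, R, _, π, h1, h2, h3, h4, h5⟩ := h
  exact ⟨M, inferInstance, f.comp g, R, inferInstance, π, h1, h2, h3, h4, h5⟩

/-- products -/
theorem CDet.prod (hC : Closed C) {H B H' B' : Type} [Group H] [Group B] [Group H'] [Group B']
    {ψ : H →* B} {ψ' : H' →* B'} (h : CDet C ψ) (h' : CDet C ψ') : CDet C (ψ.prodMap ψ') := by
  obtain ⟨M, _, f, R, _, π, h1, h2, h3, h4, h5⟩ := h
  obtain ⟨M', _, f', R', _, π', h1', h2', h3', h4', h5'⟩ := h'
  refine ⟨M × M', inferInstance, f.prodMap f', R × R', inferInstance, π.prodMap π', ?_, ?_, ?_, ?_,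
    hC.prod _ _ h5 h5'⟩
  · rintro ⟨x, x'⟩ ⟨y, y'⟩ hxy
    exact Prod.ext (h1 (congrArg Prod.fst hxy)) (h1' (congrArg Prod.snd hxy))
  · rintro ⟨x, x'⟩ ⟨m, m'⟩
    exact Prod.ext (h2 x m) (h2' x' m')
  · rintro ⟨r, r'⟩
    obtain ⟨m, rfl⟩ := h3 r
    obtain ⟨m', rfl⟩ := h3' r'
    exact ⟨(m, m'), rfl⟩
  · rintro ⟨m, m'⟩
    constructor
    · intro h
      obtain ⟨x, hx⟩ := (h4 m).1 (congrArg Prod.fst h)
      obtain ⟨x', hx'⟩ := (h4' m').1 (congrArg Prod.snd h)
      exact ⟨(x, x'), Prod.ext hx hx'⟩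
    · rintro ⟨⟨x, x'⟩, hx⟩
      exact Prod.ext ((h4 m).2 ⟨x, congrArg Prod.fst hx⟩) ((h4' m').2 ⟨x', congrArg Prod.snd hx⟩)

/-- subgroups that embed in the abelianization -/
theorem CDet.of_ab (hC : Closed C) {H B : Type} [Group H] [Group B] {ψ : H →* B}
    (h : Function.Injective (Abelianization.of.comp ψ)) : CDet C ψ := by
  let N : Subgroup (Abelianization B) := (Abelianization.of.comp ψ).range
  refine ⟨Abelianization B, inferInstance, Abelianization.of, Abelianization B ⧸ N, inferInstance,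
    QuotientGroup.mk' N, h, fun _ _ => mul_comm _ _, QuotientGroup.mk'_surjective N,
    fun m => QuotientGroup.eq_one_iff m, comm_mem' hC _⟩

/-- abelian groups -/
theorem CDet.id (hC : Closed C) {H : Type} [CommGroup H] : CDet C (MonoidHom.id H) := by
  refine ⟨H, inferInstance, MonoidHom.id H, PUnit, inferInstance, 1, fun _ _ h => h,
    fun _ _ => mul_comm _ _, fun _ => ⟨1, Subsingleton.elim _ _⟩, fun m => ?_,
    Pool.Agent.Y812.SS.C_subsingleton hC PUnit⟩
  exact ⟨fun _ => ⟨m, rfl⟩, fun _ => rfl⟩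

/-- cyclic subgroups of free groups -/
theorem CDet.free (hC : Closed C) (hE : ExtClosed C) {α : Type} (v : FreeGroup α) (hv : v ≠ 1) :
    CDet C (zpowersHom (FreeGroup α) v) := by
  obtain ⟨M, _, f, N, _, hN, hz, hi, hM⟩ := det_free hC hE v hv
  have h1 : ∀ n : Multiplicative ℤ, f (zpowersHom (FreeGroup α) v n) =
      f v ^ (Multiplicative.toAdd n) := by
    intro n
    change f (v ^ (Multiplicative.toAdd n)) = _
    rw [map_zpow]
  refine ⟨M, inferInstance, f, M ⧸ N, inferInstance, QuotientGroup.mk' N, ?_, ?_,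
    QuotientGroup.mk'_surjective N, ?_, hM⟩
  · have h2 : f.comp (zpowersHom (FreeGroup α) v) = zpowersHom M (f v) := MonoidHom.ext h1
    rw [h2]
    exact zp_injective hi
  · intro n m
    rw [h1]
    have h3 : Commute (f v) m := hz m
    exact (h3.zpow_left _).eq
  · intro m
    have h2 : QuotientGroup.mk' N m = 1 ↔ m ∈ N := QuotientGroup.eq_one_iff m
    rw [h2, hN, Subgroup.mem_zpowers_iff]
    constructor
    · rintro ⟨k, rfl⟩
      exact ⟨Multiplicative.ofAdd k, h1 _⟩
    · rintro ⟨k, rfl⟩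
      exact ⟨Multiplicative.toAdd k, (h1 k).symm⟩

end rules

section two

variable {H₁ H₂ B : Type} [Group H₁] [Group H₂] [Group B]

/-- Two homomorphisms to `B` are jointly detected: some homomorphism `f` from `B` to a group `M` maps
`H₁` and `H₂` to central subgroups of `M`, the product map from `H₁ × H₂` to `M` is injective, and
the quotient `R` of `M` by its image is in the class. -/
def JDet (C : ∀ (G : Type) [Group G], Prop) (ψ₁ : H₁ →* B) (ψ₂ : H₂ →* B) : Prop :=
  ∃ (M : Type) (_ : Group M) (f : B →* M) (R : Type) (_ : Group R) (π : M →* R),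
    (∀ x y, f (ψ₁ x) * f (ψ₂ y) = 1 → x = 1 ∧ y = 1) ∧ (∀ h m, f (ψ₁ h) * m = m * f (ψ₁ h)) ∧
      (∀ h m, f (ψ₂ h) * m = m * f (ψ₂ h)) ∧ Function.Surjective π ∧
        (∀ m, π m = 1 ↔ ∃ x y, m = f (ψ₁ x) * f (ψ₂ y)) ∧ C R

/-- After the first gluing the second subgroup is still detected. -/
theorem JDet.glue {ψ₁ : H₁ →* B} {ψ₂ : H₂ →* B} (h : JDet C ψ₁ ψ₂) {G : Type} [Group G]
    (i : H₁ →* G) : CDet C ((kB i ψ₁).comp ψ₂) := by
  obtain ⟨M, _, f, R, _, π, h1, h2, h2', h3, h4, h5⟩ := h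
  let N : Subgroup M := (f.comp ψ₁).range
  haveI hN : N.Normal := by
    refine ⟨?_⟩
    rintro _ ⟨x, rfl⟩ g
    refine ⟨x, ?_⟩
    change f (ψ₁ x) = g * f (ψ₁ x) * g⁻¹
    rw [← h2 x g, mul_inv_cancel_right]
  obtain ⟨F, hF1, hF2⟩ := amg_lift i ψ₁ (1 : G →* M ⧸ N) ((QuotientGroup.mk' N).comp f) (fun x => by
    have h6 : f (ψ₁ x) ∈ N := ⟨x, rfl⟩
    exact ((QuotientGroup.eq_one_iff (f (ψ₁ x))).2 h6).symm)
  have hk : N ≤ π.ker := by
    rintro _ ⟨x, rfl⟩
    exact (h4 _).2 ⟨x, 1, by rw [map_one, map_one, mul_one]; rfl⟩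
  have hFψ : ∀ y, F (kB i ψ₁ (ψ₂ y)) = QuotientGroup.mk' N (f (ψ₂ y)) := fun y => hF2 _
  refine ⟨M ⧸ N, inferInstance, F, R, inferInstance, QuotientGroup.lift N π (fun x hx => hk hx),
    ?_, ?_, ?_, ?_, h5⟩
  · refine (injective_iff_map_eq_one _).2 (fun y hy => ?_)
    have h6 : QuotientGroup.mk' N (f (ψ₂ y)) = 1 := (hFψ y).symm.trans hy
    obtain ⟨x, hx⟩ := (QuotientGroup.eq_one_iff _).1 h6
    have h7 : f (ψ₁ x⁻¹) * f (ψ₂ y) = 1 := by
      have h8 : f (ψ₁ x) = f (ψ₂ y) := hx
      rw [map_inv, map_inv, h8, inv_mul_cancel]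
    exact (h1 _ _ h7).2
  · intro y m
    induction m using QuotientGroup.induction_on with
    | H m =>
      change F (kB i ψ₁ (ψ₂ y)) * _ = _ * F (kB i ψ₁ (ψ₂ y))
      rw [hFψ]
      change QuotientGroup.mk' N (f (ψ₂ y) * m) = QuotientGroup.mk' N (m * f (ψ₂ y))
      rw [h2' y m]
  · intro r
    obtain ⟨m, rfl⟩ := h3 r
    exact ⟨QuotientGroup.mk' N m, rfl⟩
  · intro m
    induction m using QuotientGroup.induction_on with
    | H m =>
      change π m = 1 ↔ _
      rw [h4]
      constructor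
      · rintro ⟨x, y, rfl⟩
        refine ⟨y, (hFψ y).trans ?_⟩
        refine (QuotientGroup.eq.2 ?_)
        have h6 : (f (ψ₂ y))⁻¹ * (f (ψ₁ x) * f (ψ₂ y)) = f (ψ₁ x) := by
          rw [h2 x, inv_mul_cancel_left]
        rw [h6]
        exact ⟨x, rfl⟩
      · rintro ⟨y, hy⟩
        have h6 : QuotientGroup.mk' N (f (ψ₂ y)) = QuotientGroup.mk' N m :=
          (hFψ y).symm.trans hy
        obtain ⟨x, hx⟩ := QuotientGroup.eq.1 h6
        refine ⟨x, y, ?_⟩
        have h7 : f (ψ₁ x) = (f (ψ₂ y))⁻¹ * m := hx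
        rw [h2 x, h7, mul_inv_cancel_left]

end two

end Pool.Agent.Q105.FJ
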