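import Pool.Agent.Q105.FJ.Wreath

/-!
# Torsion-free graph wreath products
-/

set_option autoImplicit false
set_option linter.unusedSectionVars false
set_option linter.style.haveILetI false

namespace Pool.Agent.Q105.FJ

open Pool.Agent.H26R2.Idem

/-- torsion-free groups -/
def TF (G : Type) [Group G] : Prop := ∀ g : G, IsOfFinOrder g → g = 1

theorem TF.inj {G H : Type} [Group G] [Group H] (f : G →* H) (hf : Function.Injective f)
    (h : TF H) : TF G := by
  intro g hg
  exact (injective_iff_map_eq_one f).1 hf g (h _ (f.isOfFinOrder hg))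

theorem TF.prod {G H : Type} [Group G] [Group H] (hG : TF G) (hH : TF H) : TF (G × H) := by
  intro g hg
  exact Prod.ext (hG _ ((MonoidHom.fst G H).isOfFinOrder hg))
    (hH _ ((MonoidHom.snd G H).isOfFinOrder hg))

theorem TF.semi {N H : Type} [Group N] [Group H] {φ : H →* MulAut N} (hN : TF N) (hH : TF H) :
    TF (N ⋊[φ] H) := by
  intro g hg
  have h1 : g.right = 1 := hH _ ((SemidirectProduct.rightHom : N ⋊[φ] H →* H).isOfFinOrder hg)
  have h2 : g = SemidirectProduct.inl g.left := SemidirectProduct.ext rfl h1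
  rw [h2] at hg ⊢
  have h3 : IsOfFinOrder g.left := by
    rw [isOfFinOrder_iff_pow_eq_one] at hg ⊢
    obtain ⟨n, hn, hn'⟩ := hg
    refine ⟨n, hn, ?_⟩
    rw [← map_pow, ← map_one (SemidirectProduct.inl : N →* N ⋊[φ] H)] at hn'
    exact SemidirectProduct.inl_injective hn'
  rw [hN _ h3, map_one]

theorem TF.free (α : Type) : TF (FreeGroup α) := by
  intro g hg
  by_contra h
  exact not_isOfFinOrder_of_isMulTorsionFree h hg

theorem TF.pushout {ι : Type} [Nonempty ι] {G : ι → Type}
    {H Q : Type} [∀ i, Group (G i)] [Group H] [Group Q] {φ : ∀ i, H →* G i}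
    (hφ : ∀ i, Function.Injective (φ i)) (f : ∀ i, G i →* Q)
    (hf : ∀ i, Function.Injective (f i)) (k : H →* Q) (hfk : ∀ i, (f i).comp (φ i) = k)
    (hQ : TF Q) : TF (Monoid.PushoutI φ) :=
  TF.inj (Phi k f hfk) (Phi_injective hφ k f hf hfk) (TF.semi (TF.free _) hQ)

theorem TF.option {α : Type} (Λ : SimpleGraph (Option α)) (P : Type) [Group P] (hP : TF P)
    (hG : TF (GP (Lr Λ) P)) : TF (GP Λ P) := by
  refine TF.inj (toP Λ P) (Function.LeftInverse.injective (fromP_toP Λ P)) ?_
  refine TF.pushout (Q := P × GP (Lr Λ) P) ?_ (vg Λ P) ?_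
    ((MonoidHom.inr P (GP (Lr Λ) P)).comp (inL Λ P)) ?_ (hP.prod hG)
  · rintro (_ | _)
    · exact inL_injective Λ P
    · intro a b hab
      exact congrArg Prod.snd hab
  · rintro (_ | _)
    · intro a b hab
      exact congrArg Prod.snd hab
    · intro a b hab
      have h1 := congrArg Prod.fst hab
      have h2 := congrArg Prod.snd hab
      exact Prod.ext h1 (inL_injective Λ P h2)
  · rintro (_ | _)
    · rfl
    · exact MonoidHom.ext fun x => Prod.ext rfl rfl

theorem TF.gp_fin (P : Type) [Group P] (hP : TF P) (V : Type)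
    [Finite V] : ∀ Λ : SimpleGraph V, TF (GP Λ P) := by
  induction V using Finite.induction_empty_option with
  | @of_equiv α β e ih =>
    intro Λ
    refine TF.inj (GP.map (Λ := Λ) (Λ' := Λ.comap e) (P := P) e.symm ?_) ?_ (ih _)
    · intro v w h
      change Λ.Adj (e (e.symm v)) (e (e.symm w))
      rwa [e.apply_symm_apply, e.apply_symm_apply]
    · refine GP.map_injective _ e.symm.injective ?_ _
      intro v w h
      change Λ.Adj (e (e.symm v)) (e (e.symm w)) at h
      rwa [e.apply_symm_apply, e.apply_symm_apply] at h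
  | h_empty =>
    intro Λ g _
    have h : MonoidHom.id (GP Λ P) = 1 := GP.hom_ext (fun v => v.elim)
    exact DFunLike.congr_fun h g
  | @h_option α _ ih =>
    intro Λ
    exact TF.option Λ P hP (ih _)

theorem TF.gp (P : Type) [Group P] (hP : TF P) (V : Type) (Λ : SimpleGraph V) :
    TF (GP Λ P) := by
  intro g hg
  obtain ⟨S, hS⟩ := GP.exists_fin g
  obtain ⟨x, hx⟩ := hS S (Finset.Subset.refl S)
  have hi := inc_injective Λ P S
  have hx' : inc Λ P S x = g := hx
  have h1 : IsOfFinOrder x := by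
    rw [isOfFinOrder_iff_pow_eq_one] at hg ⊢
    obtain ⟨n, hn, hn'⟩ := hg
    refine ⟨n, hn, hi ?_⟩
    rw [map_pow, hx', map_one, hn']
  rw [← hx', TF.gp_fin P hP _ _ x h1, map_one]

end Pool.Agent.Q105.FJ
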