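import Pool.Agent.Q105.FJ.RExt
import Pool.Agent.Helper703.KL.Cox

/-!
# Coxeter groups and their diagram automorphisms

The Coxeter group of a Coxeter matrix of any rank is a functor of the diagram, seen as a relational
structure, injective on embeddings.
-/

set_option autoImplicit false
set_option linter.unusedSectionVars false
set_option linter.style.haveILetI false

namespace Pool.Agent.Q105.FJ

open Pool.Agent.Y462.SS Pool.Agent.Q152.WP

namespace CX

open Pool.Agent.Helper703.Cox Real

section rep

variable {B : Type} (M : CoxeterMatrix B)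

/-- basis vector -/
noncomputable abbrev ff (i : B) : B →₀ ℝ := Finsupp.single i 1

/-- coroot functional -/
noncomputable def cr (i : B) : Module.Dual ℝ (B →₀ ℝ) :=
  Finsupp.linearCombination ℝ (fun j => -2 * cc M i j)

@[simp] theorem cr_ff (i j : B) : cr M i (ff j) = -2 * cc M i j := by
  simp [cr, Finsupp.linearCombination_single]

/-- reflection -/
noncomputable def sr (i : B) : Module.End ℝ (B →₀ ℝ) := Module.preReflection (ff i) (cr M i)

theorem sr_apply (i : B) (v : B →₀ ℝ) : sr M i v = v - cr M i v • ff i := rfl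

theorem sr_sr (i : B) (v : B →₀ ℝ) : sr M i (sr M i v) = v := by
  have h : cr M i (ff i) = 2 := by
    rw [cr_ff, cc_self]
    norm_num
  exact Module.involutive_preReflection h v

theorem sr_sq (i : B) : sr M i * sr M i = 1 := by
  apply LinearMap.ext
  intro v
  exact sr_sr M i v

theorem sr_ff_self (i : B) : sr M i (ff i) = - ff i := by
  rw [sr_apply, cr_ff, cc_self]
  module

theorem sr_ff (i j : B) : sr M j (ff i) = ff i + (2 * cc M i j) • ff j := by
  rw [sr_apply, cr_ff, cc_symm]
  module

open CoxeterSystem in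
theorem prod_alt_ff (i j : B) (k : ℕ) :
    (((alternatingWord i j k).map (sr M)).prod) (ff i) =
      if Even k then Pool.Agent.Helper703.Cox.qs (cc M i j) (k + 1) • ff i +
        Pool.Agent.Helper703.Cox.qs (cc M i j) k • ff j
      else Pool.Agent.Helper703.Cox.qs (cc M i j) (k + 1) • ff j +
        Pool.Agent.Helper703.Cox.qs (cc M i j) k • ff i := by
  induction k with
  | zero => simp [alternatingWord]
  | succ k ih =>
    rw [alternatingWord_succ', List.map_cons, List.prod_cons, Module.End.mul_apply, ih]
    by_cases hk : Even k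
    · have hk1 : ¬ Even (k + 1) := by simpa [Nat.even_add_one] using hk
      simp only [hk, hk1, if_true, if_false]
      rw [map_add, map_smul, map_smul, sr_ff, sr_ff_self, qs_add_two]
      module
    · have hk1 : Even (k + 1) := by simpa [Nat.even_add_one] using hk
      simp only [hk, hk1, if_true, if_false]
      rw [map_add, map_smul, map_smul, sr_ff, sr_ff_self, qs_add_two, cc_symm M j i]
      module

theorem palt {G : Type*} [Monoid G] (f : B → G) (i j : B) (m : ℕ) :
    (((CoxeterSystem.alternatingWord i j (2 * m)).map f).prod) = (f i * f j) ^ m := by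
  induction m with
  | zero => simp [CoxeterSystem.alternatingWord]
  | succ m ih =>
    have h1 : 2 * (m + 1) = 2 * m + 1 + 1 := by ring
    rw [h1, CoxeterSystem.alternatingWord_succ', CoxeterSystem.alternatingWord_succ']
    have he : Even (2 * m) := even_two_mul m
    have ho : ¬ Even (2 * m + 1) := by simp
    simp only [he, ho, if_true, if_false, List.map_cons, List.prod_cons, ih]
    rw [pow_succ', mul_assoc]

theorem qtm {i j : B} (h : i ≠ j) (h0 : M i j ≠ 0) :
    Pool.Agent.Helper703.Cox.qs (cc M i j) (2 * M i j) = 0 ∧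
      Pool.Agent.Helper703.Cox.qs (cc M i j) (2 * M i j + 1) = 1 := by
  have hs := sin_pos_of_ne M h h0
  have hm : (M i j : ℝ) ≠ 0 := by exact_mod_cast h0
  constructor
  · have h1 := qs_sin (π / (M i j : ℝ)) (2 * M i j)
    have h2 : ((2 * M i j : ℕ) : ℝ) * (π / (M i j : ℝ)) = 2 * π := by
      push_cast; field_simp
    rw [h2, sin_two_pi] at h1
    exact (mul_eq_zero.mp h1).resolve_right hs.ne'
  · have h1 := qs_sin (π / (M i j : ℝ)) (2 * M i j + 1)
    have h2 : ((2 * M i j + 1 : ℕ) : ℝ) * (π / (M i j : ℝ)) = (π / (M i j : ℝ)) + 2 * π := by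
      push_cast; field_simp; ring
    rw [h2, sin_add_two_pi] at h1
    have : (Pool.Agent.Helper703.Cox.qs (cc M i j) (2 * M i j + 1) - 1) *
        sin (π / (M i j : ℝ)) = 0 := by
      rw [sub_mul, one_mul]
      exact sub_eq_zero.mpr h1
    have := (mul_eq_zero.mp this).resolve_right hs.ne'
    linarith

theorem pow_ff_left {i j : B} (h : i ≠ j) (h0 : M i j ≠ 0) :
    ((sr M i * sr M j) ^ M i j) (ff i) = ff i := by
  rw [← palt, prod_alt_ff]
  obtain ⟨h1, h2⟩ := qtm M h h0
  simp [h1, h2]

theorem pow_ff_right {i j : B} (h : i ≠ j) (h0 : M i j ≠ 0) :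
    ((sr M i * sr M j) ^ M i j) (ff j) = ff j := by
  have h1 := pow_ff_left M h.symm (by rwa [M.symmetric])
  have h2 : (sr M i * sr M j) ^ M i j * (sr M j * sr M i) ^ M i j = 1 := by
    have : ∀ m : ℕ, (sr M i * sr M j) ^ m * (sr M j * sr M i) ^ m = 1 := by
      intro m
      induction m with
      | zero => simp
      | succ m ih =>
        rw [pow_succ, pow_succ']
        calc (sr M i * sr M j) ^ m * (sr M i * sr M j) * (sr M j * sr M i * (sr M j * sr M i) ^ m)
            = (sr M i * sr M j) ^ m * (sr M i * (sr M j * sr M j) * sr M i) *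
              (sr M j * sr M i) ^ m := by simp only [mul_assoc]
          _ = 1 := by rw [sr_sq, mul_one, sr_sq, mul_one, ih]
    exact this _
  rw [M.symmetric j i] at h1
  conv_lhs => rw [← h1]
  rw [← Module.End.mul_apply, h2, Module.End.one_apply]

theorem sr_liftable : M.IsLiftable (sr M) := by
  intro i j
  by_cases hij : i = j
  · subst hij; rw [sr_sq, one_pow]
  by_cases h0 : M i j = 0
  · rw [h0, pow_zero]
  apply LinearMap.ext
  intro v
  have hs := sin_pos_of_ne M hij h0
  set c := cc M i j with hc
  have hc2 : 1 - c ^ 2 ≠ 0 := by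
    have : sin (π / (M i j : ℝ)) ^ 2 + c ^ 2 = 1 := sin_sq_add_cos_sq _
    nlinarith
  set p := cr M i v with hp
  set r := cr M j v with hr
  set a := (p + c * r) / (2 * (1 - c ^ 2)) with ha
  set b := (c * p + r) / (2 * (1 - c ^ 2)) with hb
  set v' := v - a • ff i - b • ff j with hv'
  have hcj : cc M j i = c := cc_symm M j i
  have e1 : cr M i v' = 0 := by
    rw [hv', map_sub, map_sub, map_smul, map_smul, cr_ff, cr_ff, cc_self, ← hp, ← hc,
      smul_eq_mul, smul_eq_mul, ha, hb]
    field_simp
    ring
  have e2 : cr M j v' = 0 := by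
    rw [hv', map_sub, map_sub, map_smul, map_smul, cr_ff, cr_ff, cc_self, ← hr, hcj,
      smul_eq_mul, smul_eq_mul, ha, hb]
    field_simp
    ring
  have s1 : sr M i v' = v' := by rw [sr_apply, e1]; simp
  have s2 : sr M j v' = v' := by rw [sr_apply, e2]; simp
  have s3 : ∀ m : ℕ, ((sr M i * sr M j) ^ m) v' = v' := by
    intro m
    induction m with
    | zero => simp
    | succ m ih => rw [pow_succ, Module.End.mul_apply, Module.End.mul_apply, s2, s1, ih]
  have hv : v = v' + a • ff i + b • ff j := by rw [hv']; abel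
  rw [Module.End.one_apply]
  conv_lhs => rw [hv]
  rw [map_add, map_add, map_smul, map_smul, s3, pow_ff_left M hij h0, pow_ff_right M hij h0, ← hv]

/-- The geometric representation. -/
noncomputable def rho : M.Group →* Module.End ℝ (B →₀ ℝ) :=
  M.toCoxeterSystem.lift ⟨sr M, sr_liftable M⟩

theorem rho_simple (i : B) : rho M (M.simple i) = sr M i := by
  have := M.toCoxeterSystem.lift_apply_simple (sr_liftable M) i
  exact this

end rep

section cmap

variable {B B' : Type} {M : CoxeterMatrix B} {M' : CoxeterMatrix B'}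

/-- the homomorphism of Coxeter groups given by a map of the diagrams -/
def cmap (f : B → B') (hf : ∀ i j, M' (f i) (f j) = M i j) : M.Group →* M'.Group :=
  M.toCoxeterSystem.lift ⟨fun i => M'.simple (f i), fun i j => by
    rw [← hf i j]
    exact M'.toCoxeterSystem.simple_mul_simple_pow (f i) (f j)⟩

theorem cmap_simple (f : B → B') (hf : ∀ i j, M' (f i) (f j) = M i j) (i : B) :
    cmap f hf (M.simple i) = M'.simple (f i) :=
  M.toCoxeterSystem.lift_apply_simple (f := fun i => M'.simple (f i)) _ i

theorem chom_ext {G : Type} [Monoid G] {f g : M.Group →* G}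
    (h : ∀ i, f (M.simple i) = g (M.simple i)) : f = g :=
  M.toCoxeterSystem.ext_simple h

theorem cmap_injective [Finite B] (f : B → B') (hi : Function.Injective f)
    (hf : ∀ i j, M' (f i) (f j) = M i j) : Function.Injective (cmap f hf) := by
  classical
  haveI := Fintype.ofFinite B
  -- the linear map
  let L : (B → ℝ) →ₗ[ℝ] (B' →₀ ℝ) := Fintype.linearCombination ℝ (fun i => ff (f i))
  have hL : ∀ v, L v = ∑ i, v i • ff (f i) := fun v => Fintype.linearCombination_apply ℝ _ v
  have hee : ∀ i, L (ee i) = ff (f i) := by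
    intro i
    rw [hL]
    simp [ee, Pi.single_apply]
  have hLi : Function.Injective L := by
    rw [injective_iff_map_eq_zero]
    intro v hv
    funext j
    have h1 := congrArg (fun z : B' →₀ ℝ => z (f j)) hv
    simp only [hL, Finsupp.coe_zero, Pi.zero_apply, Finsupp.finsetSum_apply, Finsupp.smul_apply,
      Finsupp.single_apply, hi.eq_iff, smul_eq_mul, mul_ite, mul_one, mul_zero,
      Finset.sum_ite_eq', Finset.mem_univ, if_true] at h1
    exact h1
  have hcr : ∀ i v, cr M' (f i) (L v) = coroot M i v := by
    intro i v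
    have h1 : (cr M' (f i)).comp L = coroot M i := by
      refine LinearMap.pi_ext' (fun j => ?_)
      ext
      change cr M' (f i) (L (ee j)) = coroot M i (ee j)
      rw [hee, cr_ff, coroot_ee]
      unfold cc
      rw [hf]
    exact LinearMap.congr_fun h1 v
  have hint : ∀ i v, sr M' (f i) (L v) = L (sg M i v) := by
    intro i v
    rw [sr_apply, sg_apply, hcr, map_sub, map_smul, hee]
  have hall : ∀ (w : M.Group) (v : B → ℝ),
      rho M' (cmap f hf w) (L v) = L (geo M.toCoxeterSystem w v) := by
    intro w
    induction w using M.toCoxeterSystem.simple_induction with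
    | simple i =>
      intro v
      rw [geo_simple]
      change rho M' (cmap f hf (M.simple i)) (L v) = _
      rw [cmap_simple, rho_simple, hint]
    | one =>
      intro v
      rw [map_one, map_one, map_one, Module.End.one_apply, Module.End.one_apply]
    | mul a b ha hb =>
      intro v
      rw [map_mul, map_mul, map_mul, Module.End.mul_apply, Module.End.mul_apply, hb, ha]
  rw [injective_iff_map_eq_one]
  intro w hw
  apply geo_injective M.toCoxeterSystem
  rw [map_one]
  apply LinearMap.ext
  intro v
  apply hLi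
  rw [← hall, hw, map_one]
  rfl

theorem cmap_cmap {B'' : Type} {M'' : CoxeterMatrix B''} (f : B → B')
    (hf : ∀ i j, M' (f i) (f j) = M i j) (g : B' → B'') (hg : ∀ i j, M'' (g i) (g j) = M' i j)
    (x : M.Group) :
    cmap g hg (cmap f hf x) = cmap (g ∘ f) (fun i j => (hg _ _).trans (hf i j)) x := by
  have h : (cmap g hg).comp (cmap f hf) =
      cmap (g ∘ f) (fun i j => (hg _ _).trans (hf i j)) := by
    refine chom_ext (fun i => ?_)
    rw [MonoidHom.comp_apply, cmap_simple, cmap_simple, cmap_simple]
    rfl
  exact DFunLike.congr_fun h x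

theorem cmap_id (hf : ∀ i j, M (id i) (id j) = M i j) (x : M.Group) : cmap id hf x = x := by
  have h : cmap id hf = MonoidHom.id M.Group := by
    refine chom_ext (fun i => ?_)
    rw [cmap_simple]
    rfl
  exact DFunLike.congr_fun h x

end cmap

section functor

/-- the Coxeter matrix of a relational structure with binary relations -/
noncomputable def cm {V : Type} (r : RStr ℕ (fun _ => 2) V) : CoxeterMatrix V where
  M := by
    classical
    exact Matrix.of fun u v => if u = v then 1 else sInf {m | 2 ≤ m ∧ r m ![u, v] ∧ r m ![v, u]}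
  isSymm := by
    classical
    refine Matrix.IsSymm.ext (fun u v => ?_)
    simp only [Matrix.of_apply, eq_comm (a := v) (b := u)]
    congr 2
    ext m
    simp only [Set.mem_ofPred_eq]
    tauto
  diagonal := fun u => by simp
  off_diagonal := fun u v h => by
    simp only [Matrix.of_apply, if_neg h]
    intro h1
    rcases Set.eq_empty_or_nonempty {m | 2 ≤ m ∧ r m ![u, v] ∧ r m ![v, u]} with h2 | h2
    · rw [h2, Nat.sInf_empty] at h1
      exact absurd h1 (by norm_num)
    · have h3 := (Nat.sInf_mem h2).1
      rw [h1] at h3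
      exact absurd h3 (by norm_num)

theorem cm_apply {V : Type} (r : RStr ℕ (fun _ => 2) V) {u v : V} (h : u ≠ v) :
    cm r u v = sInf {m | 2 ≤ m ∧ r m ![u, v] ∧ r m ![v, u]} := by
  classical
  exact if_neg h

theorem cm_emb {V W : Type} {r : RStr ℕ (fun _ => 2) V} {s : RStr ℕ (fun _ => 2) W} {f : V → W}
    (hf : REmb r s f) (u v : V) : cm s (f u) (f v) = cm r u v := by
  by_cases h : u = v
  · subst h
    rw [(cm s).diagonal, (cm r).diagonal]
  · have h1 : f u ≠ f v := fun h2 => h (hf.1 h2)
    rw [cm_apply s h1, cm_apply r h]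
    congr 1
    ext m
    have h2 : ∀ a b : V, s m ![f a, f b] ↔ r m ![a, b] := by
      intro a b
      rw [← hf.2 m ![a, b]]
      have h3 : (![f a, f b] : Fin 2 → W) = fun l => f (![a, b] l) := by
        funext l
        fin_cases l <;> rfl
      rw [h3]
    simp only [Set.mem_ofPred_eq, h2]

/-- every element comes from a finite substructure -/
theorem cm_fin {V : Type} (r : RStr ℕ (fun _ => 2) V) (x : (cm r).Group) :
    ∃ (S : Finset V) (y : (cm (indS r S)).Group), cmap Subtype.val (cm_emb (remb_ind r S)) y = x := by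
  classical
  induction x using (cm r).toCoxeterSystem.simple_induction with
  | simple i =>
    refine ⟨{i}, (cm (indS r {i})).simple ⟨i, Finset.mem_singleton_self i⟩, ?_⟩
    rw [cmap_simple]
    rfl
  | one => exact ⟨∅, 1, map_one _⟩
  | mul x y hx hy =>
    obtain ⟨S, a, rfl⟩ := hx
    obtain ⟨T, b, rfl⟩ := hy
    refine ⟨S ∪ T, cmap _ (cm_emb (RFun.remb_sub r (Finset.subset_union_left (s₁ := S) (s₂ := T)))) a *
      cmap _ (cm_emb (RFun.remb_sub r (Finset.subset_union_right (s₁ := S) (s₂ := T)))) b, ?_⟩
    rw [map_mul, cmap_cmap, cmap_cmap]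
    rfl

/-- the functor -/
noncomputable def cFun : RFun ℕ (fun _ => 2) where
  obj := fun r => (cm r).Group
  grp := fun _ => inferInstance
  map := fun f hf => cmap f (cm_emb hf)
  map_id := fun _ x => cmap_id _ x
  map_comp := fun g f hg hf x => cmap_cmap f (cm_emb hf) g (cm_emb hg) x
  inj := fun f hf => cmap_injective f hf.1 (cm_emb hf)
  fin := fun r x => cm_fin r x

/-- the structure of a Coxeter matrix -/
def st {V : Type} (M : CoxeterMatrix V) : RStr ℕ (fun _ => 2) V := fun m x => M (x 0) (x 1) = m

theorem cm_st {V : Type} (M : CoxeterMatrix V) : cm (st M) = M := by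
  ext u v
  by_cases h : u = v
  · subst h
    rw [(cm (st M)).diagonal, M.diagonal]
  · rw [cm_apply _ h]
    by_cases h0 : M u v = 0
    · rw [h0]
      have h1 : {m | 2 ≤ m ∧ st M m ![u, v] ∧ st M m ![v, u]} = ∅ := by
        rw [Set.eq_empty_iff_forall_notMem]
        rintro m ⟨h2, h3, -⟩
        have h4 : M u v = m := h3
        omega
      rw [h1, Nat.sInf_empty]
    · have h1 : {m | 2 ≤ m ∧ st M m ![u, v] ∧ st M m ![v, u]} = {M u v} := by
        ext m
        rw [Set.mem_singleton_iff]
        constructor
        · rintro ⟨-, h3, -⟩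
          exact Eq.symm h3
        · rintro rfl
          have h5 := M.off_diagonal u v h
          refine ⟨?_, rfl, ?_⟩
          · change M u v ≠ 1 at h5
            omega
          · change M v u = M u v
            exact M.symmetric v u
      rw [h1, csInf_singleton]

/-- the theorem for a structure of which the Coxeter matrix is given -/
theorem kernel_mem_aux {C : ∀ (G : Type) [Group G], Prop} (hC : Closed C) (hE : ExtClosed C)
    (hfin : ∀ (V : Type) [Finite V] (M : CoxeterMatrix V), C M.Group) {V : Type}
    (M : CoxeterMatrix V) (r : RStr ℕ (fun _ => 2) V) (hM : cm r = M) {G Q : Type} [Group G]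
    [Group Q] (f : G →* Q) (hf : Function.Surjective f) (hQ : C Q) (ι : M.Group →* G)
    (hι : Function.Injective ι) (hker : ι.range = f.ker)
    (h : ∀ g : G, ¬ IsOfFinOrder (f g) → ∃ (n : M.Group) (σ : Equiv.Perm V),
      RFun.IsAut r σ ∧
        ∀ i, g * ι (M.simple i) * g⁻¹ = ι (n * M.simple (σ i) * n⁻¹)) : C G := by
  subst hM
  refine RFun.kernel_mem cFun r hC hE (fun V _ r => hfin V (cm r)) f hf hQ ι hι hker ?_
  intro g hg
  obtain ⟨n, σ, hσ, h1⟩ := h g hg
  refine ⟨n, σ, hσ, fun x => ?_⟩
  have h2 : ((MulAut.conj g).toMonoidHom.comp ι) =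
      ι.comp ((MulAut.conj n).toMonoidHom.comp
        (cmap σ (cm_emb (RFun.remb_perm hσ)) : (cm r).Group →* (cm r).Group)) := by
    refine chom_ext (fun i => ?_)
    change g * ι ((cm r).simple i) * g⁻¹ =
      ι (n * cmap σ (cm_emb (RFun.remb_perm hσ)) ((cm r).simple i) * n⁻¹)
    rw [cmap_simple]
    exact h1 i
  exact DFunLike.congr_fun h2 x

/-- **Coxeter groups of any rank and their diagram automorphisms.** -/
theorem kernel_mem {C : ∀ (G : Type) [Group G], Prop} (hC : Closed C) (hE : ExtClosed C)
    (hfin : ∀ (V : Type) [Finite V] (M : CoxeterMatrix V), C M.Group) {V : Type}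
    (M : CoxeterMatrix V) {G Q : Type} [Group G]
    [Group Q] (f : G →* Q) (hf : Function.Surjective f) (hQ : C Q) (ι : M.Group →* G)
    (hι : Function.Injective ι) (hker : ι.range = f.ker)
    (h : ∀ g : G, ¬ IsOfFinOrder (f g) → ∃ (n : M.Group) (σ : Equiv.Perm V),
      (∀ i j, M (σ i) (σ j) = M i j) ∧
        ∀ i, g * ι (M.simple i) * g⁻¹ = ι (n * M.simple (σ i) * n⁻¹)) : C G := by
  refine kernel_mem_aux hC hE hfin M (st M) (cm_st M) f hf hQ ι hι hker ?_
  intro g hg
  obtain ⟨n, σ, hσ, h1⟩ := h g hg
  refine ⟨n, σ, ?_, h1⟩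
  intro m x
  change M (σ (x 0)) (σ (x 1)) = m ↔ M (x 0) (x 1) = m
  rw [hσ]

end functor

end CX

end Pool.Agent.Q105.FJ
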