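import Pool.Agent.Q105.FJ.Free

/-!
# Cyclic extensions of directed unions

Let `K` be a subgroup of `G` normalised by `τ`, with `G = K ⟨τ⟩`, `K ∩ ⟨τ⟩ = 1`.  Suppose that `K` is
the union of a directed family of subgroups `A ≤ F` with `τ A τ⁻¹ ≤ F`.  If all the HNN extensions of
`F` with the stable letter acting as `τ` on `A` are in the class, `G` is in the class.
-/

set_option autoImplicit false
set_option linter.unusedSectionVars false
set_option linter.style.haveILetI false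

namespace Pool.Agent.Q105.FJ

open Pool.Agent.Y462.SS Pool.Agent.Q152.WP Pool.Agent.H26R2.Idem HNNExtension

variable {C : ∀ (G : Type) [Group G], Prop}

section cyclic

variable {G : Type} [Group G] {τ : G}

/-- subgroups `A ≤ F` with `τ A τ⁻¹ ≤ F` -/
structure Pair (τ : G) where
  A : Subgroup G
  F : Subgroup G
  hA : ∀ x ∈ A, x ∈ F
  hB : ∀ x ∈ A, τ * x * τ⁻¹ ∈ F

instance : Preorder (Pair τ) where
  le p q := (∀ x ∈ p.A, x ∈ q.A) ∧ (∀ x ∈ p.F, x ∈ q.F)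
  le_refl p := ⟨fun _ h => h, fun _ h => h⟩
  le_trans p q r h h' := ⟨fun x hx => h'.1 x (h.1 x hx), fun x hx => h'.2 x (h.2 x hx)⟩

/-- the associated subgroup -/
def As (p : Pair τ) : Subgroup p.F where
  carrier := {x | (x : G) ∈ p.A}
  one_mem' := p.A.one_mem
  mul_mem' := by
    intro a b ha hb
    exact p.A.mul_mem ha hb
  inv_mem' := by
    intro a ha
    exact p.A.inv_mem ha

/-- the other associated subgroup -/
def Bs (p : Pair τ) : Subgroup p.F where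
  carrier := {x | τ⁻¹ * x * τ ∈ p.A}
  one_mem' := by simp
  mul_mem' := by
    intro a b ha hb
    have := p.A.mul_mem ha hb
    change τ⁻¹ * ((a : G) * (b : G)) * τ ∈ p.A
    simpa [mul_assoc] using this
  inv_mem' := by
    intro a ha
    have := p.A.inv_mem ha
    change τ⁻¹ * (a : G)⁻¹ * τ ∈ p.A
    simpa [mul_assoc] using this

/-- conjugation by `τ` -/
def cj (p : Pair τ) : As p ≃* Bs p where
  toFun a := ⟨⟨τ * a.1 * τ⁻¹, p.hB _ a.2⟩, by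
    change τ⁻¹ * (τ * (a.1 : G) * τ⁻¹) * τ ∈ p.A
    have h : τ⁻¹ * (τ * (a.1 : G) * τ⁻¹) * τ = a.1 := by group
    rw [h]
    exact a.2⟩
  invFun b := ⟨⟨τ⁻¹ * b.1 * τ, p.hA _ b.2⟩, b.2⟩
  left_inv a := by
    apply Subtype.ext
    apply Subtype.ext
    change τ⁻¹ * (τ * (a.1 : G) * τ⁻¹) * τ = a.1
    group
  right_inv b := by
    apply Subtype.ext
    apply Subtype.ext
    change τ * (τ⁻¹ * (b.1 : G) * τ) * τ⁻¹ = b.1
    group
  map_mul' a b := by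
    apply Subtype.ext
    apply Subtype.ext
    change τ * ((a.1 : G) * (b.1 : G)) * τ⁻¹ = (τ * (a.1 : G) * τ⁻¹) * (τ * (b.1 : G) * τ⁻¹)
    group

/-- the HNN extension of `F` given by the conjugation by `τ` on `A` -/
abbrev HN (p : Pair τ) : Type := HNNExtension p.F (As p) (Bs p) (cj p)

/-- the relation -/
theorem hn_rel (p : Pair τ) (x : G) (h : x ∈ p.F) (ha : x ∈ p.A) (h' : τ * x * τ⁻¹ ∈ p.F) :
    (t : HN p) * of (⟨x, h⟩ : p.F) = of (⟨τ * x * τ⁻¹, h'⟩ : p.F) * t :=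
  t_mul_of (φ := cj p) ⟨⟨x, h⟩, ha⟩

/-- the homomorphism to `G` -/
noncomputable def down (p : Pair τ) : HN p →* G :=
  HNNExtension.lift p.F.subtype τ (by
    intro a
    change τ * (a.1 : G) = τ * (a.1 : G) * τ⁻¹ * τ
    group)

/-- the homomorphisms between the HNN extensions -/
noncomputable def up {p q : Pair τ} (h : p ≤ q) : HN p →* HN q :=
  HNNExtension.lift (of.comp (Subgroup.inclusion h.2)) t (by
    intro a
    exact hn_rel q (a.1 : G) (h.2 _ a.1.2) (h.1 _ a.2) (h.2 _ (p.hB _ a.2)))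

theorem up_of {p q : Pair τ} (h : p ≤ q) (x : p.F) :
    up h (of x) = of (⟨x.1, h.2 _ x.2⟩ : q.F) := HNNExtension.lift_of _ _ _ x

theorem up_t {p q : Pair τ} (h : p ≤ q) : up h (t : HN p) = t :=
  HNNExtension.lift_t _ _ _

theorem down_of (p : Pair τ) (x : p.F) : down p (of x) = x := HNNExtension.lift_of _ _ _ x

theorem down_t (p : Pair τ) : down p t = τ := HNNExtension.lift_t _ _ _

theorem up_refl (p : Pair τ) (h : p ≤ p) : up h = MonoidHom.id _ := by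
  refine HNNExtension.hom_ext ?_ ?_
  · ext x
    exact up_of h x
  · exact up_t h

theorem up_up {p q r : Pair τ} (h : p ≤ q) (h' : q ≤ r) :
    (up h').comp (up h) = up (h.trans h') := by
  refine HNNExtension.hom_ext ?_ ?_
  · ext x
    change up h' (up h (of x)) = up (h.trans h') (of x)
    rw [up_of, up_of, up_of]
  · change up h' (up h t) = up (h.trans h') t
    rw [up_t, up_t, up_t]

theorem up_up_apply {p q r : Pair τ} (h : p ≤ q) (h' : q ≤ r) (w : HN p) :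
    up h' (up h w) = up (h.trans h') w := DFunLike.congr_fun (up_up h h') w

theorem down_up {p q : Pair τ} (h : p ≤ q) :
    (down q).comp (up h) = down p := by
  refine HNNExtension.hom_ext ?_ ?_
  · ext x
    change down q (up h (of x)) = down p (of x)
    rw [up_of, down_of, down_of]
  · change down q (up h t) = down p t
    rw [up_t, down_t, down_t]

/-- `τ ^ m` and `x` can be interchanged in the HNN extension -/
def Gd (p : Pair τ) (x : G) (m : ℤ) : Prop :=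
  ∃ (h : x ∈ p.F) (h' : τ ^ m * x * (τ ^ m)⁻¹ ∈ p.F),
    (t : HN p) ^ m * of (⟨x, h⟩ : p.F) = of (⟨τ ^ m * x * (τ ^ m)⁻¹, h'⟩ : p.F) * t ^ m

theorem Gd.mono {p q : Pair τ} (hF : p ≤ q) {x : G} {m : ℤ} (h : Gd p x m) :
    Gd q x m := by
  obtain ⟨h1, h2, h3⟩ := h
  refine ⟨hF.2 _ h1, hF.2 _ h2, ?_⟩
  have h4 := congrArg (up hF) h3
  rw [map_mul, map_mul, map_zpow, up_t, up_of, up_of] at h4
  exact h4

theorem Gd.step {p : Pair τ} {x : G} {m : ℤ} (h1 : x ∈ p.A)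
    (h : Gd p (τ * x * τ⁻¹) m) : Gd p x (m + 1) := by
  obtain ⟨b1, b2, b3⟩ := h
  have e1 : τ ^ (m + 1) * x * (τ ^ (m + 1))⁻¹ = τ ^ m * (τ * x * τ⁻¹) * (τ ^ m)⁻¹ := by
    rw [zpow_add_one]
    group
  refine ⟨p.hA _ h1, by rw [e1]; exact b2, ?_⟩
  have e2 : (⟨τ ^ (m + 1) * x * (τ ^ (m + 1))⁻¹, by rw [e1]; exact b2⟩ : p.F) =
      ⟨τ ^ m * (τ * x * τ⁻¹) * (τ ^ m)⁻¹, b2⟩ := Subtype.ext e1
  rw [e2, zpow_add_one, mul_assoc, hn_rel p x (p.hA _ h1) h1 b1, ← mul_assoc, b3, mul_assoc]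

theorem Gd.back {p : Pair τ} {x : G} {m : ℤ} (h1 : τ⁻¹ * x * τ ∈ p.A)
    (h : Gd p (τ⁻¹ * x * τ) m) : Gd p x (m - 1) := by
  obtain ⟨b1, b2, b3⟩ := h
  have e0 : τ * (τ⁻¹ * x * τ) * τ⁻¹ = x := by group
  have hx : x ∈ p.F := by
    have := p.hB _ h1
    rwa [e0] at this
  have e1 : τ ^ (m - 1) * x * (τ ^ (m - 1))⁻¹ = τ ^ m * (τ⁻¹ * x * τ) * (τ ^ m)⁻¹ := by
    rw [zpow_sub_one]
    group
  refine ⟨hx, by rw [e1]; exact b2, ?_⟩
  have e2 : (⟨τ ^ (m - 1) * x * (τ ^ (m - 1))⁻¹, by rw [e1]; exact b2⟩ : p.F) =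
      ⟨τ ^ m * (τ⁻¹ * x * τ) * (τ ^ m)⁻¹, b2⟩ := Subtype.ext e1
  have e3 : (t : HN p)⁻¹ * of (⟨x, hx⟩ : p.F) = of (⟨τ⁻¹ * x * τ, b1⟩ : p.F) * t⁻¹ := by
    have h5 := hn_rel p (τ⁻¹ * x * τ) b1 h1 (by rw [e0]; exact hx)
    have h6 : (⟨τ * (τ⁻¹ * x * τ) * τ⁻¹, by rw [e0]; exact hx⟩ : p.F) = ⟨x, hx⟩ := Subtype.ext e0
    rw [h6] at h5
    rw [inv_mul_eq_iff_eq_mul, ← mul_assoc, h5, mul_inv_cancel_right]
  rw [e2, zpow_sub_one, mul_assoc, e3, ← mul_assoc, b3, mul_assoc]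

/-- A directed family of pairs whose union is `K`. -/
structure Dir (K : Subgroup G) (𝓕 : Set (Pair τ)) : Prop where
  ne : 𝓕.Nonempty
  le : ∀ p ∈ 𝓕, ∀ x ∈ p.F, x ∈ K
  dir : ∀ p ∈ 𝓕, ∀ q ∈ 𝓕, ∃ r ∈ 𝓕, p ≤ r ∧ q ≤ r
  cov : ∀ x ∈ K, ∃ p ∈ 𝓕, x ∈ p.A

variable {K : Subgroup G} {𝓕 : Set (Pair τ)}

theorem Dir.cov' (hD : Dir K 𝓕) (x : G) (hx : x ∈ K) (p : Pair τ) (hp : p ∈ 𝓕) :
    ∃ q ∈ 𝓕, p ≤ q ∧ x ∈ q.A := by
  obtain ⟨r, hr, hxr⟩ := hD.cov x hx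
  obtain ⟨q, hq, h1, h2⟩ := hD.dir p hp r hr
  exact ⟨q, hq, h1, h2.1 _ hxr⟩

/-- every element of `K` can be interchanged with `τ ^ m` in a large HNN extension -/
theorem exists_gd (hD : Dir K 𝓕) (hn : ∀ x ∈ K, τ * x * τ⁻¹ ∈ K) (hn' : ∀ x ∈ K, τ⁻¹ * x * τ ∈ K)
    (m : ℤ) : ∀ x ∈ K, ∀ p ∈ 𝓕, ∃ q ∈ 𝓕, p ≤ q ∧ Gd q x m := by
  induction m using Int.induction_on with
  | zero =>
    intro x hx p hp
    obtain ⟨q, hq, h1, h2⟩ := hD.cov' x hx p hp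
    refine ⟨q, hq, h1, q.hA _ h2, ?_, ?_⟩
    · simpa using q.hA _ h2
    · simp
  | succ m ih =>
    intro x hx p hp
    obtain ⟨q, hq, h1, h2⟩ := hD.cov' x hx p hp
    obtain ⟨r, hr, h3, h4⟩ := ih (τ * x * τ⁻¹) (hn x hx) q hq
    exact ⟨r, hr, h1.trans h3, Gd.step (h3.1 _ h2) h4⟩
  | pred m ih =>
    intro x hx p hp
    obtain ⟨q, hq, h1, h2⟩ := hD.cov' (τ⁻¹ * x * τ) (hn' x hx) p hp
    obtain ⟨r, hr, h3, h4⟩ := ih (τ⁻¹ * x * τ) (hn' x hx) q hq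
    exact ⟨r, hr, h1.trans h3, Gd.back (h3.1 _ h2) h4⟩

/-- every element of the HNN extensions becomes `x τ ^ m` in a large one -/
theorem exists_nf (hD : Dir K 𝓕) (hn : ∀ x ∈ K, τ * x * τ⁻¹ ∈ K) (hn' : ∀ x ∈ K, τ⁻¹ * x * τ ∈ K)
    {p : Pair τ} (hp : p ∈ 𝓕) (w : HN p) :
    ∃ (q : Pair τ) (h : p ≤ q), q ∈ 𝓕 ∧
      ∃ (x : q.F) (m : ℤ), up h w = of x * t ^ m := by
  induction w using HNNExtension.induction_on with
  | of x =>
    exact ⟨p, le_rfl, hp, x, 0, by rw [up_of]; simp⟩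
  | t =>
    exact ⟨p, le_rfl, hp, 1, 1, by rw [up_t]; simp⟩
  | mul u v hu hv =>
    obtain ⟨p₁, h1, k1, x, m, e1⟩ := hu
    obtain ⟨p₂, h2, k2, y, m', e2⟩ := hv
    obtain ⟨r, l1, l3, l4⟩ := hD.dir p₁ k1 p₂ k2
    obtain ⟨r', p1, p3, p4⟩ := exists_gd hD hn hn' m (y : G) (hD.le _ k2 _ y.2) r l1
    obtain ⟨q1, q2, q3⟩ := p4
    refine ⟨r', h1.trans (l3.trans p3), p1,
      ⟨(x : G) * (τ ^ m * y * (τ ^ m)⁻¹), r'.F.mul_mem (p3.2 _ (l3.2 _ x.2)) q2⟩, m + m', ?_⟩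
    have a1 := congrArg (up (l3.trans p3)) e1
    have a2 := congrArg (up (l4.trans p3)) e2
    rw [up_up_apply, map_mul, map_zpow, up_t, up_of] at a1 a2
    rw [map_mul]
    have a3 : up (h1.trans (l3.trans p3)) v = up (h2.trans (l4.trans p3)) v := rfl
    rw [a3, a1, a2]
    have a4 : (of (⟨(x : G) * (τ ^ m * y * (τ ^ m)⁻¹), r'.F.mul_mem (p3.2 _ (l3.2 _ x.2)) q2⟩ :
        r'.F) : HN r') = of (⟨(x : G), p3.2 _ (l3.2 _ x.2)⟩ : r'.F) *
          of (⟨τ ^ m * y * (τ ^ m)⁻¹, q2⟩ : r'.F) := by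
      rw [← map_mul]
      rfl
    rw [a4, zpow_add, mul_assoc, ← mul_assoc (t ^ m), q3]
    simp only [mul_assoc]
  | inv u hu =>
    obtain ⟨p₁, h1, k1, x, m, e1⟩ := hu
    obtain ⟨r', p1, p3, p4⟩ := exists_gd hD hn hn' (-m) ((x : G)⁻¹)
      (K.inv_mem (hD.le _ k1 _ x.2)) p₁ k1
    obtain ⟨q1, q2, q3⟩ := p4
    refine ⟨r', h1.trans p3, p1, ⟨_, q2⟩, -m, ?_⟩
    have a1 := congrArg (up p3) e1
    rw [up_up_apply, map_mul, map_zpow, up_t, up_of] at a1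
    rw [map_inv, a1, mul_inv_rev, ← map_inv, ← zpow_neg]
    exact q3

/-- **Cyclic extensions of directed unions.** -/
theorem dir_by_cyclic (hC : Closed C) (hD : Dir K 𝓕) (hn : ∀ x ∈ K, τ * x * τ⁻¹ ∈ K)
    (hn' : ∀ x ∈ K, τ⁻¹ * x * τ ∈ K) (hgen : ∀ g : G, ∃ x ∈ K, ∃ m : ℤ, g = x * τ ^ m)
    (hτ : ∀ m : ℤ, τ ^ m ∈ K → m = 0) (hHN : ∀ p ∈ 𝓕, C (HN p)) : C G := by
  classical
  let I : Type := {p : Pair τ // p ∈ 𝓕}
  haveI : Nonempty I := ⟨⟨_, hD.ne.some_mem⟩⟩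
  refine hC.colim I ?_ (fun i => HN i.1) (fun i j hij => up hij) G (fun i => down i.1)
    ?_ ?_ ?_ ?_ ?_ ?_
  · rintro ⟨p, hp⟩ ⟨q, hq⟩
    obtain ⟨r, hr, h1, h2⟩ := hD.dir p hp q hq
    exact ⟨⟨r, hr⟩, h1, h2⟩
  · intro i h x
    rw [up_refl]
    rfl
  · intro i j k h h' x
    exact up_up_apply h h' x
  · intro i j h x
    exact DFunLike.congr_fun (down_up h) x
  · intro g
    obtain ⟨x, hx, m, rfl⟩ := hgen g
    obtain ⟨p, hp, hxp⟩ := hD.cov x hx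
    refine ⟨⟨p, hp⟩, of (⟨x, p.hA _ hxp⟩ : p.F) * t ^ m, ?_⟩
    rw [map_mul, map_zpow, down_of, down_t]
  · rintro ⟨p, hp⟩ w hw
    obtain ⟨q, h, k, x, m, e⟩ := exists_nf hD hn hn' hp w
    refine ⟨⟨q, k⟩, h, ?_⟩
    have h1 : down q (up h w) = 1 := by
      have := DFunLike.congr_fun (down_up h) w
      exact this.trans hw
    rw [e, map_mul, map_zpow, down_of, down_t] at h1
    have h2 : m = 0 := by
      refine hτ m ?_
      have h3 : τ ^ m = (x : G)⁻¹ := eq_inv_of_mul_eq_one_right h1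
      rw [h3]
      exact K.inv_mem (hD.le _ k _ x.2)
    subst h2
    have h3 : x = 1 := by
      apply Subtype.ext
      simpa using h1
    rw [e, h3]
    simp
  · rintro ⟨p, hp⟩
    exact hHN p hp

end cyclic

/-- The pair has a homomorphism of `F` to a group of the class, injective, in which the conjugation
by `τ` on `A` is a conjugation. -/
def Ext (C : ∀ (G : Type) [Group G], Prop) {G : Type} [Group G] {τ : G} (p : Pair τ) : Prop :=
  ∃ (Q : Type) (_ : Group Q) (f : p.F →* Q) (x : Q), C Q ∧ Function.Injective f ∧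
    ∀ a (ha : a ∈ p.A), x * f ⟨a, p.hA a ha⟩ = f ⟨τ * a * τ⁻¹, p.hB a ha⟩ * x

theorem Ext.mem (hC : Closed C) (hE : ExtClosed C) {G : Type} [Group G] {τ : G} {p : Pair τ}
    (h : Ext C p) : C (HN p) := by
  obtain ⟨Q, _, f, x, hQ, hf, hx⟩ := h
  exact hnn_mem hC hE f hf x (fun a => hx a.1 a.2) hQ

/-- **Extensions whose kernel is a directed union on which the partial conjugations extend.** -/
theorem dir_kernel (hC : Closed C) (hE : ExtClosed C) {G Q : Type} [Group G] [Group Q] (f : G →* Q)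
    (hf : Function.Surjective f) (hQ : C Q) (hK : C f.ker)
    (h : ∀ q : Q, ¬ IsOfFinOrder q → ∃ g : G, f g = q ∧
      ∃ 𝓕 : Set (Pair g), Dir f.ker 𝓕 ∧ ∀ p ∈ 𝓕, Ext C p) :
    C G := by
  refine hE G Q f hf hQ hK ?_
  intro q hq
  obtain ⟨g₀, hg₀, 𝓕, hD, hext⟩ := h q hq
  let P : Subgroup G := (Subgroup.zpowers q).comap f
  have hker : ∀ x ∈ f.ker, x ∈ P := by
    intro x hx
    change f x ∈ Subgroup.zpowers q
    rw [MonoidHom.mem_ker.1 hx]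
    exact one_mem _
  let τ : P := ⟨g₀, by
    change f g₀ ∈ Subgroup.zpowers q
    rw [hg₀]
    exact Subgroup.mem_zpowers q⟩
  -- the pairs in `P`
  let tr : Pair g₀ → Pair τ := fun p =>
    { A := p.A.comap P.subtype
      F := p.F.comap P.subtype
      hA := fun x hx => p.hA _ hx
      hB := fun x hx => p.hB _ hx }
  refine dir_by_cyclic (G := P) (τ := τ) (K := (f.comp P.subtype).ker) (𝓕 := tr '' 𝓕) hC
    ?_ ?_ ?_ ?_ ?_ ?_
  · refine ⟨hD.ne.image _, ?_, ?_, ?_⟩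
    · rintro _ ⟨p, hp, rfl⟩ x hx
      exact hD.le p hp _ hx
    · rintro _ ⟨p, hp, rfl⟩ _ ⟨q, hq, rfl⟩
      obtain ⟨r, hr, h1, h2⟩ := hD.dir p hp q hq
      exact ⟨tr r, ⟨r, hr, rfl⟩, ⟨fun x hx => h1.1 _ hx, fun x hx => h1.2 _ hx⟩,
        ⟨fun x hx => h2.1 _ hx, fun x hx => h2.2 _ hx⟩⟩
    · intro x hx
      obtain ⟨p, hp, hxp⟩ := hD.cov x.1 hx
      exact ⟨tr p, ⟨p, hp, rfl⟩, hxp⟩
  · intro x hx
    exact (MonoidHom.normal_ker (f.comp P.subtype)).conj_mem x hx τ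
  · intro x hx
    have := (MonoidHom.normal_ker (f.comp P.subtype)).conj_mem x hx τ⁻¹
    rwa [inv_inv] at this
  · intro g
    obtain ⟨m, hm⟩ := g.2
    refine ⟨g * (τ ^ m)⁻¹, ?_, m, by group⟩
    rw [MonoidHom.mem_ker, map_mul, map_inv, map_zpow]
    change f g.1 * (f g₀ ^ m)⁻¹ = 1
    rw [hg₀]
    have hm' : q ^ m = f g.1 := hm
    rw [hm', mul_inv_cancel]
  · intro m hm
    rw [MonoidHom.mem_ker, map_zpow] at hm
    change f g₀ ^ m = 1 at hm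
    rw [hg₀] at hm
    by_contra h0
    exact hq (isOfFinOrder_iff_zpow_eq_one.2 ⟨m, h0, hm⟩)
  · rintro _ ⟨p, hp, rfl⟩
    obtain ⟨Q', _, φ, x, hQ', hφ, hx⟩ := hext p hp
    refine Ext.mem hC hE ⟨Q', inferInstance,
      φ.comp
        { toFun := fun y : (tr p).F => (⟨y.1.1, y.2⟩ : p.F)
          map_one' := rfl
          map_mul' := fun a b => rfl }, x, hQ', ?_, ?_⟩
    · refine hφ.comp ?_
      intro a b hab
      apply Subtype.ext
      apply Subtype.ext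
      exact congrArg (fun z : p.F => (z : G)) hab
    · intro a ha
      exact hx a.1 ha

end Pool.Agent.Q105.FJ
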