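import Pool.Agent.Q152.WP.Perm
import Pool.Agent.Y179.SS.Free
import Pool.Agent.H26R2.Idem.Tree

/-!
# Semidirect products of free groups with groups that permute a basis

If `Q` is in the class `C` and acts on the set `Y`, the semidirect product `F(Y) ⋊ Q` is in `C`.
So are the HNN extensions and the amalgamated free products with a homomorphism to a group of the
class which is injective on the vertex groups.
-/

set_option autoImplicit false
set_option linter.unusedSectionVars false
set_option linter.style.haveILetI false

namespace Pool.Agent.Q105.FJ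

open Pool.Agent.Y462.SS Pool.Agent.Q152.WP Pool.Agent.H26R2.Idem

variable {C : ∀ (G : Type) [Group G], Prop}

/-- the infinite cyclic group -/
abbrev Zm : Type := Multiplicative ℤ

section maps

variable {Q Y Y' : Type} [Group Q] [MulAction Q Y] [MulAction Q Y']

/-- functoriality in the set -/
noncomputable def wmap (f : Y → Y') (hf : ∀ (q : Q) (y : Y), f (q • y) = q • f y) :
    WW Q Y →* WW Q Y' :=
  SemidirectProduct.map (FreeGroup.map f) (MonoidHom.id Q) (by
    intro q
    ext y
    simp [pAct_of, hf])

theorem wmap_left (f : Y → Y') (hf : ∀ (q : Q) (y : Y), f (q • y) = q • f y) (g : WW Q Y) :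
    (wmap f hf g).left = FreeGroup.map f g.left := rfl

theorem wmap_right (f : Y → Y') (hf : ∀ (q : Q) (y : Y), f (q • y) = q • f y) (g : WW Q Y) :
    (wmap f hf g).right = g.right := rfl

theorem fmap_injective {f : Y → Y'} (hi : Function.Injective f) :
    Function.Injective (FreeGroup.map f) := by
  classical
  by_cases h : Nonempty Y
  · obtain ⟨g, hg⟩ := hi.hasLeftInverse
    intro a b hab
    have h1 := congrArg (FreeGroup.map g) hab
    rw [FreeGroup.map.comp, FreeGroup.map.comp] at h1
    have h2 : g ∘ f = id := funext hg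
    rw [h2, FreeGroup.map.id, FreeGroup.map.id] at h1
    exact h1
  · haveI : IsEmpty Y := not_nonempty_iff.1 h
    intro a b _
    exact Subsingleton.elim a b

theorem wmap_injective {f : Y → Y'} (hf : ∀ (q : Q) (y : Y), f (q • y) = q • f y)
    (hi : Function.Injective f) : Function.Injective (wmap f hf) := by
  intro a b hab
  have h1 := congrArg SemidirectProduct.left hab
  have h2 := congrArg SemidirectProduct.right hab
  rw [wmap_left, wmap_left] at h1
  rw [wmap_right, wmap_right] at h2
  exact SemidirectProduct.ext (fmap_injective hi h1) h2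

end maps

/-- finite sets -/
theorem ww_fin (hC : Closed C) (T : Type) [Finite T] [MulAction Zm T] : C (WW Zm T) := by
  classical
  let φ : WW Zm T →* Equiv.Perm T :=
    (MulAction.toPermHom Zm T).comp SemidirectProduct.rightHom
  refine hC.finiteIndex _ φ.ker (Subgroup.finiteIndex_ker φ) ?_
  refine hC.of_injective _ (FreeGroup T × Zm)
    { toFun := fun g => (g.1.left, g.1.right)
      map_one' := rfl
      map_mul' := fun a b => ?_ } ?_ (hC.prod _ _ (Pool.Agent.Y179.SS.t_free C hC T) hC.int)
  · have h1 : MulAction.toPermHom Zm T a.1.right = 1 := a.2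
    have h2 : pAct Zm T a.1.right b.1.left = b.1.left := by
      have h3 : ∀ z : FreeGroup T, pAct Zm T a.1.right z = z := by
        intro z
        induction z using FreeGroup.induction_on with
        | C1 => exact map_one _
        | of y =>
          rw [pAct_of]
          congr 1
          exact DFunLike.congr_fun h1 y
        | inv_of y hy => rw [map_inv, hy]
        | mul u v hu hv => rw [map_mul, hu, hv]
      exact h3 _
    refine Prod.ext ?_ rfl
    change a.1.left * pAct Zm T a.1.right b.1.left = a.1.left * b.1.left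
    rw [h2]
  · intro a b hab
    apply Subtype.ext
    exact SemidirectProduct.ext (congrArg Prod.fst hab) (congrArg Prod.snd hab)

/-- the invariant subset generated by a finite set -/
def gen (Y : Type) [MulAction Zm Y] (F : Finset Y) : SubMulAction Zm Y where
  carrier := {y | ∃ x ∈ F, y ∈ MulAction.orbit Zm x}
  smul_mem' := by
    rintro c y ⟨x, hx, hy⟩
    exact ⟨x, hx, MulAction.mem_orbit_of_mem_orbit c hy⟩

/-- a subset all of whose orbits are finite -/
theorem ww_forb (hC : Closed C) (Y : Type) [MulAction Zm Y]
    (hY : ∀ y : Y, (MulAction.orbit Zm y).Finite) : C (WW Zm Y) := by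
  classical
  let K : Finset Y → Subgroup (WW Zm Y) := fun F =>
    (wmap (Y := gen Y F) (Y' := Y) Subtype.val (fun _ _ => rfl)).range
  have hmem : ∀ (F : Finset Y) (g : WW Zm Y), (∃ z : FreeGroup (gen Y F),
      FreeGroup.map Subtype.val z = g.left) → g ∈ K F := by
    rintro F g ⟨z, hz⟩
    exact ⟨⟨z, g.right⟩, SemidirectProduct.ext hz rfl⟩
  refine Pool.Agent.Y430.SS.of_directed hC _ (Finset Y) (fun i j => ⟨i ∪ j,
    Finset.subset_union_left, Finset.subset_union_right⟩) K ?_ ?_ ?_
  · rintro F F' hF g ⟨h, rfl⟩
    refine hmem _ _ ⟨FreeGroup.map (fun y : gen Y F => (⟨y.1, ?_⟩ : gen Y F')) h.left, ?_⟩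
    · obtain ⟨x, hx, hy⟩ := y.2
      exact ⟨x, hF hx, hy⟩
    · rw [FreeGroup.map.comp, wmap_left]
      rfl
  · intro g
    obtain ⟨z, q⟩ := g
    induction z using FreeGroup.induction_on with
    | C1 => exact ⟨∅, hmem _ _ ⟨1, by simp⟩⟩
    | of y =>
      exact ⟨{y}, hmem _ _ ⟨FreeGroup.of ⟨y, y, by simp, MulAction.mem_orbit_self y⟩, by simp⟩⟩
    | inv_of y _ =>
      exact ⟨{y}, hmem _ _ ⟨(FreeGroup.of ⟨y, y, by simp, MulAction.mem_orbit_self y⟩)⁻¹,
        by simp⟩⟩
    | mul u v hu hv =>
      obtain ⟨F, ⟨a, ha⟩⟩ := hu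
      obtain ⟨F', ⟨b, hb⟩⟩ := hv
      have ha' := congrArg SemidirectProduct.left ha
      have hb' := congrArg SemidirectProduct.left hb
      rw [wmap_left] at ha' hb'
      refine ⟨F ∪ F', hmem _ _ ⟨FreeGroup.map (fun y : gen Y F => (⟨y.1, ?_⟩ : gen Y (F ∪ F')))
        a.left * FreeGroup.map (fun y : gen Y F' => (⟨y.1, ?_⟩ : gen Y (F ∪ F'))) b.left, ?_⟩⟩
      · obtain ⟨x, hx, hy⟩ := y.2
        exact ⟨x, Finset.mem_union_left _ hx, hy⟩
      · obtain ⟨x, hx, hy⟩ := y.2
        exact ⟨x, Finset.mem_union_right _ hx, hy⟩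
      · rw [map_mul, FreeGroup.map.comp, FreeGroup.map.comp]
        change FreeGroup.map Subtype.val a.left * FreeGroup.map Subtype.val b.left = u * v
        rw [ha', hb']
  · intro F
    have hfin : Finite (gen Y F) := by
      have h1 : ((gen Y F : SubMulAction Zm Y) : Set Y) = ⋃ x ∈ F, MulAction.orbit Zm x := by
        ext y
        rw [Set.mem_iUnion₂]
        exact ⟨fun ⟨x, h1, h2⟩ => ⟨x, h1, h2⟩, fun ⟨x, h1, h2⟩ => ⟨x, h1, h2⟩⟩
      have h2 : ((gen Y F : SubMulAction Zm Y) : Set Y).Finite := by
        rw [h1]
        exact Set.Finite.biUnion F.finite_toSet (fun x _ => hY x)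
      exact h2.to_subtype
    refine Pool.Agent.Y812.SS.C_equiv hC (MonoidHom.ofInjective
      (wmap_injective (Y := gen Y F) (Y' := Y) (fun _ _ => rfl) Subtype.val_injective)).symm ?_
    exact ww_fin hC _

/-- the orbit of a point with a period is finite -/
theorem orbit_finite {Y : Type} [MulAction Zm Y] (y : Y) (n : Zm) (hn : n ≠ 1)
    (h : n • y = y) : (MulAction.orbit Zm y).Finite := by
  have h1 : (MulAction.stabilizer Zm y).index ≠ 0 := by
    have h2 : Subgroup.zpowers n ≤ MulAction.stabilizer Zm y := by
      rw [Subgroup.zpowers_le]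
      exact h
    have h3 : (Subgroup.zpowers n).index ≠ 0 := by
      have h4 : (Subgroup.zpowers n).index =
        (AddSubgroup.zmultiples (Multiplicative.toAdd n)).index := rfl
      rw [h4, Int.index_zmultiples, Int.natAbs_ne_zero]
      intro h0
      exact hn (Multiplicative.toAdd.injective h0)
    intro h0
    have h5 := Subgroup.index_dvd_of_le h2
    rw [h0, zero_dvd_iff] at h5
    exact h3 h5
  rw [MulAction.index_stabilizer] at h1
  exact Set.finite_of_ncard_ne_zero h1

/-- the points with finite orbit -/
def fo (Y : Type) [MulAction Zm Y] : SubMulAction Zm Y where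
  carrier := {y | (MulAction.orbit Zm y).Finite}
  smul_mem' := by
    intro c y hy
    change (MulAction.orbit Zm (c • y)).Finite
    rwa [MulAction.orbit_smul]

/-- a set with an action of the infinite cyclic group -/
theorem ww_int (hC : Closed C) (Y : Type) [MulAction Zm Y] : C (WW Zm Y) := by
  classical
  -- representatives
  let r : Y → Y := fun y => (Quotient.out (Quotient.mk (MulAction.orbitRel Zm Y) y))
  have hr : ∀ y, ∃ n : Zm, n • r y = y := by
    intro y
    have h1 : (MulAction.orbitRel Zm Y) (r y) y := Quotient.mk_out (s := MulAction.orbitRel Zm Y) y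
    have h2 := (MulAction.orbitRel Zm Y).symm h1
    exact h2
  have hr2 : ∀ (k : Zm) (y : Y), r (k • y) = r y := by
    intro k y
    have h1 : (Quotient.mk (MulAction.orbitRel Zm Y) (k • y)) =
        Quotient.mk (MulAction.orbitRel Zm Y) y := Quotient.sound ⟨k, rfl⟩
    change Quotient.out _ = Quotient.out _
    rw [h1]
  choose n hn using hr
  have hn2 : ∀ (k : Zm) (y : Y), ¬ (MulAction.orbit Zm y).Finite → n (k • y) = k * n y := by
    intro k y hy
    have h1 := hn (k • y)
    rw [hr2] at h1
    by_contra hne
    have h2 : (k * n y) • r y = k • y := by rw [mul_smul, hn]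
    have h3 : ((k * n y)⁻¹ * n (k • y)) • r y = r y := by
      rw [mul_smul, h1, ← h2, inv_smul_smul]
    have h4 : (k * n y)⁻¹ * n (k • y) ≠ 1 := by
      intro h5
      exact hne (inv_mul_eq_one.1 h5).symm
    have h5 := orbit_finite (r y) _ h4 h3
    apply hy
    rw [← hn y, MulAction.orbit_smul]
    exact h5
  let T := Monoid.Coprod (WW Zm (fo Y)) (FreeGroup Y)
  let c : Zm →* T := Monoid.Coprod.inl.comp SemidirectProduct.inr
  let e : Y → T := fun y => if h : (MulAction.orbit Zm y).Finite then
    Monoid.Coprod.inl (SemidirectProduct.inl (FreeGroup.of ⟨y, h⟩)) else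
    c (n y) * Monoid.Coprod.inr (FreeGroup.of (r y)) * (c (n y))⁻¹
  have he : ∀ (k : Zm) (y : Y), e (k • y) = c k * e y * (c k)⁻¹ := by
    intro k y
    by_cases hy : (MulAction.orbit Zm y).Finite
    · have hy' : (MulAction.orbit Zm (k • y)).Finite := by rwa [MulAction.orbit_smul]
      have e1 : e y = Monoid.Coprod.inl (SemidirectProduct.inl (FreeGroup.of ⟨y, hy⟩)) := dif_pos hy
      have e2 : e (k • y) = Monoid.Coprod.inl (SemidirectProduct.inl (FreeGroup.of ⟨k • y, hy'⟩)) :=
        dif_pos hy'
      rw [e1, e2]
      change _ = Monoid.Coprod.inl (SemidirectProduct.inr k) * _ *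
        (Monoid.Coprod.inl (SemidirectProduct.inr k))⁻¹
      rw [← map_inv, ← map_mul, ← map_mul]
      congr 1
      have h3 := inr_inl (Y := fo Y) k (FreeGroup.of ⟨y, hy⟩)
      rw [h3, mul_inv_cancel_right, pAct_of]
      rfl
    · have hy' : ¬ (MulAction.orbit Zm (k • y)).Finite := by rwa [MulAction.orbit_smul]
      have e1 : e y = c (n y) * Monoid.Coprod.inr (FreeGroup.of (r y)) * (c (n y))⁻¹ := dif_neg hy
      have e2 : e (k • y) = c (n (k • y)) * Monoid.Coprod.inr (FreeGroup.of (r (k • y))) *
        (c (n (k • y)))⁻¹ := dif_neg hy'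
      rw [e1, e2, hn2 k y hy, hr2, map_mul, mul_inv_rev]
      simp only [mul_assoc]
  let E : WW Zm Y →* T := SemidirectProduct.lift (FreeGroup.lift e) c (by
    intro k
    ext y
    simp [pAct_of, he])
  let R : T →* WW Zm Y := Monoid.Coprod.lift (wmap Subtype.val (fun _ _ => rfl))
    (FreeGroup.lift fun y => SemidirectProduct.inl (FreeGroup.of y))
  have hRc : ∀ k, R (c k) = SemidirectProduct.inr k := by
    intro k
    change R (Monoid.Coprod.inl (SemidirectProduct.inr k)) = _
    change (Monoid.Coprod.lift (wmap Subtype.val (fun _ _ => rfl))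
      (FreeGroup.lift fun y => SemidirectProduct.inl (FreeGroup.of y))) _ = _
    rw [Monoid.Coprod.lift_apply_inl]
    exact SemidirectProduct.ext (by rw [wmap_left]; simp) rfl
  have hRe : ∀ y, R (e y) = SemidirectProduct.inl (FreeGroup.of y) := by
    intro y
    by_cases hy : (MulAction.orbit Zm y).Finite
    · have e1 : e y = Monoid.Coprod.inl (SemidirectProduct.inl (FreeGroup.of ⟨y, hy⟩)) := dif_pos hy
      rw [e1]
      change (Monoid.Coprod.lift (wmap Subtype.val (fun _ _ => rfl))
        (FreeGroup.lift fun y => SemidirectProduct.inl (FreeGroup.of y))) _ = _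
      rw [Monoid.Coprod.lift_apply_inl]
      exact SemidirectProduct.ext (by rw [wmap_left]; simp) rfl
    · have e1 : e y = c (n y) * Monoid.Coprod.inr (FreeGroup.of (r y)) * (c (n y))⁻¹ := dif_neg hy
      rw [e1, map_mul, map_mul, map_inv, hRc]
      have h2 : R (Monoid.Coprod.inr (FreeGroup.of (r y))) =
          SemidirectProduct.inl (FreeGroup.of (r y)) := by
        change (Monoid.Coprod.lift (wmap Subtype.val (fun _ _ => rfl))
          (FreeGroup.lift fun y => SemidirectProduct.inl (FreeGroup.of y))) _ = _
        rw [Monoid.Coprod.lift_apply_inr]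
        simp
      rw [h2, inr_inl, pAct_of, hn, mul_inv_cancel_right]
  have hRE : R.comp E = MonoidHom.id _ := by
    refine SemidirectProduct.hom_ext ?_ ?_
    · ext1 y
      change R (E (SemidirectProduct.inl (FreeGroup.of y))) = SemidirectProduct.inl (FreeGroup.of y)
      have h1 : E (SemidirectProduct.inl (FreeGroup.of y)) = e y := by
        change SemidirectProduct.lift _ _ _ _ = _
        rw [SemidirectProduct.lift_inl, FreeGroup.lift_apply_of]
      rw [h1, hRe]
    · refine MonoidHom.ext fun k => ?_
      change R (E (SemidirectProduct.inr k)) = SemidirectProduct.inr k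
      have h1 : E (SemidirectProduct.inr k) = c k := by
        change SemidirectProduct.lift _ _ _ _ = _
        rw [SemidirectProduct.lift_inr]
      rw [h1, hRc]
  refine hC.of_injective _ T E ?_ (hC.coprod _ _ (ww_forb hC (fo Y) ?_)
    (Pool.Agent.Y179.SS.t_free C hC Y))
  · intro a b hab
    have h1 := DFunLike.congr_fun hRE a
    have h2 := DFunLike.congr_fun hRE b
    simp only [MonoidHom.comp_apply, MonoidHom.id_apply] at h1 h2
    rw [← h1, ← h2, hab]
  · intro y
    have h1 : (MulAction.orbit Zm (y : Y)).Finite := y.2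
    have h2 : (Subtype.val '' (MulAction.orbit Zm y)) ⊆ MulAction.orbit Zm (y : Y) := by
      rintro _ ⟨_, ⟨k, rfl⟩, rfl⟩
      exact ⟨k, rfl⟩
    exact Set.Finite.of_finite_image (h1.subset h2) Subtype.val_injective.injOn

/-- **The semidirect product of a free group with a group that permutes a basis.** -/
theorem ww_mem (hC : Closed C) (hE : ExtClosed C) (Q Y : Type) [Group Q] [MulAction Q Y]
    (hQ : C Q) : C (WW Q Y) := by
  refine hE _ Q SemidirectProduct.rightHom SemidirectProduct.rightHom_surjective hQ ?_ ?_
  · refine hC.of_injective _ (FreeGroup Y)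
      { toFun := fun g => g.1.left
        map_one' := rfl
        map_mul' := fun a b => ?_ } ?_ (Pool.Agent.Y179.SS.t_free C hC Y)
    · have ha : a.1.right = 1 := a.2
      change a.1.left * pAct Q Y a.1.right b.1.left = a.1.left * b.1.left
      rw [ha, map_one]
      rfl
    · intro a b hab
      apply Subtype.ext
      have ha : a.1.right = 1 := a.2
      have hb : b.1.right = 1 := b.2
      exact SemidirectProduct.ext hab (ha.trans hb.symm)
  · intro q hq
    letI : MulAction Zm Y := MulAction.compHom Y (zpowersHom Q q)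
    have hex : ∀ g : (Subgroup.zpowers q).comap
        (SemidirectProduct.rightHom : WW Q Y →* Q), ∃ n : Zm, zpowersHom Q q n = g.1.right := by
      intro g
      obtain ⟨n, hn⟩ := g.2
      exact ⟨Multiplicative.ofAdd n, hn⟩
    choose n hn using hex
    have hinj : Function.Injective (zpowersHom Q q) := by
      intro a b hab
      apply Multiplicative.toAdd.injective
      exact (injective_zpow_iff_not_isOfFinOrder.2 hq) hab
    refine hC.of_injective _ (WW Zm Y)
      { toFun := fun g => ⟨g.1.left, n g⟩
        map_one' := ?_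
        map_mul' := fun a b => ?_ } ?_ (ww_int hC Y)
    · refine SemidirectProduct.ext rfl ?_
      apply hinj
      change zpowersHom Q q (n 1) = zpowersHom Q q 1
      rw [hn, map_one]
      rfl
    · refine SemidirectProduct.ext ?_ ?_
      · change a.1.left * pAct Q Y a.1.right b.1.left = a.1.left * pAct Zm Y (n a) b.1.left
        congr 1
        have h3 : ∀ z : FreeGroup Y, pAct Q Y a.1.right z = pAct Zm Y (n a) z := by
          intro z
          induction z using FreeGroup.induction_on with
          | C1 => rw [map_one, map_one]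
          | of y =>
            rw [pAct_of, pAct_of, ← hn a]
            rfl
          | inv_of y hy => rw [map_inv, hy, map_inv]
          | mul u v hu hv => rw [map_mul, hu, hv, map_mul]
        exact h3 _
      · apply hinj
        change zpowersHom Q q (n (a * b)) = zpowersHom Q q (n a * n b)
        rw [map_mul, hn, hn, hn]
        rfl
    · intro a b hab
      apply Subtype.ext
      have h1 : a.1.left = b.1.left := congrArg (fun w : WW Zm Y => w.left) hab
      have h2 : n a = n b := congrArg (fun w : WW Zm Y => w.right) hab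
      refine SemidirectProduct.ext h1 ?_
      rw [← hn a, ← hn b, h2]

/-- **HNN extensions with a homomorphism that is injective on the vertex group.** -/
theorem hnn_mem (hC : Closed C) (hE : ExtClosed C) {G Q : Type} [Group G] [Group Q]
    {A B : Subgroup G} {φ : A ≃* B} (f : G →* Q) (hf : Function.Injective f) (x : Q)
    (hx : ∀ a : A, x * f a = f (φ a : G) * x) (hQ : C Q) : C (HNNExtension G A B φ) :=
  hC.of_injective _ _ (Psi f x hx) (Psi_injective f hf x hx) (ww_mem hC hE _ _ hQ)

/-- **Amalgamated free products with a homomorphism that is injective on the vertex groups.** -/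
theorem pushout_mem (hC : Closed C) (hE : ExtClosed C) {ι : Type} [Nonempty ι] {G : ι → Type}
    {H Q : Type} [∀ i, Group (G i)] [Group H] [Group Q] {φ : ∀ i, H →* G i}
    (hφ : ∀ i, Function.Injective (φ i)) (f : ∀ i, G i →* Q)
    (hf : ∀ i, Function.Injective (f i)) (k : H →* Q) (hfk : ∀ i, (f i).comp (φ i) = k)
    (hQ : C Q) : C (Monoid.PushoutI φ) :=
  hC.of_injective _ _ (Phi k f hfk) (Phi_injective hφ k f hf hfk) (ww_mem hC hE _ _ hQ)

end Pool.Agent.Q105.FJ
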