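import Mathlib

/-!
# Graph products of copies of a group

`GP Λ P`: the graph product of copies of the group `P` over the graph `Λ`, i.e. the quotient of the
free product of the copies `P v` (`v` a vertex) by the relations that `P v` and `P w` commute for
adjacent `v`, `w`.
-/

set_option autoImplicit false
set_option linter.unusedSectionVars false
set_option linter.style.haveILetI false

namespace Pool.Agent.Q105.FJ

open Monoid

/-- the vertex groups in the free product -/
def vof {V : Type} (P : Type) [Group P] (v : V) : P →* CoprodI (fun _ : V => P) :=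
  CoprodI.of (M := fun _ : V => P) (i := v)

/-- the defining relators of the graph product: the commutators of the elements of two vertex groups
at adjacent vertices -/
def gpRel {V : Type} (Λ : SimpleGraph V) (P : Type) [Group P] : Set (CoprodI fun _ : V => P) :=
  {z | ∃ v w : V, Λ.Adj v w ∧ ∃ p q : P,
    z = vof P v p * vof P w q * (vof P v p)⁻¹ * (vof P w q)⁻¹}

/-- the graph product of copies of `P` over the graph `Λ` -/
def GP {V : Type} (Λ : SimpleGraph V) (P : Type) [Group P] : Type :=
  (CoprodI fun _ : V => P) ⧸ Subgroup.normalClosure (gpRel Λ P)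

namespace GP

variable {V V' V'' : Type} {Λ : SimpleGraph V} {Λ' : SimpleGraph V'} {Λ'' : SimpleGraph V''}
  {P : Type} [Group P] {H : Type} [Group H]

instance : Group (GP Λ P) := inferInstanceAs (Group (_ ⧸ _))

/-- the vertex groups -/
def of (v : V) : P →* GP Λ P :=
  (QuotientGroup.mk' (Subgroup.normalClosure (gpRel Λ P))).comp (vof P v)

theorem of_comm {v w : V} (h : Λ.Adj v w) (p q : P) :
    (of v p : GP Λ P) * of w q = of w q * of v p := by
  have h1 : ((vof P v p * vof P w q * (vof P v p)⁻¹ * (vof P w q)⁻¹ : CoprodI fun _ : V => P) :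
      (CoprodI fun _ : V => P) ⧸ Subgroup.normalClosure (gpRel Λ P)) = 1 :=
    (QuotientGroup.eq_one_iff _).2 (Subgroup.subset_normalClosure ⟨v, w, h, p, q, rfl⟩)
  have h2 : (of v p : GP Λ P) * of w q * (of v p)⁻¹ * (of w q)⁻¹ = 1 := h1
  rw [mul_inv_eq_one, mul_inv_eq_iff_eq_mul] at h2
  exact h2

/-- the universal property -/
def lift (g : V → P →* H) (hg : ∀ v w, Λ.Adj v w → ∀ p q, g v p * g w q = g w q * g v p) :
    GP Λ P →* H :=
  QuotientGroup.lift _ (CoprodI.lift (M := fun _ : V => P) g) (by
    intro z hz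
    have h1 : Subgroup.normalClosure (gpRel Λ P) ≤ (CoprodI.lift (M := fun _ : V => P) g).ker := by
      refine Subgroup.normalClosure_le_normal ?_
      rintro _ ⟨v, w, h, p, q, rfl⟩
      have h3 : ∀ (v : V) (p : P), CoprodI.lift (M := fun _ : V => P) g (vof P v p) = g v p :=
        fun v p => CoprodI.lift_of (M := fun _ : V => P) g p
      change CoprodI.lift (M := fun _ : V => P) g _ = 1
      rw [map_mul, map_mul, map_mul, map_inv, map_inv, h3, h3, hg v w h p q]
      group
    exact h1 hz)

theorem lift_of (g : V → P →* H) (hg : ∀ v w, Λ.Adj v w → ∀ p q, g v p * g w q = g w q * g v p)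
    (v : V) (p : P) : lift (Λ := Λ) g hg (of v p) = g v p :=
  CoprodI.lift_of (M := fun _ : V => P) g p

theorem hom_ext {f g : GP Λ P →* H} (h : ∀ v p, f (of v p) = g (of v p)) : f = g := by
  refine QuotientGroup.monoidHom_ext _ ?_
  refine CoprodI.ext_hom _ _ (fun v => ?_)
  ext p
  exact h v p

theorem induction {motive : GP Λ P → Prop} (one : motive 1) (gen : ∀ v p, motive (of v p))
    (mul : ∀ x y, motive x → motive y → motive (x * y)) (x : GP Λ P) : motive x := by
  obtain ⟨y, rfl⟩ := QuotientGroup.mk_surjective x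
  induction y using CoprodI.induction_on with
  | one => exact one
  | of i m => exact gen i m
  | mul a b ha hb => exact mul _ _ ha hb

/-- functoriality in the graph -/
def map (f : V → V') (hf : ∀ v w, Λ.Adj v w → Λ'.Adj (f v) (f w)) : GP Λ P →* GP Λ' P :=
  lift (fun v => of (f v)) (fun v w h p q => of_comm (hf v w h) p q)

theorem map_of (f : V → V') (hf : ∀ v w, Λ.Adj v w → Λ'.Adj (f v) (f w)) (v : V) (p : P) :
    map (Λ := Λ) (Λ' := Λ') f hf (of v p) = of (f v) p := lift_of _ _ _ _

theorem map_map (f : V → V') (hf : ∀ v w, Λ.Adj v w → Λ'.Adj (f v) (f w))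
    (g : V' → V'') (hg : ∀ v w, Λ'.Adj v w → Λ''.Adj (g v) (g w)) (x : GP Λ P) :
    map (Λ := Λ') (Λ' := Λ'') g hg (map f hf x) =
      map (Λ := Λ) (Λ' := Λ'') (g ∘ f) (fun v w h => hg _ _ (hf _ _ h)) x := by
  have h : (map (P := P) (Λ := Λ') (Λ' := Λ'') g hg).comp (map f hf) =
      map (Λ := Λ) (Λ' := Λ'') (g ∘ f) (fun v w h => hg _ _ (hf _ _ h)) := by
    refine hom_ext (fun v p => ?_)
    rw [MonoidHom.comp_apply, map_of, map_of, map_of]
    rfl
  exact DFunLike.congr_fun h x

theorem map_id (hf : ∀ v w, Λ.Adj v w → Λ.Adj (id v) (id w)) (x : GP Λ P) :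
    map (Λ := Λ) (Λ' := Λ) id hf x = x := by
  have h : map (P := P) (Λ := Λ) (Λ' := Λ) id hf = MonoidHom.id _ := by
    refine hom_ext (fun v p => ?_)
    rw [map_of]
    rfl
  exact DFunLike.congr_fun h x

theorem map_congr {f g : V → V'} (hfg : f = g) (hf : ∀ v w, Λ.Adj v w → Λ'.Adj (f v) (f w))
    (hg : ∀ v w, Λ.Adj v w → Λ'.Adj (g v) (g w)) (x : GP Λ P) :
    map (Λ := Λ) (Λ' := Λ') f hf x = map g hg x := by
  subst hfg
  rfl

open scoped Classical in
/-- the retraction to a full subgraph -/
noncomputable def retr (f : V → V') (hfi : Function.Injective f)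
    (hfull : ∀ v w, Λ'.Adj (f v) (f w) → Λ.Adj v w) : GP Λ' P →* GP Λ P :=
  lift (fun v' => if h : ∃ v, f v = v' then of h.choose else 1) (by
    intro v' w' h p q
    by_cases hv : ∃ v, f v = v'
    · by_cases hw : ∃ w, f w = w'
      · rw [dif_pos hv, dif_pos hw]
        refine of_comm (hfull _ _ ?_) p q
        rw [hv.choose_spec, hw.choose_spec]
        exact h
      · rw [dif_neg hw]
        simp
    · rw [dif_neg hv]
      simp)

theorem retr_map (f : V → V') (hfi : Function.Injective f)
    (hfull : ∀ v w, Λ'.Adj (f v) (f w) → Λ.Adj v w)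
    (hf : ∀ v w, Λ.Adj v w → Λ'.Adj (f v) (f w)) (x : GP Λ P) :
    retr f hfi hfull (map f hf x) = x := by
  classical
  have h : (retr (P := P) f hfi hfull).comp (map f hf) = MonoidHom.id _ := by
    refine hom_ext (fun v p => ?_)
    rw [MonoidHom.comp_apply, map_of]
    unfold retr
    rw [lift_of]
    have h1 : ∃ w, f w = f v := ⟨v, rfl⟩
    rw [dif_pos h1]
    have h2 : h1.choose = v := hfi h1.choose_spec
    rw [h2]
    rfl
  exact DFunLike.congr_fun h x

theorem map_injective (f : V → V') (hfi : Function.Injective f)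
    (hfull : ∀ v w, Λ'.Adj (f v) (f w) → Λ.Adj v w)
    (hf : ∀ v w, Λ.Adj v w → Λ'.Adj (f v) (f w)) :
    Function.Injective (map (P := P) (Λ := Λ) (Λ' := Λ') f hf) :=
  Function.LeftInverse.injective (g := retr f hfi hfull) (retr_map f hfi hfull hf)

/-- the automorphisms given by the automorphisms of the graph -/
noncomputable def aut [MulAction H V] (Λ : SimpleGraph V) (P : Type) [Group P]
    (hΛ : ∀ (h : H) (v w : V), Λ.Adj v w → Λ.Adj (h • v) (h • w)) : H →* MulAut (GP Λ P) where
  toFun h :=
    { toFun := map (fun v => h • v) (hΛ h)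
      invFun := map (fun v => h⁻¹ • v) (hΛ h⁻¹)
      left_inv := fun x => by
        rw [map_map]
        have h1 : ((fun v : V => h⁻¹ • v) ∘ fun v => h • v) = id := by
          funext v
          simp
        rw [map_congr h1 _ (fun v w h => h), map_id]
      right_inv := fun x => by
        rw [map_map]
        have h1 : ((fun v : V => h • v) ∘ fun v => h⁻¹ • v) = id := by
          funext v
          simp
        rw [map_congr h1 _ (fun v w h => h), map_id]
      map_mul' := fun x y => map_mul _ x y }
  map_one' := by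
    ext x
    change map (fun v => (1 : H) • v) (hΛ 1) x = x
    have h1 : (fun v : V => (1 : H) • v) = id := by
      funext v
      simp
    rw [map_congr h1 _ (fun v w h => h), map_id]
  map_mul' a b := by
    ext x
    change map (fun v => (a * b) • v) (hΛ (a * b)) x =
      map (fun v => a • v) (hΛ a) (map (fun v => b • v) (hΛ b) x)
    rw [map_map]
    refine map_congr ?_ _ _ x
    funext v
    simp [mul_smul]

theorem aut_apply [MulAction H V]
    (hΛ : ∀ (h : H) (v w : V), Λ.Adj v w → Λ.Adj (h • v) (h • w)) (h : H) (x : GP Λ P) :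
    aut Λ P hΛ h x = map (fun v => h • v) (hΛ h) x := rfl

theorem aut_of [MulAction H V]
    (hΛ : ∀ (h : H) (v w : V), Λ.Adj v w → Λ.Adj (h • v) (h • w)) (h : H) (v : V) (p : P) :
    aut Λ P hΛ h (of v p) = of (h • v) p := by
  rw [aut_apply, map_of]

/-- every element comes from a finite full subgraph -/
theorem exists_fin (x : GP Λ P) : ∃ S : Finset V,
    ∀ T : Finset V, S ⊆ T → x ∈ (map (P := P) (Λ := Λ.comap (Subtype.val : T → V)) (Λ' := Λ)
      Subtype.val (fun _ _ h => h)).range := by
  classical
  induction x using induction with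
  | one => exact ⟨∅, fun T _ => one_mem _⟩
  | gen v p =>
    refine ⟨{v}, fun T hT => ⟨of ⟨v, hT (by simp)⟩ p, ?_⟩⟩
    rw [map_of]
  | mul x y hx hy =>
    obtain ⟨S, hS⟩ := hx
    obtain ⟨S', hS'⟩ := hy
    exact ⟨S ∪ S', fun T hT => mul_mem (hS T (Finset.union_subset_left hT))
      (hS' T (Finset.union_subset_right hT))⟩

end GP

end Pool.Agent.Q105.FJ
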