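import Pool.Agent.Q105.FJ.Dir
import Pool.Agent.Q105.FJ.Graph

/-!
# Graph products in the class
-/

set_option autoImplicit false
set_option linter.unusedSectionVars false
set_option linter.style.haveILetI false

namespace Pool.Agent.Q105.FJ

open Pool.Agent.Y462.SS Pool.Agent.Q152.WP Pool.Agent.H26R2.Idem

variable {C : ∀ (G : Type) [Group G], Prop}

section option

variable {α : Type} (Λ : SimpleGraph (Option α)) (P : Type) [Group P]

/-- the graph without the vertex `none` -/
abbrev Lr (Λ : SimpleGraph (Option α)) : SimpleGraph α := Λ.comap some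

/-- the neighbours of `none` -/
abbrev Nb (Λ : SimpleGraph (Option α)) : Type := {a : α // Λ.Adj none (some a)}

/-- the link of `none` -/
abbrev Lk (Λ : SimpleGraph (Option α)) : SimpleGraph (Nb Λ) := (Lr Λ).comap Subtype.val

/-- the two vertex groups -/
def VG (b : Bool) : Type := match b with
  | true => P × GP (Lk Λ) P
  | false => GP (Lr Λ) P

instance (b : Bool) : Group (VG Λ P b) := match b with
  | true => inferInstanceAs (Group (P × GP (Lk Λ) P))
  | false => inferInstanceAs (Group (GP (Lr Λ) P))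

theorem hL (v w : Nb Λ) (h : (Lk Λ).Adj v w) : (Lr Λ).Adj v.1 w.1 := h

theorem hS (v w : α) (h : (Lr Λ).Adj v w) : Λ.Adj (some v) (some w) := h

theorem hN (v w : Nb Λ) (h : (Lk Λ).Adj v w) : Λ.Adj (some v.1) (some w.1) := h

/-- the inclusion of the link -/
def inL : GP (Lk Λ) P →* GP (Lr Λ) P := GP.map Subtype.val (hL Λ)

/-- the inclusion of the graph without `none` -/
def inS : GP (Lr Λ) P →* GP Λ P := GP.map some (hS Λ)

/-- the inclusion of the link in the graph -/
def inN : GP (Lk Λ) P →* GP Λ P := GP.map (fun a => some a.1) (hN Λ)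

theorem inS_inL (x : GP (Lk Λ) P) : inS Λ P (inL Λ P x) = inN Λ P x :=
  GP.map_map _ _ _ _ x

theorem inL_injective : Function.Injective (inL Λ P) :=
  GP.map_injective _ Subtype.val_injective (fun _ _ h => h) _

/-- the homomorphisms of the edge group -/
def eg (b : Bool) : GP (Lk Λ) P →* VG Λ P b := match b with
  | true => MonoidHom.inr P (GP (Lk Λ) P)
  | false => inL Λ P

/-- the homomorphisms to the product -/
def vg (b : Bool) : VG Λ P b →* P × GP (Lr Λ) P := match b with
  | true => MonoidHom.prodMap (MonoidHom.id P) (inL Λ P)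
  | false => MonoidHom.inr P (GP (Lr Λ) P)

theorem push_mem (hC : Closed C) (hE : ExtClosed C) (hP : C P) (hG : C (GP (Lr Λ) P)) :
    C (Monoid.PushoutI (eg Λ P)) := by
  refine pushout_mem hC hE (Q := P × GP (Lr Λ) P) ?_ (vg Λ P) ?_
    ((MonoidHom.inr P (GP (Lr Λ) P)).comp (inL Λ P)) ?_ (hC.prod _ _ hP hG)
  · rintro (_ | _)
    · exact inL_injective Λ P
    · intro a b hab
      exact congrArg Prod.snd hab
  · rintro (_ | _)
    · intro a b hab
      exact congrArg Prod.snd hab
    · intro a b hab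
      have h1 := congrArg Prod.fst hab
      have h2 := congrArg Prod.snd hab
      exact Prod.ext h1 (inL_injective Λ P h2)
  · rintro (_ | _)
    · rfl
    · exact MonoidHom.ext fun x => Prod.ext rfl rfl

theorem of_of (a : α) (ha : Λ.Adj none (some a)) (q : P) :
    (Monoid.PushoutI.of (φ := eg Λ P) false) (GP.of (Λ := Lr Λ) a q) =
      (Monoid.PushoutI.of (φ := eg Λ P) true)
        ((1, GP.of (Λ := Lk Λ) ⟨a, ha⟩ q) : P × GP (Lk Λ) P) := by
  have h2 : eg Λ P false (GP.of (Λ := Lk Λ) ⟨a, ha⟩ q) = GP.of (Λ := Lr Λ) a q :=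
    GP.map_of Subtype.val (hL Λ) _ _
  have h3 := Monoid.PushoutI.of_apply_eq_base (eg Λ P) false (GP.of (Λ := Lk Λ) ⟨a, ha⟩ q)
  have h4 := Monoid.PushoutI.of_apply_eq_base (eg Λ P) true (GP.of (Λ := Lk Λ) ⟨a, ha⟩ q)
  rw [h2] at h3
  rw [h3]
  exact h4.symm

theorem key_comm (a : α) (ha : Λ.Adj none (some a)) (p q : P) :
    (Monoid.PushoutI.of (φ := eg Λ P) true) ((p, 1) : P × GP (Lk Λ) P) *
      (Monoid.PushoutI.of (φ := eg Λ P) false) (GP.of (Λ := Lr Λ) a q) =
    (Monoid.PushoutI.of (φ := eg Λ P) false) (GP.of (Λ := Lr Λ) a q) *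
      (Monoid.PushoutI.of (φ := eg Λ P) true) ((p, 1) : P × GP (Lk Λ) P) := by
  have h0 : ((p, 1) : P × GP (Lk Λ) P) * ((1, GP.of (Λ := Lk Λ) ⟨a, ha⟩ q) : P × GP (Lk Λ) P) =
      ((1, GP.of (Λ := Lk Λ) ⟨a, ha⟩ q) : P × GP (Lk Λ) P) * ((p, 1) : P × GP (Lk Λ) P) := by
    refine Prod.ext ?_ ?_
    · change p * 1 = 1 * p
      rw [mul_one, one_mul]
    · change 1 * GP.of (Λ := Lk Λ) ⟨a, ha⟩ q = GP.of (Λ := Lk Λ) ⟨a, ha⟩ q * 1
      rw [mul_one, one_mul]
  rw [of_of Λ P a ha q]
  have h1 := map_mul (Monoid.PushoutI.of (φ := eg Λ P) true) ((p, 1) : P × GP (Lk Λ) P)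
    ((1, GP.of (Λ := Lk Λ) ⟨a, ha⟩ q) : P × GP (Lk Λ) P)
  have h2 := map_mul (Monoid.PushoutI.of (φ := eg Λ P) true)
    ((1, GP.of (Λ := Lk Λ) ⟨a, ha⟩ q) : P × GP (Lk Λ) P) ((p, 1) : P × GP (Lk Λ) P)
  refine h1.symm.trans ((congrArg _ h0).trans h2)

/-- the images of the vertex groups in the amalgamated product -/
noncomputable def toV (v : Option α) : P →* Monoid.PushoutI (eg Λ P) := match v with
    | none => (Monoid.PushoutI.of (φ := eg Λ P) true).comp (MonoidHom.inl P (GP (Lk Λ) P))
    | some a => (Monoid.PushoutI.of (φ := eg Λ P) false).comp (GP.of (Λ := Lr Λ) a)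

/-- the homomorphism to the amalgamated product -/
noncomputable def toP : GP Λ P →* Monoid.PushoutI (eg Λ P) :=
  GP.lift (toV Λ P) (by
    rintro (_ | a) (_ | b) h p q
    · exact absurd h (SimpleGraph.irrefl _)
    · exact key_comm Λ P b h p q
    · exact (key_comm Λ P a h.symm q p).symm
    · have h0 : (Lr Λ).Adj a b := h
      have h2 : (GP.of a p : GP (Lr Λ) P) * GP.of b q = GP.of b q * GP.of a p :=
        GP.of_comm h0 p q
      have h3 := map_mul (Monoid.PushoutI.of (φ := eg Λ P) false) (GP.of (Λ := Lr Λ) a p)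
        (GP.of (Λ := Lr Λ) b q)
      have h4 := map_mul (Monoid.PushoutI.of (φ := eg Λ P) false) (GP.of (Λ := Lr Λ) b q)
        (GP.of (Λ := Lr Λ) a p)
      exact h3.symm.trans ((congrArg _ h2).trans h4))

/-- the elements of the link commute with the vertex group -/
theorem link_comm (p : P) (x : GP (Lk Λ) P) :
    (GP.of none p : GP Λ P) * inN Λ P x = inN Λ P x * GP.of none p := by
  induction x using GP.induction with
  | one => rw [map_one, mul_one, one_mul]
  | gen v q =>
    have h1 : inN Λ P (GP.of v q) = GP.of (some v.1) q := GP.map_of _ _ _ _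
    rw [h1]
    exact GP.of_comm v.2 p q
  | mul x y hx hy => rw [map_mul, ← mul_assoc, hx, mul_assoc, hy, mul_assoc]

/-- the homomorphism of the star of the vertex -/
noncomputable def fromT : P × GP (Lk Λ) P →* GP Λ P where
  toFun x := GP.of none x.1 * inN Λ P x.2
  map_one' := by
    change GP.of none (1 : P) * inN Λ P 1 = 1
    rw [map_one, map_one, mul_one]
  map_mul' := fun x y => by
    change GP.of none (x.1 * y.1) * inN Λ P (x.2 * y.2) =
      GP.of none x.1 * inN Λ P x.2 * (GP.of none y.1 * inN Λ P y.2)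
    rw [map_mul, map_mul, mul_assoc, mul_assoc, ← mul_assoc (GP.of none y.1),
      link_comm, mul_assoc]

/-- the homomorphisms of the vertex groups to the graph product -/
noncomputable def fromV (b : Bool) : VG Λ P b →* GP Λ P := match b with
  | true => fromT Λ P
  | false => inS Λ P

theorem fromV_eg (b : Bool) : (fromV Λ P b).comp (eg Λ P b) = inN Λ P := by
  cases b with
  | false => exact MonoidHom.ext fun x => inS_inL Λ P x
  | true =>
    refine MonoidHom.ext fun x => ?_
    change GP.of none (1 : P) * inN Λ P x = inN Λ P x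
    rw [map_one, one_mul]

/-- the homomorphism from the amalgamated product -/
noncomputable def fromP : Monoid.PushoutI (eg Λ P) →* GP Λ P :=
  Monoid.PushoutI.lift (fromV Λ P) (inN Λ P) (fromV_eg Λ P)

theorem fromP_of (b : Bool) (x : VG Λ P b) :
    fromP Λ P (Monoid.PushoutI.of (φ := eg Λ P) b x) = fromV Λ P b x :=
  Monoid.PushoutI.lift_of (φ := eg Λ P) (fromV Λ P) (inN Λ P) (fromV_eg Λ P) x

theorem fromP_toP (x : GP Λ P) : fromP Λ P (toP Λ P x) = x := by
  have h : (fromP Λ P).comp (toP Λ P) = MonoidHom.id _ := by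
    refine GP.hom_ext (fun v p => ?_)
    rw [MonoidHom.comp_apply]
    unfold toP
    rw [GP.lift_of]
    rcases v with _ | a
    · refine (fromP_of Λ P true ((p, 1) : P × GP (Lk Λ) P)).trans ?_
      change GP.of none p * inN Λ P 1 = GP.of none p
      rw [map_one, mul_one]
    · refine (fromP_of Λ P false (GP.of (Λ := Lr Λ) a p)).trans ?_
      exact GP.map_of some (hS Λ) a p
  exact DFunLike.congr_fun h x

theorem option_mem (hC : Closed C) (hE : ExtClosed C) (hP : C P) (hG : C (GP (Lr Λ) P)) :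
    C (GP Λ P) :=
  hC.of_injective _ _ (toP Λ P) (Function.LeftInverse.injective (fromP_toP Λ P))
    (push_mem Λ P hC hE hP hG)

end option

/-- **Graph products over finite graphs.** -/
theorem gp_fin (hC : Closed C) (hE : ExtClosed C) (P : Type) [Group P] (hP : C P) (V : Type)
    [Finite V] : ∀ Λ : SimpleGraph V, C (GP Λ P) := by
  induction V using Finite.induction_empty_option with
  | @of_equiv α β e ih =>
    intro Λ
    refine hC.of_injective _ _ (GP.map (Λ := Λ) (Λ' := Λ.comap e) (P := P) e.symm ?_) ?_ (ih _)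
    · intro v w h
      change Λ.Adj (e (e.symm v)) (e (e.symm w))
      rwa [e.apply_symm_apply, e.apply_symm_apply]
    · refine GP.map_injective _ e.symm.injective ?_ _
      intro v w h
      change Λ.Adj (e (e.symm v)) (e (e.symm w)) at h
      rwa [e.apply_symm_apply, e.apply_symm_apply] at h
  | h_empty =>
    intro Λ
    haveI : Subsingleton (GP Λ P) := by
      have h : MonoidHom.id (GP Λ P) = 1 := GP.hom_ext (fun v => v.elim)
      exact ⟨fun a b => (DFunLike.congr_fun h a).trans (DFunLike.congr_fun h b).symm⟩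
    exact Pool.Agent.Y812.SS.C_subsingleton hC _
  | @h_option α _ ih =>
    intro Λ
    exact option_mem Λ P hC hE hP (ih _)

/-- the subgroup of a finite full subgraph -/
def par {V : Type} (Λ : SimpleGraph V) (P : Type) [Group P] (S : Finset V) : Subgroup (GP Λ P) :=
  (GP.map (P := P) (Λ := Λ.comap (Subtype.val : S → V)) (Λ' := Λ) Subtype.val
    (fun _ _ h => h)).range

/-- **Graph products.** -/
theorem gp_mem (hC : Closed C) (hE : ExtClosed C) (P : Type) [Group P] (hP : C P) (V : Type)
    (Λ : SimpleGraph V) : C (GP Λ P) := by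
  classical
  refine Pool.Agent.Y430.SS.of_directed hC _ (Finset V) (fun i j => ⟨i ∪ j,
    Finset.subset_union_left, Finset.subset_union_right⟩) (par Λ P) ?_ ?_ ?_
  · rintro S T hST _ ⟨x, rfl⟩
    refine ⟨GP.map (fun v => ⟨v.1, hST v.2⟩) (fun _ _ h => h) x, ?_⟩
    rw [GP.map_map]
    rfl
  · intro g
    obtain ⟨S, hS⟩ := GP.exists_fin g
    exact ⟨S, hS S (Finset.Subset.refl S)⟩
  · intro S
    refine Pool.Agent.Y812.SS.C_equiv hC (MonoidHom.ofInjective (GP.map_injective
      (P := P) (Λ := Λ.comap (Subtype.val : S → V)) (Λ' := Λ) Subtype.val Subtype.val_injective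
      (fun _ _ h => h) (fun _ _ h => h))).symm ?_
    exact gp_fin hC hE P hP _ _

end Pool.Agent.Q105.FJ
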