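import Pool.Agent.Q105.FJ.Approx

/-!
# Local roots of automorphisms with mapping torus in the class
-/

set_option autoImplicit false
set_option linter.unusedSectionVars false
set_option linter.style.haveILetI false

namespace Pool.Agent.Q105.FJ

open Pool.Agent.Y462.SS Pool.Agent.Q152.WP Pool.Agent.H26R2.Idem

variable {C : ∀ (G : Type) [Group G], Prop}

/-- finite powers -/
theorem fin_pi (hC : Closed C) {M : Type} [Group M] (hM : C M) : ∀ n : ℕ, C (Fin (n + 1) → M) := by
  intro n
  induction n with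
  | zero =>
    refine hC.of_injective _ M (Pi.evalMonoidHom (fun _ : Fin 1 => M) 0) ?_ hM
    intro a b h
    funext i
    obtain rfl : i = 0 := by
      have := i.2
      exact Fin.ext (by simp)
    exact h
  | succ n ih =>
    refine hC.of_injective _ (M × (Fin (n + 1) → M))
      ((Pi.evalMonoidHom (fun _ : Fin (n + 2) => M) 0).prod
        (MonoidHom.pi (fun i => Pi.evalMonoidHom (fun _ : Fin (n + 2) => M) i.succ))) ?_
      (hC.prod _ _ hM ih)
    intro a b h
    have h0 : a 0 = b 0 := congrArg Prod.fst h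
    have h1 : ∀ i : Fin (n + 1), a i.succ = b i.succ := fun i =>
      congrFun (congrArg Prod.snd h) i
    funext i
    refine Fin.cases h0 h1 i

/-- the conjugation by `τ` -/
def ck {G : Type} [Group G] (K : Subgroup G) (τ : G) (hn : ∀ x ∈ K, τ * x * τ⁻¹ ∈ K) :
    Monoid.End K where
  toFun x := ⟨τ * x * τ⁻¹, hn x x.2⟩
  map_one' := Subtype.ext (by simp)
  map_mul' x y := Subtype.ext (by
    change τ * (x * y) * τ⁻¹ = τ * x * τ⁻¹ * (τ * y * τ⁻¹)
    group)

theorem ck_apply {G : Type} [Group G] (K : Subgroup G) (τ : G)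
    (hn : ∀ x ∈ K, τ * x * τ⁻¹ ∈ K) (x : K) : ck K τ hn x = ⟨τ * x * τ⁻¹, hn x x.2⟩ := rfl

theorem ck_pow {G : Type} [Group G] (K : Subgroup G) (τ : G)
    (hn : ∀ x ∈ K, τ * x * τ⁻¹ ∈ K) (n : ℕ) (x : K) :
    (((ck K τ hn ^ n) x : K) : G) = τ ^ n * x * (τ ^ n)⁻¹ := by
  induction n generalizing x with
  | zero => simp
  | succ n ih =>
    have h1 : (ck K τ hn ^ (n + 1)) x = (ck K τ hn ^ n) (ck K τ hn x) := by
      rw [pow_succ]
      rfl
    rw [h1, ih, ck_apply, pow_succ]
    change τ ^ n * (τ * x * τ⁻¹) * (τ ^ n)⁻¹ = τ ^ n * τ * x * (τ ^ n * τ)⁻¹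
    group

theorem sd_step {N H : Type} [Group N] [Group H] {φ : H →* MulAut N} (d y z : N) (σ : H)
    (h : d * φ σ y = z * d) :
    (SemidirectProduct.inl d * SemidirectProduct.inr σ * SemidirectProduct.inl y : N ⋊[φ] H) =
      SemidirectProduct.inl z * (SemidirectProduct.inl d * SemidirectProduct.inr σ) := by
  rw [← mul_assoc, ← map_mul, ← h, map_mul, SemidirectProduct.inl_aut, map_inv]
  group

/-- **Local roots.** -/
theorem real_of_roots (hC : Closed C) {G : Type} [Group G] (K : Subgroup G) (τ : G)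
    (hn : ∀ x ∈ K, τ * x * τ⁻¹ ∈ K)
    (h : ∀ E : Finset K, ∃ (k : ℕ) (M : Type) (_ : Group M) (φ : K →* M) (m : M), C M ∧
      Function.Injective φ ∧ ∀ x ∈ E, m * φ x = φ ((ck K τ hn ^ (k + 1)) x) * m) : Real C K τ := by
  classical
  refine ⟨hn, fun E => ?_⟩
  obtain ⟨k, M, _, φ, m, hM, hφ, hx⟩ := h (E.subtype (fun x => x ∈ K))
  let σ : Equiv.Perm (Fin (k + 1)) := (finRotate (k + 1))⁻¹
  let d : Fin (k + 1) → M := Pi.mulSingle (Fin.last k) m
  let j : K →* (Fin (k + 1) → M) := MonoidHom.pi (fun i => φ.comp (ck K τ hn ^ (i : ℕ)))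
  have hj : ∀ x i, j x i = φ ((ck K τ hn ^ (i : ℕ)) x) := fun x i => rfl
  refine ⟨(Fin (k + 1) → M) ⋊[mulAutArrow] Equiv.Perm (Fin (k + 1)), inferInstance,
    SemidirectProduct.inl.comp j, SemidirectProduct.inl d * SemidirectProduct.inr σ,
    semi_fin hC (fin_pi hC hM k), ?_, ?_⟩
  · refine SemidirectProduct.inl_injective.comp ?_
    intro a b hab
    have h0 := congrFun hab 0
    rw [hj, hj] at h0
    exact hφ h0
  · intro x hxK hxE
    have hx1 := hx ⟨x, hxK⟩ (by simpa using hxE)
    have hc : (⟨τ * x * τ⁻¹, hn x hxK⟩ : K) = ck K τ hn ⟨x, hxK⟩ := rfl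
    rw [hc]
    have hkey : d * (mulAutArrow σ (j ⟨x, hxK⟩) : Fin (k + 1) → M) =
        j (ck K τ hn ⟨x, hxK⟩) * d := by
      funext i
      change d i * j ⟨x, hxK⟩ (σ⁻¹ • i) = j (ck K τ hn ⟨x, hxK⟩) i * d i
      have hσ : σ⁻¹ • i = finRotate (k + 1) i := by
        change (finRotate (k + 1))⁻¹⁻¹ i = _
        rw [inv_inv]
      rw [hσ, hj, hj]
      by_cases hi : i = Fin.last k
      · subst hi
        rw [finRotate_last]
        have h1 : d (Fin.last k) = m := Pi.mulSingle_eq_same (M := fun _ => M) (Fin.last k) m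
        rw [h1, Fin.val_zero, pow_zero, Fin.val_last]
        exact hx1
      · have h1 : d i = 1 := Pi.mulSingle_eq_of_ne (M := fun _ => M) hi m
        have h2 : ((finRotate (k + 1) i : Fin (k + 1)) : ℕ) = i + 1 := coe_finRotate_of_ne_last hi
        rw [h1, one_mul, mul_one, h2]
        rfl
    exact sd_step d _ _ σ hkey

/-- On every finite subset of `K` some positive power of the conjugation by `g` is equal to an
automorphism of `K` with mapping torus in the class. -/
def LocRoot (C : ∀ (G : Type) [Group G], Prop) {G : Type} [Group G] (K : Subgroup G) (g : G) : Prop :=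
  ∀ E : Finset K, ∃ (k : ℕ) (β : MulAut K), C (MT K β) ∧
    ∀ x ∈ E, ((β x : K) : G) = g ^ (k + 1) * x * (g ^ (k + 1))⁻¹

theorem real_of_locroot (hC : Closed C) {G : Type} [Group G] (K : Subgroup G) (τ : G)
    (hn : ∀ x ∈ K, τ * x * τ⁻¹ ∈ K) (h : LocRoot C K τ) : Real C K τ := by
  refine real_of_roots hC K τ hn fun E => ?_
  obtain ⟨k, β, hβ, hx⟩ := h E
  refine ⟨k, MT K β, inferInstance, SemidirectProduct.inl, SemidirectProduct.inr
    (Multiplicative.ofAdd 1), hβ, SemidirectProduct.inl_injective, fun x hxE => ?_⟩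
  rw [mt_conj]
  congr 2
  apply Subtype.ext
  rw [hx x hxE, ck_pow]

/-- **Extensions.** -/
theorem root_kernel (hC : Closed C) (hE : ExtClosed C) {G Q : Type} [Group G] [Group Q] (f : G →* Q)
    (hf : Function.Surjective f) (hQ : C Q) (hK : C f.ker)
    (h : ∀ g : G, ¬ IsOfFinOrder (f g) → LocRoot C f.ker g) : C G := by
  refine real_kernel hC hE f hf hQ hK ?_
  intro q hq
  obtain ⟨g, rfl⟩ := hf q
  exact ⟨g, rfl, real_of_locroot hC f.ker g
    (fun x hx => (MonoidHom.normal_ker f).conj_mem x hx g) (h g hq)⟩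

/-- On every finite subset of `K` some positive power of the conjugation by `g` is equal to the
conjugation by an element of `K`. -/
def LocTors {G : Type} [Group G] (K : Subgroup G) (g : G) : Prop :=
  ∀ E : Finset K, ∃ (k : ℕ) (n : K), ∀ x ∈ E,
    (n : G) * x * (n : G)⁻¹ = g ^ (k + 1) * x * (g ^ (k + 1))⁻¹

theorem LocTors.locRoot (hC : Closed C) {G : Type} [Group G] {K : Subgroup G} {g : G}
    (hK : C K) (h : LocTors K g) : LocRoot C K g := by
  intro E
  obtain ⟨k, n, hx⟩ := h E
  exact ⟨k, MulAut.conj n, mt_inner hC hK n, fun x hxE => hx x hxE⟩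

/-- the mapping torus from the realisations -/
theorem mt_of_real (hC : Closed C) (hE : ExtClosed C) {N : Type} [Group N] (α : MulAut N)
    (h : Real C (SemidirectProduct.inl : N →* MT N α).range
      (SemidirectProduct.inr (Multiplicative.ofAdd 1))) : C (MT N α) := by
  let K : Subgroup (MT N α) := (SemidirectProduct.inl : N →* MT N α).range
  let τ : MT N α := SemidirectProduct.inr (Multiplicative.ofAdd 1)
  have hright : ∀ g : MT N α, g ∈ K ↔ g.right = 1 := by
    intro g
    constructor
    · rintro ⟨x, rfl⟩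
      rfl
    · intro hg
      exact ⟨g.left, SemidirectProduct.ext rfl hg.symm⟩
  have hnorm : ∀ (t x : MT N α), x ∈ K → t * x * t⁻¹ ∈ K := by
    intro t x hx
    rw [hright] at hx ⊢
    change t.right * x.right * (t.right)⁻¹ = 1
    rw [hx, mul_one, mul_inv_cancel]
  have hpow : ∀ m : ℤ, (τ ^ m).right = Multiplicative.ofAdd m := by
    intro m
    have h1 : (SemidirectProduct.rightHom : MT N α →* Multiplicative ℤ) (τ ^ m) =
        (SemidirectProduct.rightHom τ) ^ m := map_zpow _ _ _
    have h2 : (SemidirectProduct.rightHom : MT N α →* Multiplicative ℤ) τ =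
      Multiplicative.ofAdd 1 := SemidirectProduct.rightHom_inr _
    rw [h2] at h1
    refine h1.trans ?_
    rw [← ofAdd_zsmul, smul_eq_mul, mul_one]
  refine real_cyclic hC hE K τ ?_ ?_ ?_ h
  · intro x hx
    have := hnorm τ⁻¹ x hx
    rwa [inv_inv] at this
  · intro g
    refine ⟨g * (τ ^ (Multiplicative.toAdd g.right))⁻¹, ?_, Multiplicative.toAdd g.right, by group⟩
    rw [hright]
    change g.right * ((τ ^ (Multiplicative.toAdd g.right)).right)⁻¹ = 1
    rw [hpow, ofAdd_toAdd, mul_inv_cancel]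
  · intro m hm
    rw [hright, hpow] at hm
    exact Multiplicative.ofAdd.injective hm

theorem mt_conj_pow {N : Type} [Group N] (α : MulAut N) (n : ℕ) (y : N) :
    ((SemidirectProduct.inr (Multiplicative.ofAdd 1) : MT N α) ^ n * SemidirectProduct.inl y *
      ((SemidirectProduct.inr (Multiplicative.ofAdd 1) : MT N α) ^ n)⁻¹) =
      SemidirectProduct.inl ((α ^ n) y) := by
  induction n generalizing y with
  | zero => simp
  | succ n ih =>
    have h1 : ((SemidirectProduct.inr (Multiplicative.ofAdd 1) : MT N α) ^ (n + 1) *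
        SemidirectProduct.inl y *
        ((SemidirectProduct.inr (Multiplicative.ofAdd 1) : MT N α) ^ (n + 1))⁻¹) =
        (SemidirectProduct.inr (Multiplicative.ofAdd 1) : MT N α) ^ n *
        ((SemidirectProduct.inr (Multiplicative.ofAdd 1) : MT N α) * SemidirectProduct.inl y *
        ((SemidirectProduct.inr (Multiplicative.ofAdd 1) : MT N α))⁻¹) *
        ((SemidirectProduct.inr (Multiplicative.ofAdd 1) : MT N α) ^ n)⁻¹ := by
      rw [pow_succ]
      group
    rw [h1, mt_conj, mul_inv_cancel_right, ih, pow_succ]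
    rfl

/-- **The set of the automorphisms with mapping torus in the class contains the local roots of its
elements.** -/
theorem mt_roots (hC : Closed C) (hE : ExtClosed C) {N : Type} [Group N] (α : MulAut N)
    (h : ∀ E : Finset N, ∃ (k : ℕ) (β : MulAut N), C (MT N β) ∧ ∀ x ∈ E, β x = (α ^ (k + 1)) x) :
    C (MT N α) := by
  classical
  refine mt_of_real hC hE α ?_
  have hright : ∀ g : MT N α, g ∈ (SemidirectProduct.inl : N →* MT N α).range → g.right = 1 := by
    rintro g ⟨x, rfl⟩
    rfl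
  refine real_of_roots hC _ _ ?_ fun E => ?_
  · rintro _ ⟨x, rfl⟩
    rw [mt_conj, mul_inv_cancel_right]
    exact ⟨_, rfl⟩
  · obtain ⟨k, β, hβ, hx⟩ := h (E.image (fun g => g.1.left))
    refine ⟨k, MT N β, inferInstance,
      { toFun := fun g => SemidirectProduct.inl g.1.left
        map_one' := rfl
        map_mul' := fun a b => ?_ }, SemidirectProduct.inr (Multiplicative.ofAdd 1), hβ, ?_, ?_⟩
    · have ha : a.1.right = 1 := hright _ a.2
      rw [← map_mul]
      congr 1
      change a.1.left * zpowersHom (MulAut N) α a.1.right b.1.left = a.1.left * b.1.left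
      rw [ha, map_one]
      rfl
    · intro a b hab
      apply Subtype.ext
      exact SemidirectProduct.ext (SemidirectProduct.inl_injective hab)
        ((hright _ a.2).trans (hright _ b.2).symm)
    · intro x hxE
      have hxr : (x : MT N α) = SemidirectProduct.inl x.1.left :=
        SemidirectProduct.ext rfl (hright _ x.2)
      change SemidirectProduct.inr (Multiplicative.ofAdd 1) * SemidirectProduct.inl x.1.left =
        SemidirectProduct.inl (((ck _ _ _ ^ (k + 1)) x : _) : MT N α).left *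
          SemidirectProduct.inr (Multiplicative.ofAdd 1)
      rw [ck_pow, mt_conj, hx _ (Finset.mem_image_of_mem _ hxE)]
      congr 2
      have h2 := mt_conj_pow α (k + 1) x.1.left
      rw [← hxr] at h2
      exact (congrArg SemidirectProduct.left h2).symm

/-- The automorphisms of `N` move every finite tuple only to finitely many tuples up to conjugation
in `N`. -/
def OrbFin (N : Type) [Group N] : Prop :=
  ∀ (n : ℕ) (x : Fin n → N), ∃ T : Finset (Fin n → N), ∀ α : MulAut N, ∃ y ∈ T, ∃ c : N,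
    ∀ i, α (x i) = c * y i * c⁻¹

theorem OrbFin.locTors {G : Type} [Group G] {K : Subgroup G} (h : OrbFin K) (g : G)
    (hn : ∀ x ∈ K, g * x * g⁻¹ ∈ K) (hn' : ∀ x ∈ K, g⁻¹ * x * g ∈ K) : LocTors K g := by
  classical
  intro E
  -- the automorphism
  let β : MulAut K :=
    { toFun := fun x => ⟨g * x * g⁻¹, hn x x.2⟩
      invFun := fun x => ⟨g⁻¹ * x * g, hn' x x.2⟩
      left_inv := fun x => Subtype.ext (by
        change g⁻¹ * (g * x * g⁻¹) * g = x
        group)
      right_inv := fun x => Subtype.ext (by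
        change g * (g⁻¹ * x * g) * g⁻¹ = x
        group)
      map_mul' := fun x y => Subtype.ext (by
        change g * (x * y) * g⁻¹ = g * x * g⁻¹ * (g * y * g⁻¹)
        group) }
  have hβ : ∀ (k : ℕ) (x : K), (((β ^ k) x : K) : G) = g ^ k * x * (g ^ k)⁻¹ := by
    intro k
    induction k with
    | zero =>
      intro x
      simp
    | succ k ih =>
      intro x
      have h1 : (β ^ (k + 1)) x = (β ^ k) (β x) := by
        rw [pow_succ]
        rfl
      rw [h1, ih, pow_succ]
      change g ^ k * (g * x * g⁻¹) * (g ^ k)⁻¹ = g ^ k * g * x * (g ^ k * g)⁻¹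
      group
  let e : Fin E.card ≃ E := E.equivFin.symm
  obtain ⟨T, hT⟩ := h E.card (fun i => (e i : K))
  choose y hy c hc using fun k : ℕ => hT (β ^ k)
  obtain ⟨a, b, hab, hyab⟩ := Finite.exists_ne_map_eq_of_infinite
    (fun k : ℕ => (⟨y k, hy k⟩ : T))
  have hy1 : y a = y b := congrArg Subtype.val hyab
  -- order the exponents
  have key : ∀ a b : ℕ, a < b → y a = y b → ∃ (k : ℕ) (n : K), ∀ x ∈ E,
      (n : G) * x * (n : G)⁻¹ = g ^ (k + 1) * x * (g ^ (k + 1))⁻¹ := by
    intro a b hlt hyy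
    obtain ⟨k, rfl⟩ : ∃ k, b = a + (k + 1) := ⟨b - a - 1, by omega⟩
    refine ⟨k, (β ^ a)⁻¹ (c (a + (k + 1)) * (c a)⁻¹), fun x hx => ?_⟩
    obtain ⟨i, hi⟩ : ∃ i, (e i : K) = x := ⟨e.symm ⟨x, hx⟩, by rw [e.apply_symm_apply]⟩
    have h1 := hc a i
    have h2 := hc (a + (k + 1)) i
    rw [hi] at h1 h2
    rw [← hyy] at h2
    have h3 : (β ^ (a + (k + 1))) x = (β ^ a) ((β ^ (k + 1)) x) := by
      rw [pow_add]
      rfl
    have h4 : (β ^ (k + 1)) x = (β ^ a)⁻¹ (c (a + (k + 1)) * (c a)⁻¹) * x *
        ((β ^ a)⁻¹ (c (a + (k + 1)) * (c a)⁻¹))⁻¹ := by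
      apply (β ^ a).injective
      rw [← h3, map_mul, map_mul, map_inv, MulAut.apply_inv_self, h1, h2]
      group
    have h5 := hβ (k + 1) x
    rw [← h5, h4]
    rfl
  rcases lt_or_gt_of_ne hab with h1 | h1
  · exact key a b h1 hy1
  · exact key b a h1 hy1.symm

/-- **All extensions by a group with finite orbits.** -/
theorem orbfin_kernel (hC : Closed C) (hE : ExtClosed C) {G Q : Type} [Group G] [Group Q]
    (f : G →* Q) (hf : Function.Surjective f) (hQ : C Q) (hK : C f.ker) (h : OrbFin f.ker) : C G := by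
  refine root_kernel hC hE f hf hQ hK ?_
  intro g _
  refine LocTors.locRoot hC hK (h.locTors g
    (fun x hx => (MonoidHom.normal_ker f).conj_mem x hx g) (fun x hx => ?_))
  have := (MonoidHom.normal_ker f).conj_mem x hx g⁻¹
  rwa [inv_inv] at this

end Pool.Agent.Q105.FJ
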