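import Pool.Agent.Q105.FJ.TMem
import Pool.Agent.Q105.FJ.Roots
import Pool.Agent.Q143.EI.Push

/-!
# Mapping tori of triangular automorphisms of free products
-/

set_option autoImplicit false
set_option linter.unusedSectionVars false
set_option linter.style.haveILetI false

namespace Pool.Agent.Q105.FJ

open Monoid Pool.Agent.Y462.SS Pool.Agent.Q152.WP Pool.Agent.H26R2.Idem Pool.Agent.Q143.EI

variable {C : ∀ (G : Type) [Group G], Prop}

/-! ### Binary amalgams and HNN extensions, by their universal properties -/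

/-- the pair of groups as a family -/
abbrev two (M₁ M₂ : Type) : Bool → Type := fun b => bif b then M₁ else M₂

instance twoGroup (M₁ M₂ : Type) [Group M₁] [Group M₂] : ∀ b, Group (two M₁ M₂ b)
  | true => inferInstanceAs (Group M₁)
  | false => inferInstanceAs (Group M₂)

/-- a pair of homomorphisms as a family -/
def twoTo {M₁ M₂ E : Type} [Group M₁] [Group M₂] [Group E] (e₁ : E →* M₁) (e₂ : E →* M₂) :
    ∀ b, E →* two M₁ M₂ b
  | true => e₁
  | false => e₂

/-- a pair of homomorphisms as a family -/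
def twoFrom {M₁ M₂ Q : Type} [Group M₁] [Group M₂] [Group Q] (f₁ : M₁ →* Q) (f₂ : M₂ →* Q) :
    ∀ b, two M₁ M₂ b →* Q
  | true => f₁
  | false => f₂

theorem amal (hC : Closed C) (hE : ExtClosed C) {M₁ M₂ E Q : Type} [Group M₁] [Group M₂] [Group E]
    [Group Q] (e₁ : E →* M₁) (e₂ : E →* M₂) (he₁ : Function.Injective e₁)
    (he₂ : Function.Injective e₂) (f₁ : M₁ →* Q) (f₂ : M₂ →* Q)
    (hf : f₁.comp e₁ = f₂.comp e₂) (hinj : Function.Injective (f₁.comp e₁)) (h₁ : C M₁)
    (h₂ : C M₂) (hQ : C Q) :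
    ∃ (L : Type) (_ : Group L) (i₁ : M₁ →* L) (i₂ : M₂ →* L), C L ∧ i₁.comp e₁ = i₂.comp e₂ ∧
      ∀ (X : Type) [Group X] (k₁ : M₁ →* X) (k₂ : M₂ →* X), k₁.comp e₁ = k₂.comp e₂ →
        ∃ k : L →* X, k.comp i₁ = k₁ ∧ k.comp i₂ = k₂ := by
  refine ⟨PushoutI (twoTo e₁ e₂), inferInstance, PushoutI.of (φ := twoTo e₁ e₂) true,
    PushoutI.of (φ := twoTo e₁ e₂) false, ?_, ?_, ?_⟩
  · refine push_edge hC hE ?_ ?_ hQ (twoFrom f₁ f₂) (f₁.comp e₁) ?_ hinj
    · rintro (_ | _)
      · exact he₂
      · exact he₁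
    · rintro (_ | _)
      · exact h₂
      · exact h₁
    · rintro (_ | _)
      · exact hf.symm
      · rfl
  · exact (PushoutI.of_comp_eq_base (φ := twoTo e₁ e₂) (i := true)).trans
      (PushoutI.of_comp_eq_base (φ := twoTo e₁ e₂) (i := false)).symm
  · intro X _ k₁ k₂ hk
    have hc : ∀ i, (twoFrom k₁ k₂ i).comp (twoTo e₁ e₂ i) = k₁.comp e₁ := by
      rintro (_ | _)
      · exact hk.symm
      · rfl
    refine ⟨PushoutI.lift (twoFrom k₁ k₂) (k₁.comp e₁) hc, ?_, ?_⟩
    · ext x
      exact PushoutI.lift_of (φ := twoTo e₁ e₂) (twoFrom k₁ k₂) (k₁.comp e₁) hc (i := true) x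
    · ext x
      exact PushoutI.lift_of (φ := twoTo e₁ e₂) (twoFrom k₁ k₂) (k₁.comp e₁) hc (i := false) x

theorem hnn1 (hC : Closed C) (hE : ExtClosed C) {M Q : Type} [Group M] [Group Q] (p q : M)
    (f : M →* Q) (hf : f p = f q) (hp : Function.Injective (zpowersHom Q (f p))) (h₁ : C M)
    (hQ : C Q) :
    ∃ (L : Type) (_ : Group L) (i : M →* L) (s : L), C L ∧ s * i p = i q * s ∧
      ∀ (X : Type) [Group X] (k : M →* X) (y : X), y * k p = k q * y →
        ∃ K : L →* X, K.comp i = k ∧ K s = y := by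
  have hpi : Function.Injective (zpowersHom M p) := by
    intro a b hab
    apply hp
    have h1 := congrArg f hab
    rw [zpowersHom_apply, zpowersHom_apply, map_zpow, map_zpow] at h1
    exact h1
  have hqi : Function.Injective (zpowersHom M q) := by
    intro a b hab
    apply hp
    have h1 := congrArg f hab
    rw [zpowersHom_apply, zpowersHom_apply, map_zpow, map_zpow, ← hf] at h1
    exact h1
  let φ : (zpowersHom M p).range ≃* (zpowersHom M q).range :=
    (MonoidHom.ofInjective hpi).symm.trans (MonoidHom.ofInjective hqi)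
  have hφ : ∀ k : Multiplicative ℤ, φ ⟨zpowersHom M p k, k, rfl⟩ = ⟨zpowersHom M q k, k, rfl⟩ := by
    intro k
    change MonoidHom.ofInjective hqi ((MonoidHom.ofInjective hpi).symm _) = _
    have h1 : (⟨zpowersHom M p k, k, rfl⟩ : (zpowersHom M p).range) =
        MonoidHom.ofInjective hpi k := rfl
    rw [h1, MulEquiv.symm_apply_apply]
    rfl
  refine ⟨HNNExtension M _ _ φ, inferInstance, HNNExtension.of, HNNExtension.t, ?_, ?_, ?_⟩
  · refine hnn_edge f hC hE h₁ hQ ?_ 1 ?_
    · rintro ⟨a, ka, rfl⟩ ⟨b, kb, rfl⟩ hab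
      have h1 : f (zpowersHom M p ka) = f (zpowersHom M p kb) := hab
      rw [zpowersHom_apply, zpowersHom_apply, map_zpow, map_zpow] at h1
      have h2 : ka = kb := hp h1
      subst h2
      rfl
    · rintro ⟨a, ka, rfl⟩
      rw [hφ]
      change 1 * f (zpowersHom M p ka) = f (zpowersHom M q ka) * 1
      rw [one_mul, mul_one, zpowersHom_apply, zpowersHom_apply, map_zpow, map_zpow, hf]
  · have h1 := HNNExtension.t_mul_of (φ := φ) ⟨zpowersHom M p (Multiplicative.ofAdd 1), _, rfl⟩
    rw [hφ] at h1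
    have h2 : zpowersHom M p (Multiplicative.ofAdd 1) = p := by
      rw [zpowersHom_apply]
      exact zpow_one p
    have h3 : zpowersHom M q (Multiplicative.ofAdd 1) = q := by
      rw [zpowersHom_apply]
      exact zpow_one q
    change HNNExtension.t * HNNExtension.of (zpowersHom M p (Multiplicative.ofAdd 1)) =
      HNNExtension.of (zpowersHom M q (Multiplicative.ofAdd 1)) * HNNExtension.t at h1
    rw [h2, h3] at h1
    exact h1
  · intro X _ k y hy
    have hy' : ∀ n : ℤ, y * k p ^ n = k q ^ n * y := by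
      intro n
      induction n using Int.induction_on with
      | zero => simp
      | succ n ih => rw [zpow_add_one, zpow_add_one, ← mul_assoc, ih, mul_assoc, hy, mul_assoc]
      | pred n ih =>
        rw [zpow_sub_one, zpow_sub_one, ← mul_assoc, ih, mul_assoc, mul_assoc]
        congr 1
        rw [mul_inv_eq_iff_eq_mul, mul_assoc, hy, inv_mul_cancel_left]
    refine ⟨HNNExtension.lift k y ?_, ?_, ?_⟩
    · rintro ⟨a, ka, rfl⟩
      rw [hφ]
      change y * k (zpowersHom M p ka) = k (zpowersHom M q ka) * y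
      rw [zpowersHom_apply, zpowersHom_apply, map_zpow, map_zpow]
      exact hy' _
    · ext x
      rw [MonoidHom.comp_apply, HNNExtension.lift_of]
    · rw [HNNExtension.lift_t]

/-! ### The two steps -/

/-- the projection of the mapping torus -/
def mtr {N : Type} [Group N] (β : MulAut N) : MT N β →* Multiplicative ℤ :=
  SemidirectProduct.rightHom

theorem mtr_tt {N : Type} [Group N] (β : MulAut N) : mtr β (tt β) = Multiplicative.ofAdd 1 :=
  SemidirectProduct.rightHom_inr _

theorem mtr_ii {N : Type} [Group N] (β : MulAut N) (x : N) : mtr β (ii β x) = 1 :=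
  SemidirectProduct.rightHom_inl _

theorem zh_one {G : Type} [Group G] (p : G) :
    zpowersHom G p (Multiplicative.ofAdd 1) = p := by
  rw [zpowersHom_apply]
  exact zpow_one p

theorem zh_comp {G : Type} [Group G] (p : G) (f : G →* Multiplicative ℤ)
    (h : f p = Multiplicative.ofAdd 1) : f.comp (zpowersHom G p) = MonoidHom.id _ := by
  ext
  rw [MonoidHom.comp_apply, zh_one, h]
  rfl

theorem zh_injective {G : Type} [Group G] (p : G) (f : G →* Multiplicative ℤ)
    (h : f p = Multiplicative.ofAdd 1) : Function.Injective (zpowersHom G p) := by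
  have h1 := zh_comp p f h
  intro a b hab
  have h2 := congrArg f hab
  have h3 := DFunLike.congr_fun h1 a
  have h4 := DFunLike.congr_fun h1 b
  rw [MonoidHom.comp_apply] at h3 h4
  rw [h3, h4] at h2
  exact h2

section step

variable {A B H : Type} [Group A] [Group B] [Group H] (a : A →* B)

/-- **Free product with a factor which is mapped to a conjugate of itself.** -/
theorem stepA (hC : Closed C) (hE : ExtClosed C) (h : H →* B)
    (univ : ∀ (L : Type) [Group L] (f : A →* L) (g : H →* L), ∃ F : B →* L, F.comp a = f ∧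
      F.comp h = g)
    (uniq : ∀ (L : Type) [Group L] (F F' : B →* L), F.comp a = F'.comp a → F.comp h = F'.comp h →
      F = F')
    (αB : MulAut B) (αA : MulAut A) (β : MulAut H) (w : A) (hA : ∀ x, αB (a x) = a (αA x))
    (hH : ∀ x, αB (h x) = a w * h (β x) * (a w)⁻¹) (hCA : C (MT A αA)) (hCH : C (MT H β)) :
    C (MT B αB) := by
  have hp : mtr αA (ii αA w⁻¹ * tt αA) = Multiplicative.ofAdd 1 := by
    rw [map_mul, mtr_ii, mtr_tt, one_mul]
  have hid1 := zh_comp (ii αA w⁻¹ * tt αA) (mtr αA) hp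
  have hid2 := zh_comp (tt β) (mtr β) (mtr_tt β)
  obtain ⟨L, _, i₁, i₂, hL, hi, hu⟩ := amal hC hE
    (zpowersHom _ (ii αA w⁻¹ * tt αA)) (zpowersHom _ (tt β))
    (zh_injective _ _ hp) (zh_injective _ _ (mtr_tt β)) (mtr αA) (mtr β)
    (hid1.trans hid2.symm) (by rw [hid1]; exact fun x y h => h) hCA hCH hC.int
  have hi1 : i₁ (ii αA w⁻¹ * tt αA) = i₂ (tt β) := by
    have h1 := DFunLike.congr_fun hi (Multiplicative.ofAdd 1)
    rw [MonoidHom.comp_apply, MonoidHom.comp_apply, zh_one, zh_one] at h1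
    exact h1
  have hτ : i₁ (tt αA) = i₁ (ii αA w) * i₂ (tt β) := by
    rw [← hi1, map_mul, map_inv, map_inv]
    group
  obtain ⟨F, hFa, hFh⟩ := univ L (i₁.comp (ii αA)) (i₂.comp (ii β))
  have hFa' : ∀ x, F (a x) = i₁ (ii αA x) := fun x => DFunLike.congr_fun hFa x
  have hFh' : ∀ x, F (h x) = i₂ (ii β x) := fun x => DFunLike.congr_fun hFh x
  have hF : ∀ n, i₁ (tt αA) * F n = F (αB n) * i₁ (tt αA) := by
    have h1 : (MulAut.conj (i₁ (tt αA))).toMonoidHom.comp F = F.comp αB.toMonoidHom := by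
      refine uniq L _ _ ?_ ?_
      · ext x
        change i₁ (tt αA) * F (a x) * (i₁ (tt αA))⁻¹ = F (αB (a x))
        rw [hA, hFa', hFa', mul_inv_eq_iff_eq_mul, ← map_mul, ← map_mul, tt_ii]
      · ext x
        change i₁ (tt αA) * F (h x) * (i₁ (tt αA))⁻¹ = F (αB (h x))
        rw [hH, map_mul, map_mul, map_inv, hFa', hFh', hFh', hτ]
        have h2 : i₂ (tt β) * i₂ (ii β x) = i₂ (ii β (β x)) * i₂ (tt β) := by
          rw [← map_mul, tt_ii, map_mul]
        calc i₁ (ii αA w) * i₂ (tt β) * i₂ (ii β x) * (i₁ (ii αA w) * i₂ (tt β))⁻¹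
            = i₁ (ii αA w) * (i₂ (tt β) * i₂ (ii β x)) * (i₂ (tt β))⁻¹ * (i₁ (ii αA w))⁻¹ := by
              group
          _ = _ := by rw [h2]; group
    intro n
    have h2 := DFunLike.congr_fun h1 n
    change i₁ (tt αA) * F n * (i₁ (tt αA))⁻¹ = F (αB n) at h2
    rw [← h2]
    group
  -- the way back
  have hk2 : ∀ x, (ii αB (a w))⁻¹ * tt αB * (ii αB).comp h x =
      (ii αB).comp h (β x) * ((ii αB (a w))⁻¹ * tt αB) := by
    intro x
    rw [MonoidHom.comp_apply, MonoidHom.comp_apply, mul_assoc, tt_ii, hH, map_mul, map_mul,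
      map_inv]
    group
  obtain ⟨k, hk1, hk3⟩ := hu (MT B αB) (mtm αA αB a (fun x => (hA x).symm))
    (mtl β ((ii αB).comp h) ((ii αB (a w))⁻¹ * tt αB) hk2) (by
      refine MonoidHom.ext_mint ?_
      rw [MonoidHom.comp_apply, MonoidHom.comp_apply, zh_one, zh_one, map_mul, mtm_ii, mtm_tt,
        mtl_tt, map_inv, map_inv])
  have hk1' : ∀ x, k (i₁ x) = mtm αA αB a (fun x => (hA x).symm) x := fun x =>
    DFunLike.congr_fun hk1 x
  have hk3' : ∀ x, k (i₂ x) = mtl β ((ii αB).comp h) ((ii αB (a w))⁻¹ * tt αB) hk2 x := fun x =>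
    DFunLike.congr_fun hk3 x
  have hback : k.comp (mtl αB F (i₁ (tt αA)) hF) = MonoidHom.id _ := by
    refine mt_ext ?_ ?_
    · intro n
      have h1 : k.comp F = ii αB := by
        refine uniq _ _ _ ?_ ?_
        · ext1 x
          rw [MonoidHom.comp_apply, MonoidHom.comp_apply, MonoidHom.comp_apply, hFa', hk1', mtm_ii]
        · ext1 x
          rw [MonoidHom.comp_apply, MonoidHom.comp_apply, MonoidHom.comp_apply, hFh', hk3', mtl_ii,
            MonoidHom.comp_apply]
      rw [MonoidHom.comp_apply, mtl_ii]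
      exact DFunLike.congr_fun h1 n
    · rw [MonoidHom.comp_apply, mtl_tt, hk1', mtm_tt]
      rfl
  refine hC.of_injective _ L (mtl αB F (i₁ (tt αA)) hF) ?_ hL
  intro x y hxy
  have h1 := DFunLike.congr_fun hback x
  have h2 := DFunLike.congr_fun hback y
  rw [MonoidHom.comp_apply, MonoidHom.id_apply] at h1 h2
  rw [← h1, ← h2, hxy]

/-- **Free product with an infinite cyclic group, the generator is mapped to `u x w`.** -/
theorem stepB (hC : Closed C) (hE : ExtClosed C) (x : B)
    (univ : ∀ (L : Type) [Group L] (f : A →* L) (y : L), ∃ F : B →* L, F.comp a = f ∧ F x = y)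
    (uniq : ∀ (L : Type) [Group L] (F F' : B →* L), F.comp a = F'.comp a → F x = F' x → F = F')
    (αB : MulAut B) (αA : MulAut A) (u w : A) (hA : ∀ x, αB (a x) = a (αA x))
    (hx : αB x = a u * x * a w) (hCA : C (MT A αA)) : C (MT B αB) := by
  let p : MT A αA := (ii αA u)⁻¹ * tt αA
  let q : MT A αA := ii αA w * tt αA
  have hp : mtr αA p = Multiplicative.ofAdd 1 := by
    rw [map_mul, map_inv, mtr_ii, mtr_tt, inv_one, one_mul]
  have hq : mtr αA q = Multiplicative.ofAdd 1 := by
    rw [map_mul, mtr_ii, mtr_tt, one_mul]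
  -- the stable letter is the inverse of `x`
  obtain ⟨L, _, i, s, hL, hs, hu⟩ := hnn1 hC hE p q (mtr αA) (hp.trans hq.symm) (by
    rw [hp]
    intro c d hcd
    rw [zpowersHom_apply, zpowersHom_apply, ← ofAdd_zsmul, ← ofAdd_zsmul, smul_eq_mul, smul_eq_mul,
      mul_one, mul_one] at hcd
    exact hcd) hCA hC.int
  obtain ⟨F, hFa, hFx⟩ := univ L (i.comp (ii αA)) s⁻¹
  have hFa' : ∀ x, F (a x) = i (ii αA x) := fun x => DFunLike.congr_fun hFa x
  have hF : ∀ n, i (tt αA) * F n = F (αB n) * i (tt αA) := by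
    have h1 : (MulAut.conj (i (tt αA))).toMonoidHom.comp F = F.comp αB.toMonoidHom := by
      refine uniq L _ _ ?_ ?_
      · ext x
        change i (tt αA) * F (a x) * (i (tt αA))⁻¹ = F (αB (a x))
        rw [hA, hFa', hFa', mul_inv_eq_iff_eq_mul, ← map_mul, ← map_mul, tt_ii]
      · change i (tt αA) * F x * (i (tt αA))⁻¹ = F (αB x)
        rw [hx, map_mul, map_mul, hFa', hFa', hFx]
        have h2 : s * ((i (ii αA u))⁻¹ * i (tt αA)) = i (ii αA w) * i (tt αA) * s := by
          rw [← map_inv, ← map_mul, ← map_mul]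
          exact hs
        have h3 : i (tt αA) * s⁻¹ = i (ii αA u) * s⁻¹ * (i (ii αA w) * i (tt αA)) := by
          rw [← mul_right_inj (i (ii αA u))⁻¹, ← mul_right_inj s, ← mul_assoc _ (i (tt αA)) s⁻¹,
            ← mul_assoc s, h2]
          group
        rw [h3]
        group
    intro n
    have h2 := DFunLike.congr_fun h1 n
    change i (tt αA) * F n * (i (tt αA))⁻¹ = F (αB n) at h2
    rw [← h2]
    group
  -- the way back
  obtain ⟨k, hk1, hk2⟩ := hu (MT B αB) (mtm αA αB a (fun x => (hA x).symm)) (ii αB x)⁻¹ (by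
    rw [map_mul, map_mul, map_inv, mtm_ii, mtm_ii, mtm_tt]
    have h1 : tt αB * ii αB x = ii αB (a u) * ii αB x * ii αB (a w) * tt αB := by
      rw [tt_ii, hx, map_mul, map_mul]
    rw [inv_mul_eq_iff_eq_mul, ← mul_assoc, ← mul_assoc, eq_mul_inv_iff_mul_eq]
    calc (ii αB (a u))⁻¹ * tt αB * ii αB x = (ii αB (a u))⁻¹ * (tt αB * ii αB x) := by group
      _ = _ := by rw [h1]; group)
  have hk1' : ∀ x, k (i x) = mtm αA αB a (fun x => (hA x).symm) x := fun x =>
    DFunLike.congr_fun hk1 x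
  have hback : k.comp (mtl αB F (i (tt αA)) hF) = MonoidHom.id _ := by
    refine mt_ext ?_ ?_
    · intro n
      have h1 : k.comp F = ii αB := by
        refine uniq _ _ _ ?_ ?_
        · ext1 x
          rw [MonoidHom.comp_apply, MonoidHom.comp_apply, MonoidHom.comp_apply, hFa', hk1', mtm_ii]
        · rw [MonoidHom.comp_apply, hFx, map_inv, hk2, inv_inv]
      rw [MonoidHom.comp_apply, mtl_ii]
      exact DFunLike.congr_fun h1 n
    · rw [MonoidHom.comp_apply, mtl_tt, hk1', mtm_tt]
      rfl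
  refine hC.of_injective _ L (mtl αB F (i (tt αA)) hF) ?_ hL
  intro x y hxy
  have h1 := DFunLike.congr_fun hback x
  have h2 := DFunLike.congr_fun hback y
  rw [MonoidHom.comp_apply, MonoidHom.id_apply] at h1 h2
  rw [← h1, ← h2, hxy]

end step

end Pool.Agent.Q105.FJ
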