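import Pool.Agent.Q152.AM.Div
import Pool.Agent.Q152.AM.Norm
import Pool.Agent.Q143.CY.Cyc
import Pool.Agent.Helper677.FreeRTFN

/-!
# Amalgamated products over infinite cyclic groups with a condition on one factor
-/

set_option autoImplicit false
set_option linter.unusedSectionVars false
set_option linter.style.haveILetI false

namespace Pool.Agent.Q105.FJ

open Monoid Pool.Agent.Y462.SS Pool.Agent.Q152.WP Pool.Agent.Q152.AM Pool.Agent.Q143.EI
  Pool.Agent.Q143.CY

variable {C : ∀ (G : Type) [Group G], Prop}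

section pair

variable (G B : Type) [Group G] [Group B]

/-- the two factors -/
def B2 : Bool → Type
  | false => G
  | true => B

instance B2.grp : ∀ b, Group (B2 G B b)
  | false => inferInstanceAs (Group G)
  | true => inferInstanceAs (Group B)

variable {G B}

/-- the two homomorphisms of the infinite cyclic group -/
def ph2 (w : G) (c : B) : ∀ b, Multiplicative ℤ →* B2 G B b
  | false => zpowersHom G w
  | true => zpowersHom B c

/-- the amalgamated product -/
abbrev A2 (w : G) (c : B) : Type := PushoutI (ph2 w c)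

theorem ph2_injective {w : G} {c : B} (hw : ¬ IsOfFinOrder w) (hc : ¬ IsOfFinOrder c) (b : Bool) :
    Function.Injective (ph2 w c b) := by
  cases b with
  | false => exact zpowersHom_injective hw
  | true => exact zpowersHom_injective hc

/-- the first inclusion -/
def iG (w : G) (c : B) : G →* A2 w c := PushoutI.of (φ := ph2 w c) false

/-- the second inclusion -/
def iB (w : G) (c : B) : B →* A2 w c := PushoutI.of (φ := ph2 w c) true

theorem iG_w (w : G) (c : B) : iG w c w = iB w c c := by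
  have h1 := PushoutI.of_apply_eq_base (ph2 w c) false (Multiplicative.ofAdd 1)
  have h2 := PushoutI.of_apply_eq_base (ph2 w c) true (Multiplicative.ofAdd 1)
  have e1 : ph2 w c false (Multiplicative.ofAdd 1) = w := zpow_one w
  have e2 : ph2 w c true (Multiplicative.ofAdd 1) = c := zpow_one c
  rw [e1] at h1
  rw [e2] at h2
  exact h1.trans h2.symm

theorem iG_injective {w : G} {c : B} (hw : ¬ IsOfFinOrder w) (hc : ¬ IsOfFinOrder c) :
    Function.Injective (iG w c) := PushoutI.of_injective (ph2_injective hw hc) false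

theorem iB_injective {w : G} {c : B} (hw : ¬ IsOfFinOrder w) (hc : ¬ IsOfFinOrder c) :
    Function.Injective (iB w c) := PushoutI.of_injective (ph2_injective hw hc) true

theorem a2_tf {w : G} {c : B} (hw : ¬ IsOfFinOrder w) (hc : ¬ IsOfFinOrder c) (hG : TF G)
    (hB : TF B) : TF (A2 w c) := by
  refine tf_push (ph2_injective hw hc) ?_
  rintro (_ | _)
  · exact hG
  · exact hB

theorem a2_countable [Countable G] [Countable B] (w : G) (c : B) : Countable (A2 w c) := by
  refine countable_push ?_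
  rintro (_ | _)
  · exact ‹Countable G›
  · exact ‹Countable B›

/-- homomorphisms -/
theorem a2_lift (w : G) (c : B) {T : Type} [Group T] (p : G →* T) (q : B →* T) (h : p w = q c) :
    ∃ F : A2 w c →* T, F.comp (iG w c) = p ∧ F.comp (iB w c) = q := by
  have hpq : ∀ n, p (ph2 w c false n) = q (ph2 w c true n) := by
    intro n
    change p (w ^ (Multiplicative.toAdd n)) = q (c ^ (Multiplicative.toAdd n))
    rw [map_zpow, map_zpow, h]
  obtain ⟨F, h1, h2⟩ := (amal_pushout (ph2 w c)).lift T p q hpq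
  exact ⟨F, MonoidHom.ext h1, MonoidHom.ext h2⟩

theorem a2_ext {w : G} {c : B} {T : Type} [Group T] {F F' : A2 w c →* T}
    (h1 : F.comp (iG w c) = F'.comp (iG w c)) (h2 : F.comp (iB w c) = F'.comp (iB w c)) :
    F = F' := by
  refine MonoidHom.ext fun x => ?_
  have h3 := (amal_pushout (ph2 w c)).gen (F.eqLocus F') (fun g => DFunLike.congr_fun h1 g)
    (fun g => DFunLike.congr_fun h2 g) x
  exact h3

theorem det_inf {c : B} (hc : Det C B c) : ¬ IsOfFinOrder c := by
  obtain ⟨M, _, f, N, _, _, _, hi, _⟩ := hc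
  intro h
  obtain ⟨n, hn, h1⟩ := isOfFinOrder_iff_pow_eq_one.1 h
  refine hi n hn.ne' ?_
  rw [← map_pow, h1, map_one]

/-- the case of a central element -/
theorem a2_central (hC : Closed C) (hE : ExtClosed C) {M : Type} [Group M] {w : G} {z : M}
    (hw : ¬ IsOfFinOrder w) (hz : ¬ IsOfFinOrder z) (hzc : ∀ m, z * m = m * z) (hG : C G)
    (N : Subgroup M) [N.Normal] (hN : N = Subgroup.zpowers z) (hM : C (M ⧸ N)) : C (A2 w z) := by
  have hA : Amal (zpowersHom G w) (zpowersHom M z) (iG w z) (iB w z) := amal_pushout (ph2 w z)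
  refine normal_amalgam hC hE hA (zpowersHom_injective hw)
    (zpowersHom_injective hz) ?_ hG hM (QuotientGroup.mk' N) (QuotientGroup.mk'_surjective N) ?_
  · intro κ
    refine ⟨1, fun h => ⟨h, ?_, ?_⟩⟩
    · change z ^ (Multiplicative.toAdd h) = κ * z ^ (Multiplicative.toAdd h) * κ⁻¹
      have h1 : Commute z κ := hzc κ
      rw [← (h1.zpow_left _).eq, mul_inv_cancel_right]
    · group
  · intro κ
    have h1 : QuotientGroup.mk' N κ = 1 ↔ κ ∈ N := QuotientGroup.eq_one_iff κ
    rw [h1, hN, Subgroup.mem_zpowers_iff]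
    constructor
    · rintro ⟨k, rfl⟩
      exact ⟨Multiplicative.ofAdd k, rfl⟩
    · rintro ⟨k, rfl⟩
      exact ⟨Multiplicative.toAdd k, rfl⟩

/-- **Amalgamated products with a condition on one factor.** -/
theorem one_side (hC : Closed C) (hE : ExtClosed C) {w : G} {c : B} (hw : ¬ IsOfFinOrder w)
    (hG : C G) (hB : C B) (hc : Det C B c) : C (A2 w c) := by
  have hci := det_inf hc
  obtain ⟨M, _, f, N, _, hN, hz, hi, hM⟩ := hc
  have hzi : ¬ IsOfFinOrder (f c) := by
    intro h
    obtain ⟨n, hn, h1⟩ := isOfFinOrder_iff_pow_eq_one.1 h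
    exact hi n hn.ne' h1
  have hΓ : C (A2 w (f c)) := a2_central hC hE hw hzi hz hG N hN hM
  let F : ∀ b, B2 G B b →* A2 w (f c) := fun b => match b with
    | false => iG w (f c)
    | true => (iB w (f c)).comp f
  refine push_edge hC hE (ph2_injective hw hci) ?_ hΓ F ((iG w (f c)).comp (zpowersHom G w)) ?_
    ((iG_injective hw hzi).comp (zpowersHom_injective hw))
  · rintro (_ | _)
    · exact hG
    · exact hB
  · rintro (_ | _)
    · rfl
    · refine MonoidHom.ext_mint ?_
      change iB w (f c) (f (c ^ (1 : ℤ))) = iG w (f c) (w ^ (1 : ℤ))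
      rw [zpow_one, zpow_one, iG_w]

/-- the relation `w = c` -/
def relN (w : G) (c : B) : Subgroup (Coprod G B) :=
  Subgroup.normalClosure {Coprod.inl w * (Coprod.inr c)⁻¹}

instance relN_normal (w : G) (c : B) : (relN w c).Normal := Subgroup.normalClosure_normal

/-- the group generated by `G` and `B` with the additional relation `w = c` -/
abbrev EqG (w : G) (c : B) : Type := Coprod G B ⧸ relN w c

/-- the homomorphism to the amalgamated product -/
def toA (w : G) (c : B) : EqG w c →* A2 w c :=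
  QuotientGroup.lift _ (Coprod.lift (iG w c) (iB w c)) (fun x hx => by
    have h1 : relN w c ≤ (Coprod.lift (iG w c) (iB w c)).ker := by
      refine Subgroup.normalClosure_le_normal ?_
      rintro _ rfl
      change Coprod.lift (iG w c) (iB w c) (Coprod.inl w * (Coprod.inr c)⁻¹) = 1
      rw [map_mul, map_inv, Coprod.lift_apply_inl, Coprod.lift_apply_inr, iG_w, mul_inv_cancel]
    exact h1 hx)

/-- the class of an element of `G` -/
def jG (w : G) (c : B) : G →* EqG w c := (QuotientGroup.mk' _).comp Coprod.inl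

/-- the class of an element of `B` -/
def jB (w : G) (c : B) : B →* EqG w c := (QuotientGroup.mk' _).comp Coprod.inr

theorem j_eq (w : G) (c : B) : jG w c w = jB w c c := by
  change ((Coprod.inl w : Coprod G B) : EqG w c) = ((Coprod.inr c : Coprod G B) : EqG w c)
  rw [QuotientGroup.eq]
  have h1 : (Coprod.inl w * (Coprod.inr c)⁻¹ : Coprod G B) ∈ relN w c :=
    Subgroup.subset_normalClosure rfl
  have h2 := (relN_normal w c).conj_mem _ (Subgroup.inv_mem _ h1) (Coprod.inl w)⁻¹
  have h3 : ((Coprod.inl w : Coprod G B)⁻¹ * (Coprod.inl w * (Coprod.inr c)⁻¹)⁻¹ *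
      (Coprod.inl w)⁻¹⁻¹) = (Coprod.inl w)⁻¹ * Coprod.inr c := by group
  rw [h3] at h2
  exact h2

theorem toA_jG (w : G) (c : B) (g : G) : toA w c (jG w c g) = iG w c g := by
  change Coprod.lift (iG w c) (iB w c) (Coprod.inl g) = _
  rw [Coprod.lift_apply_inl]

theorem toA_jB (w : G) (c : B) (g : B) : toA w c (jB w c g) = iB w c g := by
  change Coprod.lift (iG w c) (iB w c) (Coprod.inr g) = _
  rw [Coprod.lift_apply_inr]

theorem toA_injective (w : G) (c : B) : Function.Injective (toA w c) := by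
  obtain ⟨F, h1, h2⟩ := a2_lift w c (jG w c) (jB w c) (j_eq w c)
  have h3 : F.comp (toA w c) = MonoidHom.id _ := by
    refine QuotientGroup.monoidHom_ext _ (Coprod.hom_ext ?_ ?_)
    · ext g
      change F (toA w c (jG w c g)) = jG w c g
      rw [toA_jG]
      exact DFunLike.congr_fun h1 g
    · ext g
      change F (toA w c (jB w c g)) = jB w c g
      rw [toA_jB]
      exact DFunLike.congr_fun h2 g
  exact Function.LeftInverse.injective (g := F) (fun x => DFunLike.congr_fun h3 x)

theorem eqG_mem (hC : Closed C) (hE : ExtClosed C) {w : G} {c : B} (hw : ¬ IsOfFinOrder w)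
    (hG : C G) (hB : C B) (hc : Det C B c) : C (EqG w c) :=
  hC.of_injective _ _ (toA w c) (toA_injective w c) (one_side hC hE hw hG hB hc)

theorem eqG_tf {w : G} {c : B} (hw : ¬ IsOfFinOrder w) (hc : ¬ IsOfFinOrder c) (hG : TF G)
    (hB : TF B) : TF (EqG w c) := by
  intro x hx
  refine toA_injective w c ?_
  rw [map_one]
  exact a2_tf hw hc hG hB _ ((toA w c).isOfFinOrder hx)

theorem jG_injective {w : G} {c : B} (hw : ¬ IsOfFinOrder w) (hc : ¬ IsOfFinOrder c) :
    Function.Injective (jG w c) := by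
  intro x y hxy
  refine iG_injective hw hc ?_
  rw [← toA_jG, ← toA_jG, hxy]

theorem jB_injective {w : G} {c : B} (hw : ¬ IsOfFinOrder w) (hc : ¬ IsOfFinOrder c) :
    Function.Injective (jB w c) := by
  intro x y hxy
  refine iB_injective hw hc ?_
  rw [← toA_jB, ← toA_jB, hxy]

end pair

section free

open Pool.Agent.Helper677.RTFN

theorem U_normal (m p : ℕ) : ((U m p).subgroupOf (U m 1)).Normal := by
  refine ⟨fun x hx g => ?_⟩
  have h1 := comm_mem (m := m) (p := 1) (q := p) g.2 hx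
  have h2 : (g : (Matrix (Fin m) (Fin m) ℤ)ˣ) * x * (g : (Matrix (Fin m) (Fin m) ℤ)ˣ)⁻¹ *
      (x : (Matrix (Fin m) (Fin m) ℤ)ˣ)⁻¹ ∈ U m p := by
    have h3 : U m (1 + p) ≤ U m p := by
      intro y hy
      exact ⟨J_anti (by omega) hy.1, J_anti (by omega) hy.2⟩
    exact h3 h1
  have hx' : (x : (Matrix (Fin m) (Fin m) ℤ)ˣ) ∈ U m p := hx
  have h4 := (U m p).mul_mem h2 hx'
  rw [inv_mul_cancel_right] at h4
  exact h4

theorem U_tf {m p : ℕ} (hp : 1 ≤ p) {x : (Matrix (Fin m) (Fin m) ℤ)ˣ} (hx : x ∈ U m p) {k : ℕ}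
    (hk : 0 < k) (h : x ^ k ∈ U m (p + 1)) : x ∈ U m (p + 1) := by
  have key : ∀ y : (Matrix (Fin m) (Fin m) ℤ)ˣ, y ∈ U m p → y ^ k ∈ U m (p + 1) →
      (y : Matrix (Fin m) (Fin m) ℤ) - 1 ∈ J m (p + 1) := by
    intro y hy h
    have h1 := pow_aux hp hy.1 k
    have h2 : (y : Matrix (Fin m) (Fin m) ℤ) ^ k - 1 ∈ J m (p + 1) := by
      have := h.1
      rwa [Units.val_pow_eq_pow_val] at this
    have h3 := AddSubgroup.sub_mem _ h2 h1
    rw [sub_sub_cancel] at h3
    exact J_tors hk h3
  refine ⟨key x hx h, key x⁻¹ (Subgroup.inv_mem _ hx) ?_⟩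
  rw [inv_pow]
  exact Subgroup.inv_mem _ h

theorem det_ut (hC : Closed C) (hE : ExtClosed C) {B : Type} [Group B] {m : ℕ} (φ : B →* UT m)
    (c : B) (hc : φ c ≠ 1) : Det C B c := by
  classical
  have hex : ∃ p, (φ c : (Matrix (Fin m) (Fin m) ℤ)ˣ) ∉ U m p := by
    refine ⟨m, fun h => hc ?_⟩
    have h2 := J_top h.1
    apply Subtype.ext
    apply Units.ext
    exact sub_eq_zero.1 h2
  obtain ⟨p, hp1, hp2⟩ : ∃ p, (φ c : (Matrix (Fin m) (Fin m) ℤ)ˣ) ∉ U m p ∧
      ∀ q < p, (φ c : (Matrix (Fin m) (Fin m) ℤ)ˣ) ∈ U m q :=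
    ⟨Nat.find hex, Nat.find_spec hex, fun q hq => not_not.1 (Nat.find_min hex hq)⟩
  have hp : 2 ≤ p := by
    by_contra h
    refine hp1 ?_
    have h1 : p ≤ 1 := by omega
    have h3 := (φ c).2
    exact ⟨J_anti h1 h3.1, J_anti h1 h3.2⟩
  obtain ⟨q, rfl⟩ : ∃ q, p = q + 1 := ⟨p - 1, by omega⟩
  have hq : (φ c : (Matrix (Fin m) (Fin m) ℤ)ˣ) ∈ U m q := hp2 q (Nat.lt_succ_self q)
  haveI := U_normal m (q + 1)
  let K : Subgroup (UT m) := (U m (q + 1)).subgroupOf (U m 1)
  let f : B →* UT m ⧸ K := (QuotientGroup.mk' K).comp φ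
  have hcen : ∀ x : UT m ⧸ K, f c * x = x * f c := by
    intro x
    induction x using QuotientGroup.induction_on with
    | H x =>
      change ((φ c * x : UT m) : UT m ⧸ K) = ((x * φ c : UT m) : UT m ⧸ K)
      rw [QuotientGroup.eq]
      have h1 := comm_mem (m := m) (p := 1) (q := q) (Subgroup.inv_mem _ x.2)
        (Subgroup.inv_mem _ hq)
      rw [inv_inv, inv_inv] at h1
      have h2 : (((φ c * x)⁻¹ * (x * φ c) : UT m) : (Matrix (Fin m) (Fin m) ℤ)ˣ) =
          (x : (Matrix (Fin m) (Fin m) ℤ)ˣ)⁻¹ * (φ c : (Matrix (Fin m) (Fin m) ℤ)ˣ)⁻¹ *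
            (x : (Matrix (Fin m) (Fin m) ℤ)ˣ) * (φ c : (Matrix (Fin m) (Fin m) ℤ)ˣ) := by
        change ((φ c : (Matrix (Fin m) (Fin m) ℤ)ˣ) * x)⁻¹ * (x * φ c) = _
        group
      change (((φ c * x)⁻¹ * (x * φ c) : UT m) : (Matrix (Fin m) (Fin m) ℤ)ˣ) ∈ U m (q + 1)
      rw [h2, add_comm q 1]
      exact h1
  have hinf : ∀ n : ℕ, n ≠ 0 → f c ^ n ≠ 1 := by
    intro n hn h
    have h1 : (φ c) ^ n ∈ K := by
      rw [← QuotientGroup.eq_one_iff]
      exact h
    exact hp1 (U_tf (by omega) hq (Nat.pos_of_ne_zero hn) h1)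
  have hn : (Subgroup.zpowers (f c)).Normal := by
    refine ⟨fun x hx m => ?_⟩
    obtain ⟨k, rfl⟩ := Subgroup.mem_zpowers_iff.1 hx
    have h3 : Commute (f c) m := hcen m
    rw [← (h3.zpow_left k).eq, mul_inv_cancel_right]
    exact hx
  refine ⟨UT m ⧸ K, inferInstance, f, Subgroup.zpowers (f c), hn, rfl, hcen, hinf, ?_⟩
  exact nilp_mem hC hE _

theorem det_free (hC : Closed C) (hE : ExtClosed C) {α : Type} (v : FreeGroup α) (hv : v ≠ 1) :
    Det C (FreeGroup α) v := by
  classical
  obtain ⟨m, φ, h⟩ := free_rtfn v hv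
  exact det_ut hC hE φ v h

end free

end Pool.Agent.Q105.FJ
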