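import Mathlib

/-!
# Extension of a partial automorphism of a finite subgraph to a periodic automorphism

Let `σ` be an automorphism of a graph on `V`, and `S` a finite set of vertices.  There is a graph
`Γ` with an automorphism `ρ` of finite order and a map `j` of `V` to the vertices of `Γ` with
`j σ = ρ j`, whose restriction to `S` is an isomorphism onto a full subgraph.
-/

set_option autoImplicit false

namespace Pool.Agent.Q105.FJ

variable {V : Type}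

/-- separation of two cosets of subgroups of the integers -/
theorem exists_mod (A B : AddSubgroup ℤ) (c : ℤ) (hc : c ∉ A ⊔ B) :
    ∃ m : ℤ, 0 < m ∧ ∀ x ∈ A ⊔ B, ¬ m ∣ c + x := by
  obtain ⟨d, hd⟩ := Int.subgroup_cyclic (A ⊔ B)
  rw [hd] at hc ⊢
  rw [AddSubgroup.mem_closure_singleton] at hc
  by_cases h0 : d = 0
  · refine ⟨|c| + 1, by positivity, ?_⟩
    intro x hx
    rw [AddSubgroup.mem_closure_singleton] at hx
    obtain ⟨n, rfl⟩ := hx
    rw [h0, smul_zero, add_zero]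
    intro hdv
    have h1 : |c| < |c| + 1 := by omega
    have h2 : c = 0 := Int.eq_zero_of_abs_lt_dvd hdv h1
    exact hc ⟨0, by rw [h2, zero_smul]⟩
  · refine ⟨|d|, abs_pos.2 h0, ?_⟩
    intro x hx
    rw [AddSubgroup.mem_closure_singleton] at hx
    obtain ⟨n, rfl⟩ := hx
    intro hdv
    rw [abs_dvd] at hdv
    obtain ⟨k, hk⟩ := hdv
    exact hc ⟨k - n, by
      rw [sub_smul, smul_eq_mul, smul_eq_mul]
      rw [smul_eq_mul] at hk
      linear_combination -hk⟩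

/-- the exponents of the permutation that fix a point -/
def stab (σ : Equiv.Perm V) (a : V) : AddSubgroup ℤ where
  carrier := {n | (σ ^ n) a = a}
  zero_mem' := by simp
  add_mem' := by
    intro m n hm hn
    change (σ ^ (m + n)) a = a
    rw [zpow_add, Equiv.Perm.mul_apply]
    rw [show (σ ^ n) a = a from hn]
    exact hm
  neg_mem' := by
    intro n hn
    change (σ ^ (-n)) a = a
    rw [zpow_neg, Equiv.Perm.inv_eq_iff_eq]
    exact (show (σ ^ n) a = a from hn).symm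

/-- separation of the exponents of two pairs of points -/
theorem exists_sep_exp (σ : Equiv.Perm V) (a b s s' : V)
    (h : ∀ i : ℤ, (σ ^ i) a = s → (σ ^ i) b = s' → False) :
    ∃ m : ℤ, 0 < m ∧ ∀ i j : ℤ, (σ ^ i) a = s → (σ ^ j) b = s' → ¬ m ∣ i - j := by
  by_cases hi : ∃ i : ℤ, (σ ^ i) a = s
  swap
  · exact ⟨1, one_pos, fun i j h1 _ => absurd ⟨i, h1⟩ hi⟩
  by_cases hj : ∃ j : ℤ, (σ ^ j) b = s'
  swap
  · exact ⟨1, one_pos, fun i j _ h1 => absurd ⟨j, h1⟩ hj⟩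
  obtain ⟨i₀, hi₀⟩ := hi
  obtain ⟨j₀, hj₀⟩ := hj
  have hc : i₀ - j₀ ∉ stab σ a ⊔ stab σ b := by
    intro hmem
    obtain ⟨α, hα, β, hβ, hs⟩ := AddSubgroup.mem_sup.1 hmem
    have hα' : (σ ^ (-α)) a = a := (stab σ a).neg_mem hα
    have hβ' : (σ ^ β) b = b := hβ
    have e1 : i₀ - α = j₀ + β := by omega
    refine h (i₀ - α) ?_ ?_
    · rw [sub_eq_add_neg, zpow_add, Equiv.Perm.mul_apply, hα', hi₀]
    · rw [e1, zpow_add, Equiv.Perm.mul_apply, hβ', hj₀]
  obtain ⟨m, hm, hsep⟩ := exists_mod (stab σ a) (stab σ b) (i₀ - j₀) hc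
  refine ⟨m, hm, fun i j h1 h2 hdv => ?_⟩
  have k1 : i - i₀ ∈ stab σ a := by
    change (σ ^ (i - i₀)) a = a
    rw [sub_eq_neg_add, zpow_add, Equiv.Perm.mul_apply, h1, ← hi₀, ← Equiv.Perm.mul_apply,
      ← zpow_add, neg_add_cancel]
    rfl
  have k2 : j₀ - j ∈ stab σ b := by
    have k3 : j - j₀ ∈ stab σ b := by
      change (σ ^ (j - j₀)) b = b
      rw [sub_eq_neg_add, zpow_add, Equiv.Perm.mul_apply, h2, ← hj₀, ← Equiv.Perm.mul_apply,
        ← zpow_add, neg_add_cancel]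
      rfl
    have := (stab σ b).neg_mem k3
    rwa [neg_sub] at this
  refine hsep ((i - i₀) + (j₀ - j)) (add_mem (AddSubgroup.mem_sup_left k1)
    (AddSubgroup.mem_sup_right k2)) ?_
  have e2 : i₀ - j₀ + ((i - i₀) + (j₀ - j)) = i - j := by ring
  rwa [e2]

/-- the equivalence relation of the points in the same orbit of `σ ^ m` -/
def qs (σ : Equiv.Perm V) (m : ℤ) : Setoid V where
  r v w := ∃ k : ℤ, (σ ^ (m * k)) v = w
  iseqv :=
    { refl := fun v => ⟨0, by simp⟩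
      symm := by
        rintro v w ⟨k, rfl⟩
        refine ⟨-k, ?_⟩
        rw [← Equiv.Perm.mul_apply, ← zpow_add, mul_neg, neg_add_cancel]
        rfl
      trans := by
        rintro u v w ⟨k, rfl⟩ ⟨l, rfl⟩
        refine ⟨l + k, ?_⟩
        rw [mul_add, zpow_add, Equiv.Perm.mul_apply] }

/-- the powers of `σ` on the quotient -/
def qmap (σ : Equiv.Perm V) (m n : ℤ) : Quotient (qs σ m) → Quotient (qs σ m) :=
  Quotient.map (fun v => (σ ^ n) v) (by
    rintro v w ⟨k, rfl⟩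
    refine ⟨k, ?_⟩
    rw [← Equiv.Perm.mul_apply, ← Equiv.Perm.mul_apply, ← zpow_add, ← zpow_add, add_comm])

theorem qmap_mk (σ : Equiv.Perm V) (m n : ℤ) (v : V) :
    qmap σ m n (Quotient.mk (qs σ m) v) = Quotient.mk (qs σ m) ((σ ^ n) v) := rfl

/-- `σ` on the quotient -/
def qperm (σ : Equiv.Perm V) (m : ℤ) : Equiv.Perm (Quotient (qs σ m)) where
  toFun := qmap σ m 1
  invFun := qmap σ m (-1)
  left_inv := by
    intro x
    induction x using Quotient.inductionOn with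
    | h v =>
      rw [qmap_mk, qmap_mk, ← Equiv.Perm.mul_apply, ← zpow_add]
      rfl
  right_inv := by
    intro x
    induction x using Quotient.inductionOn with
    | h v =>
      rw [qmap_mk, qmap_mk, ← Equiv.Perm.mul_apply, ← zpow_add]
      rfl

theorem qperm_mk (σ : Equiv.Perm V) (m : ℤ) (v : V) :
    qperm σ m (Quotient.mk (qs σ m) v) = Quotient.mk (qs σ m) (σ v) := by
  change qmap σ m 1 (Quotient.mk (qs σ m) v) = Quotient.mk (qs σ m) (σ v)
  rw [qmap_mk, zpow_one]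

theorem qperm_zpow (σ : Equiv.Perm V) (m n : ℤ) (v : V) :
    (qperm σ m ^ n) (Quotient.mk (qs σ m) v) = Quotient.mk (qs σ m) ((σ ^ n) v) := by
  induction n using Int.induction_on generalizing v with
  | zero => rfl
  | succ n ih =>
    rw [zpow_add_one, zpow_add_one, Equiv.Perm.mul_apply, Equiv.Perm.mul_apply, qperm_mk, ih]
  | pred n ih =>
    rw [zpow_sub_one, zpow_sub_one, Equiv.Perm.mul_apply, Equiv.Perm.mul_apply]
    have h1 : (qperm σ m)⁻¹ (Quotient.mk (qs σ m) v) = Quotient.mk (qs σ m) (σ⁻¹ v) := by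
      rw [Equiv.Perm.inv_eq_iff_eq, qperm_mk]
      congr 1
      exact (σ.apply_symm_apply v).symm
    rw [h1, ih]

/-- the edges -/
def qgraph (Λ : SimpleGraph V) (σ : Equiv.Perm V) (m : ℤ) (S : Finset V) :
    SimpleGraph (Quotient (qs σ m)) where
  Adj x y := x ≠ y ∧ ∃ (n : ℤ) (a b : V), a ∈ S ∧ b ∈ S ∧ Λ.Adj a b ∧
    x = Quotient.mk (qs σ m) ((σ ^ n) a) ∧ y = Quotient.mk (qs σ m) ((σ ^ n) b)
  symm := ⟨by
    rintro x y ⟨h1, n, a, b, ha, hb, hab, hx, hy⟩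
    exact ⟨h1.symm, n, b, a, hb, ha, hab.symm, hy, hx⟩⟩
  loopless := ⟨fun x h => h.1 rfl⟩

/-- **Extension of a partial automorphism.** -/
theorem exists_quot (Λ : SimpleGraph V) (σ : Equiv.Perm V)
    (hσ : ∀ v w, Λ.Adj v w → Λ.Adj (σ v) (σ w)) (hσ' : ∀ v w, Λ.Adj (σ v) (σ w) → Λ.Adj v w)
    (S : Finset V) :
    ∃ (X : Type) (Γ : SimpleGraph X) (ρ : Equiv.Perm X) (j : V → X), IsOfFinOrder ρ ∧
      (∀ x y, Γ.Adj x y → Γ.Adj (ρ x) (ρ y)) ∧ (∀ x y, Γ.Adj (ρ x) (ρ y) → Γ.Adj x y) ∧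
      (∀ v, j (σ v) = ρ (j v)) ∧
      (∀ a ∈ S, ∀ b ∈ S, j a = j b → a = b) ∧
      (∀ a ∈ S, ∀ b ∈ S, Λ.Adj a b → Γ.Adj (j a) (j b)) ∧
      (∀ a ∈ S, ∀ b ∈ S, Γ.Adj (j a) (j b) → Λ.Adj a b) := by
  classical
  -- the powers of `σ` are automorphisms
  have hpow : ∀ (n : ℤ) (v w : V), Λ.Adj v w → Λ.Adj ((σ ^ n) v) ((σ ^ n) w) := by
    intro n
    induction n using Int.induction_on with
    | zero => exact fun v w h => h
    | succ n ih =>
      intro v w h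
      rw [zpow_add_one]
      exact ih _ _ (hσ _ _ h)
    | pred n ih =>
      intro v w h
      rw [zpow_sub_one]
      refine ih _ _ (hσ' _ _ ?_)
      have e1 : σ (σ⁻¹ v) = v := σ.apply_symm_apply v
      have e2 : σ (σ⁻¹ w) = w := σ.apply_symm_apply w
      rw [e1, e2]
      exact h
  -- the numbers that separate the points
  have h1 : ∀ p : V × V, ∃ m : ℤ, 0 < m ∧ (p.1 ≠ p.2 → ∀ i : ℤ, (σ ^ i) p.1 = p.2 → ¬ m ∣ i) := by
    intro p
    by_cases hp : p.1 = p.2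
    · exact ⟨1, one_pos, fun h => absurd hp h⟩
    · obtain ⟨m, hm, h⟩ := exists_sep_exp σ p.1 p.2 p.2 p.2 (by
        intro i h1 h2
        exact hp ((σ ^ i).injective (h1.trans h2.symm)))
      refine ⟨m, hm, fun _ i hi hd => h i 0 hi rfl ?_⟩
      rwa [sub_zero]
  -- the numbers that separate the edges
  have h2 : ∀ p : (V × V) × (V × V), ∃ m : ℤ, 0 < m ∧ (Λ.Adj p.1.1 p.1.2 → ¬ Λ.Adj p.2.1 p.2.2 →
      ∀ i j : ℤ, (σ ^ i) p.1.1 = p.2.1 → (σ ^ j) p.1.2 = p.2.2 → ¬ m ∣ i - j) := by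
    intro p
    by_cases hp : Λ.Adj p.1.1 p.1.2 ∧ ¬ Λ.Adj p.2.1 p.2.2
    · obtain ⟨m, hm, h⟩ := exists_sep_exp σ p.1.1 p.1.2 p.2.1 p.2.2 (by
        intro i h1 h2
        apply hp.2
        rw [← h1, ← h2]
        exact hpow i _ _ hp.1)
      exact ⟨m, hm, fun _ _ => h⟩
    · exact ⟨1, one_pos, fun h1 h2 => absurd ⟨h1, h2⟩ hp⟩
  choose m₁ hm₁ hs₁ using h1
  choose m₂ hm₂ hs₂ using h2
  obtain ⟨m, hm⟩ : ∃ m : ℤ, m = (∏ p ∈ S ×ˢ S, m₁ p) * ∏ p ∈ (S ×ˢ S) ×ˢ (S ×ˢ S), m₂ p :=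
    ⟨_, rfl⟩
  have hmpos : 0 < m := by
    rw [hm]
    exact mul_pos (Finset.prod_pos fun p _ => hm₁ p) (Finset.prod_pos fun p _ => hm₂ p)
  have hd₁ : ∀ a ∈ S, ∀ b ∈ S, m₁ (a, b) ∣ m := by
    intro a ha b hb
    rw [hm]
    exact (Finset.dvd_prod_of_mem m₁ (Finset.mem_product.2 ⟨ha, hb⟩)).trans (dvd_mul_right _ _)
  have hd₂ : ∀ a ∈ S, ∀ b ∈ S, ∀ c ∈ S, ∀ d ∈ S, m₂ ((a, b), (c, d)) ∣ m := by
    intro a ha b hb c hc d hd
    rw [hm]
    exact (Finset.dvd_prod_of_mem m₂ (Finset.mem_product.2 ⟨Finset.mem_product.2 ⟨ha, hb⟩,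
      Finset.mem_product.2 ⟨hc, hd⟩⟩)).trans (dvd_mul_left _ _)
  have hI : ∀ a ∈ S, ∀ b ∈ S, Quotient.mk (qs σ m) a = Quotient.mk (qs σ m) b → a = b := by
    intro a ha b hb hab
    obtain ⟨k, hk⟩ := Quotient.exact hab
    by_contra hne
    exact hs₁ (a, b) hne (m * k) hk ((hd₁ a ha b hb).trans (dvd_mul_right _ _))
  refine ⟨Quotient (qs σ m), qgraph Λ σ m S, qperm σ m, Quotient.mk (qs σ m), ?_, ?_, ?_, ?_, hI,
    ?_, ?_⟩
  · rw [isOfFinOrder_iff_zpow_eq_one]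
    refine ⟨m, hmpos.ne', ?_⟩
    ext x
    induction x using Quotient.inductionOn with
    | h v =>
      rw [qperm_zpow]
      refine Quotient.sound ⟨-1, ?_⟩
      rw [← Equiv.Perm.mul_apply, ← zpow_add, mul_neg, mul_one, neg_add_cancel]
      rfl
  · rintro x y ⟨hxy, n, a, b, ha, hb, hab, rfl, rfl⟩
    refine ⟨fun h => hxy ((qperm σ m).injective h), n + 1, a, b, ha, hb, hab, ?_, ?_⟩
    · rw [qperm_mk, add_comm, zpow_add, zpow_one]
      rfl
    · rw [qperm_mk, add_comm, zpow_add, zpow_one]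
      rfl
  · rintro x y ⟨hxy, n, a, b, ha, hb, hab, hx, hy⟩
    have hinv : ∀ (z : Quotient (qs σ m)) (c : V), qperm σ m z = Quotient.mk (qs σ m) ((σ ^ n) c) →
        z = Quotient.mk (qs σ m) ((σ ^ (n - 1)) c) := by
      intro z c hz
      apply (qperm σ m).injective
      rw [hz, qperm_mk, ← Equiv.Perm.mul_apply, sub_eq_neg_add, zpow_add, ← mul_assoc, zpow_neg,
        zpow_one, mul_inv_cancel, one_mul]
    refine ⟨fun h => hxy (by rw [h]), n - 1, a, b, ha, hb, hab, hinv x a hx, hinv y b hy⟩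
  · intro v
    exact (qperm_mk σ m v).symm
  · intro a ha b hb hab
    refine ⟨fun h => hab.ne (hI a ha b hb h), 0, a, b, ha, hb, hab, rfl, rfl⟩
  · rintro s hs s' hs' ⟨-, n, a, b, ha, hb, hab, h1, h2⟩
    obtain ⟨k, hk⟩ := Quotient.exact h1.symm
    obtain ⟨l, hl⟩ := Quotient.exact h2.symm
    rw [← Equiv.Perm.mul_apply, ← zpow_add] at hk hl
    by_contra hne
    refine hs₂ ((a, b), (s, s')) hab hne (m * k + n) (m * l + n) hk hl ?_
    have e : m * k + n - (m * l + n) = m * (k - l) := by ring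
    rw [e]
    exact (hd₂ a ha b hb s hs s' hs').trans (dvd_mul_right _ _)

end Pool.Agent.Q105.FJ
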