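import Pool.Agent.Q105.FJ.RExt

/-!
# Brunnian presentations over a relational structure
-/

set_option autoImplicit false
set_option linter.unusedSectionVars false
set_option linter.style.haveILetI false

namespace Pool.Agent.Q105.FJ

open Monoid

/-- the free product of copies of the group `P`, one for each element of `V` -/
abbrev FPr (V P : Type) [Group P] : Type := CoprodI (fun _ : V => P)

/-- the homomorphism of free products given by homomorphisms on the factors -/
def fpl {V P H : Type} [Group P] [Group H] (g : V → P →* H) : FPr V P →* H :=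
  CoprodI.lift (M := fun _ : V => P) g

theorem fpl_of {V P H : Type} [Group P] [Group H] (g : V → P →* H) (v : V) (p : P) :
    fpl g (vof P v p) = g v p := CoprodI.lift_of (M := fun _ : V => P) g p

theorem fp_ext {V P H : Type} [Group P] [Group H] {f g : FPr V P →* H}
    (h : ∀ v p, f (vof P v p) = g (vof P v p)) : f = g := by
  refine CoprodI.ext_hom _ _ (fun v => ?_)
  ext p
  exact h v p

theorem fp_ext' {V P H : Type} [Group P] [Group H] {f g : FPr V P →* H}
    (h : ∀ v p, f (vof P v p) = g (vof P v p)) (x : FPr V P) : f x = g x := by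
  rw [fp_ext h]

/-- the substitution -/
def sbs {U V : Type} (P : Type) [Group P] (x : U → V) : FPr U P →* FPr V P :=
  fpl (fun u => vof P (x u))

theorem fpl_sbs {U V P H : Type} [Group P] [Group H] (g : V → P →* H) (x : U → V) (w : FPr U P) :
    fpl g (sbs P x w) = fpl (fun u => g (x u)) w := by
  refine fp_ext' (f := (fpl g).comp (sbs P x)) (fun v p => ?_) w
  rw [MonoidHom.comp_apply, sbs, fpl_of, fpl_of, fpl_of]

open scoped Classical in
/-- the endomorphism which kills the factor `j` -/
noncomputable def kill {U : Type} (P : Type) [Group P] (j : U) : FPr U P →* FPr U P :=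
  fpl (fun u => if u = j then 1 else vof P u)

/-- the element is Brunnian: it is killed by killing any one of the factors -/
def Brun {U P : Type} [Group P] (w : FPr U P) : Prop := ∀ j : U, kill P j w = 1

theorem Brun.map_eq {U P H : Type} [Group P] [Group H] {w : FPr U P} (hw : Brun w)
    (g : U → P →* H) {j : U} (hj : g j = 1) : fpl g w = 1 := by
  have h1 : fpl g w = fpl g (kill P j w) := by
    refine fp_ext' (g := (fpl g).comp (kill P j)) (fun v p => ?_) w
    rw [MonoidHom.comp_apply, kill, fpl_of, fpl_of]
    by_cases h : v = j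
    · rw [if_pos h, h, hj, MonoidHom.one_apply, MonoidHom.one_apply, map_one]
    · rw [if_neg h, fpl_of]
  rw [h1, hw j, map_one]

variable {I : Type} {ar : I → ℕ} {P : Type} [Group P] (w : ∀ i, FPr (Fin (ar i)) P)

/-- the relators: the words `w i`, substituted in the tuples of the relation `i` -/
def bRel {V : Type} (r : RStr I ar V) : Set (FPr V P) :=
  {z | ∃ i x, r i x ∧ z = sbs P x (w i)}

/-- the group given by the copies of `P` and the relators -/
def BG {V : Type} (r : RStr I ar V) : Type := FPr V P ⧸ Subgroup.normalClosure (bRel w r)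

namespace BG

variable {V V' V'' : Type} {r : RStr I ar V} {r' : RStr I ar V'} {r'' : RStr I ar V''}
  {H : Type} [Group H]

instance : Group (BG w r) := inferInstanceAs (Group (_ ⧸ _))

/-- the vertex groups -/
def of (v : V) : P →* BG w r :=
  (QuotientGroup.mk' (Subgroup.normalClosure (bRel w r))).comp (vof P v)

/-- the projection -/
def pj (r : RStr I ar V) : FPr V P →* BG w r :=
  QuotientGroup.mk' (Subgroup.normalClosure (bRel w r))

theorem pj_rel {i : I} {x : Fin (ar i) → V} (h : r i x) : fpl (fun l => of w (r := r) (x l)) (w i) = 1 := by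
  have h1 : pj w r (sbs P x (w i)) = 1 :=
    (QuotientGroup.eq_one_iff _).2 (Subgroup.subset_normalClosure ⟨i, x, h, rfl⟩)
  have h2 : pj w r = fpl (fun v => of w (r := r) v) := by
    refine fp_ext (fun v p => ?_)
    rw [fpl_of]
    rfl
  rw [h2, fpl_sbs] at h1
  exact h1

/-- the universal property -/
def lift (g : V → P →* H) (hg : ∀ i x, r i x → fpl (fun l => g (x l)) (w i) = 1) :
    BG w r →* H :=
  QuotientGroup.lift _ (fpl g) (by
    intro z hz
    have h1 : Subgroup.normalClosure (bRel w r) ≤ (fpl g).ker := by
      refine Subgroup.normalClosure_le_normal ?_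
      rintro _ ⟨i, x, h, rfl⟩
      change fpl g (sbs P x (w i)) = 1
      rw [fpl_sbs]
      exact hg i x h
    exact h1 hz)

theorem lift_of (g : V → P →* H) (hg : ∀ i x, r i x → fpl (fun l => g (x l)) (w i) = 1)
    (v : V) (p : P) : lift w (r := r) g hg (of w v p) = g v p := fpl_of g v p

theorem hom_ext {f g : BG w r →* H} (h : ∀ v p, f (of w v p) = g (of w v p)) : f = g := by
  refine QuotientGroup.monoidHom_ext _ ?_
  exact fp_ext h

theorem induction {motive : BG w r → Prop} (one : motive 1) (gen : ∀ v p, motive (of w v p))
    (mul : ∀ x y, motive x → motive y → motive (x * y)) (x : BG w r) : motive x := by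
  obtain ⟨y, rfl⟩ := QuotientGroup.mk_surjective x
  induction y using CoprodI.induction_on with
  | one => exact one
  | of i m => exact gen i m
  | mul a b ha hb => exact mul _ _ ha hb

/-- functoriality -/
def map (f : V → V') (hf : ∀ i x, r i x → r' i (fun l => f (x l))) : BG w r →* BG w r' :=
  lift w (fun v => of w (f v)) (fun i x h => pj_rel w (hf i x h))

theorem map_of (f : V → V') (hf : ∀ i x, r i x → r' i (fun l => f (x l))) (v : V) (p : P) :
    map w (r := r) (r' := r') f hf (of w v p) = of w (f v) p := lift_of _ _ _ _ _

theorem map_map (f : V → V') (hf : ∀ i x, r i x → r' i (fun l => f (x l)))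
    (g : V' → V'') (hg : ∀ i x, r' i x → r'' i (fun l => g (x l))) (x : BG w r) :
    map w (r := r') (r' := r'') g hg (map w (r := r) f hf x) =
      map w (r := r) (r' := r'') (g ∘ f) (fun i x h => hg i _ (hf i x h)) x := by
  have h : (map w (r := r') (r' := r'') g hg).comp (map w (r := r) f hf) =
      map w (r := r) (r' := r'') (g ∘ f) (fun i x h => hg i _ (hf i x h)) := by
    refine hom_ext w (fun v p => ?_)
    rw [MonoidHom.comp_apply, map_of, map_of, map_of]
    rfl
  exact DFunLike.congr_fun h x

theorem map_id (hf : ∀ i x, r i x → r i (fun l => id (x l))) (x : BG w r) :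
    map w (r := r) (r' := r) id hf x = x := by
  have h : map w (r := r) (r' := r) id hf = MonoidHom.id _ := by
    refine hom_ext w (fun v p => ?_)
    rw [map_of]
    rfl
  exact DFunLike.congr_fun h x

open scoped Classical in
/-- the retraction to a full substructure -/
noncomputable def retr (hw : ∀ i, Brun (w i)) (f : V → V') (hf : REmb r r' f) :
    BG w r' →* BG w r :=
  lift w (fun u => if h : ∃ v, f v = u then of w h.choose else 1) (by
    intro i x hx
    by_cases h : ∀ l, ∃ v, f v = x l
    · choose y hy using h
      have h1 : r i y := by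
        rw [← hf.2 i y]
        have : (fun l => f (y l)) = x := funext hy
        rwa [this]
      have h2 := pj_rel w h1
      have h3 : (fun l => if h : ∃ v, f v = x l then of w (r := r) h.choose else 1) =
          fun l => of w (r := r) (y l) := by
        funext l
        have h4 : ∃ v, f v = x l := ⟨y l, hy l⟩
        rw [dif_pos h4]
        congr 1
        exact hf.1 (h4.choose_spec.trans (hy l).symm)
      rw [h3]
      exact h2
    · rw [not_forall] at h
      obtain ⟨l, hl⟩ := h
      refine (hw i).map_eq _ (j := l) ?_
      rw [dif_neg hl])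

theorem retr_map (hw : ∀ i, Brun (w i)) (f : V → V') (hf : REmb r r' f) (x : BG w r) :
    retr w hw f hf (map w f (fun i x h => (hf.2 i x).2 h) x) = x := by
  have h : (retr w hw f hf).comp (map w f (fun i x h => (hf.2 i x).2 h)) = MonoidHom.id _ := by
    refine hom_ext w (fun v p => ?_)
    rw [MonoidHom.comp_apply, map_of, retr, lift_of]
    have h4 : ∃ v', f v' = f v := ⟨v, rfl⟩
    rw [dif_pos h4, hf.1 h4.choose_spec]
    rfl
  exact DFunLike.congr_fun h x

theorem map_injective (hw : ∀ i, Brun (w i)) (f : V → V') (hf : REmb r r' f) :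
    Function.Injective (map w f (fun i x h => (hf.2 i x).2 h) : BG w r →* BG w r') :=
  Function.LeftInverse.injective (retr_map w hw f hf)

/-- every element comes from a finite substructure -/
theorem exists_fin (x : BG w r) : ∃ (S : Finset V) (y : BG w (indS r S)),
    map w Subtype.val (fun _ _ h => h) y = x := by
  classical
  induction x using induction w with
  | one => exact ⟨∅, 1, map_one _⟩
  | gen v p =>
    refine ⟨{v}, of w ⟨v, Finset.mem_singleton_self v⟩ p, ?_⟩
    rw [map_of]
  | mul x y hx hy =>
    obtain ⟨S, a, rfl⟩ := hx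
    obtain ⟨T, b, rfl⟩ := hy
    have hS : S ⊆ S ∪ T := Finset.subset_union_left
    have hT : T ⊆ S ∪ T := Finset.subset_union_right
    refine ⟨S ∪ T, map w (r := indS r S) (r' := indS r (S ∪ T)) (fun v => ⟨v.1, hS v.2⟩)
      (fun _ _ h => h) a * map w (r := indS r T) (r' := indS r (S ∪ T))
      (fun v => ⟨v.1, hT v.2⟩) (fun _ _ h => h) b, ?_⟩
    rw [map_mul, map_map, map_map]
    rfl

end BG

/-- the functor -/
noncomputable def bFun (hw : ∀ i, Brun (w i)) : RFun I ar where
  obj := fun r => BG w r
  grp := fun _ => inferInstance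
  map := fun f hf => BG.map w f (fun i x h => (hf.2 i x).2 h)
  map_id := fun _ x => BG.map_id w _ x
  map_comp := fun g f _ _ x => BG.map_map w f _ g _ x
  inj := fun f hf => BG.map_injective w hw f hf
  fin := fun _ x => BG.exists_fin w x

/-! ### Examples of Brunnian elements -/

open scoped Classical in
theorem kill_of {U : Type} (j v : U) (p : P) : kill P j (vof P v p) = if v = j then 1 else vof P v p := by
  rw [kill, fpl_of]
  by_cases h : v = j
  · rw [if_pos h, if_pos h]
    rfl
  · rw [if_neg h, if_neg h]

theorem Brun.mul {U : Type} {a b : FPr U P} (ha : Brun a) (hb : Brun b) : Brun (a * b) := fun j => by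
  rw [map_mul, ha j, hb j, one_mul]

theorem Brun.inv {U : Type} {a : FPr U P} (ha : Brun a) : Brun a⁻¹ := fun j => by
  rw [map_inv, ha j, inv_one]

theorem Brun.conj {U : Type} {a : FPr U P} (ha : Brun a) (b : FPr U P) : Brun (b * a * b⁻¹) :=
  fun j => by rw [map_mul, map_mul, ha j, mul_one, map_inv, mul_inv_cancel]

/-- all the elements of one factor -/
theorem brun_one (p : P) : Brun (vof P (0 : Fin 1) p) := fun j => by
  rw [kill_of, if_pos (Subsingleton.elim _ _)]

/-- the relators of the even Artin groups -/
theorem brun_even (p q : P) (n : ℕ) : Brun ((vof P (0 : Fin 2) p * vof P (1 : Fin 2) q) ^ n *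
    ((vof P (1 : Fin 2) q * vof P (0 : Fin 2) p) ^ n)⁻¹) := fun j => by
  rw [map_mul, map_inv, map_pow, map_pow, map_mul, map_mul, kill_of, kill_of]
  fin_cases j
  · simp
  · simp

/-- commutators of elements which together involve all factors -/
theorem brun_comm {U : Type} (a b : FPr U P) (h : ∀ j, kill P j a = 1 ∨ kill P j b = 1) :
    Brun (a * b * a⁻¹ * b⁻¹) := fun j => by
  rw [map_mul, map_mul, map_mul, map_inv, map_inv]
  rcases h j with h | h
  · rw [h]; group
  · rw [h]; group

end Pool.Agent.Q105.FJ
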