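import Pool.Agent.Q105.FJ.RFun

/-!
# Extensions whose kernel depends functorially on a relational structure
-/

set_option autoImplicit false
set_option linter.unusedSectionVars false
set_option linter.style.haveILetI false

namespace Pool.Agent.Q105.FJ

open Pool.Agent.Y462.SS Pool.Agent.Q152.WP

variable {C : ∀ (G : Type) [Group G], Prop}

namespace RFun

variable {I : Type} {ar : I → ℕ} (N : RFun I ar) {V : Type} (r : RStr I ar V)

/-- the permutation `σ` is an automorphism of the structure -/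
def IsAut {I : Type} {ar : I → ℕ} {V : Type} (r : RStr I ar V) (σ : Equiv.Perm V) : Prop :=
  ∀ i x, r i (fun l => σ (x l)) ↔ r i x

theorem remb_perm {r : RStr I ar V} {σ : Equiv.Perm V} (hσ : IsAut r σ) : REmb r r σ :=
  ⟨σ.injective, hσ⟩

/-- the translation -/
theorem remb_capC {r : RStr I ar V} {σ : Equiv.Perm V} (hσ : IsAut r σ) (S : Finset V) :
    REmb (indS r (cap σ S)) (indS r S) (fun v => ⟨σ v.1, ((mem_cap σ S v.1).1 v.2).2⟩) :=
  ⟨fun _ _ hab => Subtype.ext (σ.injective (congrArg (fun z : S => (z : V)) hab)),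
    fun i x => hσ i (fun l => (x l : V))⟩

variable {G : Type} [Group G] (τ : G) (ι : N.obj r →* G) (hι : Function.Injective ι)
  (σ : Equiv.Perm V) (hσ : IsAut r σ) (hτ : ∀ x, τ * ι x * τ⁻¹ = ι (N.map σ (remb_perm hσ) x))

/-- the homomorphism of the finite part to the group -/
noncomputable def kap (S : Finset V) : N.obj (indS r S) →* G :=
  ι.comp (N.map Subtype.val (remb_ind r S))

include hι in
theorem kap_injective (S : Finset V) : Function.Injective (N.kap r ι S) :=
  hι.comp (N.inj Subtype.val (remb_ind r S))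

include hτ in
theorem kap_cap (S : Finset V) (x : N.obj (indS r (cap σ S))) :
    N.kap r ι S (N.map _ (remb_capC hσ S) x) = τ *
      N.kap r ι S (N.map _ (remb_capA r σ S) x) * τ⁻¹ := by
  change ι (N.map Subtype.val (remb_ind r S) (N.map _ (remb_capC hσ S) x)) = τ *
      ι (N.map Subtype.val (remb_ind r S) (N.map _ (remb_capA r σ S) x)) * τ⁻¹
  rw [hτ, N.map_comp, N.map_comp, N.map_comp]
  rfl

/-- the pairs of subgroups -/
noncomputable def kpr (S : Finset V) : Pair τ where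
  A := ((N.kap r ι S).comp (N.map _ (remb_capA r σ S))).range
  F := (N.kap r ι S).range
  hA := by
    rintro _ ⟨x, rfl⟩
    exact ⟨_, rfl⟩
  hB := by
    rintro _ ⟨x, rfl⟩
    exact ⟨_, N.kap_cap r τ ι σ hσ hτ S x⟩

theorem kpr_mono {S T : Finset V} (h : S ⊆ T) :
    N.kpr r τ ι σ hσ hτ S ≤ N.kpr r τ ι σ hσ hτ T := by
  constructor
  · rintro _ ⟨x, rfl⟩
    have hm : cap σ S ⊆ cap σ T := fun v hv =>
      (mem_cap σ T v).2 ⟨h ((mem_cap σ S v).1 hv).1, h ((mem_cap σ S v).1 hv).2⟩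
    refine ⟨N.map _ (remb_sub r hm) x, ?_⟩
    change ι (N.map Subtype.val (remb_ind r T) (N.map _ (remb_capA r σ T)
      (N.map _ (remb_sub r hm) x))) = ι (N.map Subtype.val (remb_ind r S)
        (N.map _ (remb_capA r σ S) x))
    rw [N.map_comp, N.map_comp, N.map_comp]
    rfl
  · rintro _ ⟨x, rfl⟩
    refine ⟨N.map _ (remb_sub r h) x, ?_⟩
    change ι (N.map Subtype.val (remb_ind r T) (N.map _ (remb_sub r h) x)) =
      ι (N.map Subtype.val (remb_ind r S) x)
    rw [N.map_comp]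
    rfl

theorem kpr_dir : Dir ι.range (Set.range (N.kpr r τ ι σ hσ hτ)) := by
  classical
  refine ⟨⟨_, ⟨∅, rfl⟩⟩, ?_, ?_, ?_⟩
  · rintro _ ⟨S, rfl⟩ _ ⟨x, rfl⟩
    exact ⟨_, rfl⟩
  · rintro _ ⟨S, rfl⟩ _ ⟨T, rfl⟩
    exact ⟨_, ⟨S ∪ T, rfl⟩, N.kpr_mono r τ ι σ hσ hτ Finset.subset_union_left,
      N.kpr_mono r τ ι σ hσ hτ Finset.subset_union_right⟩
  · rintro _ ⟨z, rfl⟩
    obtain ⟨S, hS⟩ := N.fin' r z
    let T : Finset V := S ∪ S.image σ
    have hT : S ⊆ cap σ T := by
      intro v hv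
      rw [mem_cap]
      exact ⟨Finset.mem_union_left _ hv,
        Finset.mem_union_right _ (Finset.mem_image_of_mem _ hv)⟩
    obtain ⟨y, hy⟩ := hS (cap σ T) hT
    refine ⟨_, ⟨T, rfl⟩, y, ?_⟩
    change ι (N.map Subtype.val (remb_ind r T) (N.map _ (remb_capA r σ T) y)) = ι z
    rw [N.map_comp, ← hy]
    rfl

include hι in
/-- the partial automorphisms extend -/
theorem kpr_ext (hC : Closed C) (hfin : ∀ (V : Type) [Finite V] (r : RStr I ar V), C (N.obj r))
    (S : Finset V) : Ext C (N.kpr r τ ι σ hσ hτ S) := by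
  obtain ⟨X, u, ρ, j, hρ, hu, hj, hji, hju⟩ := exists_rquot r σ hσ S
  have hu' : ∀ (h : Subgroup.zpowers ρ) i (x : Fin (ar i) → X),
      u i (fun l => h • x l) ↔ u i x := by
    have h0 : ∀ (n : ℤ) i (x : Fin (ar i) → X), u i (fun l => (ρ ^ n) (x l)) ↔ u i x := by
      intro n
      induction n using Int.induction_on with
      | zero => exact fun i x => Iff.rfl
      | succ n ih =>
        intro i x
        have h1 : (fun l => (ρ ^ ((n : ℤ) + 1)) (x l)) = fun l => (ρ ^ (n : ℤ)) (ρ (x l)) := by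
          funext l
          rw [zpow_add_one]
          rfl
        rw [h1]
        exact (ih i (fun l => ρ (x l))).trans (hu i x)
      | pred n ih =>
        intro i x
        have h1 : (fun l => (ρ ^ (-(n : ℤ) - 1)) (x l)) =
            fun l => (ρ ^ (-(n : ℤ))) (ρ⁻¹ (x l)) := by
          funext l
          rw [zpow_sub_one]
          rfl
        rw [h1]
        refine (ih i (fun l => ρ⁻¹ (x l))).trans ?_
        rw [← hu i (fun l => ρ⁻¹ (x l))]
        have h2 : (fun l => ρ (ρ⁻¹ (x l))) = x := by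
          funext l
          exact ρ.apply_symm_apply (x l)
        rw [h2]
    rintro ⟨h, n, rfl⟩ i x
    exact h0 n i x
  haveI : Finite (Subgroup.zpowers ρ) := finite_zpowers.2 hρ
  let ρ' : Subgroup.zpowers ρ := ⟨ρ, Subgroup.mem_zpowers ρ⟩
  have hjm : REmb (indS r S) u (fun v : S => j v.1) :=
    ⟨fun v w h => Subtype.ext (hji v.1 v.2 w.1 w.2 h),
      fun i x => hju i (fun l => (x l : V)) (fun l => (x l).2)⟩
  refine Ext.of_inj (N.kpr r τ ι σ hσ hτ S) (Q := N.SD u hu') (N.kap r ι S)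
    (N.kap_injective r ι hι S) rfl
    (N.map _ (remb_capA r σ S)) (N.map _ (remb_capC hσ S)) ?_ ?_
    ((SemidirectProduct.inl : N.obj u →* N.SD u hu').comp (N.map _ hjm)) ?_
    (SemidirectProduct.inr ρ') ?_ (semi_fin hC (N.obj_mem hC hfin u))
  · rintro _ ⟨x, rfl⟩
    exact ⟨x, rfl⟩
  · intro x
    exact N.kap_cap r τ ι σ hσ hτ S x
  · exact SemidirectProduct.inl_injective.comp (N.inj _ hjm)
  · intro x
    have h1 := N.inr_mul_inl u hu' ρ' (N.map _ hjm (N.map _ (remb_capA r σ S) x))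
    rw [mul_inv_eq_iff_eq_mul] at h1
    change SemidirectProduct.inr ρ' *
      SemidirectProduct.inl (N.map _ hjm (N.map _ (remb_capA r σ S) x)) =
      SemidirectProduct.inl (N.map _ hjm (N.map _ (remb_capC hσ S) x)) *
        SemidirectProduct.inr ρ'
    rw [h1, act_apply, N.map_comp, N.map_comp, N.map_comp]
    congr 2
    refine N.map_congr ?_ _ _ x
    funext v
    exact (hj v.1).symm

/-- **Kernels that depend functorially on a relational structure, up to inner automorphisms.** -/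
theorem kernel_mem (hC : Closed C) (hE : ExtClosed C)
    (hfin : ∀ (V : Type) [Finite V] (r : RStr I ar V), C (N.obj r)) {G Q : Type} [Group G]
    [Group Q] (f : G →* Q) (hf : Function.Surjective f) (hQ : C Q) (ι : N.obj r →* G)
    (hι : Function.Injective ι) (hker : ι.range = f.ker)
    (h : ∀ g : G, ¬ IsOfFinOrder (f g) → ∃ (n : N.obj r) (σ : Equiv.Perm V) (hσ : IsAut r σ),
      ∀ x, g * ι x * g⁻¹ = ι (n * N.map σ (remb_perm hσ) x * n⁻¹)) : C G := by
  refine dir_kernel hC hE f hf hQ ?_ ?_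
  · rw [← hker]
    exact Pool.Agent.Y812.SS.C_equiv hC (MonoidHom.ofInjective hι).symm (N.obj_mem hC hfin r)
  intro q hq
  obtain ⟨g, rfl⟩ := hf q
  obtain ⟨n, σ, hσ, hg⟩ := h g hq
  have hn : f (ι n) = 1 := by
    have : ι n ∈ f.ker := by
      rw [← hker]
      exact ⟨n, rfl⟩
    exact this
  have hτ : ∀ x, ((ι n)⁻¹ * g) * ι x * ((ι n)⁻¹ * g)⁻¹ = ι (N.map σ (remb_perm hσ) x) := by
    intro x
    have h1 : ((ι n)⁻¹ * g) * ι x * ((ι n)⁻¹ * g)⁻¹ = (ι n)⁻¹ * (g * ι x * g⁻¹) * ι n := by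
      group
    rw [h1, hg, map_mul, map_mul, map_inv]
    group
  refine ⟨(ι n)⁻¹ * g, ?_, Set.range (N.kpr r ((ι n)⁻¹ * g) ι σ hσ hτ), ?_, ?_⟩
  · rw [map_mul, map_inv, hn, inv_one, one_mul]
  · rw [← hker]
    exact N.kpr_dir r _ ι σ hσ hτ
  · rintro _ ⟨S, rfl⟩
    exact N.kpr_ext r _ ι hι σ hσ hτ hC hfin S

end RFun

end Pool.Agent.Q105.FJ
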