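import Pool.Agent.Q105.FJ.Quot

/-!
# Extension of a partial automorphism of a finite relational structure

Let `σ` be an automorphism of a relational structure on `V`, and `S` a finite subset.  There is a
structure on a set `X` with an automorphism `ρ` of finite order and a map `j` of `V` to `X` with
`j σ = ρ j`, whose restriction to `S` is an embedding.
-/

set_option autoImplicit false

namespace Pool.Agent.Q105.FJ

variable {V : Type}

/-- a relational structure on `V` of the signature with the relation symbols `i : I` of arity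
`ar i` -/
abbrev RStr (I : Type) (ar : I → ℕ) (V : Type) : Type := ∀ i : I, (Fin (ar i) → V) → Prop

/-- the bound for the exponents -/
theorem exists_period (σ : Equiv.Perm V) (S : Finset V) :
    ∃ m : ℤ, 0 < m ∧ (∀ a ∈ S, ∀ s ∈ S, ∀ b ∈ S, ∀ t ∈ S, ∀ e e' : ℤ, (σ ^ e) a = s →
      (σ ^ e') b = t → m ∣ e - e' → (σ ^ e') a = s ∨ (σ ^ e) b = t) ∧
      (∀ a ∈ S, ∀ s ∈ S, ∀ e : ℤ, (σ ^ e) a = s → m ∣ e → a = s) ∧
      (∀ a ∈ S, (σ ^ m) a = a ∨ ∀ e : ℤ, (σ ^ e) a = a → e = 0) := by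
  classical
  -- the periods
  have h1 : ∀ a : V, ∃ p : ℤ, 0 < p ∧ ((σ ^ p) a = a ∨ ∀ e : ℤ, (σ ^ e) a = a → e = 0) := by
    intro a
    by_cases h : ∃ e : ℤ, e ≠ 0 ∧ (σ ^ e) a = a
    · obtain ⟨e, he, hea⟩ := h
      refine ⟨|e|, abs_pos.2 he, Or.inl ?_⟩
      rcases abs_choice e with h1 | h1
      · rw [h1]
        exact hea
      · rw [h1]
        exact (stab σ a).neg_mem hea
    · refine ⟨1, one_pos, Or.inr (fun e he => ?_)⟩
      by_contra h0
      exact h ⟨e, h0, he⟩
  -- the exponents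
  have h2 : ∀ p : V × V, ∃ d : ℤ, 0 ≤ d ∧ ((∀ e : ℤ, (σ ^ e) p.1 = p.1 → e = 0) →
      ∀ e : ℤ, (σ ^ e) p.1 = p.2 → |e| ≤ d) := by
    intro p
    by_cases h : ∃ e : ℤ, (σ ^ e) p.1 = p.2
    · obtain ⟨e, he⟩ := h
      refine ⟨|e|, abs_nonneg e, fun hinf e' he' => ?_⟩
      have h3 : e' - e = 0 := by
        refine hinf _ ?_
        rw [sub_eq_neg_add, zpow_add, Equiv.Perm.mul_apply, he', ← he, ← Equiv.Perm.mul_apply,
          ← zpow_add, neg_add_cancel]
        rfl
      rw [sub_eq_zero.1 h3]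
    · exact ⟨0, le_rfl, fun _ e he => absurd ⟨e, he⟩ h⟩
  choose p hp hp' using h1
  choose d hd hd' using h2
  obtain ⟨D, hD⟩ : ∃ D : ℤ, D = ∑ x ∈ S ×ˢ S, d x := ⟨_, rfl⟩
  have hD0 : 0 ≤ D := by
    rw [hD]
    exact Finset.sum_nonneg fun x _ => hd x
  have hle : ∀ a ∈ S, ∀ s ∈ S, d (a, s) ≤ D := by
    intro a ha s hs
    rw [hD]
    exact Finset.single_le_sum (f := d) (fun x _ => hd x) (Finset.mem_product.2 ⟨ha, hs⟩)
  obtain ⟨m, hm⟩ : ∃ m : ℤ, m = (2 * D + 1) * ∏ a ∈ S, p a := ⟨_, rfl⟩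
  have hP : 0 < ∏ a ∈ S, p a := Finset.prod_pos fun a _ => hp a
  have hmpos : 0 < m := by
    rw [hm]
    exact mul_pos (by omega) hP
  have hmD : 2 * D < m := by
    rw [hm]
    have h3 : (2 * D + 1) * 1 ≤ (2 * D + 1) * ∏ a ∈ S, p a :=
      mul_le_mul_of_nonneg_left hP (by omega)
    omega
  have hfix : ∀ a ∈ S, (∀ k : ℤ, m ∣ k → (σ ^ k) a = a) ∨ ∀ e : ℤ, (σ ^ e) a = a → e = 0 := by
    intro a ha
    rcases hp' a with h | h
    · left
      intro k hk
      have h3 : p a ∣ k := by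
        refine (Finset.dvd_prod_of_mem p ha).trans ?_
        refine (Dvd.intro_left (2 * D + 1) ?_ : (∏ a ∈ S, p a) ∣ m).trans hk
        exact hm.symm
      obtain ⟨c, rfl⟩ := h3
      have h4 : p a ∈ stab σ a := h
      have h5 := (stab σ a).zsmul_mem h4 c
      rw [smul_eq_mul, mul_comm] at h5
      exact h5
    · exact Or.inr h
  refine ⟨m, hmpos, ?_, ?_, ?_⟩
  · intro a ha s hs b hb t ht e e' hes het hdv
    rcases hfix a ha with h | h
    · left
      have h3 := h (e' - e) (by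
        have := (dvd_neg (a := m)).2 hdv
        rwa [neg_sub] at this)
      rw [← hes]
      have h4 : (σ ^ e') a = (σ ^ e) ((σ ^ (e' - e)) a) := by
        rw [← Equiv.Perm.mul_apply, ← zpow_add]
        congr 2
        ring
      rw [h4, h3]
    · rcases hfix b hb with h' | h'
      · right
        have h3 := h' (e - e') hdv
        rw [← het]
        have h4 : (σ ^ e) b = (σ ^ e') ((σ ^ (e - e')) b) := by
          rw [← Equiv.Perm.mul_apply, ← zpow_add]
          congr 2
          ring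
        rw [h4, h3]
      · left
        have e1 := (hd' (a, s) h e hes).trans (hle a ha s hs)
        have e2 := (hd' (b, t) h' e' het).trans (hle b hb t ht)
        have e3 : |e - e'| < m := by
          have := abs_sub e e'
          omega
        have e4 : e - e' = 0 := Int.eq_zero_of_abs_lt_dvd hdv e3
        rw [← sub_eq_zero.1 e4]
        exact hes
  · intro a ha s hs e hes hdv
    rcases hfix a ha with h | h
    · rw [← hes, h e hdv]
    · have e1 := (hd' (a, s) h e hes).trans (hle a ha s hs)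
      have e3 : |e| < m := by omega
      have e4 : e = 0 := Int.eq_zero_of_abs_lt_dvd hdv e3
      rw [← hes, e4]
      rfl
  · intro a ha
    rcases hfix a ha with h | h
    · exact Or.inl (h m dvd_rfl)
    · exact Or.inr h

/-- a common exponent -/
theorem exists_common (σ : Equiv.Perm V) (S : Finset V) (m : ℤ)
    (h1 : ∀ a ∈ S, ∀ s ∈ S, ∀ b ∈ S, ∀ t ∈ S, ∀ e e' : ℤ, (σ ^ e) a = s →
      (σ ^ e') b = t → m ∣ e - e' → (σ ^ e') a = s ∨ (σ ^ e) b = t)
    (h3 : ∀ a ∈ S, (σ ^ m) a = a ∨ ∀ e : ℤ, (σ ^ e) a = a → e = 0)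
    {n : ℕ} (a s : Fin n → V) (ha : ∀ l, a l ∈ S) (hs : ∀ l, s l ∈ S) (i : ℤ)
    (e : Fin n → ℤ) (he : ∀ l, (σ ^ e l) (a l) = s l) (hi : ∀ l, m ∣ e l - i) :
    ∃ k : ℤ, ∀ l, (σ ^ k) (a l) = s l := by
  have hper : ∀ l, (σ ^ m) (a l) = a l → ∀ k : ℤ, m ∣ e l - k → (σ ^ k) (a l) = s l := by
    intro l hl k hk
    obtain ⟨c, hc⟩ := hk
    have h4 : m ∈ stab σ (a l) := hl
    have h5 := (stab σ (a l)).zsmul_mem h4 (-c)
    rw [smul_eq_mul] at h5
    have h6 : (σ ^ (-c * m)) (a l) = a l := h5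
    have h7 : k = e l + -c * m := by linear_combination -hc
    rw [h7, zpow_add, Equiv.Perm.mul_apply, h6, he]
  by_cases hex : ∃ l₀, ∀ e : ℤ, (σ ^ e) (a l₀) = a l₀ → e = 0
  · obtain ⟨l₀, hl₀⟩ := hex
    refine ⟨e l₀, fun l => ?_⟩
    have hd : m ∣ e l - e l₀ := by
      have := dvd_sub (hi l) (hi l₀)
      rwa [sub_sub_sub_cancel_right] at this
    rcases h3 (a l) (ha l) with h | h
    · exact hper l h _ hd
    · rcases h1 (a l) (ha l) (s l) (hs l) (a l₀) (ha l₀) (s l₀) (hs l₀) (e l) (e l₀) (he l)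
        (he l₀) hd with h4 | h4
      · exact h4
      · have h5 : e l - e l₀ = 0 := by
          refine hl₀ _ ?_
          rw [sub_eq_neg_add, zpow_add, Equiv.Perm.mul_apply, h4, ← he l₀,
            ← Equiv.Perm.mul_apply, ← zpow_add, neg_add_cancel]
          rfl
        rw [← sub_eq_zero.1 h5]
        exact he l
  · refine ⟨i, fun l => ?_⟩
    rcases h3 (a l) (ha l) with h | h
    · exact hper l h _ (hi l)
    · exact absurd ⟨l, h⟩ hex

/-- the relations on the quotient -/
def qstr {I : Type} {ar : I → ℕ} (r : RStr I ar V) (σ : Equiv.Perm V) (m : ℤ) (S : Finset V) :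
    RStr I ar (Quotient (qs σ m)) :=
  fun i x => ∃ (n : ℤ) (a : Fin (ar i) → V), (∀ l, a l ∈ S) ∧ r i a ∧
    ∀ l, x l = Quotient.mk (qs σ m) ((σ ^ n) (a l))

/-- **Extension of a partial automorphism.** -/
theorem exists_rquot {I : Type} {ar : I → ℕ} (r : RStr I ar V) (σ : Equiv.Perm V)
    (hσ : ∀ i x, r i (fun l => σ (x l)) ↔ r i x) (S : Finset V) :
    ∃ (X : Type) (u : RStr I ar X) (ρ : Equiv.Perm X) (j : V → X), IsOfFinOrder ρ ∧
      (∀ i x, u i (fun l => ρ (x l)) ↔ u i x) ∧ (∀ v, j (σ v) = ρ (j v)) ∧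
      (∀ a ∈ S, ∀ b ∈ S, j a = j b → a = b) ∧
      (∀ i (x : Fin (ar i) → V), (∀ l, x l ∈ S) → (u i (fun l => j (x l)) ↔ r i x)) := by
  classical
  have hpow : ∀ (n : ℤ) (i : I) (x : Fin (ar i) → V),
      r i (fun l => (σ ^ n) (x l)) ↔ r i x := by
    intro n
    induction n using Int.induction_on with
    | zero => exact fun i x => Iff.rfl
    | succ n ih =>
      intro i x
      have h1 : (fun l => (σ ^ ((n : ℤ) + 1)) (x l)) = fun l => (σ ^ (n : ℤ)) (σ (x l)) := by
        funext l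
        rw [zpow_add_one]
        rfl
      rw [h1]
      exact (ih i (fun l => σ (x l))).trans (hσ i x)
    | pred n ih =>
      intro i x
      have h1 : (fun l => (σ ^ (-(n : ℤ) - 1)) (x l)) =
          fun l => (σ ^ (-(n : ℤ))) (σ⁻¹ (x l)) := by
        funext l
        rw [zpow_sub_one]
        rfl
      rw [h1]
      refine (ih i (fun l => σ⁻¹ (x l))).trans ?_
      rw [← hσ i (fun l => σ⁻¹ (x l))]
      have h2 : (fun l => σ (σ⁻¹ (x l))) = x := by
        funext l
        exact σ.apply_symm_apply (x l)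
      rw [h2]
  obtain ⟨m, hm, h1, h2, h3⟩ := exists_period σ S
  refine ⟨Quotient (qs σ m), qstr r σ m S, qperm σ m, Quotient.mk (qs σ m), ?_, ?_, ?_, ?_, ?_⟩
  · rw [isOfFinOrder_iff_zpow_eq_one]
    refine ⟨m, hm.ne', ?_⟩
    ext x
    induction x using Quotient.inductionOn with
    | h v =>
      rw [qperm_zpow]
      refine Quotient.sound ⟨-1, ?_⟩
      rw [← Equiv.Perm.mul_apply, ← zpow_add, mul_neg, mul_one, neg_add_cancel]
      rfl
  · intro i x
    constructor
    · rintro ⟨n, a, ha, har, hx⟩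
      refine ⟨n - 1, a, ha, har, fun l => ?_⟩
      apply (qperm σ m).injective
      have hxl : qperm σ m (x l) = Quotient.mk (qs σ m) ((σ ^ n) (a l)) := hx l
      rw [hxl, qperm_mk, ← Equiv.Perm.mul_apply, sub_eq_neg_add, zpow_add, ← mul_assoc, zpow_neg,
        zpow_one, mul_inv_cancel, one_mul]
    · rintro ⟨n, a, ha, har, hx⟩
      refine ⟨n + 1, a, ha, har, fun l => ?_⟩
      change qperm σ m (x l) = _
      rw [hx l, qperm_mk, add_comm, zpow_add, zpow_one]
      rfl
  · intro v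
    exact (qperm_mk σ m v).symm
  · intro a ha b hb hab
    obtain ⟨k, hk⟩ := Quotient.exact hab
    exact h2 a ha b hb (m * k) hk (dvd_mul_right _ _)
  · intro i x hx
    constructor
    · rintro ⟨n, a, ha, har, hxa⟩
      have h4 : ∀ l, ∃ e : ℤ, (σ ^ e) (a l) = x l ∧ m ∣ e - n := by
        intro l
        obtain ⟨k, hk⟩ := Quotient.exact (hxa l).symm
        rw [← Equiv.Perm.mul_apply, ← zpow_add] at hk
        exact ⟨_, hk, by rw [add_sub_cancel_right]; exact dvd_mul_right _ _⟩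
      choose e he hen using h4
      obtain ⟨k, hk⟩ := exists_common σ S m h1 h3 a x ha hx n e he hen
      have h5 : x = fun l => (σ ^ k) (a l) := funext fun l => (hk l).symm
      rw [h5]
      exact (hpow k i a).2 har
    · intro hr
      exact ⟨0, x, hx, hr, fun l => rfl⟩

end Pool.Agent.Q105.FJ
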