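import Pool.Agent.Q105.FJ.Wreath
import Pool.Agent.Q105.FJ.RQuot

/-!
# Kernels that depend functorially on a relational structure
-/

set_option autoImplicit false
set_option linter.unusedSectionVars false
set_option linter.style.haveILetI false

namespace Pool.Agent.Q105.FJ

open Pool.Agent.Y462.SS Pool.Agent.Q152.WP

variable {C : ∀ (G : Type) [Group G], Prop}

/-- the injection `f` is an embedding of relational structures -/
def REmb {I : Type} {ar : I → ℕ} {V W : Type} (r : RStr I ar V) (s : RStr I ar W) (f : V → W) :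
    Prop :=
  Function.Injective f ∧ ∀ i x, s i (fun l => f (x l)) ↔ r i x

/-- the structure induced on a finite subset -/
abbrev indS {I : Type} {ar : I → ℕ} {V : Type} (r : RStr I ar V) (S : Finset V) :
    RStr I ar S := fun i x => r i (fun l => (x l : V))

theorem remb_ind {I : Type} {ar : I → ℕ} {V : Type} (r : RStr I ar V) (S : Finset V) :
    REmb (indS r S) r (Subtype.val : S → V) := ⟨Subtype.val_injective, fun _ _ => Iff.rfl⟩

theorem remb_id {I : Type} {ar : I → ℕ} {V : Type} (r : RStr I ar V) : REmb r r id :=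
  ⟨Function.injective_id, fun _ _ => Iff.rfl⟩

theorem REmb.comp {I : Type} {ar : I → ℕ} {U V W : Type} {q : RStr I ar U} {r : RStr I ar V}
    {s : RStr I ar W} {g : V → W} {f : U → V} (hg : REmb r s g) (hf : REmb q r f) :
    REmb q s (g ∘ f) :=
  ⟨hg.1.comp hf.1, fun i x => (hg.2 i (fun l => f (x l))).trans (hf.2 i x)⟩

/-- A functor from the relational structures of a signature and their embeddings to groups, such that
the homomorphisms of the embeddings of finite structures are injective, and every element comes from a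
finite substructure. -/
structure RFun (I : Type) (ar : I → ℕ) where
  obj : ∀ {V : Type}, RStr I ar V → Type
  grp : ∀ {V : Type} (r : RStr I ar V), Group (obj r)
  map : ∀ {V W : Type} {r : RStr I ar V} {s : RStr I ar W} (f : V → W), REmb r s f →
    (obj r →* obj s)
  map_id : ∀ {V : Type} (r : RStr I ar V) (x : obj r), map id (remb_id r) x = x
  map_comp : ∀ {U V W : Type} {q : RStr I ar U} {r : RStr I ar V} {s : RStr I ar W} (g : V → W)
    (f : U → V) (hg : REmb r s g) (hf : REmb q r f) (x : obj q),
    map g hg (map f hf x) = map (g ∘ f) (hg.comp hf) x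
  inj : ∀ {V W : Type} [Finite V] {r : RStr I ar V} {s : RStr I ar W} (f : V → W) (hf : REmb r s f),
    Function.Injective (map f hf)
  fin : ∀ {V : Type} (r : RStr I ar V) (x : obj r), ∃ (S : Finset V) (y : obj (indS r S)),
    map Subtype.val (remb_ind r S) y = x

attribute [instance] RFun.grp

namespace RFun

variable {I : Type} {ar : I → ℕ} (N : RFun I ar)

theorem map_congr {V W : Type} {r : RStr I ar V} {s : RStr I ar W} {f g : V → W} (h : f = g)
    (hf : REmb r s f) (hg : REmb r s g) (x : N.obj r) : N.map f hf x = N.map g hg x := by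
  subst h
  rfl

variable {V H : Type} [Group H] [MulAction H V] (r : RStr I ar V)
  (hr : ∀ (h : H) i x, r i (fun l => h • x l) ↔ r i x)

theorem remb_smul (hr : ∀ (h : H) i x, r i (fun l => h • x l) ↔ r i x) (h : H) :
    REmb r r (fun v => h • v) := ⟨MulAction.injective h, hr h⟩

/-- the action of the group on the value of the functor -/
noncomputable def act : H →* MulAut (N.obj r) where
  toFun h :=
    { toFun := N.map (fun v => h • v) (remb_smul r hr h)
      invFun := N.map (fun v => h⁻¹ • v) (remb_smul r hr h⁻¹)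
      left_inv := fun x => by
        rw [N.map_comp]
        have h1 : ((fun v : V => h⁻¹ • v) ∘ fun v => h • v) = id := by
          funext v
          simp
        rw [N.map_congr h1 _ (remb_id r), N.map_id]
      right_inv := fun x => by
        rw [N.map_comp]
        have h1 : ((fun v : V => h • v) ∘ fun v => h⁻¹ • v) = id := by
          funext v
          simp
        rw [N.map_congr h1 _ (remb_id r), N.map_id]
      map_mul' := fun x y => map_mul _ x y }
  map_one' := by
    ext x
    change N.map (fun v => (1 : H) • v) (remb_smul r hr 1) x = x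
    have h1 : (fun v : V => (1 : H) • v) = id := by
      funext v
      simp
    rw [N.map_congr h1 _ (remb_id r), N.map_id]
  map_mul' a b := by
    ext x
    change N.map (fun v => (a * b) • v) (remb_smul r hr (a * b)) x =
      N.map (fun v => a • v) (remb_smul r hr a) (N.map (fun v => b • v) (remb_smul r hr b) x)
    rw [N.map_comp]
    refine N.map_congr ?_ _ _ x
    funext v
    simp [mul_smul]

theorem act_apply (h : H) (x : N.obj r) :
    N.act r hr h x = N.map (fun v => h • v) (remb_smul r hr h) x := rfl

/-- the semidirect product -/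
abbrev SD : Type := N.obj r ⋊[N.act r hr] H

theorem remb_sub {S T : Finset V} (h : S ⊆ T) :
    REmb (indS r S) (indS r T) (fun v => ⟨v.1, h v.2⟩) :=
  ⟨fun a b hab => Subtype.ext (congrArg (fun z : T => (z : V)) hab), fun _ _ => Iff.rfl⟩

/-- the elements that come from a finite substructure come from all larger ones -/
theorem fin' (x : N.obj r) : ∃ S : Finset V, ∀ T : Finset V, S ⊆ T →
    ∃ y : N.obj (indS r T), N.map Subtype.val (remb_ind r T) y = x := by
  obtain ⟨S, y, hy⟩ := N.fin r x
  refine ⟨S, fun T hT => ⟨N.map _ (remb_sub r hT) y, ?_⟩⟩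
  rw [N.map_comp]
  exact hy

/-- the values of the functor are in the class -/
theorem obj_mem (hC : Closed C) (hfin : ∀ (V : Type) [Finite V] (r : RStr I ar V), C (N.obj r))
    {V : Type} (r : RStr I ar V) : C (N.obj r) := by
  classical
  refine Pool.Agent.Y430.SS.of_directed hC _ (Finset V) (fun i j => ⟨i ∪ j,
    Finset.subset_union_left, Finset.subset_union_right⟩)
    (fun S => (N.map (r := indS r S) (s := r) Subtype.val (remb_ind r S)).range) ?_ ?_ ?_
  · rintro S T hST _ ⟨x, rfl⟩
    refine ⟨N.map _ (remb_sub r hST) x, ?_⟩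
    rw [N.map_comp]
    rfl
  · intro g
    obtain ⟨S, y, hy⟩ := N.fin r g
    exact ⟨S, y, hy⟩
  · intro S
    refine Pool.Agent.Y812.SS.C_equiv hC (MonoidHom.ofInjective
      (N.inj Subtype.val (remb_ind r S))).symm ?_
    exact hfin S _

/-- the inclusion -/
theorem remb_capA (q : H) (S : Finset V) : REmb (indS r (cap q S)) (indS r S)
    (fun v => ⟨v.1, ((mem_cap q S v.1).1 v.2).1⟩) :=
  ⟨fun a b hab => Subtype.ext (congrArg (fun z : S => (z : V)) hab), fun _ _ => Iff.rfl⟩

/-- the translation -/
theorem remb_capB (hr : ∀ (h : H) i x, r i (fun l => h • x l) ↔ r i x) (q : H) (S : Finset V) :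
    REmb (indS r (cap q S)) (indS r S) (fun v => ⟨q • v.1, ((mem_cap q S v.1).1 v.2).2⟩) :=
  ⟨fun a b hab => Subtype.ext (MulAction.injective q (congrArg (fun z : S => (z : V)) hab)),
    fun i x => hr q i (fun l => (x l : V))⟩

/-- the homomorphism of the finite part to the semidirect product -/
noncomputable def iota (S : Finset V) : N.obj (indS r S) →* N.SD r hr :=
  (SemidirectProduct.inl : N.obj r →* N.SD r hr).comp (N.map Subtype.val (remb_ind r S))

theorem iota_injective (S : Finset V) : Function.Injective (N.iota r hr S) :=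
  SemidirectProduct.inl_injective.comp (N.inj Subtype.val (remb_ind r S))

theorem inr_mul_inl (q : H) (z : N.obj r) :
    (SemidirectProduct.inr q * SemidirectProduct.inl z * (SemidirectProduct.inr q)⁻¹ :
      N.SD r hr) = SemidirectProduct.inl (N.act r hr q z) := by
  rw [SemidirectProduct.inl_aut, map_inv]

theorem iota_cap (q : H) (S : Finset V) (x : N.obj (indS r (cap q S))) :
    N.iota r hr S (N.map _ (remb_capB r hr q S) x) = SemidirectProduct.inr q *
      N.iota r hr S (N.map _ (remb_capA r q S) x) * (SemidirectProduct.inr q)⁻¹ := by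
  change SemidirectProduct.inl (N.map Subtype.val (remb_ind r S)
    (N.map _ (remb_capB r hr q S) x)) = SemidirectProduct.inr q *
      SemidirectProduct.inl (N.map Subtype.val (remb_ind r S)
        (N.map _ (remb_capA r q S) x)) * (SemidirectProduct.inr q)⁻¹
  rw [inr_mul_inl, act_apply, N.map_comp, N.map_comp, N.map_comp]
  rfl

/-- the pairs of subgroups -/
noncomputable def pr (q : H) (S : Finset V) : Pair (SemidirectProduct.inr q : N.SD r hr) where
  A := ((N.iota r hr S).comp (N.map _ (remb_capA r q S))).range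
  F := (N.iota r hr S).range
  hA := by
    rintro _ ⟨x, rfl⟩
    exact ⟨_, rfl⟩
  hB := by
    rintro _ ⟨x, rfl⟩
    exact ⟨_, N.iota_cap r hr q S x⟩

theorem pr_mono (q : H) {S T : Finset V} (h : S ⊆ T) : N.pr r hr q S ≤ N.pr r hr q T := by
  constructor
  · rintro _ ⟨x, rfl⟩
    have hm : cap q S ⊆ cap q T := fun v hv =>
      (mem_cap q T v).2 ⟨h ((mem_cap q S v).1 hv).1, h ((mem_cap q S v).1 hv).2⟩
    refine ⟨N.map _ (remb_sub r hm) x, ?_⟩
    change SemidirectProduct.inl (N.map Subtype.val (remb_ind r T) (N.map _ (remb_capA r q T)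
      (N.map _ (remb_sub r hm) x))) = SemidirectProduct.inl (N.map Subtype.val (remb_ind r S)
        (N.map _ (remb_capA r q S) x))
    rw [N.map_comp, N.map_comp, N.map_comp]
    rfl
  · rintro _ ⟨x, rfl⟩
    refine ⟨N.map _ (remb_sub r h) x, ?_⟩
    change SemidirectProduct.inl (N.map Subtype.val (remb_ind r T) (N.map _ (remb_sub r h) x)) =
      SemidirectProduct.inl (N.map Subtype.val (remb_ind r S) x)
    rw [N.map_comp]
    rfl

theorem pr_dir (q : H) : Dir (SemidirectProduct.rightHom : N.SD r hr →* H).ker
    (Set.range (N.pr r hr q)) := by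
  classical
  refine ⟨⟨_, ⟨∅, rfl⟩⟩, ?_, ?_, ?_⟩
  · rintro _ ⟨S, rfl⟩ _ ⟨x, rfl⟩
    rw [MonoidHom.mem_ker]
    exact SemidirectProduct.rightHom_inl _
  · rintro _ ⟨S, rfl⟩ _ ⟨T, rfl⟩
    exact ⟨_, ⟨S ∪ T, rfl⟩, N.pr_mono r hr q Finset.subset_union_left,
      N.pr_mono r hr q Finset.subset_union_right⟩
  · intro x hx
    have hx' : x.right = 1 := hx
    obtain ⟨S, hS⟩ := N.fin' r x.left
    let T : Finset V := S ∪ S.image (fun v => q • v)
    have hT : S ⊆ cap q T := by
      intro v hv
      rw [mem_cap]
      exact ⟨Finset.mem_union_left _ hv,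
        Finset.mem_union_right _ (Finset.mem_image_of_mem _ hv)⟩
    obtain ⟨y, hy⟩ := hS (cap q T) hT
    refine ⟨_, ⟨T, rfl⟩, y, ?_⟩
    refine SemidirectProduct.ext ?_ hx'.symm
    change N.map Subtype.val (remb_ind r T) (N.map _ (remb_capA r q T) y) = x.left
    rw [N.map_comp]
    exact hy

/-- the partial automorphisms extend -/
theorem pr_ext (hC : Closed C) (hfin : ∀ (V : Type) [Finite V] (r : RStr I ar V), C (N.obj r))
    (q : H) (S : Finset V) : Ext C (N.pr r hr q S) := by
  obtain ⟨X, u, ρ, j, hρ, hu, hj, hji, hju⟩ := exists_rquot r (MulAction.toPerm q)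
    (fun i x => hr q i x) S
  have hu' : ∀ (h : Subgroup.zpowers ρ) i (x : Fin (ar i) → X),
      u i (fun l => h • x l) ↔ u i x := by
    have h0 : ∀ (n : ℤ) i (x : Fin (ar i) → X), u i (fun l => (ρ ^ n) (x l)) ↔ u i x := by
      intro n
      induction n using Int.induction_on with
      | zero => exact fun i x => Iff.rfl
      | succ n ih =>
        intro i x
        have h1 : (fun l => (ρ ^ ((n : ℤ) + 1)) (x l)) = fun l => (ρ ^ (n : ℤ)) (ρ (x l)) := by
          funext l
          rw [zpow_add_one]
          rfl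
        rw [h1]
        exact (ih i (fun l => ρ (x l))).trans (hu i x)
      | pred n ih =>
        intro i x
        have h1 : (fun l => (ρ ^ (-(n : ℤ) - 1)) (x l)) =
            fun l => (ρ ^ (-(n : ℤ))) (ρ⁻¹ (x l)) := by
          funext l
          rw [zpow_sub_one]
          rfl
        rw [h1]
        refine (ih i (fun l => ρ⁻¹ (x l))).trans ?_
        rw [← hu i (fun l => ρ⁻¹ (x l))]
        have h2 : (fun l => ρ (ρ⁻¹ (x l))) = x := by
          funext l
          exact ρ.apply_symm_apply (x l)
        rw [h2]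
    rintro ⟨h, n, rfl⟩ i x
    exact h0 n i x
  haveI : Finite (Subgroup.zpowers ρ) := finite_zpowers.2 hρ
  let ρ' : Subgroup.zpowers ρ := ⟨ρ, Subgroup.mem_zpowers ρ⟩
  have hjm : REmb (indS r S) u (fun v : S => j v.1) :=
    ⟨fun v w h => Subtype.ext (hji v.1 v.2 w.1 w.2 h),
      fun i x => hju i (fun l => (x l : V)) (fun l => (x l).2)⟩
  refine Ext.of_inj (N.pr r hr q S) (Q := N.SD u hu') (N.iota r hr S) (N.iota_injective r hr S) rfl
    (N.map _ (remb_capA r q S)) (N.map _ (remb_capB r hr q S)) ?_ ?_
    ((SemidirectProduct.inl : N.obj u →* N.SD u hu').comp (N.map _ hjm)) ?_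
    (SemidirectProduct.inr ρ') ?_ (semi_fin hC (N.obj_mem hC hfin u))
  · rintro _ ⟨x, rfl⟩
    exact ⟨x, rfl⟩
  · intro x
    exact N.iota_cap r hr q S x
  · exact SemidirectProduct.inl_injective.comp (N.inj _ hjm)
  · intro x
    have h1 := N.inr_mul_inl u hu' ρ' (N.map _ hjm (N.map _ (remb_capA r q S) x))
    rw [mul_inv_eq_iff_eq_mul] at h1
    change SemidirectProduct.inr ρ' *
      SemidirectProduct.inl (N.map _ hjm (N.map _ (remb_capA r q S) x)) =
      SemidirectProduct.inl (N.map _ hjm (N.map _ (remb_capB r hr q S) x)) *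
        SemidirectProduct.inr ρ'
    rw [h1, act_apply, N.map_comp, N.map_comp, N.map_comp]
    congr 2
    refine N.map_congr ?_ _ _ x
    funext v
    exact (hj v.1).symm

/-- **Kernels that depend functorially on a relational structure.** -/
theorem sd_mem (hC : Closed C) (hE : ExtClosed C)
    (hfin : ∀ (V : Type) [Finite V] (r : RStr I ar V), C (N.obj r)) (hH : C H) :
    C (N.SD r hr) := by
  refine dir_kernel hC hE (SemidirectProduct.rightHom : N.SD r hr →* H)
    SemidirectProduct.rightHom_surjective hH (ker_right hC (N.obj_mem hC hfin r)) ?_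
  intro q _
  refine ⟨SemidirectProduct.inr q, SemidirectProduct.rightHom_inr _,
    Set.range (N.pr r hr q), N.pr_dir r hr q, ?_⟩
  rintro _ ⟨S, rfl⟩
  exact N.pr_ext r hr hC hfin q S

end RFun

end Pool.Agent.Q105.FJ
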