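import Pool.Agent.Q105.FJ.Roots

/-!
# Semilinear actions on linear groups
-/

set_option autoImplicit false
set_option linter.unusedSectionVars false
set_option linter.style.haveILetI false

namespace Pool.Agent.Q105.FJ

open Pool.Agent.Y462.SS Pool.Agent.Q152.WP Pool.Agent.H26R2.Idem

variable {C : ∀ (G : Type) [Group G], Prop}

/-- conjugations that are twisted by an endomorphism with locally finite order of a group of the
class -/
theorem real_of_twist (hC : Closed C) {G : Type} [Group G] (K : Subgroup G) (τ : G)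
    (hn : ∀ x ∈ K, τ * x * τ⁻¹ ∈ K) {M : Type} [Group M] (hM : C M) (φ : K →* M)
    (hφ : Function.Injective φ) (a : M) (s : Monoid.End M)
    (hs : ∀ x : K, φ (ck K τ hn x) = a * s (φ x) * a⁻¹)
    (hfin : ∀ E : Finset M, ∃ k : ℕ, ∀ x ∈ E, (s ^ (k + 1)) x = x) : Real C K τ := by
  classical
  -- the twisted powers
  have key : ∀ j : ℕ, ∃ b : M, ∀ x : K, φ ((ck K τ hn ^ j) x) = b * (s ^ j) (φ x) * b⁻¹ := by
    intro j
    induction j with
    | zero => exact ⟨1, fun x => by simp⟩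
    | succ j ih =>
      obtain ⟨b, hb⟩ := ih
      refine ⟨a * s b, fun x => ?_⟩
      have h1 : (ck K τ hn ^ (j + 1)) x = ck K τ hn ((ck K τ hn ^ j) x) := by
        rw [pow_succ']
        rfl
      have h2 : (s ^ (j + 1)) (φ x) = s ((s ^ j) (φ x)) := by
        rw [pow_succ']
        rfl
      rw [h1, h2, hs, hb, map_mul, map_mul, map_inv]
      group
  refine real_of_roots hC K τ hn fun E => ?_
  obtain ⟨k, hk⟩ := hfin (E.image φ)
  obtain ⟨b, hb⟩ := key (k + 1)
  refine ⟨k, M, inferInstance, φ, b, hM, hφ, fun x hx => ?_⟩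
  rw [hb, hk _ (Finset.mem_image_of_mem φ hx), inv_mul_cancel_right]

section ring

variable {R : Type} [CommRing R] {ι : Type} [Fintype ι] [DecidableEq ι]

/-- the entries of the images -/
noncomputable def gs (σ : R ≃+* R) : Monoid.End (GL ι R) :=
  Matrix.GeneralLinearGroup.map (σ : R →+* R)

/-- the transpose inverse -/
def tin : Monoid.End (GL ι R) where
  toFun x :=
    { val := (x⁻¹ : GL ι R).val.transpose
      inv := x.val.transpose
      val_inv := by
        rw [← Matrix.transpose_mul, ← Units.val_mul, mul_inv_cancel, Units.val_one,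
          Matrix.transpose_one]
      inv_val := by
        rw [← Matrix.transpose_mul, ← Units.val_mul, inv_mul_cancel, Units.val_one,
          Matrix.transpose_one] }
  map_one' := by
    apply Units.ext
    change ((1 : GL ι R)⁻¹).val.transpose = 1
    rw [inv_one, Units.val_one, Matrix.transpose_one]
  map_mul' x y := by
    apply Units.ext
    change ((x * y)⁻¹).val.transpose = ((x⁻¹).val.transpose) * ((y⁻¹).val.transpose)
    rw [mul_inv_rev, Units.val_mul, Matrix.transpose_mul]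

theorem tin_tin (x : GL ι R) : tin (tin x) = x := by
  apply Units.ext
  change ((tin x)⁻¹).val.transpose = x.val
  change (x.val.transpose).transpose = x.val
  rw [Matrix.transpose_transpose]

theorem gs_val (σ : R ≃+* R) (x : GL ι R) (i j : ι) : (gs σ x).val i j = σ (x.val i j) := rfl

theorem gs_inv_val (σ : R ≃+* R) (x : GL ι R) (i j : ι) :
    ((gs σ x)⁻¹).val i j = σ ((x⁻¹).val i j) := by
  rw [← map_inv]
  rfl

theorem gs_tin (σ : R ≃+* R) (x : GL ι R) : gs σ (tin x) = tin (gs σ x) := by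
  apply Units.ext
  ext i j
  change σ ((x⁻¹).val j i) = ((gs σ x)⁻¹).val j i
  rw [gs_inv_val]

theorem gs_pow_val (σ : R ≃+* R) (k : ℕ) (x : GL ι R) (i j : ι) :
    ((gs σ ^ k) x).val i j = (σ ^ k) (x.val i j) := by
  induction k generalizing x with
  | zero => rfl
  | succ k ih =>
    have h1 : (gs σ ^ (k + 1)) x = (gs σ ^ k) (gs σ x) := by
      rw [pow_succ]
      rfl
    rw [h1, ih, gs_val, pow_succ]
    rfl

/-- finite orbits -/
def FinOrb (σ : R ≃+* R) : Prop := ∀ c : R, ∃ m : ℕ, 0 < m ∧ (σ ^ m) c = c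

theorem pow_mul_fix (σ : R ≃+* R) {c : R} {m : ℕ} (h : (σ ^ m) c = c) (n : ℕ) :
    (σ ^ (m * n)) c = c := by
  induction n with
  | zero => rfl
  | succ n ih =>
    rw [mul_add, mul_one, pow_add]
    change (σ ^ (m * n)) ((σ ^ m) c) = c
    rw [h, ih]

theorem FinOrb.finset {σ : R ≃+* R} (h : FinOrb σ) (S : Finset R) :
    ∃ m : ℕ, 0 < m ∧ ∀ c ∈ S, (σ ^ m) c = c := by
  classical
  induction S using Finset.induction_on with
  | empty => exact ⟨1, one_pos, by simp⟩
  | insert a s _ ih =>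
    obtain ⟨m, hm, hs⟩ := ih
    obtain ⟨l, hl, ha⟩ := h a
    refine ⟨m * l, Nat.mul_pos hm hl, fun c hc => ?_⟩
    rcases Finset.mem_insert.1 hc with rfl | hc
    · rw [mul_comm]
      exact pow_mul_fix σ ha m
    · exact pow_mul_fix σ (hs c hc) l

theorem FinOrb.gs_fin {σ : R ≃+* R} (h : FinOrb σ) (E : Finset (GL ι R)) :
    ∃ k : ℕ, ∀ x ∈ E, (gs σ ^ (k + 1)) x = x := by
  classical
  obtain ⟨m, hm, hs⟩ := h.finset (E.biUnion fun x =>
    (Finset.univ : Finset (ι × ι)).image fun p => x.val p.1 p.2)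
  obtain ⟨k, rfl⟩ := Nat.exists_eq_succ_of_ne_zero hm.ne'
  refine ⟨k, fun x hx => ?_⟩
  apply Units.ext
  ext i j
  rw [gs_pow_val]
  exact hs _ (Finset.mem_biUnion.2 ⟨x, hx, Finset.mem_image.2 ⟨(i, j), Finset.mem_univ _, rfl⟩⟩)

/-- the composition with the transpose inverse -/
theorem tin_gs_sq (σ : R ≃+* R) (x : GL ι R) (k : ℕ) :
    ((tin * gs σ : Monoid.End (GL ι R)) ^ (2 * k)) x = (gs σ ^ (2 * k)) x := by
  induction k generalizing x with
  | zero => rfl
  | succ k ih =>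
    have h1 : ((tin * gs σ : Monoid.End (GL ι R)) ^ (2 * (k + 1))) x =
        ((tin * gs σ : Monoid.End (GL ι R)) ^ (2 * k)) (tin (gs σ (tin (gs σ x)))) := by
      rw [mul_add, mul_one, pow_add]
      rfl
    have h2 : (gs σ ^ (2 * (k + 1))) x = (gs σ ^ (2 * k)) (gs σ (gs σ x)) := by
      rw [mul_add, mul_one, pow_add]
      rfl
    rw [h1, h2, gs_tin, tin_tin, ih]

theorem FinOrb.tin_fin {σ : R ≃+* R} (h : FinOrb σ) (E : Finset (GL ι R)) :
    ∃ k : ℕ, ∀ x ∈ E, ((tin * gs σ : Monoid.End (GL ι R)) ^ (k + 1)) x = x := by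
  obtain ⟨k, hk⟩ := h.gs_fin E
  refine ⟨2 * (k + 1) - 1, fun x hx => ?_⟩
  have h1 : 2 * (k + 1) - 1 + 1 = 2 * (k + 1) := by omega
  rw [h1, tin_gs_sq, mul_comm, pow_mul]
  have h2 := hk x hx
  rw [pow_succ, pow_one]
  change (gs σ ^ (k + 1)) ((gs σ ^ (k + 1)) x) = x
  rw [h2, h2]

/-- **Semilinear extensions.** -/
theorem semi_kernel (hC : Closed C) (hE : ExtClosed C) (hGL : C (GL ι R)) {N G Q : Type} [Group N]
    [Group G] [Group Q] (ρ : N →* GL ι R) (hρ : Function.Injective ρ) (f : G →* Q)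
    (hf : Function.Surjective f) (hQ : C Q) (j : N →* G) (hj : Function.Injective j)
    (hker : j.range = f.ker)
    (h : ∀ g : G, ¬ IsOfFinOrder (f g) → ∃ (a : GL ι R) (σ : R ≃+* R), FinOrb σ ∧
      ((∀ x y : N, g * j x * g⁻¹ = j y → ρ y = a * gs σ (ρ x) * a⁻¹) ∨
        ∀ x y : N, g * j x * g⁻¹ = j y → ρ y = a * tin (gs σ (ρ x)) * a⁻¹)) : C G := by
  -- the kernel
  let e : N ≃* j.range := MonoidHom.ofInjective hj
  let φ : f.ker →* GL ι R := (ρ.comp e.symm.toMonoidHom).comp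
    (MulEquiv.subgroupCongr hker.symm).toMonoidHom
  have hφ : Function.Injective φ :=
    hρ.comp (e.symm.injective.comp (MulEquiv.subgroupCongr hker.symm).injective)
  have hφj : ∀ (x : f.ker), ∃ y : N, j y = x ∧ φ x = ρ y := by
    intro x
    refine ⟨e.symm (MulEquiv.subgroupCongr hker.symm x), ?_, rfl⟩
    have h1 := e.apply_symm_apply (MulEquiv.subgroupCongr hker.symm x)
    exact congrArg Subtype.val h1
  have hNK : C f.ker := hC.of_injective _ _ φ hφ hGL
  refine real_kernel hC hE f hf hQ hNK ?_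
  intro q hq
  obtain ⟨g, rfl⟩ := hf q
  refine ⟨g, rfl, ?_⟩
  have hn : ∀ x ∈ f.ker, g * x * g⁻¹ ∈ f.ker :=
    fun x hx => (MonoidHom.normal_ker f).conj_mem x hx g
  obtain ⟨a, σ, hσ, h1 | h1⟩ := h g hq
  · refine real_of_twist hC f.ker g hn hGL φ hφ a (gs σ) ?_ hσ.gs_fin
    intro x
    obtain ⟨y, hy, hy'⟩ := hφj x
    obtain ⟨z, hz, hz'⟩ := hφj (ck f.ker g hn x)
    rw [hy', hz']
    exact h1 y z (by rw [hy, hz]; rfl)
  · refine real_of_twist hC f.ker g hn hGL φ hφ a (tin * gs σ) ?_ hσ.tin_fin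
    intro x
    obtain ⟨y, hy, hy'⟩ := hφj x
    obtain ⟨z, hz, hz'⟩ := hφj (ck f.ker g hn x)
    rw [hy', hz']
    exact h1 y z (by rw [hy, hz]; rfl)

/-- automorphisms of integral extensions have finite orbits -/
theorem finOrb_of_integral {A : Type} [CommRing A] [IsDomain R] [Algebra A R]
    [Algebra.IsIntegral A R] (σ : R ≃ₐ[A] R) : FinOrb (σ : R ≃+* R) := by
  classical
  intro c
  obtain ⟨p, hp, hpc⟩ := Algebra.IsIntegral.isIntegral (R := A) c
  have hpow : ∀ m : ℕ, (((σ : R ≃+* R) ^ m) c) ∈ (p.map (algebraMap A R)).roots.toFinset := by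
    intro m
    rw [Multiset.mem_toFinset, Polynomial.mem_roots (hp.map _).ne_zero, Polynomial.IsRoot.def,
      Polynomial.eval_map]
    have h1 : ((σ : R ≃+* R) ^ m) c = (σ ^ m) c := by
      induction m generalizing c with
      | zero => rfl
      | succ m ih =>
        rw [pow_succ, pow_succ]
        change ((σ : R ≃+* R) ^ m) (σ c) = (σ ^ m) (σ c)
        refine ih (σ c) ?_
        rw [← Polynomial.aeval_def] at hpc ⊢
        have h3 := Polynomial.aeval_algHom_apply (σ : R →ₐ[A] R) c p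
        rw [hpc, map_zero] at h3
        exact h3
    rw [h1, ← Polynomial.aeval_def]
    have h2 := Polynomial.aeval_algHom_apply ((σ ^ m : R ≃ₐ[A] R) : R →ₐ[A] R) c p
    rw [← Polynomial.aeval_def] at hpc
    rw [hpc, map_zero] at h2
    exact h2
  obtain ⟨a, b, hab, hyab⟩ := Finite.exists_ne_map_eq_of_infinite
    (fun m : ℕ => (⟨_, hpow m⟩ : {x // x ∈ (p.map (algebraMap A R)).roots.toFinset}))
  have hy1 : ((σ : R ≃+* R) ^ a) c = ((σ : R ≃+* R) ^ b) c := congrArg Subtype.val hyab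
  have key : ∀ a b : ℕ, a < b → ((σ : R ≃+* R) ^ a) c = ((σ : R ≃+* R) ^ b) c →
      ∃ m : ℕ, 0 < m ∧ ((σ : R ≃+* R) ^ m) c = c := by
    intro a b hlt hh
    obtain ⟨k, rfl⟩ : ∃ k, b = a + (k + 1) := ⟨b - a - 1, by omega⟩
    refine ⟨k + 1, Nat.succ_pos k, ?_⟩
    rw [pow_add] at hh
    exact (((σ : R ≃+* R) ^ a).injective hh).symm
  rcases lt_or_gt_of_ne hab with h1 | h1
  · exact key a b h1 hy1
  · exact key b a h1 hy1.symm

end ring

end Pool.Agent.Q105.FJ
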