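import Pool.Agent.Q105.FJ.Approx

/-!
# Graph products of subgroups, and the automorphisms given by the powers of an element
-/

set_option autoImplicit false
set_option linter.unusedSectionVars false
set_option linter.style.haveILetI false
set_option linter.unusedVariables false
set_option linter.unusedTactic false

namespace Pool.Agent.Q105.FJ

open Monoid

variable {G : Type} [Group G]

/-- the conjugation by an element, between two subgroups -/
def cju (g : G) {A B : Subgroup G} (h : ∀ p ∈ A, g * p * g⁻¹ ∈ B) : A →* B where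
  toFun p := ⟨g * p * g⁻¹, h p p.2⟩
  map_one' := Subtype.ext (by simp)
  map_mul' a b := Subtype.ext (by
    change g * (a * b) * g⁻¹ = g * a * g⁻¹ * (g * b * g⁻¹)
    group)

theorem cju_coe (g : G) {A B : Subgroup G} (h : ∀ p ∈ A, g * p * g⁻¹ ∈ B) (p : A) :
    (cju g h p : G) = g * p * g⁻¹ := rfl

/-- the vertex groups in the free product -/
def sof {Y : Type} (R : Y → Subgroup G) (y : Y) : R y →* CoprodI (fun y => R y) :=
  CoprodI.of (M := fun y => R y) (i := y)

/-- the defining relators -/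
def gdRel {Y : Type} (Λ : SimpleGraph Y) (R : Y → Subgroup G) : Set (CoprodI fun y => R y) :=
  {z | ∃ v w : Y, Λ.Adj v w ∧ ∃ (p : R v) (q : R w),
    z = sof R v p * sof R w q * (sof R v p)⁻¹ * (sof R w q)⁻¹}

/-- the graph product of the subgroups `R y` over the graph `Λ` -/
def GD {Y : Type} (Λ : SimpleGraph Y) (R : Y → Subgroup G) : Type :=
  (CoprodI fun y => R y) ⧸ Subgroup.normalClosure (gdRel Λ R)

namespace GD

variable {Y Y' Y'' : Type} {Λ : SimpleGraph Y} {Λ' : SimpleGraph Y'} {Λ'' : SimpleGraph Y''}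
  {R : Y → Subgroup G} {R' : Y' → Subgroup G} {R'' : Y'' → Subgroup G} {H : Type} [Group H]

instance : Group (GD Λ R) := inferInstanceAs (Group (_ ⧸ _))

/-- the vertex groups -/
def of (y : Y) : R y →* GD Λ R :=
  (QuotientGroup.mk' (Subgroup.normalClosure (gdRel Λ R))).comp (sof R y)

theorem of_comm {v w : Y} (h : Λ.Adj v w) (p : R v) (q : R w) :
    (of v p : GD Λ R) * of w q = of w q * of v p := by
  have h1 : ((sof R v p * sof R w q * (sof R v p)⁻¹ * (sof R w q)⁻¹ : CoprodI fun y => R y) :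
      (CoprodI fun y => R y) ⧸ Subgroup.normalClosure (gdRel Λ R)) = 1 :=
    (QuotientGroup.eq_one_iff _).2 (Subgroup.subset_normalClosure ⟨v, w, h, p, q, rfl⟩)
  have h2 : (of v p : GD Λ R) * of w q * (of v p)⁻¹ * (of w q)⁻¹ = 1 := h1
  rw [mul_inv_eq_one, mul_inv_eq_iff_eq_mul] at h2
  exact h2

theorem of_eq {v w : Y} (e : v = w) (p : R v) (q : R w) (h : (p : G) = q) :
    (of v p : GD Λ R) = of w q := by
  subst e
  rw [Subtype.ext h]

/-- the universal property -/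
def lift (g : ∀ y, R y →* H)
    (hg : ∀ v w, Λ.Adj v w → ∀ (p : R v) (q : R w), g v p * g w q = g w q * g v p) :
    GD Λ R →* H :=
  QuotientGroup.lift _ (CoprodI.lift (M := fun y => R y) g) (by
    intro z hz
    have h1 : Subgroup.normalClosure (gdRel Λ R) ≤ (CoprodI.lift (M := fun y => R y) g).ker := by
      refine Subgroup.normalClosure_le_normal ?_
      rintro _ ⟨v, w, h, p, q, rfl⟩
      have h3 : ∀ (v : Y) (p : R v), CoprodI.lift (M := fun y => R y) g (sof R v p) = g v p :=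
        fun v p => CoprodI.lift_of (M := fun y => R y) g p
      change CoprodI.lift (M := fun y => R y) g _ = 1
      rw [map_mul, map_mul, map_mul, map_inv, map_inv, h3, h3, hg v w h p q]
      group
    exact h1 hz)

theorem lift_of (g : ∀ y, R y →* H)
    (hg : ∀ v w, Λ.Adj v w → ∀ (p : R v) (q : R w), g v p * g w q = g w q * g v p)
    (v : Y) (p : R v) : lift (Λ := Λ) g hg (of v p) = g v p :=
  CoprodI.lift_of (M := fun y => R y) g p

theorem hom_ext {f g : GD Λ R →* H} (h : ∀ v p, f (of v p) = g (of v p)) : f = g := by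
  refine QuotientGroup.monoidHom_ext _ ?_
  refine CoprodI.ext_hom _ _ (fun v => ?_)
  ext p
  exact h v p

theorem hom_ext' {f g : GD Λ R →* H} (h : ∀ v p, f (of v p) = g (of v p)) (x : GD Λ R) :
    f x = g x := by
  rw [hom_ext h]

theorem induction {motive : GD Λ R → Prop} (one : motive 1) (gen : ∀ v p, motive (of v p))
    (mul : ∀ x y, motive x → motive y → motive (x * y)) (x : GD Λ R) : motive x := by
  obtain ⟨y, rfl⟩ := QuotientGroup.mk_surjective x
  induction y using CoprodI.induction_on with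
  | one => exact one
  | of i m => exact gen i m
  | mul a b ha hb => exact mul _ _ ha hb

/-- functoriality: a map of graphs and elements that conjugate the vertex groups into each other -/
def map (f : Y → Y') (hf : ∀ v w, Λ.Adj v w → Λ'.Adj (f v) (f w)) (a : Y → G)
    (ha : ∀ y, ∀ p ∈ R y, a y * p * (a y)⁻¹ ∈ R' (f y)) : GD Λ R →* GD Λ' R' :=
  lift (fun y => (of (f y)).comp (cju (a y) (ha y))) (fun v w h _ _ => of_comm (hf v w h) _ _)

theorem map_of (f : Y → Y') (hf : ∀ v w, Λ.Adj v w → Λ'.Adj (f v) (f w)) (a : Y → G)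
    (ha : ∀ y, ∀ p ∈ R y, a y * p * (a y)⁻¹ ∈ R' (f y)) (v : Y) (p : R v) :
    map (Λ := Λ) (Λ' := Λ') f hf a ha (of v p) = of (f v) (cju (a v) (ha v) p) :=
  lift_of _ _ _ _

theorem map_map (f : Y → Y') (hf : ∀ v w, Λ.Adj v w → Λ'.Adj (f v) (f w)) (a : Y → G)
    (ha : ∀ y, ∀ p ∈ R y, a y * p * (a y)⁻¹ ∈ R' (f y))
    (f' : Y' → Y'') (hf' : ∀ v w, Λ'.Adj v w → Λ''.Adj (f' v) (f' w)) (a' : Y' → G)
    (ha' : ∀ y, ∀ p ∈ R' y, a' y * p * (a' y)⁻¹ ∈ R'' (f' y))
    (f'' : Y → Y'') (hf'' : ∀ v w, Λ.Adj v w → Λ''.Adj (f'' v) (f'' w)) (a'' : Y → G)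
    (ha'' : ∀ y, ∀ p ∈ R y, a'' y * p * (a'' y)⁻¹ ∈ R'' (f'' y))
    (h1 : ∀ y, f' (f y) = f'' y)
    (h2 : ∀ y, ∀ p ∈ R y, a' (f y) * (a y * p * (a y)⁻¹) * (a' (f y))⁻¹ = a'' y * p * (a'' y)⁻¹)
    (x : GD Λ R) :
    map (Λ := Λ') (Λ' := Λ'') f' hf' a' ha' (map (Λ := Λ) f hf a ha x) =
      map (Λ := Λ) (Λ' := Λ'') f'' hf'' a'' ha'' x := by
  refine hom_ext' (f := (map (Λ := Λ') (Λ' := Λ'') f' hf' a' ha').comp
    (map (Λ := Λ) f hf a ha)) (fun v p => ?_) x
  rw [MonoidHom.comp_apply, map_of, map_of, map_of]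
  exact of_eq (h1 v) _ _ (h2 v p p.2)

theorem map_id (f : Y → Y) (hf : ∀ v w, Λ.Adj v w → Λ.Adj (f v) (f w)) (a : Y → G)
    (ha : ∀ y, ∀ p ∈ R y, a y * p * (a y)⁻¹ ∈ R (f y)) (h1 : ∀ y, f y = y)
    (h2 : ∀ y, ∀ p ∈ R y, a y * p * (a y)⁻¹ = p) (x : GD Λ R) :
    map (Λ := Λ) (Λ' := Λ) f hf a ha x = x := by
  refine hom_ext' (g := MonoidHom.id _) (fun v p => ?_) x
  rw [map_of]
  exact of_eq (h1 v) _ _ (h2 v p p.2)

open scoped Classical in
/-- the retraction to a full subgraph -/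
noncomputable def retr (f : Y → Y') (hfi : Function.Injective f)
    (hfull : ∀ v w, Λ'.Adj (f v) (f w) → Λ.Adj v w) (a : Y → G)
    (ha' : ∀ y, ∀ p ∈ R' (f y), (a y)⁻¹ * p * a y ∈ R y) : GD Λ' R' →* GD Λ R :=
  lift (fun y' => if h : ∃ y, f y = y' then (of h.choose).comp (cju (a h.choose)⁻¹ (fun p hp => by
      rw [inv_inv]
      exact ha' h.choose p (by rw [h.choose_spec]; exact hp))) else 1) (by
    intro v' w' h p q
    by_cases hv : ∃ v, f v = v'
    · by_cases hw : ∃ w, f w = w'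
      · rw [dif_pos hv, dif_pos hw]
        refine of_comm (hfull _ _ ?_) _ _
        rw [hv.choose_spec, hw.choose_spec]
        exact h
      · rw [dif_neg hw]
        simp
    · rw [dif_neg hv]
      simp)

theorem map_injective (f : Y → Y') (hfi : Function.Injective f)
    (hfull : ∀ v w, Λ'.Adj (f v) (f w) → Λ.Adj v w)
    (hf : ∀ v w, Λ.Adj v w → Λ'.Adj (f v) (f w)) (a : Y → G)
    (ha : ∀ y, ∀ p ∈ R y, a y * p * (a y)⁻¹ ∈ R' (f y))
    (ha' : ∀ y, ∀ p ∈ R' (f y), (a y)⁻¹ * p * a y ∈ R y) :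
    Function.Injective (map (Λ := Λ) (Λ' := Λ') f hf a ha) := by
  refine Function.LeftInverse.injective (g := retr f hfi hfull a ha') (fun x => ?_)
  refine hom_ext' (f := (retr (Λ := Λ) (Λ' := Λ') f hfi hfull a ha').comp (map f hf a ha))
    (g := MonoidHom.id _) (fun v p => ?_) x
  rw [MonoidHom.comp_apply, map_of]
  unfold retr
  rw [lift_of]
  have h1 : ∃ w, f w = f v := ⟨v, rfl⟩
  rw [dif_pos h1]
  have h2 : h1.choose = v := hfi h1.choose_spec
  refine of_eq h2 _ _ ?_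
  change (a h1.choose)⁻¹ * (a v * p * (a v)⁻¹) * (a h1.choose)⁻¹⁻¹ = p
  rw [h2]
  group

/-- the automorphism given by an automorphism of the graph and elements that conjugate the vertex
groups -/
def aut (ρ : Equiv.Perm Y) (hρ : ∀ v w, Λ.Adj v w ↔ Λ.Adj (ρ v) (ρ w)) (a : Y → G)
    (ha : ∀ y p, p ∈ R y ↔ a y * p * (a y)⁻¹ ∈ R (ρ y)) : MulAut (GD Λ R) where
  toFun := map ρ (fun v w h => (hρ v w).1 h) a (fun y p hp => (ha y p).1 hp)
  invFun := map ρ.symm (fun v w h => (hρ _ _).2 (by simpa using h)) (fun y => (a (ρ.symm y))⁻¹)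
    (fun y p hp => by
      rw [ha, inv_inv, ρ.apply_symm_apply]
      have h1 : a (ρ.symm y) * ((a (ρ.symm y))⁻¹ * p * a (ρ.symm y)) * (a (ρ.symm y))⁻¹ = p := by
        group
      rwa [h1])
  left_inv x := by
    have h := map_map (Λ := Λ) (Λ' := Λ) (Λ'' := Λ) (R := R) (R' := R) (R'' := R) ρ
      (fun v w h => (hρ v w).1 h) a (fun y p hp => (ha y p).1 hp) ρ.symm
      (fun v w h => (hρ _ _).2 (by simpa using h)) (fun y => (a (ρ.symm y))⁻¹)
      (fun y p hp => by
        rw [ha, inv_inv, ρ.apply_symm_apply]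
        have h1 : a (ρ.symm y) * ((a (ρ.symm y))⁻¹ * p * a (ρ.symm y)) * (a (ρ.symm y))⁻¹ = p := by
          group
        rwa [h1]) id (fun _ _ h => h) (fun _ => 1) (fun y p hp => by simpa using hp)
      (fun y => ρ.symm_apply_apply y) (fun y p _ => by
        change (a (ρ.symm (ρ y)))⁻¹ * (a y * p * (a y)⁻¹) * ((a (ρ.symm (ρ y)))⁻¹)⁻¹ =
          1 * p * (1 : G)⁻¹
        rw [ρ.symm_apply_apply]
        group) x
    exact h.trans (map_id id _ _ _ (fun _ => rfl) (fun y p _ => by simp) x)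
  right_inv x := by
    have h := map_map (Λ := Λ) (Λ' := Λ) (Λ'' := Λ) (R := R) (R' := R) (R'' := R) ρ.symm
      (fun v w h => (hρ _ _).2 (by simpa using h)) (fun y => (a (ρ.symm y))⁻¹)
      (fun y p hp => by
        rw [ha, inv_inv, ρ.apply_symm_apply]
        have h1 : a (ρ.symm y) * ((a (ρ.symm y))⁻¹ * p * a (ρ.symm y)) * (a (ρ.symm y))⁻¹ = p := by
          group
        rwa [h1]) ρ (fun v w h => (hρ v w).1 h) a (fun y p hp => (ha y p).1 hp)
      id (fun _ _ h => h) (fun _ => 1) (fun y p hp => by simpa using hp)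
      (fun y => ρ.apply_symm_apply y) (fun y p _ => by
        change a (ρ.symm y) * ((a (ρ.symm y))⁻¹ * p * ((a (ρ.symm y))⁻¹)⁻¹) * (a (ρ.symm y))⁻¹ =
          1 * p * (1 : G)⁻¹
        group) x
    exact h.trans (map_id id _ _ _ (fun _ => rfl) (fun y p _ => by simp) x)
  map_mul' x y := map_mul _ x y

theorem aut_of (ρ : Equiv.Perm Y) (hρ : ∀ v w, Λ.Adj v w ↔ Λ.Adj (ρ v) (ρ w)) (a : Y → G)
    (ha : ∀ y p, p ∈ R y ↔ a y * p * (a y)⁻¹ ∈ R (ρ y)) (v : Y) (p : R v) :
    aut (Λ := Λ) (R := R) ρ hρ a ha (of v p) =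
      of (ρ v) (cju (a v) (fun p hp => (ha v p).1 hp) p) :=
  map_of (Λ := Λ) (Λ' := Λ) ρ (fun v w h => (hρ v w).1 h) a (fun y p hp => (ha y p).1 hp) v p

end GD

end Pool.Agent.Q105.FJ
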