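import Pool.Agent.Q105.FJ.TGraph
import Pool.Agent.Q105.FJ.GraphMem

/-!
# Mapping tori of vertexwise automorphisms of graph products
-/

set_option autoImplicit false
set_option linter.unusedSectionVars false
set_option linter.style.haveILetI false
set_option linter.unusedVariables false

namespace Pool.Agent.Q105.FJ

open Pool.Agent.Y462.SS Pool.Agent.Q152.WP Pool.Agent.H26R2.Idem

variable {C : ∀ (G : Type) [Group G], Prop}

/-! ### Homomorphisms of mapping tori -/

section mt

variable {N N' N'' H : Type} [Group N] [Group N'] [Group N''] [Group H]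

/-- the stable letter -/
def tt (β : MulAut N) : MT N β := SemidirectProduct.inr (Multiplicative.ofAdd 1)

/-- the inclusion of the kernel -/
def ii (β : MulAut N) : N →* MT N β := SemidirectProduct.inl

theorem ii_injective (β : MulAut N) : Function.Injective (ii β) := SemidirectProduct.inl_injective

theorem tt_ii (β : MulAut N) (x : N) : tt β * ii β x = ii β (β x) * tt β := mt_conj β x

theorem zpow_inter {β : MulAut N} {β' : MulAut N'} {j : N →* N'} (h : ∀ n, j (β n) = β' (j n))
    (k : ℤ) : ∀ n, j ((β ^ k) n) = (β' ^ k) (j n) := by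
  induction k using Int.induction_on with
  | zero => exact fun n => rfl
  | succ k ih =>
    intro n
    rw [zpow_add_one, zpow_add_one, MulAut.mul_apply, MulAut.mul_apply, ih, h]
  | pred k ih =>
    intro n
    have h1 : j (β⁻¹ n) = β'⁻¹ (j n) := by
      have h2 := h (β⁻¹ n)
      rw [MulAut.apply_inv_self] at h2
      rw [h2, MulAut.inv_apply_self]
    rw [zpow_sub_one, zpow_sub_one, MulAut.mul_apply, MulAut.mul_apply, ih, h1]

/-- the homomorphism of mapping tori -/
def mtm (β : MulAut N) (β' : MulAut N') (j : N →* N') (h : ∀ n, j (β n) = β' (j n)) :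
    MT N β →* MT N' β' :=
  SemidirectProduct.map j (MonoidHom.id _) (fun g => by
    ext n
    have h1 := zpow_inter h (Multiplicative.toAdd g) n
    change j ((zpowersHom (MulAut N) β g) n) = (zpowersHom (MulAut N') β' g) (j n)
    rw [zpowersHom_apply, zpowersHom_apply]
    exact h1)

theorem mtm_left (β : MulAut N) (β' : MulAut N') (j : N →* N') (h : ∀ n, j (β n) = β' (j n))
    (x : MT N β) : (mtm β β' j h x).left = j x.left := rfl

theorem mtm_right (β : MulAut N) (β' : MulAut N') (j : N →* N') (h : ∀ n, j (β n) = β' (j n))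
    (x : MT N β) : (mtm β β' j h x).right = x.right := rfl

theorem mtm_ii (β : MulAut N) (β' : MulAut N') (j : N →* N') (h : ∀ n, j (β n) = β' (j n))
    (x : N) : mtm β β' j h (ii β x) = ii β' (j x) := rfl

theorem mtm_tt (β : MulAut N) (β' : MulAut N') (j : N →* N') (h : ∀ n, j (β n) = β' (j n)) :
    mtm β β' j h (tt β) = tt β' :=
  SemidirectProduct.ext (map_one j) rfl

theorem mtm_injective (β : MulAut N) (β' : MulAut N') (j : N →* N')
    (h : ∀ n, j (β n) = β' (j n)) (hj : Function.Injective j) :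
    Function.Injective (mtm β β' j h) := by
  intro a b hab
  have h1 := congrArg SemidirectProduct.left hab
  have h2 := congrArg SemidirectProduct.right hab
  exact SemidirectProduct.ext (hj h1) h2

/-- the universal property -/
def mtl (β : MulAut N) (g : N →* H) (t : H) (h : ∀ n, t * g n = g (β n) * t) : MT N β →* H :=
  SemidirectProduct.lift g (zpowersHom H t) (fun k => by
    ext n
    have h0 : ∀ n, g (β n) = (MulAut.conj t) (g n) := by
      intro n
      rw [MulAut.conj_apply, h, mul_inv_cancel_right]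
    have h1 : ∀ (k : ℤ) (n : N), g ((β ^ k) n) = ((MulAut.conj t) ^ k) (g n) := by
      intro k
      induction k using Int.induction_on with
      | zero => exact fun n => rfl
      | succ k ih =>
        intro n
        rw [zpow_add_one, zpow_add_one, MulAut.mul_apply, MulAut.mul_apply, ih, h0]
      | pred k ih =>
        intro n
        have h2 : g (β⁻¹ n) = (MulAut.conj t)⁻¹ (g n) := by
          have h3 := h0 (β⁻¹ n)
          rw [MulAut.apply_inv_self] at h3
          rw [h3, MulAut.inv_apply_self]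
        rw [zpow_sub_one, zpow_sub_one, MulAut.mul_apply, MulAut.mul_apply, ih, h2]
    change g ((zpowersHom (MulAut N) β k) n) = (MulAut.conj (zpowersHom H t k)) (g n)
    rw [zpowersHom_apply, zpowersHom_apply, map_zpow]
    exact h1 _ n)

theorem mtl_ii (β : MulAut N) (g : N →* H) (t : H) (h : ∀ n, t * g n = g (β n) * t) (n : N) :
    mtl β g t h (ii β n) = g n := SemidirectProduct.lift_inl _ _ _ _

theorem mtl_tt (β : MulAut N) (g : N →* H) (t : H) (h : ∀ n, t * g n = g (β n) * t) :
    mtl β g t h (tt β) = t := by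
  have h1 : mtl β g t h (tt β) = zpowersHom H t (Multiplicative.ofAdd 1) :=
    SemidirectProduct.lift_inr _ _ _ _
  rw [h1, zpowersHom_apply]
  exact zpow_one t

theorem mt_ext {β : MulAut N} {f g : MT N β →* H} (h1 : ∀ n, f (ii β n) = g (ii β n))
    (h2 : f (tt β) = g (tt β)) : f = g := by
  refine SemidirectProduct.hom_ext (MonoidHom.ext h1) ?_
  ext
  exact h2

end mt

/-! ### Vertexwise automorphisms -/

section vert

variable {G : Type} [Group G]

/-- the automorphism given by elements which normalise the vertex groups -/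
def vau {Y : Type} (Λ : SimpleGraph Y) (R : Y → Subgroup G) (b : Y → G)
    (hb : ∀ y p, p ∈ R y ↔ b y * p * (b y)⁻¹ ∈ R y) : MulAut (GD Λ R) :=
  GD.aut (Equiv.refl Y) (fun _ _ => Iff.rfl) b hb

/-- the automorphism of one vertex group -/
def pau (A : Subgroup G) (b : G) (hb : ∀ p, p ∈ A ↔ b * p * b⁻¹ ∈ A) : MulAut A where
  toFun := cju b (fun p hp => (hb p).1 hp)
  invFun := cju b⁻¹ (fun p hp => by
    rw [hb, inv_inv]
    have h1 : b * (b⁻¹ * p * b) * b⁻¹ = p := by group
    rwa [h1])
  left_inv p := Subtype.ext (by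
    change b⁻¹ * (b * p * b⁻¹) * b⁻¹⁻¹ = p
    group)
  right_inv p := Subtype.ext (by
    change b * (b⁻¹ * p * b⁻¹⁻¹) * b⁻¹ = p
    group)
  map_mul' p q := map_mul _ p q

theorem vau_of {Y : Type} {Λ : SimpleGraph Y} {R : Y → Subgroup G} {b : Y → G}
    (hb : ∀ y p, p ∈ R y ↔ b y * p * (b y)⁻¹ ∈ R y) (v : Y) (p : R v) :
    vau Λ R b hb (GD.of v p) = GD.of v (pau (R v) (b v) (hb v) p) :=
  GD.aut_of (Λ := Λ) (R := R) (Equiv.refl Y) (fun _ _ => Iff.rfl) b hb v p

end vert

section option

variable {G : Type} [Group G] {α : Type} (Λ : SimpleGraph (Option α)) (R : Option α → Subgroup G)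
  (b : Option α → G) (hb : ∀ y p, p ∈ R y ↔ b y * p * (b y)⁻¹ ∈ R y)

/-- the vertex groups of the graph without `none` -/
abbrev Rr : α → Subgroup G := fun a => R (some a)

/-- the vertex groups of the link -/
abbrev Rl : Nb Λ → Subgroup G := fun a => R (some a.1)

/-- the automorphism of the graph product -/
abbrev bF : MulAut (GD Λ R) := vau Λ R b hb

/-- the automorphism of the part without `none` -/
abbrev bR : MulAut (GD (Lr Λ) (Rr R)) := vau (Lr Λ) (Rr R) (fun a => b (some a)) (fun a => hb (some a))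

/-- the automorphism of the link -/
abbrev bL : MulAut (GD (Lk Λ) (Rl Λ R)) :=
  vau (Lk Λ) (Rl Λ R) (fun a => b (some a.1)) (fun a => hb (some a.1))

/-- the automorphism of the vertex group -/
abbrev bN : MulAut (R none) := pau (R none) (b none) (hb none)

/-- the automorphism of the star -/
def bS : MulAut (R none × GD (Lk Λ) (Rl Λ R)) :=
  MulEquiv.prodCongr (bN R b hb) (bL Λ R b hb)

theorem bS_apply (x : R none × GD (Lk Λ) (Rl Λ R)) :
    bS Λ R b hb x = (bN R b hb x.1, bL Λ R b hb x.2) := rfl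

/-- the inclusion of the link -/
def jL : GD (Lk Λ) (Rl Λ R) →* GD (Lr Λ) (Rr R) :=
  GD.map (Λ := Lk Λ) (Λ' := Lr Λ) (R := Rl Λ R) (R' := Rr R) Subtype.val (fun _ _ h => h)
    (fun _ => 1) (fun y p hp => by simpa using hp)

/-- the inclusion of the graph without `none` -/
def jS : GD (Lr Λ) (Rr R) →* GD Λ R :=
  GD.map (Λ := Lr Λ) (Λ' := Λ) (R := Rr R) (R' := R) some (fun _ _ h => h)
    (fun _ => 1) (fun y p hp => by simpa using hp)

/-- the inclusion of the link in the graph -/
def jN : GD (Lk Λ) (Rl Λ R) →* GD Λ R :=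
  GD.map (Λ := Lk Λ) (Λ' := Λ) (R := Rl Λ R) (R' := R) (fun a => some a.1) (fun _ _ h => h)
    (fun _ => 1) (fun y p hp => by simpa using hp)

theorem jL_of (v : Nb Λ) (p : Rl Λ R v) : jL Λ R (GD.of v p) = GD.of (R := Rr R) v.1 p := by
  unfold jL
  rw [GD.map_of]
  exact GD.of_eq rfl _ _ (by rw [cju_coe, one_mul, inv_one, mul_one])

theorem jS_of (v : α) (p : Rr R v) : jS Λ R (GD.of v p) = GD.of (R := R) (some v) p := by
  unfold jS
  rw [GD.map_of]
  exact GD.of_eq rfl _ _ (by rw [cju_coe, one_mul, inv_one, mul_one])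

theorem jN_of (v : Nb Λ) (p : Rl Λ R v) : jN Λ R (GD.of v p) = GD.of (R := R) (some v.1) p := by
  unfold jN
  rw [GD.map_of]
  exact GD.of_eq rfl _ _ (by rw [cju_coe, one_mul, inv_one, mul_one])

theorem jS_jL (x : GD (Lk Λ) (Rl Λ R)) : jS Λ R (jL Λ R x) = jN Λ R x := by
  refine GD.hom_ext' (f := (jS Λ R).comp (jL Λ R)) (fun v p => ?_) x
  rw [MonoidHom.comp_apply, jL_of, jN_of]
  exact jS_of Λ R v.1 p

theorem jL_injective : Function.Injective (jL Λ R) :=
  GD.map_injective (Λ := Lk Λ) (Λ' := Lr Λ) (R := Rl Λ R) (R' := Rr R) Subtype.val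
    Subtype.val_injective (fun _ _ h => h) (fun _ _ h => h) (fun _ => 1)
    (fun y p hp => by simpa using hp) (fun y p hp => by simpa using hp)

theorem jL_b (x : GD (Lk Λ) (Rl Λ R)) : jL Λ R (bL Λ R b hb x) = bR Λ R b hb (jL Λ R x) := by
  refine GD.hom_ext' (f := (jL Λ R).comp (bL Λ R b hb).toMonoidHom)
    (g := (bR Λ R b hb).toMonoidHom.comp (jL Λ R)) (fun v p => ?_) x
  change jL Λ R (bL Λ R b hb (GD.of v p)) = bR Λ R b hb (jL Λ R (GD.of v p))
  rw [jL_of, bL, bR, vau_of, vau_of, jL_of]

theorem jS_b (x : GD (Lr Λ) (Rr R)) : jS Λ R (bR Λ R b hb x) = bF Λ R b hb (jS Λ R x) := by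
  refine GD.hom_ext' (f := (jS Λ R).comp (bR Λ R b hb).toMonoidHom)
    (g := (bF Λ R b hb).toMonoidHom.comp (jS Λ R)) (fun v p => ?_) x
  change jS Λ R (bR Λ R b hb (GD.of v p)) = bF Λ R b hb (jS Λ R (GD.of v p))
  rw [jS_of, bR, bF, vau_of, vau_of, jS_of]

theorem jN_b (x : GD (Lk Λ) (Rl Λ R)) : jN Λ R (bL Λ R b hb x) = bF Λ R b hb (jN Λ R x) := by
  rw [← jS_jL, ← jS_jL, jL_b, jS_b]

/-- the two vertex groups -/
def VT (c : Bool) : Type := match c with
  | true => MT (R none × GD (Lk Λ) (Rl Λ R)) (bS Λ R b hb)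
  | false => MT (GD (Lr Λ) (Rr R)) (bR Λ R b hb)

instance (c : Bool) : Group (VT Λ R b hb c) := match c with
  | true => inferInstanceAs (Group (MT (R none × GD (Lk Λ) (Rl Λ R)) (bS Λ R b hb)))
  | false => inferInstanceAs (Group (MT (GD (Lr Λ) (Rr R)) (bR Λ R b hb)))

/-- the homomorphisms of the edge group -/
def et (c : Bool) : MT (GD (Lk Λ) (Rl Λ R)) (bL Λ R b hb) →* VT Λ R b hb c := match c with
  | true => mtm _ _ (MonoidHom.inr (R none) (GD (Lk Λ) (Rl Λ R))) (fun n => by
      rw [bS_apply]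
      exact Prod.ext (map_one _).symm rfl)
  | false => mtm _ _ (jL Λ R) (jL_b Λ R b hb)

/-- the product -/
abbrev QT : Type := MT (R none) (bN R b hb) × MT (GD (Lr Λ) (Rr R)) (bR Λ R b hb)

/-- the homomorphisms to the product -/
def vt (c : Bool) : VT Λ R b hb c →* QT Λ R b hb := match c with
  | true => MonoidHom.prod
      (mtm (bS Λ R b hb) (bN R b hb) (MonoidHom.fst (R none) (GD (Lk Λ) (Rl Λ R))) (fun _ => rfl))
      (mtm (bS Λ R b hb) (bR Λ R b hb)
        ((jL Λ R).comp (MonoidHom.snd (R none) (GD (Lk Λ) (Rl Λ R))))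
        (fun n => jL_b Λ R b hb n.2))
  | false => MonoidHom.prod
      (mtm (bR Λ R b hb) (bN R b hb) (1 : GD (Lr Λ) (Rr R) →* R none)
        (fun _ => (map_one (bN R b hb)).symm))
      (MonoidHom.id (MT (GD (Lr Λ) (Rr R)) (bR Λ R b hb)))

theorem push_mem' (hC : Closed C) (hE : ExtClosed C) (hP : C (MT (R none) (bN R b hb)))
    (hG : C (MT (GD (Lr Λ) (Rr R)) (bR Λ R b hb))) : C (Monoid.PushoutI (et Λ R b hb)) := by
  refine pushout_mem hC hE (Q := QT Λ R b hb) ?_ (vt Λ R b hb) ?_
    (MonoidHom.prod (mtm (bL Λ R b hb) (bN R b hb) (1 : GD (Lk Λ) (Rl Λ R) →* R none)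
      (fun _ => (map_one (bN R b hb)).symm)) (mtm (bL Λ R b hb) (bR Λ R b hb) (jL Λ R)
        (jL_b Λ R b hb))) ?_ (hC.prod _ _ hP hG)
  · rintro (_ | _)
    · exact mtm_injective _ _ (jL Λ R) (jL_b Λ R b hb) (jL_injective Λ R)
    · exact mtm_injective _ _ (MonoidHom.inr (R none) (GD (Lk Λ) (Rl Λ R))) (fun n => by
        rw [bS_apply]
        exact Prod.ext (map_one _).symm rfl) (fun a b hab => congrArg Prod.snd hab)
  · rintro (_ | _)
    · intro x y hxy
      exact congrArg Prod.snd hxy
    · intro x y hxy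
      have h1 := congrArg SemidirectProduct.left (congrArg Prod.fst hxy)
      have h2 := congrArg SemidirectProduct.left (congrArg Prod.snd hxy)
      have h3 := congrArg SemidirectProduct.right (congrArg Prod.fst hxy)
      exact SemidirectProduct.ext (Prod.ext h1 (jL_injective Λ R h2)) h3
  · rintro (_ | _)
    · rfl
    · rfl

/-- the homomorphism of a vertex group to the amalgamated product -/
abbrev pof (c : Bool) : VT Λ R b hb c →* Monoid.PushoutI (et Λ R b hb) :=
  Monoid.PushoutI.of (φ := et Λ R b hb) c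

/-- the elements of the star in the amalgamated product -/
noncomputable def pst : R none × GD (Lk Λ) (Rl Λ R) →* Monoid.PushoutI (et Λ R b hb) :=
  (pof Λ R b hb true).comp (ii (bS Λ R b hb))

/-- the elements of the part without `none` in the amalgamated product -/
noncomputable def psr : GD (Lr Λ) (Rr R) →* Monoid.PushoutI (et Λ R b hb) :=
  (pof Λ R b hb false).comp (ii (bR Λ R b hb))

/-- the stable letter in the amalgamated product -/
noncomputable def ptt : Monoid.PushoutI (et Λ R b hb) := pof Λ R b hb true (tt (bS Λ R b hb))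

theorem ptt_eq : ptt Λ R b hb = pof Λ R b hb false (tt (bR Λ R b hb)) := by
  have h3 := Monoid.PushoutI.of_apply_eq_base (et Λ R b hb) false (tt (bL Λ R b hb))
  have h4 := Monoid.PushoutI.of_apply_eq_base (et Λ R b hb) true (tt (bL Λ R b hb))
  exact h4.trans h3.symm

theorem pst_psr (x : GD (Lk Λ) (Rl Λ R)) : pst Λ R b hb (1, x) = psr Λ R b hb (jL Λ R x) := by
  have h3 := Monoid.PushoutI.of_apply_eq_base (et Λ R b hb) false (ii (bL Λ R b hb) x)
  have h4 := Monoid.PushoutI.of_apply_eq_base (et Λ R b hb) true (ii (bL Λ R b hb) x)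
  exact h4.trans h3.symm

theorem ptt_pst (x : R none × GD (Lk Λ) (Rl Λ R)) :
    ptt Λ R b hb * pst Λ R b hb x = pst Λ R b hb (bS Λ R b hb x) * ptt Λ R b hb := by
  have h1 := map_mul (pof Λ R b hb true) (tt (bS Λ R b hb)) (ii (bS Λ R b hb) x)
  have h2 := map_mul (pof Λ R b hb true) (ii (bS Λ R b hb) (bS Λ R b hb x)) (tt (bS Λ R b hb))
  have h3 := congrArg (pof Λ R b hb true) (tt_ii (bS Λ R b hb) x)
  exact h1.symm.trans (h3.trans h2)

theorem ptt_psr (x : GD (Lr Λ) (Rr R)) :
    ptt Λ R b hb * psr Λ R b hb x = psr Λ R b hb (bR Λ R b hb x) * ptt Λ R b hb := by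
  rw [ptt_eq]
  have h1 := map_mul (pof Λ R b hb false) (tt (bR Λ R b hb)) (ii (bR Λ R b hb) x)
  have h2 := map_mul (pof Λ R b hb false) (ii (bR Λ R b hb) (bR Λ R b hb x)) (tt (bR Λ R b hb))
  have h3 := congrArg (pof Λ R b hb false) (tt_ii (bR Λ R b hb) x)
  exact h1.symm.trans (h3.trans h2)

/-- the images of the vertex groups in the amalgamated product -/
noncomputable def tV (v : Option α) : R v →* Monoid.PushoutI (et Λ R b hb) := match v with
  | none => (pst Λ R b hb).comp (MonoidHom.inl (R none) (GD (Lk Λ) (Rl Λ R)))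
  | some a => (psr Λ R b hb).comp (GD.of (Λ := Lr Λ) (R := Rr R) a)

theorem key_comm' (a : α) (ha : Λ.Adj none (some a)) (p : R none) (q : R (some a)) :
    pst Λ R b hb (p, 1) * psr Λ R b hb (GD.of (Λ := Lr Λ) (R := Rr R) a q) =
      psr Λ R b hb (GD.of (Λ := Lr Λ) (R := Rr R) a q) * pst Λ R b hb (p, 1) := by
  have h1 := jL_of Λ R ⟨a, ha⟩ q
  have h2 := pst_psr Λ R b hb (GD.of (Λ := Lk Λ) (R := Rl Λ R) ⟨a, ha⟩ q)
  rw [h1] at h2
  rw [← h2, ← map_mul, ← map_mul]
  congr 1
  refine Prod.ext ?_ ?_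
  · change p * 1 = 1 * p
    rw [mul_one, one_mul]
  · change 1 * GD.of (Λ := Lk Λ) (R := Rl Λ R) ⟨a, ha⟩ q = GD.of (Λ := Lk Λ) (R := Rl Λ R) ⟨a, ha⟩ q * 1
    rw [mul_one, one_mul]

/-- the homomorphism of the graph product to the amalgamated product -/
noncomputable def tL : GD Λ R →* Monoid.PushoutI (et Λ R b hb) :=
  GD.lift (tV Λ R b hb) (by
    rintro (_ | a) (_ | c) h p q
    · exact absurd h (SimpleGraph.irrefl _)
    · exact key_comm' Λ R b hb c h p q
    · exact (key_comm' Λ R b hb a h.symm q p).symm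
    · have h0 : (Lr Λ).Adj a c := h
      have h2 := GD.of_comm (Λ := Lr Λ) (R := Rr R) h0 p q
      have h3 := map_mul (psr Λ R b hb) (GD.of (Λ := Lr Λ) (R := Rr R) a p)
        (GD.of (Λ := Lr Λ) (R := Rr R) c q)
      have h4 := map_mul (psr Λ R b hb) (GD.of (Λ := Lr Λ) (R := Rr R) c q)
        (GD.of (Λ := Lr Λ) (R := Rr R) a p)
      exact h3.symm.trans ((congrArg _ h2).trans h4))

theorem tL_of (v : Option α) (p : R v) : tL Λ R b hb (GD.of v p) = tV Λ R b hb v p :=
  GD.lift_of _ _ _ _

theorem ptt_tL (x : GD Λ R) :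
    ptt Λ R b hb * tL Λ R b hb x = tL Λ R b hb (bF Λ R b hb x) * ptt Λ R b hb := by
  induction x using GD.induction with
  | one => rw [map_one, map_one, map_one, mul_one, one_mul]
  | gen v p =>
    rw [bF, vau_of, tL_of, tL_of]
    rcases v with _ | a
    · have h1 := ptt_pst Λ R b hb (p, 1)
      rw [bS_apply, map_one] at h1
      exact h1
    · have h1 := ptt_psr Λ R b hb (GD.of (Λ := Lr Λ) (R := Rr R) a p)
      rw [bR, vau_of] at h1
      exact h1
  | mul x y hx hy => rw [map_mul, map_mul, map_mul, ← mul_assoc, hx, mul_assoc, hy, mul_assoc]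

/-- the homomorphism of the mapping torus to the amalgamated product -/
noncomputable def toT : MT (GD Λ R) (bF Λ R b hb) →* Monoid.PushoutI (et Λ R b hb) :=
  mtl (bF Λ R b hb) (tL Λ R b hb) (ptt Λ R b hb) (ptt_tL Λ R b hb)

/-- the elements of the link commute with the vertex group -/
theorem link_comm' (p : R none) (x : GD (Lk Λ) (Rl Λ R)) :
    (GD.of none p : GD Λ R) * jN Λ R x = jN Λ R x * GD.of none p := by
  induction x using GD.induction with
  | one => rw [map_one, mul_one, one_mul]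
  | gen v q =>
    rw [jN_of]
    exact GD.of_comm v.2 p q
  | mul x y hx hy => rw [map_mul, ← mul_assoc, hx, mul_assoc, hy, mul_assoc]

/-- the homomorphism of the star of the vertex -/
def frT : R none × GD (Lk Λ) (Rl Λ R) →* GD Λ R where
  toFun x := GD.of none x.1 * jN Λ R x.2
  map_one' := by
    change GD.of none (1 : R none) * jN Λ R 1 = 1
    rw [map_one, map_one, mul_one]
  map_mul' := fun x y => by
    change GD.of none (x.1 * y.1) * jN Λ R (x.2 * y.2) =
      GD.of none x.1 * jN Λ R x.2 * (GD.of none y.1 * jN Λ R y.2)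
    rw [map_mul, map_mul, mul_assoc, mul_assoc, ← mul_assoc (GD.of none y.1),
      link_comm', mul_assoc]

theorem frT_b (x : R none × GD (Lk Λ) (Rl Λ R)) :
    frT Λ R (bS Λ R b hb x) = bF Λ R b hb (frT Λ R x) := by
  change GD.of none (bN R b hb x.1) * jN Λ R (bL Λ R b hb x.2) =
    bF Λ R b hb (GD.of none x.1 * jN Λ R x.2)
  rw [map_mul, jN_b, bF, vau_of]

/-- the homomorphisms of the vertex groups to the mapping torus -/
def frV (c : Bool) : VT Λ R b hb c →* MT (GD Λ R) (bF Λ R b hb) := match c with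
  | true => mtm (bS Λ R b hb) (bF Λ R b hb) (frT Λ R) (frT_b Λ R b hb)
  | false => mtm (bR Λ R b hb) (bF Λ R b hb) (jS Λ R) (jS_b Λ R b hb)

theorem frV_et (c : Bool) : (frV Λ R b hb c).comp (et Λ R b hb c) =
    mtm (bL Λ R b hb) (bF Λ R b hb) (jN Λ R) (jN_b Λ R b hb) := by
  cases c with
  | false =>
    refine mt_ext (fun n => ?_) ?_
    · change ii (bF Λ R b hb) (jS Λ R (jL Λ R n)) = ii (bF Λ R b hb) (jN Λ R n)
      rw [jS_jL]
    · refine SemidirectProduct.ext ?_ rfl
      change jS Λ R (jL Λ R 1) = jN Λ R 1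
      rw [jS_jL]
  | true =>
    refine mt_ext (fun n => ?_) ?_
    · change ii (bF Λ R b hb) (GD.of none (1 : R none) * jN Λ R n) = ii (bF Λ R b hb) (jN Λ R n)
      rw [map_one, one_mul]
    · refine SemidirectProduct.ext ?_ rfl
      change GD.of none (1 : R none) * jN Λ R 1 = jN Λ R 1
      rw [map_one, one_mul]

/-- the homomorphism from the amalgamated product -/
noncomputable def frP : Monoid.PushoutI (et Λ R b hb) →* MT (GD Λ R) (bF Λ R b hb) :=
  Monoid.PushoutI.lift (frV Λ R b hb) _ (frV_et Λ R b hb)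

theorem frP_of (c : Bool) (x : VT Λ R b hb c) :
    frP Λ R b hb (pof Λ R b hb c x) = frV Λ R b hb c x :=
  Monoid.PushoutI.lift_of (φ := et Λ R b hb) (frV Λ R b hb) _ (frV_et Λ R b hb) x

theorem frP_toT (x : MT (GD Λ R) (bF Λ R b hb)) : frP Λ R b hb (toT Λ R b hb x) = x := by
  have h : (frP Λ R b hb).comp (toT Λ R b hb) = MonoidHom.id _ := by
    refine mt_ext (fun n => ?_) ?_
    · change frP Λ R b hb (toT Λ R b hb (ii _ n)) = ii _ n
      unfold toT
      rw [mtl_ii]
      refine GD.hom_ext' (f := (frP Λ R b hb).comp (tL Λ R b hb)) (g := ii (bF Λ R b hb))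
        (fun v p => ?_) n
      rw [MonoidHom.comp_apply, tL_of]
      rcases v with _ | a
      · refine (frP_of Λ R b hb true (ii (bS Λ R b hb) (p, 1))).trans ?_
        change ii (bF Λ R b hb) (GD.of none p * jN Λ R 1) = ii (bF Λ R b hb) (GD.of none p)
        rw [map_one, mul_one]
      · refine (frP_of Λ R b hb false (ii (bR Λ R b hb) (GD.of a p))).trans ?_
        change ii (bF Λ R b hb) (jS Λ R (GD.of a p)) = ii (bF Λ R b hb) (GD.of (some a) p)
        rw [jS_of]
    · change frP Λ R b hb (toT Λ R b hb (tt _)) = tt _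
      unfold toT
      rw [mtl_tt]
      refine (frP_of Λ R b hb true (tt (bS Λ R b hb))).trans ?_
      exact mtm_tt _ _ (frT Λ R) (frT_b Λ R b hb)
  exact DFunLike.congr_fun h x

theorem option_mem' (hC : Closed C) (hE : ExtClosed C) (hP : C (MT (R none) (bN R b hb)))
    (hG : C (MT (GD (Lr Λ) (Rr R)) (bR Λ R b hb))) : C (MT (GD Λ R) (bF Λ R b hb)) :=
  hC.of_injective _ _ (toT Λ R b hb) (Function.LeftInverse.injective (frP_toT Λ R b hb))
    (push_mem' Λ R b hb hC hE hP hG)

end option

/-- **Mapping tori of vertexwise automorphisms, finite graphs.** -/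
theorem vau_fin (hC : Closed C) (hE : ExtClosed C) {G : Type} [Group G] (Y : Type) [Finite Y] :
    ∀ (Λ : SimpleGraph Y) (R : Y → Subgroup G) (b : Y → G)
      (hb : ∀ y p, p ∈ R y ↔ b y * p * (b y)⁻¹ ∈ R y),
      (∀ y, C (MT (R y) (pau (R y) (b y) (hb y)))) → C (MT (GD Λ R) (vau Λ R b hb)) := by
  induction Y using Finite.induction_empty_option with
  | @of_equiv α β e ih =>
    intro Λ R b hb h
    have h1 := ih (Λ.comap e) (fun a => R (e a)) (fun a => b (e a)) (fun a => hb (e a))
      (fun a => h (e a))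
    have hadj : ∀ v w, Λ.Adj v w → (Λ.comap e).Adj (e.symm v) (e.symm w) := by
      intro v w h
      change Λ.Adj (e (e.symm v)) (e (e.symm w))
      rwa [e.apply_symm_apply, e.apply_symm_apply]
    have ha : ∀ y, ∀ p ∈ R y, (1 : G) * p * (1 : G)⁻¹ ∈ R (e (e.symm y)) := by
      intro y p hp
      rw [e.apply_symm_apply, one_mul, inv_one, mul_one]
      exact hp
    refine hC.of_injective _ _ (mtm (vau Λ R b hb)
      (vau (Λ.comap e) (fun a => R (e a)) (fun a => b (e a)) (fun a => hb (e a)))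
      (GD.map (Λ := Λ) (Λ' := Λ.comap e) (R := R) (R' := fun a => R (e a)) e.symm hadj
        (fun _ => 1) ha) (fun n => ?_)) (mtm_injective _ _ _ _ ?_) h1
    · refine GD.hom_ext' (f := (GD.map (Λ := Λ) (Λ' := Λ.comap e) (R := R)
          (R' := fun a => R (e a)) e.symm hadj (fun _ => 1) ha).comp
          (vau Λ R b hb).toMonoidHom)
        (g := (vau (Λ.comap e) (fun a => R (e a)) (fun a => b (e a))
          (fun a => hb (e a))).toMonoidHom.comp (GD.map (Λ := Λ) (Λ' := Λ.comap e) (R := R)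
          (R' := fun a => R (e a)) e.symm hadj (fun _ => 1) ha)) (fun v p => ?_) n
      change GD.map (Λ := Λ) (Λ' := Λ.comap e) (R := R) (R' := fun a => R (e a)) e.symm hadj
        (fun _ => 1) ha (vau Λ R b hb (GD.of v p)) =
        vau (Λ.comap e) (fun a => R (e a)) (fun a => b (e a)) (fun a => hb (e a))
          (GD.map (Λ := Λ) (Λ' := Λ.comap e) (R := R) (R' := fun a => R (e a)) e.symm hadj
            (fun _ => 1) ha (GD.of v p))
      rw [vau_of, GD.map_of, GD.map_of, vau_of]
      refine GD.of_eq rfl _ _ ?_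
      change 1 * (b v * p * (b v)⁻¹) * (1 : G)⁻¹ =
        b (e (e.symm v)) * (1 * p * (1 : G)⁻¹) * (b (e (e.symm v)))⁻¹
      rw [e.apply_symm_apply]
      simp
    · refine GD.map_injective e.symm e.symm.injective ?_ hadj _ ha ?_
      · intro v w h
        change Λ.Adj (e (e.symm v)) (e (e.symm w)) at h
        rwa [e.apply_symm_apply, e.apply_symm_apply] at h
      · intro y p hp
        change p ∈ R (e (e.symm y)) at hp
        rw [e.apply_symm_apply] at hp
        simpa using hp
  | h_empty =>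
    intro Λ R b hb _
    haveI : Subsingleton (GD Λ R) := by
      have h : MonoidHom.id (GD Λ R) = 1 := GD.hom_ext (fun v => v.elim)
      exact ⟨fun a b => (DFunLike.congr_fun h a).trans (DFunLike.congr_fun h b).symm⟩
    refine hC.of_injective _ _ (SemidirectProduct.rightHom : MT (GD Λ R) (vau Λ R b hb) →*
      Multiplicative ℤ) ?_ hC.int
    intro x y hxy
    exact SemidirectProduct.ext (Subsingleton.elim _ _) hxy
  | @h_option α _ ih =>
    intro Λ R b hb h
    exact option_mem' Λ R b hb hC hE (h none) (ih _ _ _ _ (fun a => h (some a)))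

end Pool.Agent.Q105.FJ
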