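import Pool.Agent.Q105.FJ.Tri

/-!
# Triangular automorphisms of free products of well-ordered families of groups
-/

set_option autoImplicit false
set_option linter.unusedSectionVars false
set_option linter.style.haveILetI false

namespace Pool.Agent.Q105.FJ

open Monoid Pool.Agent.Y462.SS Pool.Agent.Q152.WP Pool.Agent.H26R2.Idem

variable {C : ∀ (G : Type) [Group G], Prop}

/-- the restriction of an automorphism -/
def res {N : Type} [Group N] (α : MulAut N) (A : Subgroup N) (h : ∀ x ∈ A, α x ∈ A)
    (h' : ∀ x ∈ A, α.symm x ∈ A) : MulAut A where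
  toFun x := ⟨α (x : N), h x x.2⟩
  invFun x := ⟨α.symm (x : N), h' x x.2⟩
  left_inv x := Subtype.ext (α.symm_apply_apply (x : N))
  right_inv x := Subtype.ext (α.apply_symm_apply (x : N))
  map_mul' x y := Subtype.ext (map_mul α (x : N) (y : N))

section fam

variable {V : Type} [LinearOrder V] {P : V → Type} [∀ v, Group (P v)]

/-- the subgroup generated by the factors with index in `S` -/
def fs (P : V → Type) [∀ v, Group (P v)] (S : Set V) : Subgroup (CoprodI P) :=
  Subgroup.closure {y | ∃ u ∈ S, ∃ p : P u, y = CoprodI.of p}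

theorem of_mem_fs {S : Set V} {u : V} (hu : u ∈ S) (p : P u) :
    (CoprodI.of p : CoprodI P) ∈ fs P S := Subgroup.subset_closure ⟨u, hu, p, rfl⟩

theorem fs_mono {S T : Set V} (h : S ⊆ T) : fs P S ≤ fs P T :=
  Subgroup.closure_mono (by
    rintro _ ⟨u, hu, p, rfl⟩
    exact ⟨u, h hu, p, rfl⟩)

theorem fs_univ : fs P (Set.univ : Set V) = ⊤ := by
  rw [eq_top_iff]
  intro x _
  induction x using CoprodI.induction_on with
  | one => exact one_mem _
  | of i m => exact of_mem_fs (Set.mem_univ i) m
  | mul a b ha hb => exact mul_mem (ha trivial) (hb trivial)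

/-- the inclusion of a factor -/
def gn {S : Set V} {u : V} (hu : u ∈ S) : P u →* fs P S :=
  (CoprodI.of : P u →* CoprodI P).codRestrict (fs P S) (fun p => of_mem_fs hu p)

theorem gn_coe {S : Set V} {u : V} (hu : u ∈ S) (p : P u) :
    ((gn hu p : fs P S) : CoprodI P) = CoprodI.of p := rfl

theorem fs_ext {S : Set V} {L : Type} [Group L] {F F' : fs P S →* L}
    (h : ∀ u (hu : u ∈ S) (p : P u), F (gn hu p) = F' (gn hu p)) : F = F' := by
  ext ⟨x, hx⟩
  have key : ∀ y (hy : y ∈ Subgroup.closure {y : CoprodI P | ∃ u ∈ S, ∃ p : P u, y = CoprodI.of p}),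
      F ⟨y, hy⟩ = F' ⟨y, hy⟩ := by
    intro y hy
    induction hy using Subgroup.closure_induction with
    | mem y hy =>
      obtain ⟨u, hu, p, rfl⟩ := hy
      exact h u hu p
    | one =>
      have h1 : (⟨1, (fs P S).one_mem⟩ : fs P S) = 1 := rfl
      exact (map_one F).trans (map_one F').symm
    | mul a b ha hb iha ihb =>
      have h1 := map_mul F ⟨a, ha⟩ ⟨b, hb⟩
      have h2 := map_mul F' ⟨a, ha⟩ ⟨b, hb⟩
      rw [iha, ihb, ← h2] at h1
      exact h1
    | inv a ha iha =>
      have h1 := map_inv F ⟨a, ha⟩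
      have h2 := map_inv F' ⟨a, ha⟩
      rw [iha, ← h2] at h1
      exact h1
  exact key x hx

/-- the universal property -/
theorem fs_univ_prop {S : Set V} {v : V} (hv : v ∉ S) {L : Type} [Group L] (f : fs P S →* L)
    (g : P v →* L) : ∃ F : fs P (insert v S) →* L,
      F.comp (Subgroup.inclusion (fs_mono (Set.subset_insert v S))) = f ∧
        F.comp (gn (Set.mem_insert v S)) = g := by
  classical
  let F₀ : CoprodI P →* L := CoprodI.lift (fun u =>
    if h : u ∈ S then f.comp (gn h) else if h' : u = v then h' ▸ g else 1)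
  refine ⟨F₀.comp (fs P (insert v S)).subtype, ?_, ?_⟩
  · refine fs_ext fun u hu p => ?_
    change F₀ (CoprodI.of p) = f (gn hu p)
    rw [CoprodI.lift_of, dif_pos hu]
    rfl
  · ext p
    change F₀ (CoprodI.of p) = g p
    rw [CoprodI.lift_of, dif_neg hv, dif_pos rfl]

theorem fs_uniq {S : Set V} {v : V} {L : Type} [Group L] (F F' : fs P (insert v S) →* L)
    (h : F.comp (Subgroup.inclusion (fs_mono (Set.subset_insert v S))) =
      F'.comp (Subgroup.inclusion (fs_mono (Set.subset_insert v S))))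
    (h' : F.comp (gn (Set.mem_insert v S)) = F'.comp (gn (Set.mem_insert v S))) : F = F' := by
  refine fs_ext fun u hu p => ?_
  rcases hu with rfl | hu
  · exact DFunLike.congr_fun h' p
  · exact DFunLike.congr_fun h (gn hu p)

variable (α : MulAut (CoprodI P))

/-- first kind: the factor is mapped to a conjugate of itself, the conjugating element involves only
smaller factors, and the mapping torus of the induced automorphism is in the class -/
def KindA (C : ∀ (G : Type) [Group G], Prop) (v : V) : Prop :=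
  ∃ w ∈ fs P (Set.Iio v), ∃ β : MulAut (P v), C (MT (P v) β) ∧
    ∀ p : P v, α (CoprodI.of p) = w * CoprodI.of (β p) * w⁻¹

/-- second kind: the factor is infinite cyclic, and the generator is multiplied from the left and from
the right by elements that involve only smaller factors -/
def KindB (v : V) : Prop :=
  ∃ u ∈ fs P (Set.Iio v), ∃ w ∈ fs P (Set.Iio v), ∃ e : Multiplicative ℤ ≃* P v,
    α (CoprodI.of (e (Multiplicative.ofAdd 1))) =
      u * CoprodI.of (e (Multiplicative.ofAdd 1)) * w

variable (hα : ∀ v, KindA α C v ∨ KindB α v)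

theorem gen_zpow {v : V} (e : Multiplicative ℤ ≃* P v) (p : P v) :
    ∃ n : ℤ, p = e (Multiplicative.ofAdd 1) ^ n := by
  refine ⟨Multiplicative.toAdd (e.symm p), ?_⟩
  rw [← map_zpow, ← ofAdd_zsmul, smul_eq_mul, mul_one, ofAdd_toAdd, MulEquiv.apply_symm_apply]

include hα in
theorem fs_inv {S : Set V} (hS : IsLowerSet S) (x : CoprodI P) (hx : x ∈ fs P S) :
    α x ∈ fs P S := by
  induction hx using Subgroup.closure_induction with
  | mem x hx =>
    obtain ⟨v, hv, p, rfl⟩ := hx
    have hlow : fs P (Set.Iio v) ≤ fs P S := fs_mono (fun u hu => hS (le_of_lt hu) hv)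
    rcases hα v with ⟨w, hw, β, -, h⟩ | ⟨u, hu, w, hw, e, h⟩
    · rw [h]
      exact mul_mem (mul_mem (hlow hw) (of_mem_fs hv _)) (inv_mem (hlow hw))
    · obtain ⟨n, rfl⟩ := gen_zpow e p
      rw [map_zpow, map_zpow, h]
      exact Subgroup.zpow_mem _ (mul_mem (mul_mem (hlow hu) (of_mem_fs hv _)) (hlow hw)) n
  | one =>
    rw [map_one]
    exact one_mem _
  | mul a b _ _ iha ihb =>
    rw [map_mul]
    exact mul_mem iha ihb
  | inv a _ iha =>
    rw [map_inv]
    exact inv_mem iha

variable [WellFoundedLT V]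

include hα in
theorem fs_inv_of (v : V) (p : P v) :
    α.symm (CoprodI.of p) ∈ fs P (Set.Iic v) := by
  induction v using WellFoundedLT.induction with
  | ind v ih =>
    have hlow : ∀ x ∈ fs P (Set.Iio v), α.symm x ∈ fs P (Set.Iic v) := by
      intro x hx
      induction hx using Subgroup.closure_induction with
      | mem x hx =>
        obtain ⟨u, hu, q, rfl⟩ := hx
        exact fs_mono (Set.Iic_subset_Iic.2 (le_of_lt hu)) (ih u hu q)
      | one =>
        rw [map_one]
        exact one_mem _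
      | mul a b _ _ iha ihb =>
        rw [map_mul]
        exact mul_mem iha ihb
      | inv a _ iha =>
        rw [map_inv]
        exact inv_mem iha
    rcases hα v with ⟨w, hw, β, -, h⟩ | ⟨u, hu, w, hw, e, h⟩
    · have h1 := congrArg α.symm (h (β.symm p))
      rw [MulEquiv.apply_symm_apply, MulEquiv.symm_apply_apply, map_mul, map_mul, map_inv] at h1
      have h2 : α.symm (CoprodI.of p) = (α.symm w)⁻¹ * CoprodI.of (β.symm p) * α.symm w := by
        rw [h1]
        group
      rw [h2]
      exact mul_mem (mul_mem (inv_mem (hlow w hw)) (of_mem_fs (Set.mem_Iic.2 le_rfl) _))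
        (hlow w hw)
    · obtain ⟨n, rfl⟩ := gen_zpow e p
      have h1 := congrArg α.symm h
      rw [MulEquiv.symm_apply_apply, map_mul, map_mul] at h1
      have h2 : α.symm (CoprodI.of (e (Multiplicative.ofAdd 1))) =
          (α.symm u)⁻¹ * CoprodI.of (e (Multiplicative.ofAdd 1)) * (α.symm w)⁻¹ := by
        conv_rhs => rw [h1]
        group
      rw [map_zpow, map_zpow, h2]
      exact Subgroup.zpow_mem _ (mul_mem (mul_mem (inv_mem (hlow u hu))
        (of_mem_fs (Set.mem_Iic.2 le_rfl) _)) (inv_mem (hlow w hw))) n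

include hα in
theorem fs_inv' {S : Set V} (hS : IsLowerSet S) (x : CoprodI P) (hx : x ∈ fs P S) :
    α.symm x ∈ fs P S := by
  induction hx using Subgroup.closure_induction with
  | mem x hx =>
    obtain ⟨v, hv, p, rfl⟩ := hx
    exact fs_mono (fun u hu => hS (Set.mem_Iic.1 hu) hv) (fs_inv_of α hα v p)
  | one =>
    rw [map_one]
    exact one_mem _
  | mul a b _ _ iha ihb =>
    rw [map_mul]
    exact mul_mem iha ihb
  | inv a _ iha =>
    rw [map_inv]
    exact inv_mem iha

/-- the restriction to the subgroup of a lower set -/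
def rs {S : Set V} (hS : IsLowerSet S) : MulAut (fs P S) :=
  res α (fs P S) (fs_inv α hα hS) (fs_inv' α hα hS)

theorem lower_insert (v : V) : IsLowerSet (insert v (Set.Iio v)) := by
  rw [Set.Iio_insert]
  exact isLowerSet_Iic v

/-- the step -/
theorem rs_step (hC : Closed C) (hE : ExtClosed C) (v : V)
    (h : C (MT _ (rs α hα (isLowerSet_Iio v)))) : C (MT _ (rs α hα (lower_insert v))) := by
  have hv : v ∉ Set.Iio v := fun h => lt_irrefl v h
  rcases hα v with ⟨w, hw, β, hβ, hw'⟩ | ⟨u, hu, w, hw, e, hw'⟩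
  · refine stepA (Subgroup.inclusion (fs_mono (Set.subset_insert v (Set.Iio v)))) hC hE
      (gn (Set.mem_insert v _)) (fun L _ f g => fs_univ_prop hv f g)
      (fun L _ F F' => fs_uniq F F') _ (rs α hα (isLowerSet_Iio v)) β ⟨w, hw⟩ (fun x => rfl) ?_ h hβ
    intro p
    exact Subtype.ext (hw' p)
  · refine stepB (Subgroup.inclusion (fs_mono (Set.subset_insert v (Set.Iio v)))) hC hE
      (gn (Set.mem_insert v _) (e (Multiplicative.ofAdd 1))) ?_ ?_ _
      (rs α hα (isLowerSet_Iio v)) ⟨u, hu⟩ ⟨w, hw⟩ (fun x => rfl) (Subtype.ext hw') h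
    · intro L _ f y
      obtain ⟨F, hF1, hF2⟩ := fs_univ_prop hv f ((zpowersHom L y).comp e.symm.toMonoidHom)
      refine ⟨F, hF1, ?_⟩
      have h1 := DFunLike.congr_fun hF2 (e (Multiplicative.ofAdd 1))
      refine h1.trans ?_
      change zpowersHom L y (e.symm (e (Multiplicative.ofAdd 1))) = y
      rw [MulEquiv.symm_apply_apply, zh_one]
    · intro L _ F F' h1 h2
      refine fs_uniq F F' h1 ?_
      ext p
      obtain ⟨n, rfl⟩ := gen_zpow e p
      rw [map_zpow, map_zpow]
      exact congrArg (fun z => z ^ n) h2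

theorem mem_fs_Iic {S : Set V} (hne : S.Nonempty) (x : CoprodI P) (hx : x ∈ fs P S) :
    ∃ u ∈ S, x ∈ fs P (Set.Iic u) := by
  obtain ⟨u₀, hu₀⟩ := hne
  induction hx using Subgroup.closure_induction with
  | mem x hx =>
    obtain ⟨v, hv, p, rfl⟩ := hx
    exact ⟨v, hv, of_mem_fs (Set.mem_Iic.2 le_rfl) p⟩
  | one => exact ⟨u₀, hu₀, one_mem _⟩
  | mul a b _ _ iha ihb =>
    obtain ⟨u, hu, hau⟩ := iha
    obtain ⟨w, hw, hbw⟩ := ihb
    rcases le_total u w with h | h
    · exact ⟨w, hw, mul_mem (fs_mono (Set.Iic_subset_Iic.2 h) hau) hbw⟩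
    · exact ⟨u, hu, mul_mem hau (fs_mono (Set.Iic_subset_Iic.2 h) hbw)⟩
  | inv a _ iha =>
    obtain ⟨u, hu, hau⟩ := iha
    exact ⟨u, hu, inv_mem hau⟩

/-- unions -/
theorem rs_union (hC : Closed C) {S : Set V} (hS : IsLowerSet S)
    (h : ∀ u ∈ S, C (MT _ (rs α hα (isLowerSet_Iic u)))) : C (MT _ (rs α hα hS)) := by
  rcases S.eq_empty_or_nonempty with rfl | hne
  · refine hC.of_injective _ (Multiplicative ℤ) (mtr _) ?_ hC.int
    intro a b hab
    have hbot : ∀ x : fs P (∅ : Set V), x = 1 := by
      intro x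
      have h1 : MonoidHom.id (fs P (∅ : Set V)) = 1 := fs_ext fun u hu _ => absurd hu (by simp)
      exact DFunLike.congr_fun h1 x
    exact SemidirectProduct.ext ((hbot _).trans (hbot _).symm) hab
  · haveI : Nonempty S := hne.to_subtype
    have hle : ∀ u : S, Set.Iic (u : V) ⊆ S := fun u w hw => hS (Set.mem_Iic.1 hw) u.2
    refine Pool.Agent.Y430.SS.of_directed hC _ S (fun i j => ⟨max i j, le_max_left i j,
      le_max_right i j⟩) (fun u => (mtm (rs α hα (isLowerSet_Iic (u : V))) (rs α hα hS)
        (Subgroup.inclusion (fs_mono (hle u))) (fun _ => rfl)).range) ?_ ?_ ?_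
    · rintro u w huw _ ⟨x, rfl⟩
      refine ⟨mtm (rs α hα (isLowerSet_Iic (u : V))) (rs α hα (isLowerSet_Iic (w : V)))
        (Subgroup.inclusion (fs_mono (Set.Iic_subset_Iic.2 huw))) (fun _ => rfl) x, ?_⟩
      exact SemidirectProduct.ext rfl rfl
    · intro g
      obtain ⟨u, hu, hgu⟩ := mem_fs_Iic hne g.left.1 g.left.2
      exact ⟨⟨u, hu⟩, ⟨⟨g.left.1, hgu⟩, g.right⟩, SemidirectProduct.ext rfl rfl⟩
    · intro u
      refine Pool.Agent.Y812.SS.C_equiv hC (MonoidHom.ofInjective (mtm_injective _ _ _ _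
        (Subgroup.inclusion_injective _))).symm (h u u.2)

theorem rs_all (hC : Closed C) (hE : ExtClosed C) (v : V) :
    C (MT _ (rs α hα (isLowerSet_Iic v))) := by
  induction v using WellFoundedLT.induction with
  | ind v ih =>
    have h1 := rs_step α hα hC hE v (rs_union α hα hC (isLowerSet_Iio v) (fun u hu => ih u hu))
    have h2 : ∀ (S : Set V) (hS : IsLowerSet S) (_ : insert v (Set.Iio v) = S),
        C (MT _ (rs α hα hS)) := by
      rintro S hS rfl
      exact h1
    exact h2 _ _ (Set.Iio_insert)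

include hα in
/-- **Mapping tori of triangular automorphisms.** -/
theorem tri_mem (hC : Closed C) (hE : ExtClosed C) : C (MT (CoprodI P) α) := by
  have h1 := rs_union α hα hC isLowerSet_univ (fun u _ => rs_all α hα hC hE u)
  have hu : ∀ x : CoprodI P, x ∈ fs P (Set.univ : Set V) := fun x => by
    rw [fs_univ]
    trivial
  refine hC.of_injective _ _ (mtm α (rs α hα isLowerSet_univ)
    ((MonoidHom.id (CoprodI P)).codRestrict (fs P (Set.univ : Set V)) hu) (fun _ => rfl)) ?_ h1
  refine mtm_injective _ _ _ _ ?_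
  intro a b hab
  exact congrArg Subtype.val hab

end fam

end Pool.Agent.Q105.FJ
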