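import Pool.Agent.Q105.FJ.Tri

/-!
# Mapping tori of triangular automorphisms of graph products: the step
-/

set_option autoImplicit false
set_option linter.unusedSectionVars false
set_option linter.style.haveILetI false

namespace Pool.Agent.Q105.FJ

open Monoid Pool.Agent.Y462.SS Pool.Agent.Q152.WP Pool.Agent.H26R2.Idem

variable {C : ∀ (G : Type) [Group G], Prop}

section tw

variable {A : Type} [Group A] (L : Subgroup A) (αA : MulAut A) (w : A)
  (hL : ∀ l, l ∈ L ↔ w⁻¹ * αA l * w ∈ L)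

/-- the twisted restriction -/
def gam : MulAut L where
  toFun l := ⟨w⁻¹ * αA l.1 * w, (hL l.1).1 l.2⟩
  invFun l := ⟨αA.symm (w * l.1 * w⁻¹), (hL _).2 (by
    rw [MulEquiv.apply_symm_apply]
    have h1 : w⁻¹ * (w * l.1 * w⁻¹) * w = l.1 := by group
    rw [h1]
    exact l.2)⟩
  left_inv l := Subtype.ext (by
    change αA.symm (w * (w⁻¹ * αA l.1 * w) * w⁻¹) = l.1
    have h1 : w * (w⁻¹ * αA l.1 * w) * w⁻¹ = αA l.1 := by group
    rw [h1, MulEquiv.symm_apply_apply])
  right_inv l := Subtype.ext (by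
    change w⁻¹ * αA (αA.symm (w * l.1 * w⁻¹)) * w = l.1
    rw [MulEquiv.apply_symm_apply]
    group)
  map_mul' x y := Subtype.ext (by
    change w⁻¹ * αA (x.1 * y.1) * w = w⁻¹ * αA x.1 * w * (w⁻¹ * αA y.1 * w)
    rw [map_mul]
    group)

theorem gam_coe (l : L) : ((gam L αA w hL l : L) : A) = w⁻¹ * αA l.1 * w := rfl

/-- the inclusion of the edge group -/
def egi : MT L (gam L αA w hL) →* MT A αA :=
  mtl (gam L αA w hL) ((ii αA).comp L.subtype) ((ii αA w)⁻¹ * tt αA) (fun l => by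
    change (ii αA w)⁻¹ * tt αA * ii αA l.1 = ii αA (w⁻¹ * αA l.1 * w) * ((ii αA w)⁻¹ * tt αA)
    rw [mul_assoc, tt_ii, map_mul, map_mul, map_inv]
    group)

theorem egi_ii (l : L) : egi L αA w hL (ii _ l) = ii αA l.1 := mtl_ii _ _ _ _ _

theorem egi_tt : egi L αA w hL (tt _) = (ii αA w)⁻¹ * tt αA := mtl_tt _ _ _ _

theorem egi_injective : Function.Injective (egi L αA w hL) := by
  have h1 : (mtr αA).comp (egi L αA w hL) = mtr _ := by
    refine mt_ext (fun l => ?_) ?_
    · rw [MonoidHom.comp_apply, egi_ii, mtr_ii, mtr_ii]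
    · rw [MonoidHom.comp_apply, egi_tt, map_mul, map_inv, mtr_ii, mtr_tt, mtr_tt, inv_one, one_mul]
  intro x y hxy
  have h2 : x.right = y.right := by
    have h3 := DFunLike.congr_fun h1 x
    have h4 := DFunLike.congr_fun h1 y
    rw [MonoidHom.comp_apply] at h3 h4
    rw [hxy, h4] at h3
    exact h3.symm
  have h5 : ∀ z : MT L (gam L αA w hL), z = ii _ z.left * SemidirectProduct.inr z.right :=
    fun z => (SemidirectProduct.inl_left_mul_inr_right z).symm
  rw [h5 x, h5 y, map_mul, map_mul, h2] at hxy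
  have h6 := mul_right_cancel hxy
  rw [egi_ii, egi_ii] at h6
  exact SemidirectProduct.ext (Subtype.ext (ii_injective αA h6)) h2

end tw

section step

variable {A B H : Type} [Group A] [Group B] [Group H] (a : A →* B)

/-- **Graph products: a new vertex which is joined to the vertices of `L`.** -/
theorem stepG (hC : Closed C) (hE : ExtClosed C) (h : H →* B) (L : Subgroup A)
    (univ : ∀ (X : Type) [Group X] (f : A →* X) (g : H →* X),
      (∀ l ∈ L, ∀ y, f l * g y = g y * f l) → ∃ F : B →* X, F.comp a = f ∧ F.comp h = g)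
    (uniq : ∀ (X : Type) [Group X] (F F' : B →* X), F.comp a = F'.comp a → F.comp h = F'.comp h →
      F = F')
    (comm : ∀ l ∈ L, ∀ y, a l * h y = h y * a l)
    (αB : MulAut B) (αA : MulAut A) (β : MulAut H) (w : A) (hA : ∀ x, αB (a x) = a (αA x))
    (hH : ∀ x, αB (h x) = a w * h (β x) * (a w)⁻¹) (hL : ∀ l, l ∈ L ↔ w⁻¹ * αA l * w ∈ L)
    (hCA : C (MT A αA)) (hCH : C (MT H β)) : C (MT B αB) := by
  let γ : MulAut L := gam L αA w hL
  let δ : MulAut (L × H) := MulEquiv.prodCongr γ β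
  have hδ : ∀ x : L × H, δ x = (γ x.1, β x.2) := fun x => rfl
  -- the groups
  have hCE : C (MT L γ) := hC.of_injective _ _ (egi L αA w hL) (egi_injective L αA w hL) hCA
  have hCM : C (MT (L × H) δ) := by
    refine hC.of_injective _ (MT L γ × MT H β)
      ((mtm δ γ (MonoidHom.fst L H) (fun _ => rfl)).prod
        (mtm δ β (MonoidHom.snd L H) (fun _ => rfl))) ?_ (hC.prod _ _ hCE hCH)
    intro x y hxy
    have h1 : mtm δ γ (MonoidHom.fst L H) (fun _ => rfl) x =
      mtm δ γ (MonoidHom.fst L H) (fun _ => rfl) y := congrArg Prod.fst hxy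
    have h2 : mtm δ β (MonoidHom.snd L H) (fun _ => rfl) x =
      mtm δ β (MonoidHom.snd L H) (fun _ => rfl) y := congrArg Prod.snd hxy
    have h3 : x.right = y.right := congrArg (fun z : MT L γ => z.right) h1
    exact SemidirectProduct.ext (Prod.ext (congrArg (fun z : MT L γ => z.left) h1)
      (congrArg (fun z : MT H β => z.left) h2)) h3
  -- the second inclusion of the edge group
  let e₂ : MT L γ →* MT (L × H) δ := mtm γ δ (MonoidHom.inl L H) (fun n => by
    change ((γ n, 1) : L × H) = δ (n, 1)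
    rw [hδ, map_one])
  have he₂ : Function.Injective e₂ := mtm_injective _ _ _ _ (fun x y hxy =>
    congrArg Prod.fst hxy)
  let f₂ : MT (L × H) δ →* MT A αA := mtl δ ((ii αA).comp (L.subtype.comp (MonoidHom.fst L H)))
    ((ii αA w)⁻¹ * tt αA) (fun l => by
      change (ii αA w)⁻¹ * tt αA * ii αA l.1.1 =
        ii αA (w⁻¹ * αA l.1.1 * w) * ((ii αA w)⁻¹ * tt αA)
      rw [mul_assoc, tt_ii, map_mul, map_mul, map_inv]
      group)
  have hf : (MonoidHom.id (MT A αA)).comp (egi L αA w hL) = f₂.comp e₂ := by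
    refine mt_ext (fun l => ?_) ?_
    · rw [MonoidHom.comp_apply, MonoidHom.comp_apply, egi_ii, mtm_ii, mtl_ii]
      rfl
    · rw [MonoidHom.comp_apply, MonoidHom.comp_apply, egi_tt, mtm_tt, mtl_tt]
      rfl
  obtain ⟨X, _, i₁, i₂, hX, hi, hu⟩ := amal hC hE (egi L αA w hL) e₂ (egi_injective L αA w hL) he₂
    (MonoidHom.id _) f₂ hf (egi_injective L αA w hL) hCA hCM hCA
  have hi' : ∀ x, i₁ (egi L αA w hL x) = i₂ (e₂ x) := fun x => DFunLike.congr_fun hi x
  have hil : ∀ l : L, i₁ (ii αA l.1) = i₂ (ii δ (l, 1)) := by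
    intro l
    have h1 := hi' (ii γ l)
    rw [egi_ii] at h1
    exact h1
  have hτ : i₁ (tt αA) = i₁ (ii αA w) * i₂ (tt δ) := by
    have h1 := hi' (tt γ)
    rw [egi_tt] at h1
    have h2 : e₂ (tt γ) = tt δ := mtm_tt _ _ _ _
    rw [h2] at h1
    rw [← h1, map_mul, map_inv]
    group
  obtain ⟨F, hFa, hFh⟩ := univ X (i₁.comp (ii αA)) (i₂.comp ((ii δ).comp (MonoidHom.inr L H)))
    (fun l hl y => by
      change i₁ (ii αA l) * i₂ (ii δ (1, y)) = i₂ (ii δ (1, y)) * i₁ (ii αA l)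
      rw [hil ⟨l, hl⟩, ← map_mul, ← map_mul, ← map_mul, ← map_mul]
      congr 2
      exact Prod.ext (by simp) (by simp))
  have hFa' : ∀ x, F (a x) = i₁ (ii αA x) := fun x => DFunLike.congr_fun hFa x
  have hFh' : ∀ x, F (h x) = i₂ (ii δ (1, x)) := fun x => DFunLike.congr_fun hFh x
  have hF : ∀ n, i₁ (tt αA) * F n = F (αB n) * i₁ (tt αA) := by
    have h1 : (MulAut.conj (i₁ (tt αA))).toMonoidHom.comp F = F.comp αB.toMonoidHom := by
      refine uniq X _ _ ?_ ?_
      · ext x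
        change i₁ (tt αA) * F (a x) * (i₁ (tt αA))⁻¹ = F (αB (a x))
        rw [hA, hFa', hFa', mul_inv_eq_iff_eq_mul, ← map_mul, ← map_mul, tt_ii]
      · ext x
        change i₁ (tt αA) * F (h x) * (i₁ (tt αA))⁻¹ = F (αB (h x))
        rw [hH, map_mul, map_mul, map_inv, hFa', hFh', hFh', hτ]
        have h2 : i₂ (tt δ) * i₂ (ii δ (1, x)) = i₂ (ii δ (1, β x)) * i₂ (tt δ) := by
          rw [← map_mul, tt_ii, map_mul, hδ, map_one]
        calc i₁ (ii αA w) * i₂ (tt δ) * i₂ (ii δ (1, x)) * (i₁ (ii αA w) * i₂ (tt δ))⁻¹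
            = i₁ (ii αA w) * (i₂ (tt δ) * i₂ (ii δ (1, x))) * (i₂ (tt δ))⁻¹ *
              (i₁ (ii αA w))⁻¹ := by group
          _ = _ := by rw [h2]; group
    intro n
    have h2 := DFunLike.congr_fun h1 n
    change i₁ (tt αA) * F n * (i₁ (tt αA))⁻¹ = F (αB n) at h2
    rw [← h2]
    group
  -- the way back
  let m : L × H →* B := MonoidHom.noncommCoprod (a.comp L.subtype) h (fun l y => comm l.1 l.2 y)
  have hm : ∀ l y, m (l, y) = a l.1 * h y := fun l y => rfl
  have hk2 : ∀ x, (ii αB (a w))⁻¹ * tt αB * (ii αB).comp m x =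
      (ii αB).comp m (δ x) * ((ii αB (a w))⁻¹ * tt αB) := by
    rintro ⟨l, y⟩
    rw [MonoidHom.comp_apply, MonoidHom.comp_apply, hδ, hm, hm, mul_assoc, tt_ii, map_mul αB, hA,
      hH]
    have h1 : a ((γ l : L) : A) = (a w)⁻¹ * a (αA l.1) * a w := by
      rw [gam_coe, map_mul, map_mul, map_inv]
    rw [h1]
    simp only [map_mul, map_inv]
    group
  obtain ⟨k, hk1, hk3⟩ := hu (MT B αB) (mtm αA αB a (fun x => (hA x).symm))
    (mtl δ ((ii αB).comp m) ((ii αB (a w))⁻¹ * tt αB) hk2) (by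
      refine mt_ext (fun l => ?_) ?_
      · rw [MonoidHom.comp_apply, MonoidHom.comp_apply, egi_ii, mtm_ii, mtm_ii, mtl_ii,
          MonoidHom.comp_apply]
        change ii αB (a l.1) = ii αB (m (l, 1))
        rw [hm, map_one, mul_one]
      · rw [MonoidHom.comp_apply, MonoidHom.comp_apply, egi_tt, mtm_tt, mtl_tt, map_mul, map_inv,
          mtm_ii, mtm_tt])
  have hk1' : ∀ x, k (i₁ x) = mtm αA αB a (fun x => (hA x).symm) x := fun x =>
    DFunLike.congr_fun hk1 x
  have hk3' : ∀ x, k (i₂ x) = mtl δ ((ii αB).comp m) ((ii αB (a w))⁻¹ * tt αB) hk2 x := fun x =>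
    DFunLike.congr_fun hk3 x
  have hback : k.comp (mtl αB F (i₁ (tt αA)) hF) = MonoidHom.id _ := by
    refine mt_ext ?_ ?_
    · intro n
      have h1 : k.comp F = ii αB := by
        refine uniq _ _ _ ?_ ?_
        · ext1 x
          rw [MonoidHom.comp_apply, MonoidHom.comp_apply, MonoidHom.comp_apply, hFa', hk1', mtm_ii]
        · ext1 x
          rw [MonoidHom.comp_apply, MonoidHom.comp_apply, MonoidHom.comp_apply, hFh', hk3', mtl_ii,
            MonoidHom.comp_apply, hm]
          change ii αB (a 1 * h x) = ii αB (h x)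
          rw [map_one, one_mul]
      rw [MonoidHom.comp_apply, mtl_ii]
      exact DFunLike.congr_fun h1 n
    · rw [MonoidHom.comp_apply, mtl_tt, hk1', mtm_tt]
      rfl
  refine hC.of_injective _ X (mtl αB F (i₁ (tt αA)) hF) ?_ hX
  intro x y hxy
  have h1 := DFunLike.congr_fun hback x
  have h2 := DFunLike.congr_fun hback y
  rw [MonoidHom.comp_apply, MonoidHom.id_apply] at h1 h2
  rw [← h1, ← h2, hxy]

end step

end Pool.Agent.Q105.FJ
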