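import Pool.Agent.Q105.FJ.TriG

/-!
# Triangular automorphisms of graph products over well-ordered graphs
-/

set_option autoImplicit false
set_option linter.unusedSectionVars false
set_option linter.style.haveILetI false

namespace Pool.Agent.Q105.FJ

open Pool.Agent.Y462.SS Pool.Agent.Q152.WP Pool.Agent.H26R2.Idem

variable {C : ∀ (G : Type) [Group G], Prop}

/-- the restriction of an automorphism -/
def resA {N : Type} [Group N] (α : MulAut N) (A : Subgroup N) (h : ∀ x ∈ A, α x ∈ A)
    (h' : ∀ x ∈ A, α.symm x ∈ A) : MulAut A where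
  toFun x := ⟨α (x : N), h x x.2⟩
  invFun x := ⟨α.symm (x : N), h' x x.2⟩
  left_inv x := Subtype.ext (α.symm_apply_apply (x : N))
  right_inv x := Subtype.ext (α.apply_symm_apply (x : N))
  map_mul' x y := Subtype.ext (map_mul α (x : N) (y : N))

/-- the subgroup generated by the vertex groups with index in `S` -/
def hs {N V : Type} [Group N] (H : V → Subgroup N) (S : Set V) : Subgroup N :=
  Subgroup.closure {y | ∃ u ∈ S, y ∈ H u}

/-- The group `N` is the internal graph product of the subgroups `H v` over the graph `Λ`: the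
subgroups generate `N`, subgroups at adjacent vertices commute, and homomorphisms on the `H v` with
commuting images for adjacent vertices extend to `N`. -/
def IsGP {N V : Type} [Group N] (Λ : SimpleGraph V) (H : V → Subgroup N) : Prop :=
  hs H Set.univ = ⊤ ∧ (∀ v w, Λ.Adj v w → ∀ x ∈ H v, ∀ y ∈ H w, x * y = y * x) ∧
    ∀ (X : Type) [Group X] (f : ∀ v, H v →* X),
      (∀ v w, Λ.Adj v w → ∀ (x : H v) (y : H w), f v x * f w y = f w y * f v x) →
        ∃ F : N →* X, ∀ v (x : H v), F x = f v x

section fam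

variable {V : Type} [LinearOrder V] {N : Type} [Group N] {Λ : SimpleGraph V} {H : V → Subgroup N}

theorem mem_hs {S : Set V} {u : V} (hu : u ∈ S) {x : N} (hx : x ∈ H u) : x ∈ hs H S :=
  Subgroup.subset_closure ⟨u, hu, hx⟩

theorem hs_mono {S T : Set V} (h : S ⊆ T) : hs H S ≤ hs H T :=
  Subgroup.closure_mono (by
    rintro _ ⟨u, hu, hx⟩
    exact ⟨u, h hu, hx⟩)

/-- the inclusion of a vertex group -/
def gh {S : Set V} {u : V} (hu : u ∈ S) : H u →* hs H S :=
  Subgroup.inclusion (fun _ hx => mem_hs hu hx)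

theorem hs_ext {S : Set V} {X : Type} [Group X] {F F' : hs H S →* X}
    (h : ∀ u (hu : u ∈ S) (p : H u), F (gh hu p) = F' (gh hu p)) : F = F' := by
  ext ⟨x, hx⟩
  have key : ∀ y (hy : y ∈ Subgroup.closure {y : N | ∃ u ∈ S, y ∈ H u}),
      F ⟨y, hy⟩ = F' ⟨y, hy⟩ := by
    intro y hy
    induction hy using Subgroup.closure_induction with
    | mem y hy =>
      obtain ⟨u, hu, hyu⟩ := hy
      exact h u hu ⟨y, hyu⟩
    | one => exact (map_one F).trans (map_one F').symm
    | mul a b ha hb iha ihb =>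
      have h1 := map_mul F ⟨a, ha⟩ ⟨b, hb⟩
      have h2 := map_mul F' ⟨a, ha⟩ ⟨b, hb⟩
      rw [iha, ihb, ← h2] at h1
      exact h1
    | inv a ha iha =>
      have h1 := map_inv F ⟨a, ha⟩
      have h2 := map_inv F' ⟨a, ha⟩
      rw [iha, ← h2] at h1
      exact h1
  exact key x hx

/-- the part of the link of `v` before `v` -/
def lk (Λ : SimpleGraph V) (v : V) : Set V := {u | u < v ∧ Λ.Adj v u}

theorem lk_sub (v : V) : lk Λ v ⊆ Set.Iio v := fun _ hu => hu.1

/-- the link subgroup, in the product of the vertex groups before `v` -/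
def lks (Λ : SimpleGraph V) (H : V → Subgroup N) (v : V) : Subgroup (hs H (Set.Iio v)) :=
  (hs H (lk Λ v)).subgroupOf (hs H (Set.Iio v))

/-- the universal property -/
theorem hs_univ_prop (hP : IsGP Λ H) {v : V} {X : Type} [Group X] (f : hs H (Set.Iio v) →* X)
    (g : H v →* X) (hfg : ∀ l ∈ lks Λ H v, ∀ y, f l * g y = g y * f l) :
    ∃ F : hs H (insert v (Set.Iio v)) →* X,
      F.comp (Subgroup.inclusion (hs_mono (Set.subset_insert v (Set.Iio v)))) = f ∧
        F.comp (gh (Set.mem_insert v (Set.Iio v))) = g := by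
  classical
  let k : ∀ u, H u →* X := fun u =>
    if h : u ∈ Set.Iio v then f.comp (gh h) else if h' : u = v then h' ▸ g else 1
  have hk1 : ∀ u (hu : u ∈ Set.Iio v) (x : H u), k u x = f (gh hu x) := by
    intro u hu x
    change (if h : u ∈ Set.Iio v then f.comp (gh h) else if h' : u = v then h' ▸ g else 1) x = _
    rw [dif_pos hu]
    rfl
  have hv : v ∉ Set.Iio v := fun h => lt_irrefl v h
  have hk2 : ∀ x : H v, k v x = g x := by
    intro x
    change (if h : v ∈ Set.Iio v then f.comp (gh h) else if h' : v = v then h' ▸ g else 1) x = _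
    rw [dif_neg hv, dif_pos rfl]
  have hk3 : ∀ u, v < u → ∀ x : H u, k u x = 1 := by
    intro u hu x
    change (if h : u ∈ Set.Iio v then f.comp (gh h) else if h' : u = v then h' ▸ g else 1) x = _
    have h1 : u ∉ Set.Iio v := fun h => lt_asymm (Set.mem_Iio.1 h) hu
    rw [dif_neg h1, dif_neg hu.ne']
    rfl
  obtain ⟨F₀, hF₀⟩ := hP.2.2 X k (by
    intro u w huw x y
    rcases lt_trichotomy u v with hu | rfl | hu
    · rcases lt_trichotomy w v with hw | rfl | hw
      · rw [hk1 u hu, hk1 w hw, ← map_mul, ← map_mul]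
        congr 1
        exact Subtype.ext (hP.2.1 u w huw x x.2 y y.2)
      · rw [hk1 u hu, hk2]
        exact hfg _ (mem_hs (S := lk Λ w) ⟨hu, huw.symm⟩ x.2) y
      · rw [hk3 w hw, mul_one, one_mul]
    · rcases lt_trichotomy w u with hw | rfl | hw
      · rw [hk1 w hw, hk2]
        exact (hfg _ (mem_hs (S := lk Λ u) ⟨hw, huw⟩ y.2) x).symm
      · exact absurd rfl huw.ne
      · rw [hk3 w hw, mul_one, one_mul]
    · rw [hk3 u hu, mul_one, one_mul])
  refine ⟨F₀.comp (hs H (insert v (Set.Iio v))).subtype, ?_, ?_⟩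
  · refine hs_ext fun u hu p => ?_
    change F₀ (p : N) = f (gh hu p)
    rw [hF₀, hk1 u hu]
  · ext p
    change F₀ (p : N) = g p
    rw [hF₀, hk2]

theorem hs_uniq {S : Set V} {v : V} {X : Type} [Group X] (F F' : hs H (insert v S) →* X)
    (h : F.comp (Subgroup.inclusion (hs_mono (Set.subset_insert v S))) =
      F'.comp (Subgroup.inclusion (hs_mono (Set.subset_insert v S))))
    (h' : F.comp (gh (Set.mem_insert v S)) = F'.comp (gh (Set.mem_insert v S))) : F = F' := by
  refine hs_ext fun u hu p => ?_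
  rcases hu with rfl | hu
  · exact DFunLike.congr_fun h' p
  · exact DFunLike.congr_fun h (gh hu p)

variable (Λ) (α : MulAut N)

/-- First kind: the automorphism `α` maps the vertex group `H v` to a conjugate of itself, the
conjugating element `w` involves only smaller vertices, `α` composed with the conjugation by `w⁻¹`
preserves the subgroup of the smaller vertices adjacent to `v`, and the mapping torus of the induced
automorphism of `H v` is in the class. -/
def VKindA (C : ∀ (G : Type) [Group G], Prop) (H : V → Subgroup N) (v : V) : Prop :=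
  ∃ w ∈ hs H (Set.Iio v), ∃ β : MulAut (H v), C (MT (H v) β) ∧
    (∀ p : H v, α p = w * β p * w⁻¹) ∧
      ∀ l, l ∈ hs H (lk Λ v) ↔ w⁻¹ * α l * w ∈ hs H (lk Λ v)

/-- Second kind: `v` is not adjacent to smaller vertices, the vertex group is infinite cyclic, and the
generator is multiplied from the left and from the right by elements that involve only smaller
vertices. -/
def VKindB (H : V → Subgroup N) (v : V) : Prop :=
  lk Λ v = ∅ ∧ ∃ u ∈ hs H (Set.Iio v), ∃ w ∈ hs H (Set.Iio v), ∃ e : Multiplicative ℤ ≃* H v,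
    α (e (Multiplicative.ofAdd 1)) = u * e (Multiplicative.ofAdd 1) * w

variable (hα : ∀ v, VKindA Λ α C H v ∨ VKindB Λ α H v)

theorem vgen_zpow {v : V} (e : Multiplicative ℤ ≃* H v) (p : H v) :
    ∃ n : ℤ, p = e (Multiplicative.ofAdd 1) ^ n := by
  refine ⟨Multiplicative.toAdd (e.symm p), ?_⟩
  rw [← map_zpow, ← ofAdd_zsmul, smul_eq_mul, mul_one, ofAdd_toAdd, MulEquiv.apply_symm_apply]

include hα in
theorem hs_inv {S : Set V} (hS : IsLowerSet S) (x : N) (hx : x ∈ hs H S) :
    α x ∈ hs H S := by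
  induction hx using Subgroup.closure_induction with
  | mem x hx =>
    obtain ⟨v, hv, hxv⟩ := hx
    have hlow : hs H (Set.Iio v) ≤ hs H S := hs_mono (fun u hu => hS (le_of_lt hu) hv)
    rcases hα v with ⟨w, hw, β, -, h, -⟩ | ⟨-, u, hu, w, hw, e, h⟩
    · rw [h ⟨x, hxv⟩]
      exact mul_mem (mul_mem (hlow hw) (mem_hs hv (β ⟨x, hxv⟩).2)) (inv_mem (hlow hw))
    · obtain ⟨n, hn⟩ := vgen_zpow e ⟨x, hxv⟩
      have hn' : x = (e (Multiplicative.ofAdd 1) : N) ^ n := congrArg Subtype.val hn
      rw [hn', map_zpow, h]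
      exact Subgroup.zpow_mem _ (mul_mem (mul_mem (hlow hu) (mem_hs hv
        (e (Multiplicative.ofAdd 1)).2)) (hlow hw)) n
  | one =>
    rw [map_one]
    exact one_mem _
  | mul a b _ _ iha ihb =>
    rw [map_mul]
    exact mul_mem iha ihb
  | inv a _ iha =>
    rw [map_inv]
    exact inv_mem iha

variable [WellFoundedLT V]

include hα in
theorem hs_inv_of (v : V) (p : N) (hp : p ∈ H v) :
    α.symm p ∈ hs H (Set.Iic v) := by
  induction v using WellFoundedLT.induction generalizing p with
  | ind v ih =>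
    have hlow : ∀ x ∈ hs H (Set.Iio v), α.symm x ∈ hs H (Set.Iic v) := by
      intro x hx
      induction hx using Subgroup.closure_induction with
      | mem x hx =>
        obtain ⟨u, hu, hxu⟩ := hx
        exact hs_mono (Set.Iic_subset_Iic.2 (le_of_lt hu)) (ih u hu x hxu)
      | one =>
        rw [map_one]
        exact one_mem _
      | mul a b _ _ iha ihb =>
        rw [map_mul]
        exact mul_mem iha ihb
      | inv a _ iha =>
        rw [map_inv]
        exact inv_mem iha
    rcases hα v with ⟨w, hw, β, -, h, -⟩ | ⟨-, u, hu, w, hw, e, h⟩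
    · have h1 := congrArg α.symm (h (β.symm ⟨p, hp⟩))
      rw [MulEquiv.apply_symm_apply, MulEquiv.symm_apply_apply, map_mul, map_mul, map_inv] at h1
      have h2 : α.symm p = (α.symm w)⁻¹ * (β.symm ⟨p, hp⟩ : N) * α.symm w := by
        rw [h1]
        group
      rw [h2]
      exact mul_mem (mul_mem (inv_mem (hlow w hw)) (mem_hs (Set.mem_Iic.2 le_rfl)
        (β.symm ⟨p, hp⟩).2)) (hlow w hw)
    · obtain ⟨n, hn⟩ := vgen_zpow e ⟨p, hp⟩
      have hn' : p = (e (Multiplicative.ofAdd 1) : N) ^ n := congrArg Subtype.val hn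
      have h1 := congrArg α.symm h
      rw [MulEquiv.symm_apply_apply, map_mul, map_mul] at h1
      have h2 : α.symm (e (Multiplicative.ofAdd 1) : N) =
          (α.symm u)⁻¹ * (e (Multiplicative.ofAdd 1) : N) * (α.symm w)⁻¹ := by
        conv_rhs => rw [h1]
        group
      rw [hn', map_zpow, h2]
      exact Subgroup.zpow_mem _ (mul_mem (mul_mem (inv_mem (hlow u hu))
        (mem_hs (Set.mem_Iic.2 le_rfl) (e (Multiplicative.ofAdd 1)).2)) (inv_mem (hlow w hw))) n

include hα in
theorem hs_inv' {S : Set V} (hS : IsLowerSet S) (x : N) (hx : x ∈ hs H S) :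
    α.symm x ∈ hs H S := by
  induction hx using Subgroup.closure_induction with
  | mem x hx =>
    obtain ⟨v, hv, hxv⟩ := hx
    exact hs_mono (fun u hu => hS (Set.mem_Iic.1 hu) hv) (hs_inv_of Λ α hα v x hxv)
  | one =>
    rw [map_one]
    exact one_mem _
  | mul a b _ _ iha ihb =>
    rw [map_mul]
    exact mul_mem iha ihb
  | inv a _ iha =>
    rw [map_inv]
    exact inv_mem iha

/-- the restriction to the subgroup of a lower set -/
def rg {S : Set V} (hS : IsLowerSet S) : MulAut (hs H S) :=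
  resA α (hs H S) (hs_inv Λ α hα hS) (hs_inv' Λ α hα hS)

theorem glower_insert (v : V) : IsLowerSet (insert v (Set.Iio v)) := by
  rw [Set.Iio_insert]
  exact isLowerSet_Iic v

theorem lk_comm (hP : IsGP Λ H) (v : V) (z : N) (hz : z ∈ hs H (lk Λ v)) (y : N) (hy : y ∈ H v) :
    z * y = y * z := by
  induction hz using Subgroup.closure_induction with
  | mem x hx =>
    obtain ⟨z, hz, hxz⟩ := hx
    exact hP.2.1 z v hz.2.symm x hxz y hy
  | one => rw [one_mul, mul_one]
  | mul a b _ _ iha ihb => rw [mul_assoc, ihb, ← mul_assoc, iha, mul_assoc]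
  | inv a _ iha => rw [inv_mul_eq_iff_eq_mul, ← mul_assoc, iha, mul_inv_cancel_right]

/-- the step -/
theorem rg_step (hP : IsGP Λ H) (hC : Closed C) (hE : ExtClosed C) (v : V)
    (h : C (MT _ (rg Λ α hα (isLowerSet_Iio v)))) : C (MT _ (rg Λ α hα (glower_insert v))) := by
  have hv : v ∉ Set.Iio v := fun h => lt_irrefl v h
  rcases hα v with ⟨w, hw, β, hβ, hw', hl⟩ | ⟨h0, u, hu, w, hw, e, hw'⟩
  · refine stepG (Subgroup.inclusion (hs_mono (Set.subset_insert v (Set.Iio v)))) hC hE
      (gh (Set.mem_insert v _)) (lks Λ H v) (fun X _ f g hfg => hs_univ_prop hP f g hfg)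
      (fun X _ F F' => hs_uniq F F') ?_ _ (rg Λ α hα (isLowerSet_Iio v)) β ⟨w, hw⟩
      (fun x => rfl) ?_ ?_ h hβ
    · intro l hl' y
      apply Subtype.ext
      change (l : N) * (y : N) = (y : N) * (l : N)
      exact lk_comm Λ hP v (l : N) hl' (y : N) y.2
    · intro p
      exact Subtype.ext (hw' p)
    · intro l
      exact hl l
  · refine stepB (Subgroup.inclusion (hs_mono (Set.subset_insert v (Set.Iio v)))) hC hE
      (gh (Set.mem_insert v _) (e (Multiplicative.ofAdd 1))) ?_ ?_ _
      (rg Λ α hα (isLowerSet_Iio v)) ⟨u, hu⟩ ⟨w, hw⟩ (fun x => rfl) (Subtype.ext hw') h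
    · intro X _ f y
      obtain ⟨F, hF1, hF2⟩ := hs_univ_prop hP f ((zpowersHom X y).comp e.symm.toMonoidHom) (by
        intro l hl _
        have h1 : l = 1 := by
          apply Subtype.ext
          have h2 : (l : N) ∈ hs H (lk Λ v) := hl
          rw [h0] at h2
          have h3 : hs H (∅ : Set V) = ⊥ := by
            rw [hs]
            have h4 : {y : N | ∃ u ∈ (∅ : Set V), y ∈ H u} = ∅ := by
              ext y
              simp
            rw [h4, Subgroup.closure_empty]
          rw [h3] at h2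
          exact Subgroup.mem_bot.1 h2
        rw [h1, map_one, one_mul, mul_one])
      refine ⟨F, hF1, ?_⟩
      have h1 := DFunLike.congr_fun hF2 (e (Multiplicative.ofAdd 1))
      refine h1.trans ?_
      change zpowersHom X y (e.symm (e (Multiplicative.ofAdd 1))) = y
      rw [MulEquiv.symm_apply_apply, zh_one]
    · intro X _ F F' h1 h2
      refine hs_uniq F F' h1 ?_
      ext p
      obtain ⟨n, rfl⟩ := vgen_zpow e p
      rw [map_zpow, map_zpow]
      exact congrArg (fun z => z ^ n) h2

theorem mem_hs_Iic {S : Set V} (hne : S.Nonempty) (x : N) (hx : x ∈ hs H S) :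
    ∃ u ∈ S, x ∈ hs H (Set.Iic u) := by
  obtain ⟨u₀, hu₀⟩ := hne
  induction hx using Subgroup.closure_induction with
  | mem x hx =>
    obtain ⟨v, hv, hxv⟩ := hx
    exact ⟨v, hv, mem_hs (Set.mem_Iic.2 le_rfl) hxv⟩
  | one => exact ⟨u₀, hu₀, one_mem _⟩
  | mul a b _ _ iha ihb =>
    obtain ⟨u, hu, hau⟩ := iha
    obtain ⟨w, hw, hbw⟩ := ihb
    rcases le_total u w with h | h
    · exact ⟨w, hw, mul_mem (hs_mono (Set.Iic_subset_Iic.2 h) hau) hbw⟩
    · exact ⟨u, hu, mul_mem hau (hs_mono (Set.Iic_subset_Iic.2 h) hbw)⟩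
  | inv a _ iha =>
    obtain ⟨u, hu, hau⟩ := iha
    exact ⟨u, hu, inv_mem hau⟩

/-- unions -/
theorem rg_union (hC : Closed C) {S : Set V} (hS : IsLowerSet S)
    (h : ∀ u ∈ S, C (MT _ (rg Λ α hα (isLowerSet_Iic u)))) : C (MT _ (rg Λ α hα hS)) := by
  rcases S.eq_empty_or_nonempty with rfl | hne
  · refine hC.of_injective _ (Multiplicative ℤ) (mtr _) ?_ hC.int
    intro a b hab
    have hbot : ∀ x : hs H (∅ : Set V), x = 1 := by
      intro x
      have h1 : MonoidHom.id (hs H (∅ : Set V)) = 1 := hs_ext fun u hu _ => absurd hu (by simp)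
      exact DFunLike.congr_fun h1 x
    exact SemidirectProduct.ext ((hbot _).trans (hbot _).symm) hab
  · haveI : Nonempty S := hne.to_subtype
    have hle : ∀ u : S, Set.Iic (u : V) ⊆ S := fun u w hw => hS (Set.mem_Iic.1 hw) u.2
    refine Pool.Agent.Y430.SS.of_directed hC _ S (fun i j => ⟨max i j, le_max_left i j,
      le_max_right i j⟩) (fun u => (mtm (rg Λ α hα (isLowerSet_Iic (u : V))) (rg Λ α hα hS)
        (Subgroup.inclusion (hs_mono (hle u))) (fun _ => rfl)).range) ?_ ?_ ?_
    · rintro u w huw _ ⟨x, rfl⟩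
      refine ⟨mtm (rg Λ α hα (isLowerSet_Iic (u : V))) (rg Λ α hα (isLowerSet_Iic (w : V)))
        (Subgroup.inclusion (hs_mono (Set.Iic_subset_Iic.2 huw))) (fun _ => rfl) x, ?_⟩
      exact SemidirectProduct.ext rfl rfl
    · intro g
      obtain ⟨u, hu, hgu⟩ := mem_hs_Iic hne g.left.1 g.left.2
      exact ⟨⟨u, hu⟩, ⟨⟨g.left.1, hgu⟩, g.right⟩, SemidirectProduct.ext rfl rfl⟩
    · intro u
      refine Pool.Agent.Y812.SS.C_equiv hC (MonoidHom.ofInjective (mtm_injective _ _ _ _
        (Subgroup.inclusion_injective _))).symm (h u u.2)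

theorem rg_all (hP : IsGP Λ H) (hC : Closed C) (hE : ExtClosed C) (v : V) :
    C (MT _ (rg Λ α hα (isLowerSet_Iic v))) := by
  induction v using WellFoundedLT.induction with
  | ind v ih =>
    have h1 := rg_step Λ α hα hP hC hE v
      (rg_union Λ α hα hC (isLowerSet_Iio v) (fun u hu => ih u hu))
    have h2 : ∀ (S : Set V) (hS : IsLowerSet S) (_ : insert v (Set.Iio v) = S),
        C (MT _ (rg Λ α hα hS)) := by
      rintro S hS rfl
      exact h1
    exact h2 _ _ (Set.Iio_insert)

include hα in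
/-- **Mapping tori of triangular automorphisms of graph products.** -/
theorem gtri_mem (hP : IsGP Λ H) (hC : Closed C) (hE : ExtClosed C) : C (MT N α) := by
  have h1 := rg_union Λ α hα hC isLowerSet_univ (fun u _ => rg_all Λ α hα hP hC hE u)
  have hu : ∀ x : N, x ∈ hs H (Set.univ : Set V) := fun x => by
    rw [hP.1]
    trivial
  refine hC.of_injective _ _ (mtm α (rg Λ α hα isLowerSet_univ)
    ((MonoidHom.id N).codRestrict (hs H (Set.univ : Set V)) hu) (fun _ => rfl)) ?_ h1
  refine mtm_injective _ _ _ _ ?_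
  intro a b hab
  exact congrArg Subtype.val hab

end fam

end Pool.Agent.Q105.FJ
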