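import Pool.Agent.Q105.FJ.OneSide

/-!
# Embeddings in verbally complete groups
-/

set_option autoImplicit false
set_option linter.unusedSectionVars false
set_option linter.style.haveILetI false

namespace Pool.Agent.Q105.FJ

open Monoid Pool.Agent.Y462.SS Pool.Agent.Q152.WP Pool.Agent.Q152.AM Pool.Agent.Q143.EI
  Pool.Agent.Q143.CY Pool.Agent.Q152.EM

variable {C : ∀ (G : Type) [Group G], Prop}

theorem coprod_tf {G H : Type} [Group G] [Group H] (hG : TF G) (hH : TF H) : TF (Coprod G H) := by
  let φ : ∀ b, PUnit →* B2 G H b := fun b => 1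
  have h1 : TF (PushoutI φ) := by
    refine tf_push (fun b x y _ => Subsingleton.elim _ _) ?_
    rintro (_ | _)
    · exact hG
    · exact hH
  obtain ⟨F, h2, h3⟩ := (amal_pushout φ).lift (Coprod G H) Coprod.inl Coprod.inr (fun h => by
    change Coprod.inl (1 : G) = Coprod.inr (1 : H)
    rw [map_one, map_one])
  let E : Coprod G H →* PushoutI φ :=
    Coprod.lift (PushoutI.of (φ := φ) false) (PushoutI.of (φ := φ) true)
  have hE1 : ∀ g, E (Coprod.inl g) = PushoutI.of (φ := φ) false g :=
    fun g => Coprod.lift_apply_inl _ _ g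
  have hE2 : ∀ g, E (Coprod.inr g) = PushoutI.of (φ := φ) true g :=
    fun g => Coprod.lift_apply_inr _ _ g
  have h4 : F.comp E = MonoidHom.id _ := by
    refine Coprod.hom_ext ?_ ?_
    · refine MonoidHom.ext fun g => ?_
      change F (E (Coprod.inl g)) = Coprod.inl g
      rw [hE1]
      exact h2 g
    · refine MonoidHom.ext fun g => ?_
      change F (E (Coprod.inr g)) = Coprod.inr g
      rw [hE2]
      exact h3 g
  exact TF.inj E (Function.LeftInverse.injective (g := F) (fun x => DFunLike.congr_fun h4 x)) h1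

theorem eq_lift {G B : Type} [Group G] [Group B] (w : G) (c : B) {T : Type} [Group T] (p : G →* T)
    (q : B →* T) (h : p w = q c) :
    ∃ F : EqG w c →* T, (∀ g, F (jG w c g) = p g) ∧ ∀ b, F (jB w c b) = q b := by
  have h1 : relN w c ≤ (Coprod.lift p q).ker := by
    refine Subgroup.normalClosure_le_normal ?_
    rintro _ rfl
    change Coprod.lift p q (Coprod.inl w * (Coprod.inr c)⁻¹) = 1
    rw [map_mul, map_inv, Coprod.lift_apply_inl, Coprod.lift_apply_inr, h, mul_inv_cancel]
  refine ⟨QuotientGroup.lift _ (Coprod.lift p q) (fun x hx => h1 hx), fun g => ?_, fun b => ?_⟩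
  · change Coprod.lift p q (Coprod.inl g) = _
    rw [Coprod.lift_apply_inl]
  · change Coprod.lift p q (Coprod.inr b) = _
    rw [Coprod.lift_apply_inr]

section star

variable {G : Type} [Group G] {ι : Type} (w : ι → G) (v : ι → FreeGroup ℕ)

/-- all generators -/
abbrev PG (G ι : Type) [Group G] : Type := Coprod G (FreeGroup (ι × ℕ))

/-- the word in the variables of index `i` -/
def vw (i : ι) : PG G ι := Coprod.inr (FreeGroup.map (fun n => (i, n)) (v i))

/-- the relator of index `i` -/
def rl (i : ι) : PG G ι := Coprod.inl (w i) * (vw v i)⁻¹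

/-- the relators with index in `J` -/
def RN (J : Set ι) : Subgroup (PG G ι) := Subgroup.normalClosure (rl w v '' J)

instance RN_normal (J : Set ι) : (RN w v J).Normal := Subgroup.normalClosure_normal

/-- the group defined by the relators with index in `J` -/
abbrev SG (J : Set ι) : Type := PG G ι ⧸ RN w v J

/-- the projection -/
def pj (J : Set ι) : PG G ι →* SG w v J := QuotientGroup.mk' _

/-- the homomorphism of `G` -/
def sG (J : Set ι) : G →* SG w v J := (pj w v J).comp Coprod.inl

theorem RN_mono {J K : Set ι} (h : J ⊆ K) : RN w v J ≤ RN w v K :=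
  Subgroup.normalClosure_mono (Set.image_mono h)

/-- the transition maps -/
def tr {J K : Set ι} (h : J ⊆ K) : SG w v J →* SG w v K :=
  QuotientGroup.map _ _ (MonoidHom.id _) (fun _ hx => RN_mono w v h hx)

theorem tr_pj {J K : Set ι} (h : J ⊆ K) (x : PG G ι) : tr w v h (pj w v J x) = pj w v K x := rfl

theorem tr_sG {J K : Set ι} (h : J ⊆ K) (x : G) : tr w v h (sG w v J x) = sG w v K x := rfl

theorem pj_surj (J : Set ι) : Function.Surjective (pj w v J) := QuotientGroup.mk'_surjective _

theorem pj_one {J : Set ι} {x : PG G ι} : pj w v J x = 1 ↔ x ∈ RN w v J :=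
  QuotientGroup.eq_one_iff x

theorem tr_id {J : Set ι} (h : J ⊆ J) (x : SG w v J) : tr w v h x = x := by
  obtain ⟨y, rfl⟩ := pj_surj w v J x
  exact tr_pj w v h y

theorem tr_tr {J K L : Set ι} (h : J ⊆ K) (h' : K ⊆ L) (h'' : J ⊆ L) (x : SG w v J) :
    tr w v h' (tr w v h x) = tr w v h'' x := by
  obtain ⟨y, rfl⟩ := pj_surj w v J x
  rw [tr_pj, tr_pj, tr_pj]

theorem pj_rel {J : Set ι} {i : ι} (hi : i ∈ J) : sG w v J (w i) = pj w v J (vw v i) := by
  have h1 : pj w v J (rl w v i) = 1 :=
    (pj_one w v).2 (Subgroup.subset_normalClosure ⟨i, hi, rfl⟩)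
  rw [rl, map_mul, map_inv, mul_inv_eq_one] at h1
  exact h1

open Classical in
/-- the homomorphism of the step -/
noncomputable def th (J : Set ι) (i : ι) : PG G ι →* EqG (sG w v J (w i)) (v i) :=
  Coprod.lift ((jG _ _).comp (sG w v J)) (FreeGroup.lift fun p =>
    if p.1 = i then jB _ _ (FreeGroup.of p.2) else jG _ _ (pj w v J (Coprod.inr (FreeGroup.of p))))

theorem th_inl (J : Set ι) (i : ι) (g : G) : th w v J i (Coprod.inl g) = jG _ _ (sG w v J g) := by
  rw [th, Coprod.lift_apply_inl]
  rfl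

theorem th_self (J : Set ι) (i : ι) (n : ℕ) :
    th w v J i (Coprod.inr (FreeGroup.of (i, n))) = jB _ _ (FreeGroup.of n) := by
  rw [th, Coprod.lift_apply_inr, FreeGroup.lift_apply_of, if_pos rfl]

theorem th_ne (J : Set ι) (i : ι) (p : ι × ℕ) (h : p.1 ≠ i) :
    th w v J i (Coprod.inr (FreeGroup.of p)) = jG _ _ (pj w v J (Coprod.inr (FreeGroup.of p))) := by
  rw [th, Coprod.lift_apply_inr, FreeGroup.lift_apply_of, if_neg h]

theorem th_vw (J : Set ι) (i : ι) : th w v J i (vw v i) = jB _ _ (v i) := by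
  have h1 : ((th w v J i).comp (Coprod.inr.comp (FreeGroup.map (fun n => (i, n))))) =
      jB (sG w v J (w i)) (v i) := by
    ext n
    change th w v J i (Coprod.inr (FreeGroup.map (fun n => (i, n)) (FreeGroup.of n))) = _
    rw [FreeGroup.map.of, th_self]
  exact DFunLike.congr_fun h1 (v i)

theorem th_vw_ne (J : Set ι) (i j : ι) (h : j ≠ i) :
    th w v J i (vw v j) = jG _ _ (pj w v J (vw v j)) := by
  have h1 : ((th w v J i).comp (Coprod.inr.comp (FreeGroup.map (fun n => (j, n))))) =
      (jG (sG w v J (w i)) (v i)).comp ((pj w v J).comp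
        (Coprod.inr.comp (FreeGroup.map (fun n => (j, n))))) := by
    ext n
    change th w v J i (Coprod.inr (FreeGroup.map (fun n => (j, n)) (FreeGroup.of n))) =
      jG _ _ (pj w v J (Coprod.inr (FreeGroup.map (fun n => (j, n)) (FreeGroup.of n))))
    rw [FreeGroup.map.of, th_ne w v J i _ h]
  exact DFunLike.congr_fun h1 (v j)

theorem th_ker (J : Set ι) (i : ι) : RN w v (insert i J) ≤ (th w v J i).ker := by
  refine Subgroup.normalClosure_le_normal ?_
  rintro _ ⟨j, hj, rfl⟩
  change th w v J i (Coprod.inl (w j) * (vw v j)⁻¹) = 1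
  rw [map_mul, map_inv, th_inl, mul_inv_eq_one]
  by_cases h : j = i
  · subst h
    rw [th_vw, j_eq]
  · rw [th_vw_ne w v J i j h]
    rcases hj with hj | hj
    · exact absurd hj h
    · rw [pj_rel w v hj]

/-- the induced homomorphism -/
noncomputable def thq (J : Set ι) (i : ι) : SG w v (insert i J) →* EqG (sG w v J (w i)) (v i) :=
  QuotientGroup.lift _ (th w v J i) (fun x hx => th_ker w v J i hx)

theorem thq_injective (J : Set ι) (i : ι) : Function.Injective (thq w v J i) := by
  let q : FreeGroup ℕ →* SG w v (insert i J) :=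
    (pj w v (insert i J)).comp (Coprod.inr.comp (FreeGroup.map (fun n => (i, n))))
  obtain ⟨F, h1, h2⟩ := eq_lift (sG w v J (w i)) (v i) (tr w v (Set.subset_insert i J)) q
    (pj_rel w v (Set.mem_insert i J))
  have h3 : (F.comp (thq w v J i)).comp (pj w v (insert i J)) = pj w v (insert i J) := by
    refine Coprod.hom_ext ?_ ?_
    · ext g
      change F (th w v J i (Coprod.inl g)) = pj w v (insert i J) (Coprod.inl g)
      rw [th_inl, h1]
      rfl
    · ext p
      change F (th w v J i (Coprod.inr (FreeGroup.of p))) =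
        pj w v (insert i J) (Coprod.inr (FreeGroup.of p))
      by_cases h : p.1 = i
      · obtain ⟨p1, p2⟩ := p
        change p1 = i at h
        subst h
        rw [th_self, h2]
        change pj w v _ (Coprod.inr (FreeGroup.map (fun n => (p1, n)) (FreeGroup.of p2))) = _
        rw [FreeGroup.map.of]
      · rw [th_ne w v J i p h, h1]
        rfl
  refine Function.LeftInverse.injective (g := F) (fun x => ?_)
  obtain ⟨y, rfl⟩ := QuotientGroup.mk'_surjective _ x
  exact DFunLike.congr_fun h3 y

/-- the properties -/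
def GoodSG (J : Set ι) : Prop :=
  Function.Injective (sG w v J) ∧ TF (SG w v J) ∧
    ∀ C : ∀ (G : Type) [Group G], Prop, Closed C → ExtClosed C → C G → C (SG w v J)

variable (hG : TF G) (hw : ∀ i, w i ≠ 1) (hv : ∀ i, v i ≠ 1)

include hG in
theorem good_empty : GoodSG w v ∅ := by
  have h1 : RN w v ∅ ≤ (MonoidHom.id (PG G ι)).ker := by
    refine Subgroup.normalClosure_le_normal ?_
    rintro _ ⟨j, hj, rfl⟩
    exact absurd hj (Set.notMem_empty j)
  let F : SG w v ∅ →* PG G ι := QuotientGroup.lift _ (MonoidHom.id _) (fun x hx => h1 hx)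
  have hF : Function.Injective F := by
    refine Function.LeftInverse.injective (g := pj w v ∅) (fun x => ?_)
    obtain ⟨y, rfl⟩ := QuotientGroup.mk'_surjective _ x
    rfl
  refine ⟨?_, TF.inj F hF (coprod_tf hG (TF.free _)), fun C hC hE h => hC.of_injective _ _ F hF
    (hC.coprod _ _ h (Pool.Agent.Y179.SS.t_free C hC _))⟩
  intro x y hxy
  have h2 : F (sG w v ∅ x) = F (sG w v ∅ y) := congrArg F hxy
  exact Coprod.inl_injective h2

theorem tf_inf {G : Type} [Group G] (hG : TF G) {g : G} (hg : g ≠ 1) : ¬ IsOfFinOrder g :=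
  fun h => hg (hG g h)

include hw hv in
theorem good_insert (J : Set ι) (i : ι) (h : GoodSG w v J) : GoodSG w v (insert i J) := by
  obtain ⟨h1, h2, h3⟩ := h
  have hwi : ¬ IsOfFinOrder (sG w v J (w i)) := by
    refine tf_inf h2 (fun h => hw i ?_)
    exact h1 (h.trans (map_one _).symm)
  have hvi : ¬ IsOfFinOrder (v i) := tf_inf (TF.free ℕ) (hv i)
  refine ⟨?_, TF.inj _ (thq_injective w v J i) (eqG_tf hwi hvi h2 (TF.free ℕ)), ?_⟩
  · intro x y hxy
    have h4 : ∀ g, thq w v J i (sG w v (insert i J) g) = jG _ _ (sG w v J g) := th_inl w v J i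
    refine h1 (jG_injective hwi hvi ?_)
    rw [← h4, ← h4, hxy]
  · intro C hC hE hCG
    exact hC.of_injective _ _ _ (thq_injective w v J i) (eqG_mem hC hE hwi (h3 C hC hE hCG)
      (Pool.Agent.Y179.SS.t_free C hC ℕ) (det_free hC hE (v i) (hv i)))

include hG hw hv in
theorem good_fin (J : Finset ι) : GoodSG w v (J : Set ι) := by
  classical
  induction J using Finset.induction_on with
  | empty =>
    rw [Finset.coe_empty]
    exact good_empty w v hG
  | insert i J _ ih =>
    rw [Finset.coe_insert]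
    exact good_insert w v hw hv J i ih

theorem mem_RN (x : PG G ι) (hx : x ∈ RN w v Set.univ) : ∃ J : Finset ι, x ∈ RN w v (J : Set ι) := by
  classical
  have hdir : Directed (· ≤ ·) (fun J : Finset ι => RN w v (J : Set ι)) := by
    intro J K
    exact ⟨J ∪ K, RN_mono w v (Finset.coe_subset.2 Finset.subset_union_left),
      RN_mono w v (Finset.coe_subset.2 Finset.subset_union_right)⟩
  have hmem : ∀ y, y ∈ (⨆ J : Finset ι, RN w v (J : Set ι)) ↔ ∃ J : Finset ι,
      y ∈ RN w v (J : Set ι) := fun y => Subgroup.mem_iSup_of_directed hdir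
  have hn : (⨆ J : Finset ι, RN w v (J : Set ι)).Normal := by
    refine ⟨fun y hy g => ?_⟩
    rw [hmem] at hy ⊢
    obtain ⟨J, hJ⟩ := hy
    exact ⟨J, (RN_normal w v _).conj_mem y hJ g⟩
  rw [← hmem]
  have h1 : RN w v Set.univ ≤ ⨆ J : Finset ι, RN w v (J : Set ι) := by
    refine Subgroup.normalClosure_le_normal ?_
    rintro _ ⟨j, _, rfl⟩
    change rl w v j ∈ (⨆ J : Finset ι, RN w v (J : Set ι))
    rw [hmem]
    exact ⟨{j}, Subgroup.subset_normalClosure ⟨j, by simp, rfl⟩⟩
  exact h1 hx

theorem tr_one (J : Finset ι) (x : SG w v (J : Set ι)) (hx : tr w v (Set.subset_univ _) x = 1) :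
    ∃ (K : Finset ι) (h : (J : Set ι) ⊆ (K : Set ι)), tr w v h x = 1 := by
  classical
  obtain ⟨y, rfl⟩ := pj_surj w v _ x
  rw [tr_pj, pj_one] at hx
  obtain ⟨K, hK⟩ := mem_RN w v y hx
  refine ⟨J ∪ K, Finset.coe_subset.2 Finset.subset_union_left, ?_⟩
  rw [tr_pj, pj_one]
  exact RN_mono w v (Finset.coe_subset.2 Finset.subset_union_right) hK

include hG hw hv in
theorem univ_inj : Function.Injective (sG w v Set.univ) := by
  refine (injective_iff_map_eq_one _).2 (fun g hg => ?_)
  rw [← tr_sG w v (Set.subset_univ ((∅ : Finset ι) : Set ι))] at hg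
  obtain ⟨K, h, hK⟩ := tr_one w v ∅ (sG w v _ g) hg
  rw [tr_sG] at hK
  exact (good_fin w v hG hw hv K).1 (hK.trans (map_one _).symm)

include hG hw hv in
theorem univ_tf : TF (SG w v Set.univ) := by
  intro x hx
  obtain ⟨y, rfl⟩ := pj_surj w v _ x
  obtain ⟨n, hn, hxn⟩ := isOfFinOrder_iff_pow_eq_one.1 hx
  rw [← tr_pj w v (Set.subset_univ ((∅ : Finset ι) : Set ι)), ← map_pow] at hxn
  obtain ⟨K, h, hK⟩ := tr_one w v ∅ _ hxn
  rw [map_pow, tr_pj] at hK
  have h1 := (good_fin w v hG hw hv K).2.1 _ (isOfFinOrder_iff_pow_eq_one.2 ⟨n, hn, hK⟩)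
  have h2 := congrArg (tr w v (Set.subset_univ (K : Set ι))) h1
  rw [map_one, tr_pj] at h2
  exact h2

include hG hw hv in
theorem univ_mem (C : ∀ (G : Type) [Group G], Prop) (hC : Closed C) (hE : ExtClosed C)
    (hCG : C G) : C (SG w v Set.univ) := by
  classical
  refine hC.colim (Finset ι) (fun i j => ⟨i ∪ j, Finset.subset_union_left,
    Finset.subset_union_right⟩) (fun J => SG w v (J : Set ι))
    (fun J K h => tr w v (Finset.coe_subset.2 h)) (SG w v Set.univ)
    (fun J => tr w v (Set.subset_univ _)) (fun J _ x => tr_id w v _ x)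
    (fun J K L _ _ x => tr_tr w v _ _ _ x) (fun J K _ x => tr_tr w v _ _ _ x) ?_ ?_
    (fun J => (good_fin w v hG hw hv J).2.2 C hC hE hCG)
  · intro x
    obtain ⟨y, rfl⟩ := pj_surj w v _ x
    exact ⟨∅, pj w v _ y, tr_pj w v _ y⟩
  · intro J x hx
    obtain ⟨K, h, hK⟩ := tr_one w v J x hx
    exact ⟨K, Finset.coe_subset.1 h, hK⟩

include hG hw hv in
theorem good_univ : GoodSG w v Set.univ :=
  ⟨univ_inj w v hG hw hv, univ_tf w v hG hw hv, fun C hC hE h => univ_mem w v hG hw hv C hC hE h⟩

theorem solves (i : ι) : FreeGroup.lift (fun n => pj w v Set.univ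
    (Coprod.inr (FreeGroup.of (i, n)))) (v i) = sG w v Set.univ (w i) := by
  rw [pj_rel w v (Set.mem_univ i)]
  have h1 : FreeGroup.lift (fun n => pj w v Set.univ (Coprod.inr (FreeGroup.of (i, n)))) =
      (pj w v Set.univ).comp (Coprod.inr.comp (FreeGroup.map (fun n => (i, n)))) := by
    ext n
    rw [FreeGroup.lift_apply_of]
    change _ = pj w v Set.univ (Coprod.inr (FreeGroup.map (fun n => (i, n)) (FreeGroup.of n)))
    rw [FreeGroup.map.of]
  exact DFunLike.congr_fun h1 (v i)

theorem sg_countable [Countable G] [Countable ι] (J : Set ι) : Countable (SG w v J) := by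
  classical
  have h1 : Countable (FreeGroup (ι × ℕ)) :=
    Function.Surjective.countable (f := fun L : List ((ι × ℕ) × Bool) => FreeGroup.mk L)
      (fun x => ⟨x.toWord, FreeGroup.mk_toWord⟩)
  have h2 : Countable (PG G ι) := by
    have h3 : Function.Surjective (fun L : FreeMonoid (G ⊕ FreeGroup (ι × ℕ)) =>
        (Coprod.mk L : PG G ι)) := Coprod.mk_surjective
    have h4 : Countable (FreeMonoid (G ⊕ FreeGroup (ι × ℕ))) :=
      inferInstanceAs (Countable (List (G ⊕ FreeGroup (ι × ℕ))))
    exact h3.countable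
  exact (QuotientGroup.mk'_surjective (RN w v J)).countable

end star

/-- torsion-free groups -/
structure TG : Type 1 where
  /-- the underlying type -/
  T : Type
  /-- the group structure -/
  g : Group T
  /-- the group is torsion-free -/
  tf : @TF T g

instance TG.grp (A : TG) : Group A.T := A.g

/-- solutions of all equations with constants in `G` -/
theorem vc_step (A : TG) : ∃ (B : TG) (j : A.T →* B.T), Function.Injective j ∧
    (∀ C : ∀ (G : Type) [Group G], Prop, Closed C → ExtClosed C → C A.T → C B.T) ∧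
    (Countable A.T → Countable B.T) ∧
    ∀ (a : A.T) (u : FreeGroup ℕ), u ≠ 1 → ∃ f : ℕ → B.T, FreeGroup.lift f u = j a := by
  let ι : Type := {a : A.T // a ≠ 1} × {u : FreeGroup ℕ // u ≠ 1}
  let w : ι → A.T := fun i => i.1.1
  let v : ι → FreeGroup ℕ := fun i => i.2.1
  have hg := good_univ w v A.tf (fun i => i.1.2) (fun i => i.2.2)
  refine ⟨⟨SG w v Set.univ, inferInstance, hg.2.1⟩, sG w v Set.univ, hg.1, hg.2.2, ?_, ?_⟩
  · intro hA
    have h1 : Countable (FreeGroup ℕ) :=
      Function.Surjective.countable (f := fun L : List (ℕ × Bool) => FreeGroup.mk L)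
        (fun x => ⟨x.toWord, FreeGroup.mk_toWord⟩)
    have h2 : Countable ι := by
      haveI := hA
      exact inferInstanceAs (Countable ({a : A.T // a ≠ 1} × {u : FreeGroup ℕ // u ≠ 1}))
    exact sg_countable w v Set.univ
  · intro a u hu
    by_cases ha : a = 1
    · subst ha
      refine ⟨fun _ => 1, ?_⟩
      rw [map_one]
      have h1 : FreeGroup.lift (fun _ : ℕ => (1 : SG w v Set.univ)) = 1 := by
        ext n
        rw [FreeGroup.lift_apply_of, MonoidHom.one_apply]
      exact DFunLike.congr_fun h1 u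
    · exact ⟨_, solves w v (⟨a, ha⟩, ⟨u, hu⟩)⟩

/-- the successor -/
noncomputable def nx (A : TG) : TG := (vc_step A).choose

/-- the embedding -/
noncomputable def nj (A : TG) : A.T →* (nx A).T := (vc_step A).choose_spec.choose

theorem nj_spec (A : TG) : Function.Injective (nj A) ∧
    (∀ C : ∀ (G : Type) [Group G], Prop, Closed C → ExtClosed C → C A.T → C (nx A).T) ∧
    (Countable A.T → Countable (nx A).T) ∧
    ∀ (a : A.T) (u : FreeGroup ℕ), u ≠ 1 → ∃ f : ℕ → (nx A).T, FreeGroup.lift f u = nj A a :=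
  (vc_step A).choose_spec.choose_spec

/-- the sequence -/
noncomputable def sq (A : TG) : ℕ → TG
  | 0 => A
  | k + 1 => nx (sq A k)

/-- **Embedding in verbally complete groups.** -/
theorem vc_embed (G : Type) [hGr : Group G] (hG : TF G) : ∃ (D : Type) (_ : Group D) (k : G →* D),
    Function.Injective k ∧
    (∀ (u : FreeGroup ℕ) (d : D), u ≠ 1 → ∃ f : ℕ → D, FreeGroup.lift f u = d) ∧
    (∀ C : ∀ (G : Type) [Group G], Prop, Closed C → ExtClosed C → C G → C D) ∧
    TF D ∧ (Countable G → Countable D) := by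
  let A : TG := ⟨G, hGr, hG⟩
  obtain ⟨L, hL, g, hg, hgf, hgs⟩ := exists_union (fun n => (sq A n).T) (fun n => nj (sq A n))
    (fun n => (nj_spec (sq A n)).1)
  refine ⟨L, hL, g 0, hg 0, ?_, ?_, ?_, ?_⟩
  · intro u d hu
    obtain ⟨m, x, rfl⟩ := hgs d
    obtain ⟨f, hf⟩ := (nj_spec (sq A m)).2.2.2 x u hu
    refine ⟨fun n => g (m + 1) (f n), ?_⟩
    have h1 : FreeGroup.lift (fun n => g (m + 1) (f n)) = (g (m + 1)).comp (FreeGroup.lift f) := by
      refine FreeGroup.ext_hom _ _ (fun n => ?_)
      exact FreeGroup.lift_apply_of.trans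
        (congrArg (g (m + 1)) (FreeGroup.lift_apply_of (f := f) (x := n))).symm
    rw [h1, ← hgf]
    exact congrArg (g (m + 1)) hf
  · intro C hC hE hCG
    refine union_mem hC (fun n => (sq A n).T) (fun n => nj (sq A n)) L g hg hgf hgs ?_
    intro n
    induction n with
    | zero => exact hCG
    | succ n ih => exact (nj_spec (sq A n)).2.1 C hC hE ih
  · intro u hu
    obtain ⟨n, x, rfl⟩ := hgs u
    have hx : IsOfFinOrder x := by
      rw [isOfFinOrder_iff_pow_eq_one] at hu ⊢
      obtain ⟨m, hm, hm'⟩ := hu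
      refine ⟨m, hm, hg n ?_⟩
      rw [map_pow, hm', map_one]
    rw [(sq A n).tf x hx, map_one]
  · intro hc
    have hT : ∀ n, Countable (sq A n).T := by
      intro n
      induction n with
      | zero => exact hc
      | succ n ih => exact (nj_spec (sq A n)).2.2.1 ih
    have h1 : Function.Surjective (fun p : Σ n, (sq A n).T => g p.1 p.2) := by
      intro y
      obtain ⟨n, x, hx⟩ := hgs y
      exact ⟨⟨n, x⟩, hx⟩
    exact h1.countable

end Pool.Agent.Q105.FJ
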