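import Pool.Agent.Q105.FJ.GraphMem
import Pool.Agent.Q105.FJ.Quot

/-!
# Graph wreath products
-/

set_option autoImplicit false
set_option linter.unusedSectionVars false
set_option linter.style.haveILetI false

namespace Pool.Agent.Q105.FJ

open Pool.Agent.Y462.SS Pool.Agent.Q152.WP Pool.Agent.H26R2.Idem

variable {C : ∀ (G : Type) [Group G], Prop}

/-- a criterion -/
theorem Ext.of_inj {G : Type} [Group G] {τ : G} (p : Pair τ) {N A' Q : Type} [Group N] [Group A']
    [Group Q] (ι : N →* G) (hι : Function.Injective ι) (hr : ι.range = p.F) (α β : A' →* N)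
    (hα : ∀ a ∈ p.A, ∃ a', ι (α a') = a) (hβ : ∀ a', ι (β a') = τ * ι (α a') * τ⁻¹)
    (f : N →* Q) (hf : Function.Injective f) (x : Q) (hx : ∀ a', x * f (α a') = f (β a') * x)
    (hQ : C Q) : Ext C p := by
  let e : N ≃* p.F := (MonoidHom.ofInjective hι).trans (MulEquiv.subgroupCongr hr)
  have he : ∀ n, ((e n : p.F) : G) = ι n := fun n => rfl
  refine ⟨Q, inferInstance, f.comp e.symm.toMonoidHom, x, hQ, ?_, ?_⟩
  · exact hf.comp e.symm.injective
  · intro a ha
    obtain ⟨a', ha'⟩ := hα a ha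
    have h1 : e.symm ⟨a, p.hA a ha⟩ = α a' := by
      rw [MulEquiv.symm_apply_eq]
      apply Subtype.ext
      rw [he, ha']
    have h2 : e.symm ⟨τ * a * τ⁻¹, p.hB a ha⟩ = β a' := by
      rw [MulEquiv.symm_apply_eq]
      apply Subtype.ext
      rw [he, hβ, ha']
    change x * f (e.symm ⟨a, p.hA a ha⟩) = f (e.symm ⟨τ * a * τ⁻¹, p.hB a ha⟩) * x
    rw [h1, h2, hx]

/-- the kernel of the projection of a semidirect product -/
theorem ker_right (hC : Closed C) {N H : Type} [Group N] [Group H] {φ : H →* MulAut N}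
    (hN : C N) : C (SemidirectProduct.rightHom : N ⋊[φ] H →* H).ker := by
  refine hC.of_injective _ N
    { toFun := fun g => g.1.left
      map_one' := rfl
      map_mul' := fun a b => ?_ } ?_ hN
  · have ha : a.1.right = 1 := a.2
    change a.1.left * φ a.1.right b.1.left = a.1.left * b.1.left
    rw [ha, map_one]
    rfl
  · intro a b hab
    apply Subtype.ext
    have ha : a.1.right = 1 := a.2
    have hb : b.1.right = 1 := b.2
    exact SemidirectProduct.ext hab (ha.trans hb.symm)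

/-- semidirect products with finite groups -/
theorem semi_fin (hC : Closed C) {N H : Type} [Group N] [Group H] [Finite H] {φ : H →* MulAut N}
    (hN : C N) : C (N ⋊[φ] H) :=
  hC.finiteIndex _ (SemidirectProduct.rightHom : N ⋊[φ] H →* H).ker
    (Subgroup.finiteIndex_ker _) (ker_right hC hN)

variable {V H : Type} [Group H] [MulAction H V] (Λ : SimpleGraph V) (P : Type) [Group P]
  (hΛ : ∀ (h : H) (v w : V), Λ.Adj v w → Λ.Adj (h • v) (h • w))

/-- the graph wreath product -/
abbrev GW : Type := GP Λ P ⋊[GP.aut Λ P hΛ] H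

theorem par_mono {S T : Finset V} (h : S ⊆ T) : par Λ P S ≤ par Λ P T := by
  rintro _ ⟨x, rfl⟩
  refine ⟨GP.map (fun v => ⟨v.1, h v.2⟩) (fun _ _ h => h) x, ?_⟩
  rw [GP.map_map]
  rfl

/-- the vertices which are mapped to `S` -/
noncomputable def cap (q : H) (S : Finset V) : Finset V := by
  classical
  exact S.filter (fun v => q • v ∈ S)

theorem mem_cap (q : H) (S : Finset V) (v : V) : v ∈ cap q S ↔ v ∈ S ∧ q • v ∈ S := by
  classical
  unfold cap
  rw [Finset.mem_filter]

/-- the inclusion -/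
noncomputable def capA (q : H) (S : Finset V) :
    GP (Λ.comap (Subtype.val : cap q S → V)) P →* GP (Λ.comap (Subtype.val : S → V)) P :=
  GP.map (fun v => ⟨v.1, ((mem_cap q S v.1).1 v.2).1⟩) (fun _ _ h => h)

/-- the translation -/
noncomputable def capB (q : H) (S : Finset V) :
    GP (Λ.comap (Subtype.val : cap q S → V)) P →* GP (Λ.comap (Subtype.val : S → V)) P :=
  GP.map (fun v => ⟨q • v.1, ((mem_cap q S v.1).1 v.2).2⟩) (fun v w h => hΛ q v.1 w.1 h)

/-- the inclusion of the finite subgraph -/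
noncomputable def inc (S : Finset V) : GP (Λ.comap (Subtype.val : S → V)) P →* GP Λ P :=
  GP.map Subtype.val (fun _ _ h => h)

theorem inc_injective (S : Finset V) : Function.Injective (inc Λ P S) :=
  GP.map_injective _ Subtype.val_injective (fun _ _ h => h) _

theorem inc_capA (q : H) (S : Finset V) (x : GP (Λ.comap (Subtype.val : cap q S → V)) P) :
    inc Λ P S (capA Λ P q S x) = inc Λ P (cap q S) x :=
  GP.map_map (Λ := Λ.comap (Subtype.val : cap q S → V)) (Λ' := Λ.comap (Subtype.val : S → V))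
    (Λ'' := Λ) (fun v => ⟨v.1, ((mem_cap q S v.1).1 v.2).1⟩) (fun _ _ h => h) Subtype.val
    (fun _ _ h => h) x

theorem inc_capB (q : H) (S : Finset V) (x : GP (Λ.comap (Subtype.val : cap q S → V)) P) :
    inc Λ P S (capB Λ P hΛ q S x) = GP.aut Λ P hΛ q (inc Λ P (cap q S) x) := by
  have e1 := GP.map_map (P := P) (Λ := Λ.comap (Subtype.val : cap q S → V))
    (Λ' := Λ.comap (Subtype.val : S → V)) (Λ'' := Λ)
    (fun v => ⟨q • v.1, ((mem_cap q S v.1).1 v.2).2⟩) (fun v w h => hΛ q v.1 w.1 h)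
    Subtype.val (fun _ _ h => h) x
  have e2 := GP.map_map (P := P) (Λ := Λ.comap (Subtype.val : cap q S → V)) (Λ' := Λ) (Λ'' := Λ)
    Subtype.val (fun _ _ h => h) (fun v => q • v) (hΛ q) x
  exact e1.trans e2.symm

/-- the homomorphism of the finite graph product to the graph wreath product -/
noncomputable def iota (S : Finset V) :
    GP (Λ.comap (Subtype.val : S → V)) P →* GW Λ P hΛ :=
  (SemidirectProduct.inl : GP Λ P →* GW Λ P hΛ).comp (inc Λ P S)

theorem iota_injective (S : Finset V) : Function.Injective (iota Λ P hΛ S) :=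
  SemidirectProduct.inl_injective.comp (inc_injective Λ P S)

theorem conj_inl (q : H) (z : GP Λ P) :
    (SemidirectProduct.inr q * SemidirectProduct.inl z * (SemidirectProduct.inr q)⁻¹ :
      GW Λ P hΛ) = SemidirectProduct.inl (GP.aut Λ P hΛ q z) := by
  rw [SemidirectProduct.inl_aut, map_inv]

/-- the pairs of subgroups -/
noncomputable def pr (q : H) (S : Finset V) :
    Pair (SemidirectProduct.inr q : GW Λ P hΛ) where
  A := ((iota Λ P hΛ S).comp (capA Λ P q S)).range
  F := (iota Λ P hΛ S).range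
  hA := by
    rintro _ ⟨x, rfl⟩
    exact ⟨_, rfl⟩
  hB := by
    rintro _ ⟨x, rfl⟩
    refine ⟨capB Λ P hΛ q S x, ?_⟩
    change SemidirectProduct.inl (inc Λ P S (capB Λ P hΛ q S x)) =
      SemidirectProduct.inr q * SemidirectProduct.inl (inc Λ P S (capA Λ P q S x)) *
        (SemidirectProduct.inr q)⁻¹
    rw [conj_inl, inc_capA, inc_capB]

theorem pr_mono (q : H) {S T : Finset V} (h : S ⊆ T) : pr Λ P hΛ q S ≤ pr Λ P hΛ q T := by
  constructor
  · rintro _ ⟨x, rfl⟩
    have hm : ∀ v : cap q S, v.1 ∈ cap q T := fun v =>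
      (mem_cap q T v.1).2 ⟨h ((mem_cap q S v.1).1 v.2).1, h ((mem_cap q S v.1).1 v.2).2⟩
    refine ⟨GP.map (Λ := Λ.comap (Subtype.val : cap q S → V))
      (Λ' := Λ.comap (Subtype.val : cap q T → V)) (fun v => ⟨v.1, hm v⟩) (fun _ _ h => h) x, ?_⟩
    change SemidirectProduct.inl (inc Λ P T (capA Λ P q T _)) =
      SemidirectProduct.inl (inc Λ P S (capA Λ P q S x))
    rw [inc_capA, inc_capA]
    congr 1
    exact GP.map_map (Λ := Λ.comap (Subtype.val : cap q S → V))
      (Λ' := Λ.comap (Subtype.val : cap q T → V)) (Λ'' := Λ) (fun v => ⟨v.1, hm v⟩)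
      (fun _ _ h => h) Subtype.val (fun _ _ h => h) x
  · rintro _ ⟨x, rfl⟩
    refine ⟨GP.map (Λ := Λ.comap (Subtype.val : S → V))
      (Λ' := Λ.comap (Subtype.val : T → V)) (fun v => ⟨v.1, h v.2⟩) (fun _ _ h => h) x, ?_⟩
    change SemidirectProduct.inl (inc Λ P T _) = SemidirectProduct.inl (inc Λ P S x)
    congr 1
    exact GP.map_map (Λ := Λ.comap (Subtype.val : S → V))
      (Λ' := Λ.comap (Subtype.val : T → V)) (Λ'' := Λ) (fun v => ⟨v.1, h v.2⟩)
      (fun _ _ h => h) Subtype.val (fun _ _ h => h) x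

theorem pr_dir (q : H) : Dir (SemidirectProduct.rightHom : GW Λ P hΛ →* H).ker
    (Set.range (pr Λ P hΛ q)) := by
  classical
  refine ⟨⟨_, ⟨∅, rfl⟩⟩, ?_, ?_, ?_⟩
  · rintro _ ⟨S, rfl⟩ _ ⟨x, rfl⟩
    rw [MonoidHom.mem_ker]
    change SemidirectProduct.rightHom (SemidirectProduct.inl (inc Λ P S x) : GW Λ P hΛ) = 1
    exact SemidirectProduct.rightHom_inl _
  · rintro _ ⟨S, rfl⟩ _ ⟨T, rfl⟩
    exact ⟨_, ⟨S ∪ T, rfl⟩, pr_mono Λ P hΛ q Finset.subset_union_left,
      pr_mono Λ P hΛ q Finset.subset_union_right⟩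
  · intro x hx
    have hx' : x.right = 1 := hx
    obtain ⟨S, hS⟩ := GP.exists_fin x.left
    let T : Finset V := S ∪ S.image (fun v => q • v)
    have hT : S ⊆ cap q T := by
      intro v hv
      rw [mem_cap]
      exact ⟨Finset.mem_union_left _ hv,
        Finset.mem_union_right _ (Finset.mem_image_of_mem _ hv)⟩
    obtain ⟨y, hy⟩ := hS (cap q T) hT
    refine ⟨_, ⟨T, rfl⟩, y, ?_⟩
    change SemidirectProduct.inl (inc Λ P T (capA Λ P q T y)) = x
    rw [inc_capA]
    refine SemidirectProduct.ext ?_ ?_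
    · exact hy
    · exact hx'.symm

/-- the partial automorphisms extend -/
theorem pr_ext (hC : Closed C) (hE : ExtClosed C) (hP : C P) (q : H) (S : Finset V) :
    Ext C (pr Λ P hΛ q S) := by
  obtain ⟨X, Γ, ρ, j, hρ, hΓ, hΓr, hj, hji, hja, hjf⟩ := exists_quot Λ (MulAction.toPerm q) (hΛ q)
    (by
      intro v w h
      have h1 := hΛ q⁻¹ _ _ h
      change Λ.Adj (q⁻¹ • q • v) (q⁻¹ • q • w) at h1
      rwa [inv_smul_smul, inv_smul_smul] at h1) S
  have hΓ' : ∀ (h : Subgroup.zpowers ρ) (v w : X), Γ.Adj v w → Γ.Adj (h • v) (h • w) := by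
    have h0 : ∀ (n : ℤ) (v w : X), Γ.Adj v w → Γ.Adj ((ρ ^ n) v) ((ρ ^ n) w) := by
      intro n
      induction n using Int.induction_on with
      | zero => exact fun v w h => h
      | succ n ih =>
        intro v w h
        rw [zpow_add_one]
        exact ih _ _ (hΓ _ _ h)
      | pred n ih =>
        intro v w h
        rw [zpow_sub_one]
        refine ih _ _ (hΓr _ _ ?_)
        have e1 : ρ (ρ⁻¹ v) = v := ρ.apply_symm_apply v
        have e2 : ρ (ρ⁻¹ w) = w := ρ.apply_symm_apply w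
        rw [e1, e2]
        exact h
    rintro ⟨h, n, rfl⟩ v w hvw
    exact h0 n v w hvw
  haveI : Finite (Subgroup.zpowers ρ) := finite_zpowers.2 hρ
  let ρ' : Subgroup.zpowers ρ := ⟨ρ, Subgroup.mem_zpowers ρ⟩
  have hjm : ∀ v w : S, (Λ.comap (Subtype.val : S → V)).Adj v w → Γ.Adj (j v.1) (j w.1) :=
    fun v w h => hja v.1 v.2 w.1 w.2 h
  refine Ext.of_inj (pr Λ P hΛ q S) (Q := GP Γ P ⋊[GP.aut Γ P hΓ'] Subgroup.zpowers ρ)
    (iota Λ P hΛ S) (iota_injective Λ P hΛ S) rfl (capA Λ P q S) (capB Λ P hΛ q S) ?_ ?_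
    ((SemidirectProduct.inl : GP Γ P →* GP Γ P ⋊[GP.aut Γ P hΓ'] Subgroup.zpowers ρ).comp
      (GP.map (Λ := Λ.comap (Subtype.val : S → V)) (fun v : S => j v.1) hjm)) ?_
    (SemidirectProduct.inr ρ') ?_
    (semi_fin hC (gp_mem hC hE P hP X Γ))
  · rintro _ ⟨x, rfl⟩
    exact ⟨x, rfl⟩
  · intro x
    change SemidirectProduct.inl (inc Λ P S (capB Λ P hΛ q S x)) =
      SemidirectProduct.inr q * SemidirectProduct.inl (inc Λ P S (capA Λ P q S x)) *
        (SemidirectProduct.inr q)⁻¹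
    rw [conj_inl, inc_capA, inc_capB]
  · refine SemidirectProduct.inl_injective.comp (GP.map_injective _ ?_ ?_ hjm)
    · intro v w h
      exact Subtype.ext (hji v.1 v.2 w.1 w.2 h)
    · intro v w h
      exact hjf v.1 v.2 w.1 w.2 h
  · intro x
    have h1 : ∀ z : GP Γ P, (SemidirectProduct.inr ρ' * SemidirectProduct.inl z :
        GP Γ P ⋊[GP.aut Γ P hΓ'] Subgroup.zpowers ρ) =
        SemidirectProduct.inl (GP.aut Γ P hΓ' ρ' z) * SemidirectProduct.inr ρ' := by
      intro z
      rw [SemidirectProduct.inl_aut, map_inv, inv_mul_cancel_right]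
    change SemidirectProduct.inr ρ' *
      SemidirectProduct.inl (GP.map (fun v : S => j v.1) hjm (capA Λ P q S x)) =
      SemidirectProduct.inl (GP.map (fun v : S => j v.1) hjm (capB Λ P hΛ q S x)) *
        SemidirectProduct.inr ρ'
    rw [h1]
    congr 2
    rw [GP.aut_apply]
    have e1 := GP.map_map (P := P) (Λ := Λ.comap (Subtype.val : cap q S → V))
      (Λ' := Λ.comap (Subtype.val : S → V)) (Λ'' := Γ)
      (fun v => ⟨v.1, ((mem_cap q S v.1).1 v.2).1⟩) (fun _ _ h => h) (fun v : S => j v.1) hjm x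
    have e2 := GP.map_map (P := P) (Λ := Λ.comap (Subtype.val : cap q S → V))
      (Λ' := Λ.comap (Subtype.val : S → V)) (Λ'' := Γ)
      (fun v => ⟨q • v.1, ((mem_cap q S v.1).1 v.2).2⟩) (fun v w h => hΛ q v.1 w.1 h)
      (fun v : S => j v.1) hjm x
    change GP.map _ _ (GP.map (fun v : S => j v.1) hjm (capA Λ P q S x)) =
      GP.map (fun v : S => j v.1) hjm (capB Λ P hΛ q S x)
    rw [show GP.map (fun v : S => j v.1) hjm (capA Λ P q S x) = _ from e1,
      show GP.map (fun v : S => j v.1) hjm (capB Λ P hΛ q S x) = _ from e2, GP.map_map]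
    refine GP.map_congr ?_ _ _ x
    funext v
    exact (hj v.1).symm

/-- **Graph wreath products.** -/
theorem graph_wreath (hC : Closed C) (hE : ExtClosed C) (hP : C P) (hH : C H) :
    C (GW Λ P hΛ) := by
  refine dir_kernel hC hE (SemidirectProduct.rightHom : GW Λ P hΛ →* H)
    SemidirectProduct.rightHom_surjective hH (ker_right hC (gp_mem hC hE P hP V Λ)) ?_
  intro q _
  refine ⟨SemidirectProduct.inr q, SemidirectProduct.rightHom_inr _,
    Set.range (pr Λ P hΛ q), pr_dir Λ P hΛ q, ?_⟩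
  rintro _ ⟨S, rfl⟩
  exact pr_ext Λ P hΛ hC hE hP q S

end Pool.Agent.Q105.FJ
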